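import Mathlib

/-!
# SPV / AbA : abelian 2-subgroups of symmetric groups, the bound
-/

namespace SPV

variable {α : Type*} [Fintype α] [DecidableEq α]

/-- orbit and stabilizer of one point for an abelian 2-group of permutations -/
theorem AbA_orb (Q : Subgroup (Equiv.Perm α)) (hc : ∀ a ∈ Q, ∀ b ∈ Q, a * b = b * a)
    (hp : IsPGroup 2 Q) (S : Finset α) (hS : ∀ q ∈ Q, ∀ x, x ∉ S → q x = x) (x : α)
    (hx : x ∈ S) :
    ∃ (O : Finset α) (K : Subgroup (Equiv.Perm α)), (∀ y, y ∈ O ↔ ∃ q ∈ Q, q x = y) ∧ O ⊆ S ∧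
      (∃ n, O.card = 2 ^ n) ∧ (∀ k, k ∈ K ↔ k ∈ Q ∧ k x = x) ∧
      Nat.card Q = O.card * Nat.card K ∧ (∀ k ∈ K, ∀ z, z ∉ S \ O → k z = z) ∧
      IsPGroup 2 K ∧ K ≤ Q := by
  classical
  have hfin : (MulAction.orbit Q x).Finite := Set.toFinite _
  have hO : ∀ y, y ∈ hfin.toFinset ↔ ∃ q ∈ Q, q x = y := by
    intro y
    rw [Set.Finite.mem_toFinset]
    constructor
    · rintro ⟨q, rfl⟩
      exact ⟨q, q.2, rfl⟩
    · rintro ⟨q, hq, rfl⟩
      exact ⟨⟨q, hq⟩, rfl⟩
  have hOS : hfin.toFinset ⊆ S := by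
    intro y hy
    rw [hO] at hy
    obtain ⟨q, hq, rfl⟩ := hy
    by_contra hcon
    have h1 := hS q hq _ hcon
    have h2 : q x = x := q.injective h1
    rw [h2] at hcon
    exact hcon hx
  set K : Subgroup (Equiv.Perm α) := (MulAction.stabilizer Q x).map Q.subtype with hK
  have hKm : ∀ k, k ∈ K ↔ k ∈ Q ∧ k x = x := by
    intro k
    rw [hK, Subgroup.mem_map]
    constructor
    · rintro ⟨q, hq, rfl⟩
      exact ⟨q.2, hq⟩
    · rintro ⟨h1, h2⟩
      exact ⟨⟨k, h1⟩, h2, rfl⟩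
  have hKQ : K ≤ Q := fun k hk => ((hKm k).1 hk).1
  have hKc : Nat.card K = Nat.card (MulAction.stabilizer Q x) := by
    rw [hK]
    exact Nat.card_congr ((MulAction.stabilizer Q x).equivMapOfInjective Q.subtype
      Q.subtype_injective).symm.toEquiv
  have hOc : hfin.toFinset.card = Nat.card (MulAction.orbit Q x) := by
    rw [Nat.card_coe_set_eq, Set.ncard_eq_toFinset_card _ hfin]
  refine ⟨hfin.toFinset, K, hO, hOS, ?_, hKm, ?_, ?_, hp.to_le hKQ, hKQ⟩
  · obtain ⟨n, hn⟩ := hp.card_orbit x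
    exact ⟨n, by rw [hOc, hn]⟩
  · rw [hOc, hKc]
    have h1 := MulAction.card_orbit_mul_card_stabilizer_eq_card_group Q x
    simp only [Nat.card_eq_fintype_card]
    exact h1.symm
  · intro k hk z hz
    rw [hKm] at hk
    by_cases hzS : z ∈ S
    · have hzO : z ∈ hfin.toFinset := by
        by_contra hcon
        exact hz (Finset.mem_sdiff.2 ⟨hzS, hcon⟩)
      rw [hO] at hzO
      obtain ⟨q, hq, rfl⟩ := hzO
      have h1 : (k * q) x = (q * k) x := by rw [hc k hk.1 q hq]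
      rw [Equiv.Perm.mul_apply, Equiv.Perm.mul_apply, hk.2] at h1
      exact h1
    · exact hS k hk.1 z hzS

/-- `(2^n)^2 ≤ 2^(2^n)`, with strict inequality for `n ≥ 3` -/
theorem AbA_two (n : ℕ) : (2 ^ n) ^ 2 ≤ 2 ^ (2 ^ n) ∧ (3 ≤ n → (2 ^ n) ^ 2 < 2 ^ (2 ^ n)) := by
  have h3 : ∀ n, 3 ≤ n → 2 * n < 2 ^ n := by
    intro n hn
    induction n, hn using Nat.le_induction with
    | base => norm_num
    | succ k hk ih => rw [pow_succ]; omega
  constructor
  · rw [← pow_mul]
    apply Nat.pow_le_pow_right (by norm_num)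
    rcases Nat.lt_or_ge n 3 with h | h
    · interval_cases n <;> norm_num
    · have := h3 n h
      omega
  · intro h
    rw [← pow_mul]
    apply Nat.pow_lt_pow_right (by norm_num)
    have := h3 n h
    omega

/-- An abelian 2-group of permutations supported on `S` satisfies `|Q|^2 ≤ 2^|S|`.

Sketch.  Induction on `S.card`.  If `S = ∅`, `Q = ⊥`.  Pick `x ∈ S`; `O = orbit of x ⊆ S`,
`K = {q ∈ Q | q x = x}`; since `Q` is abelian `K` fixes all of `O`, so `K` is supported on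
`S \ O`, and `|Q| = |O| |K|` (orbit-stabilizer).  `|O|` is a power of two, so `|O|^2 ≤ 2^|O|`
(for `|O| = 1, 2, 4` and `≥ 8`). -/
theorem abl_bound (Q : Subgroup (Equiv.Perm α)) (hc : ∀ a ∈ Q, ∀ b ∈ Q, a * b = b * a)
    (hp : IsPGroup 2 Q) (S : Finset α) (hS : ∀ q ∈ Q, ∀ x, x ∉ S → q x = x) :
    (Nat.card Q) ^ 2 ≤ 2 ^ S.card := by
  classical
  induction hn : S.card using Nat.strong_induction_on generalizing Q S with
  | _ n ih =>
    rcases S.eq_empty_or_nonempty with rfl | ⟨x, hx⟩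
    · have h1 : Q = ⊥ := by
        rw [eq_bot_iff]
        intro q hq
        rw [Subgroup.mem_bot]
        ext z
        exact hS q hq z (Finset.notMem_empty z)
      rw [h1]
      simp only [Finset.card_empty] at hn
      subst hn
      simp
    · obtain ⟨O, K, hO, hOS, ⟨m, hm⟩, -, hcard, hKS, hKp, hKQ⟩ := AbA_orb Q hc hp S hS x hx
      have hxO : x ∈ O := (hO x).2 ⟨1, Q.one_mem, rfl⟩
      have hOpos : 0 < O.card := Finset.card_pos.2 ⟨x, hxO⟩
      have hOle : O.card ≤ S.card := Finset.card_le_card hOS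
      have hsd : (S \ O).card = S.card - O.card := Finset.card_sdiff_of_subset hOS
      have h1 := ih (S \ O).card (by rw [hsd]; omega) K
        (fun a ha b hb => hc a (hKQ ha) b (hKQ hb)) hKp (S \ O) hKS rfl
      have h2 := (AbA_two m).1
      rw [← hm] at h2
      rw [hcard, mul_pow, ← hn]
      calc O.card ^ 2 * Nat.card K ^ 2 ≤ 2 ^ O.card * 2 ^ (S \ O).card := Nat.mul_le_mul h2 h1
        _ = 2 ^ S.card := by
          rw [← pow_add, hsd]
          congr 1
          omega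

end SPV
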