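import Pool.Agent.SPV.AbA

/-!
# SPV / AbB : abelian 2-subgroups of symmetric groups, the extremal case
-/

namespace SPV

variable {α : Type*} [Fintype α] [DecidableEq α]

omit [Fintype α] [DecidableEq α] in
private theorem AbB_ia (f : Equiv.Perm α) (x : α) : f⁻¹ (f x) = x := f.symm_apply_apply x

omit [Fintype α] [DecidableEq α] in
private theorem AbB_ai (f : Equiv.Perm α) (x : α) : f (f⁻¹ x) = x := f.apply_symm_apply x

private theorem AbB_pow_apply {Q : Subgroup (Equiv.Perm α)} (hp : IsPGroup 2 Q)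
    {q : Equiv.Perm α} (hq : q ∈ Q) : ∃ n : ℕ, q ^ 2 ^ n = 1 := by
  obtain ⟨n, hn⟩ := hp ⟨q, hq⟩
  exact ⟨n, by
    have h1 := congrArg (fun z : Q => (z : Equiv.Perm α)) hn
    simpa using h1⟩

/-- three steps of `q` cannot return to the start -/
private theorem AbB_three {Q : Subgroup (Equiv.Perm α)} (hp : IsPGroup 2 Q)
    {q : Equiv.Perm α} (hq : q ∈ Q) {x : α} (hx : q x ≠ x) : q (q (q x)) ≠ x := by
  intro h3
  obtain ⟨n, hn⟩ := AbB_pow_apply hp hq
  have h4 : ∀ k : ℕ, (q ^ (3 * k)) x = x := by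
    intro k
    induction k with
    | zero => simp
    | succ k ih =>
      have e : q ^ (3 * (k + 1)) = q ^ (3 * k) * (q * (q * q)) := by
        rw [show 3 * (k + 1) = 3 * k + 3 by ring, pow_add]
        congr 1
      rw [e, Equiv.Perm.mul_apply, Equiv.Perm.mul_apply, Equiv.Perm.mul_apply, h3, ih]
  have hcop : Nat.Coprime 3 (2 ^ n) := Nat.Coprime.pow_right n (by norm_num)
  obtain ⟨a, b, hab⟩ : ∃ a b : ℕ, 3 * a = 2 ^ n * b + 1 := by
    have h5 : ∀ n : ℕ, (∃ b, 2 ^ n * b + 1 = 3 * ((2 ^ n * b + 1) / 3)) := by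
      intro n
      have h6 : 2 ^ n % 3 = 1 ∨ 2 ^ n % 3 = 2 := by
        induction n with
        | zero => left; norm_num
        | succ n ih => rw [pow_succ]; omega
      rcases h6 with h6 | h6
      · exact ⟨2, by omega⟩
      · exact ⟨1, by omega⟩
    obtain ⟨b, hb⟩ := h5 n
    exact ⟨_, b, hb.symm⟩
  have h7 := h4 a
  rw [hab, pow_succ, pow_mul, hn, one_pow, one_mul] at h7
  exact hx h7

/-- the part of `q` outside an invariant set -/
private noncomputable def AbBout (q : Equiv.Perm α) (O : Finset α)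
    (h : ∀ z, q z ∉ O ↔ z ∉ O) : Equiv.Perm α :=
  Equiv.Perm.ofSubtype (q.subtypePerm (p := fun z => z ∉ O) h)

private theorem AbBout_mem (q : Equiv.Perm α) (O : Finset α) (h : ∀ z, q z ∉ O ↔ z ∉ O)
    {z : α} (hz : z ∈ O) : AbBout q O h z = z := by
  unfold AbBout
  exact Equiv.Perm.ofSubtype_apply_of_not_mem _ (fun hc => hc hz)

private theorem AbBout_notMem (q : Equiv.Perm α) (O : Finset α) (h : ∀ z, q z ∉ O ↔ z ∉ O)
    {z : α} (hz : z ∉ O) : AbBout q O h z = q z := by
  unfold AbBout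
  exact Equiv.Perm.ofSubtype_apply_of_mem (p := fun z => z ∉ O) (q.subtypePerm h) hz

private theorem AbBout_pow (q : Equiv.Perm α) (O : Finset α) (h : ∀ z, q z ∉ O ↔ z ∉ O)
    (m : ℕ) (hm : q ^ m = 1) : AbBout q O h ^ m = 1 := by
  have key : ∀ k : ℕ, ∀ z, (AbBout q O h ^ k) z = if z ∈ O then z else (q ^ k) z := by
    intro k
    induction k with
    | zero => intro z; simp
    | succ k ih =>
      intro z
      rw [pow_succ, Equiv.Perm.mul_apply, ih]
      by_cases hz : z ∈ O
      · rw [AbBout_mem q O h hz, if_pos hz, if_pos hz]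
      · have hz2 : q z ∉ O := (h z).2 hz
        rw [AbBout_notMem q O h hz, if_neg hz2, if_neg hz, pow_succ, Equiv.Perm.mul_apply]
  ext z
  rw [key m z, hm]
  simp

private theorem AbB_closure_comm (T : Set (Equiv.Perm α)) (h : ∀ a ∈ T, ∀ b ∈ T, a * b = b * a) :
    ∀ a ∈ Subgroup.closure T, ∀ b ∈ Subgroup.closure T, a * b = b * a := by
  have h1 : ∀ a ∈ Subgroup.closure T, ∀ b ∈ T, a * b = b * a := by
    intro a ha b hb
    induction ha using Subgroup.closure_induction with
    | mem a ha => exact h a ha b hb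
    | one => rw [one_mul, mul_one]
    | mul u v _ _ hu hv => rw [mul_assoc, hv, ← mul_assoc, hu, mul_assoc]
    | inv u _ hu =>
      have : Commute u b := hu
      exact this.inv_left
  intro a ha b hb
  induction hb using Subgroup.closure_induction with
  | mem b hb => exact h1 a ha b hb
  | one => rw [one_mul, mul_one]
  | mul u v _ _ hu hv => rw [← mul_assoc, hu, mul_assoc, hv, mul_assoc]
  | inv u _ hu =>
    have : Commute a u := hu
    exact this.inv_right

private theorem AbB_closure_pgroup (T : Set (Equiv.Perm α))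
    (h : ∀ a ∈ T, ∀ b ∈ T, a * b = b * a) (h2 : ∀ a ∈ T, ∃ n : ℕ, a ^ 2 ^ n = 1) :
    IsPGroup 2 (Subgroup.closure T) := by
  have h3 : ∀ a ∈ Subgroup.closure T, ∃ n : ℕ, a ^ 2 ^ n = 1 := by
    intro a ha
    induction ha using Subgroup.closure_induction with
    | mem a ha => exact h2 a ha
    | one => exact ⟨0, one_pow _⟩
    | mul u v hu' hv' hu hv =>
      obtain ⟨n, hn⟩ := hu
      obtain ⟨m, hm⟩ := hv
      have hcm : Commute u v := AbB_closure_comm T h u hu' v hv'
      refine ⟨n + m, ?_⟩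
      rw [hcm.mul_pow, pow_add, pow_mul, hn, one_pow, one_mul, mul_comm, pow_mul, hm, one_pow]
    | inv u _ hu =>
      obtain ⟨n, hn⟩ := hu
      exact ⟨n, by rw [inv_pow, hn, inv_one]⟩
  rintro ⟨a, ha⟩
  obtain ⟨n, hn⟩ := h3 a ha
  exact ⟨n, Subtype.ext (by simpa using hn)⟩

/-- In the extremal case, a non-elementary `Q` contains a 4-cycle `g = (x gx g²x g³x)` and the
transposition `t = (x g²x)` normalizes `Q` but is not in `Q`.

Sketch.  Let `q ∈ Q` with `q² ≠ 1`, `q² x ≠ x`, `O` the orbit of `x` under `Q`, `K` its pointwise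
stabilizer (= stabilizer of `x`).  As in `abl_bound`, `|Q| = |O||K|`, `|K|^2 ≤ 2^(|S|-|O|)`, so
`|O|^2 ≥ 2^|O|`, and `|O| ≥ 3` is a power of 2: `|O| = 4`, `O = {x, qx, q²x, q³x}`.  Let
`L = {r ∈ Q | r fixes S \ O pointwise}`.  The restrictions of the elements of `Q` to the
complement of `O` (extended by the identity on `O`; `O` is `Q`-stable) form an abelian 2-group
supported on `S \ O`, so `|Q / L|^2 ≤ 2^(|S|-4)` by `abl_bound`, hence `|L| ≥ 4`.  The map
`L → O`, `r ↦ r x` is injective (`Q` abelian), so it is onto: some `g ∈ L` has `g x = q x`, and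
then `g = q` on `O` and `g = id` outside `O`.  `t g t⁻¹ = g⁻¹ ≠ g`, so `t ∉ Q`; every
`r ∈ Q` acts on `O` as a power `g^j`, so `r = g^j r'` with `r' ∈ Q` trivial on `O`, and
`t r t⁻¹ = g^{-j} r'`. -/
theorem abl_cycle (Q : Subgroup (Equiv.Perm α)) (hc : ∀ a ∈ Q, ∀ b ∈ Q, a * b = b * a)
    (hp : IsPGroup 2 Q) (S : Finset α) (hS : ∀ q ∈ Q, ∀ x, x ∉ S → q x = x)
    (heq : (Nat.card Q) ^ 2 = 2 ^ S.card) (hne : ∃ q ∈ Q, q * q ≠ 1) :
    ∃ g ∈ Q, ∃ x : α, g x ≠ x ∧ g (g x) ≠ x ∧ g (g (g x)) ≠ x ∧ g (g (g (g x))) = x ∧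
      (∀ z, z ≠ x → z ≠ g x → z ≠ g (g x) → z ≠ g (g (g x)) → g z = z) ∧
      Equiv.swap x (g (g x)) ∉ Q ∧
      ∀ q ∈ Q, Equiv.swap x (g (g x)) * q * (Equiv.swap x (g (g x)))⁻¹ ∈ Q := by
  classical
  obtain ⟨q, hq, hq2⟩ := hne
  obtain ⟨x, hx2⟩ : ∃ x, q (q x) ≠ x := by
    by_contra hcon
    push Not at hcon
    exact hq2 (Equiv.ext hcon)
  have hx1 : q x ≠ x := fun h => hx2 (by rw [h, h])
  have hxS : x ∈ S := by
    by_contra hcon
    exact hx1 (hS q hq x hcon)
  obtain ⟨O, K, hO, hOS, ⟨m, hm⟩, hKm, hcard, hKS, hKp, hKQ⟩ := AbA_orb Q hc hp S hS x hxS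
  have hOle : O.card ≤ S.card := Finset.card_le_card hOS
  have hsd : (S \ O).card = S.card - O.card := Finset.card_sdiff_of_subset hOS
  have hKb := abl_bound K (fun a ha b hb => hc a (hKQ ha) b (hKQ hb)) hKp (S \ O) hKS
  have hKpos : 0 < Nat.card K := Nat.card_pos
  have hx3 : q (q (q x)) ≠ x := AbB_three hp hq hx1
  have m0 : x ∈ O := (hO x).2 ⟨1, Q.one_mem, rfl⟩
  have m1 : q x ∈ O := (hO _).2 ⟨q, hq, rfl⟩
  have m2 : q (q x) ∈ O := (hO _).2 ⟨q * q, Q.mul_mem hq hq, rfl⟩
  have m3 : q (q (q x)) ∈ O := (hO _).2 ⟨q * (q * q), Q.mul_mem hq (Q.mul_mem hq hq), rfl⟩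
  have m4 : q (q (q (q x))) ∈ O :=
    (hO _).2 ⟨q * (q * (q * q)), Q.mul_mem hq (Q.mul_mem hq (Q.mul_mem hq hq)), rfl⟩
  have d01 : x ≠ q x := fun h => hx1 h.symm
  have d02 : x ≠ q (q x) := fun h => hx2 h.symm
  have d03 : x ≠ q (q (q x)) := fun h => hx3 h.symm
  have d12 : q x ≠ q (q x) := fun h => d01 (q.injective h)
  have d13 : q x ≠ q (q (q x)) := fun h => d02 (q.injective h)
  have d23 : q (q x) ≠ q (q (q x)) := fun h => d12 (q.injective h)
  have hsub4 : ({x, q x, q (q x), q (q (q x))} : Finset α) ⊆ O := by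
    intro z hz
    simp only [Finset.mem_insert, Finset.mem_singleton] at hz
    rcases hz with rfl | rfl | rfl | rfl <;> assumption
  have hc4 : ({x, q x, q (q x), q (q (q x))} : Finset α).card = 4 := by
    rw [Finset.card_insert_of_notMem, Finset.card_insert_of_notMem,
      Finset.card_insert_of_notMem, Finset.card_singleton]
    · simpa using d23
    · simp only [Finset.mem_insert, Finset.mem_singleton, not_or]
      exact ⟨d12, d13⟩
    · simp only [Finset.mem_insert, Finset.mem_singleton, not_or]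
      exact ⟨d01, d02, d03⟩
  have h4le : 4 ≤ O.card := by
    rw [← hc4]
    exact Finset.card_le_card hsub4
  have hOge : 2 ^ O.card ≤ O.card ^ 2 := by
    have h1 : O.card ^ 2 * Nat.card K ^ 2 = 2 ^ O.card * 2 ^ (S \ O).card := by
      rw [← mul_pow, ← hcard, heq, ← pow_add, hsd]
      congr 1
      omega
    by_contra hcon
    push Not at hcon
    have h2 : O.card ^ 2 * Nat.card K ^ 2 < 2 ^ O.card * 2 ^ (S \ O).card :=
      Nat.mul_lt_mul_of_lt_of_le hcon hKb (by positivity)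
    omega
  have hm3 : m < 3 := by
    by_contra hcon
    push Not at hcon
    have h1 := (AbA_two m).2 hcon
    rw [← hm] at h1
    omega
  have hO4 : O.card = 4 := by
    interval_cases m
    · omega
    · omega
    · rw [hm]; norm_num
  have hOeq : O = {x, q x, q (q x), q (q (q x))} := by
    symm
    apply Finset.eq_of_subset_of_card_le hsub4
    rw [hc4, hO4]
  have hx4 : q (q (q (q x))) = x := by
    rw [hOeq] at m4
    simp only [Finset.mem_insert, Finset.mem_singleton] at m4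
    rcases m4 with h | h | h | h
    · exact h
    · exact absurd (q.injective h) hx3
    · exact absurd (q.injective (q.injective h)) hx2
    · exact absurd (q.injective (q.injective (q.injective h))) hx1
  have hst : ∀ z, q z ∉ O ↔ z ∉ O := by
    intro z
    rw [not_iff_not]
    constructor
    · intro h
      obtain ⟨r, hr, hrz⟩ := (hO _).1 h
      refine (hO z).2 ⟨q⁻¹ * r, Q.mul_mem (Q.inv_mem hq) hr, ?_⟩
      rw [Equiv.Perm.mul_apply, hrz, AbB_ia]
    · intro h
      obtain ⟨r, hr, hrz⟩ := (hO _).1 h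
      exact (hO _).2 ⟨q * r, Q.mul_mem hq hr, by rw [Equiv.Perm.mul_apply, hrz]⟩
  set q' := AbBout q O hst with hq'
  -- elements of `K` are trivial on `O`
  have hKO : ∀ k ∈ K, ∀ z ∈ O, k z = z := by
    intro k hk z hz
    exact hKS k hk z (fun hcon => (Finset.mem_sdiff.1 hcon).2 hz)
  have hkst : ∀ k ∈ Q, ∀ z, k z ∉ O ↔ z ∉ O := by
    intro k hk z
    rw [not_iff_not]
    constructor
    · intro h
      obtain ⟨r, hr, hrz⟩ := (hO _).1 h
      refine (hO z).2 ⟨k⁻¹ * r, Q.mul_mem (Q.inv_mem hk) hr, ?_⟩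
      rw [Equiv.Perm.mul_apply, hrz, AbB_ia]
    · intro h
      obtain ⟨r, hr, hrz⟩ := (hO _).1 h
      exact (hO _).2 ⟨k * r, Q.mul_mem hk hr, by rw [Equiv.Perm.mul_apply, hrz]⟩
  have hcomm : ∀ k ∈ K, k * q' = q' * k := by
    intro k hk
    ext z
    rw [Equiv.Perm.mul_apply, Equiv.Perm.mul_apply]
    by_cases hz : z ∈ O
    · rw [hKO k hk z hz, AbBout_mem q O hst hz, hKO k hk z hz]
    · have hz2 : k z ∉ O := (hkst k (hKQ hk) z).2 hz
      rw [AbBout_notMem q O hst hz, AbBout_notMem q O hst hz2]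
      have h1 : (k * q) z = (q * k) z := by rw [hc k (hKQ hk) q hq]
      exact h1
  have hT : ∀ a ∈ (K : Set (Equiv.Perm α)) ∪ {q'}, ∀ b ∈ (K : Set (Equiv.Perm α)) ∪ {q'},
      a * b = b * a := by
    rintro a (ha | ha) b (hb | hb)
    · exact hc a (hKQ ha) b (hKQ hb)
    · rw [Set.mem_singleton_iff] at hb
      subst hb
      exact hcomm a ha
    · rw [Set.mem_singleton_iff] at ha
      subst ha
      exact (hcomm b hb).symm
    · rw [Set.mem_singleton_iff] at ha hb
      rw [ha, hb]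
  have hTp : ∀ a ∈ (K : Set (Equiv.Perm α)) ∪ {q'}, ∃ n : ℕ, a ^ 2 ^ n = 1 := by
    rintro a (ha | ha)
    · exact AbB_pow_apply hKp ha
    · rw [Set.mem_singleton_iff] at ha
      subst ha
      obtain ⟨n, hn⟩ := AbB_pow_apply hp hq
      exact ⟨n, AbBout_pow q O hst _ hn⟩
  have hTS : ∀ a ∈ Subgroup.closure ((K : Set (Equiv.Perm α)) ∪ {q'}), ∀ z, z ∉ S \ O →
      a z = z := by
    intro a ha
    induction ha using Subgroup.closure_induction with
    | mem a ha =>
      rcases ha with ha | ha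
      · exact hKS a ha
      · rw [Set.mem_singleton_iff] at ha
        subst ha
        intro z hz
        by_cases hzO : z ∈ O
        · exact AbBout_mem q O hst hzO
        · rw [hq', AbBout_notMem q O hst hzO]
          apply hS q hq
          intro hzS
          exact hz (Finset.mem_sdiff.2 ⟨hzS, hzO⟩)
    | one => intro z _; rfl
    | mul u v _ _ hu hv =>
      intro z hz
      rw [Equiv.Perm.mul_apply, hv z hz, hu z hz]
    | inv u _ hu =>
      intro z hz
      rw [Equiv.Perm.inv_eq_iff_eq]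
      exact (hu z hz).symm
  have hK1 := abl_bound (Subgroup.closure ((K : Set (Equiv.Perm α)) ∪ {q'}))
    (AbB_closure_comm _ hT) (AbB_closure_pgroup _ hT hTp) (S \ O) hTS
  have hKeq : Nat.card K ^ 2 = 2 ^ (S \ O).card := by
    have h1 : O.card ^ 2 * Nat.card K ^ 2 = 2 ^ O.card * 2 ^ (S \ O).card := by
      rw [← mul_pow, ← hcard, heq, ← pow_add, hsd]
      congr 1
      omega
    rw [hO4] at h1
    have h2 : (4 : ℕ) ^ 2 = 2 ^ 4 := by norm_num
    rw [h2] at h1
    exact Nat.eq_of_mul_eq_mul_left (by norm_num) h1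
  have hKle : K ≤ Subgroup.closure ((K : Set (Equiv.Perm α)) ∪ {q'}) := by
    intro k hk
    exact Subgroup.subset_closure (Or.inl hk)
  have hKcl : K = Subgroup.closure ((K : Set (Equiv.Perm α)) ∪ {q'}) := by
    apply Subgroup.eq_of_le_of_card_ge hKle
    rw [← hKeq] at hK1
    exact (Nat.pow_le_pow_iff_left (by norm_num)).1 hK1
  have hq'K : q' ∈ K := by
    rw [hKcl]
    exact Subgroup.subset_closure (Or.inr rfl)
  -- the 4-cycle
  set g := q * q'⁻¹ with hg
  have hgQ : g ∈ Q := Q.mul_mem hq (Q.inv_mem (hKQ hq'K))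
  have hgO : ∀ z ∈ O, g z = q z := by
    intro z hz
    rw [hg, Equiv.Perm.mul_apply]
    congr 1
    rw [Equiv.Perm.inv_eq_iff_eq]
    exact (AbBout_mem q O hst hz).symm
  have hgn : ∀ z, z ∉ O → g z = z := by
    intro z hz
    have h1 : q'⁻¹ z = q⁻¹ z := by
      rw [Equiv.Perm.inv_eq_iff_eq]
      have h2 : q⁻¹ z ∉ O := by
        rw [← hst, AbB_ai]
        exact hz
      rw [hq', AbBout_notMem q O hst h2, AbB_ai]
    rw [hg, Equiv.Perm.mul_apply, h1, AbB_ai]
  clear_value g
  have g0 : g x = q x := hgO x m0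
  have g1 : g (q x) = q (q x) := hgO _ m1
  have g2 : g (q (q x)) = q (q (q x)) := hgO _ m2
  have g3 : g (q (q (q x))) = x := by rw [hgO _ m3, hx4]
  refine ⟨g, hgQ, x, ?_, ?_, ?_, ?_, ?_, ?_, ?_⟩
  · rw [g0]; exact hx1
  · rw [g0, g1]; exact hx2
  · rw [g0, g1, g2]; exact hx3
  · rw [g0, g1, g2, g3]
  · intro z z0 z1 z2 z3
    rw [g0] at z1 z2 z3
    rw [g1] at z2 z3
    rw [g2] at z3
    apply hgn
    rw [hOeq]
    simp only [Finset.mem_insert, Finset.mem_singleton, not_or]
    exact ⟨z0, z1, z2, z3⟩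
  · rw [g0, g1]
    intro hcon
    have h1 : (Equiv.swap x (q (q x)) * g) x = (g * Equiv.swap x (q (q x))) x := by
      rw [hc _ hcon g hgQ]
    rw [Equiv.Perm.mul_apply, Equiv.Perm.mul_apply, g0, Equiv.swap_apply_left, g2,
      Equiv.swap_apply_of_ne_of_ne hx1 d12] at h1
    exact d13 h1
  · rw [g0, g1]
    obtain ⟨t, ht⟩ : ∃ t, t = Equiv.swap x (q (q x)) := ⟨_, rfl⟩
    rw [← ht]
    have htt : t⁻¹ = t := by rw [ht]; exact Equiv.swap_inv _ _
    have hconj : t * g * t⁻¹ = g⁻¹ := by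
      rw [htt]
      have key : ∀ z, g (t (g (t z))) = z := by
        intro z
        by_cases hz : z ∈ O
        · rw [hOeq] at hz
          simp only [Finset.mem_insert, Finset.mem_singleton] at hz
          have t0 : t x = q (q x) := by rw [ht]; exact Equiv.swap_apply_left _ _
          have t2 : t (q (q x)) = x := by rw [ht]; exact Equiv.swap_apply_right _ _
          have t1 : t (q x) = q x := by rw [ht]; exact Equiv.swap_apply_of_ne_of_ne hx1 d12
          have t3 : t (q (q (q x))) = q (q (q x)) := by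
            rw [ht]; exact Equiv.swap_apply_of_ne_of_ne hx3 (Ne.symm d23)
          rcases hz with rfl | rfl | rfl | rfl
          · rw [t0, g2, t3, g3]
          · rw [t1, g1, t2, g0]
          · rw [t2, g0, t1, g1]
          · rw [t3, g3, t0, g2]
        · have tz : t z = z := by
            rw [ht]
            apply Equiv.swap_apply_of_ne_of_ne
            · rintro rfl
              exact hz m0
            · rintro rfl
              exact hz m2
          rw [tz, hgn z hz, tz, hgn z hz]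
      apply eq_inv_of_mul_eq_one_right
      ext z
      simp only [Equiv.Perm.mul_apply, Equiv.Perm.one_apply]
      exact key z
    have hgj : ∀ j : ℕ, t * g ^ j * t⁻¹ ∈ Q := by
      intro j
      rw [← conj_pow, hconj]
      exact Q.pow_mem (Q.inv_mem hgQ) j
    have hkk : ∀ k ∈ K, t * k * t⁻¹ ∈ Q := by
      intro k hk
      have h1 : k * t * k⁻¹ = t := by
        rw [ht, Equiv.mul_swap_eq_swap_mul, mul_inv_cancel_right, hKO k hk x m0, hKO k hk _ m2]
      have h2 : k * t = t * k := by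
        rw [← h1]
        simp only [inv_mul_cancel_right]
        rw [h1]
      rw [← h2, mul_inv_cancel_right]
      exact hKQ hk
    intro r hr
    have hrO : r x ∈ O := (hO _).2 ⟨r, hr, rfl⟩
    obtain ⟨j, hj⟩ : ∃ j : ℕ, (g ^ j) x = r x := by
      rw [hOeq] at hrO
      simp only [Finset.mem_insert, Finset.mem_singleton] at hrO
      rcases hrO with h | h | h | h
      · exact ⟨0, by rw [h]; rfl⟩
      · exact ⟨1, by rw [pow_one, h, g0]⟩
      · exact ⟨2, by rw [pow_two, Equiv.Perm.mul_apply, h, g0, g1]⟩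
      · exact ⟨3, by rw [pow_succ, pow_two, Equiv.Perm.mul_apply, Equiv.Perm.mul_apply, h, g0,
          g1, g2]⟩
    have hk : (g ^ j)⁻¹ * r ∈ K := by
      rw [hKm]
      refine ⟨Q.mul_mem (Q.inv_mem (Q.pow_mem hgQ j)) hr, ?_⟩
      rw [Equiv.Perm.mul_apply, ← hj, AbB_ia]
    have h1 : t * r * t⁻¹ = (t * g ^ j * t⁻¹) * (t * ((g ^ j)⁻¹ * r) * t⁻¹) := by group
    rw [h1]
    exact Q.mul_mem (hgj j) (hkk _ hk)

end SPV
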