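import Pool.Agent.SPV.Jam

/-!
# SPV / BA : removing the last letter (James' branching maps `θ_i`)
-/

set_option linter.unusedSectionVars false

namespace SPV

open Finset

variable {μ : YoungDiagram} {n : ℕ}

/-- extend a tableau of `rem μ i` by the last letter in the corner of row `i`. -/
noncomputable def extT {i : ℕ} (h : Corner μ i) (s : Tableau (rem μ i) (Fin n)) :
    Tableau μ (Fin (n + 1)) :=
  Equiv.ofBijective
    (Fin.lastCases (motive := fun _ => {c : ℕ × ℕ // c ∈ μ.cells})
      ⟨(i, μ.rowLen i - 1), by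
        rw [YoungDiagram.mem_cells, YoungDiagram.mem_iff_lt_rowLen]
        unfold Corner at h
        omega⟩
      (fun a => ⟨(s a).1, ((mem_rem h).mp (s a).2).2⟩))
    (by
      constructor
      · intro x
        refine Fin.lastCases ?_ (fun a => ?_) x
        · intro y
          refine Fin.lastCases ?_ (fun b => ?_) y
          · intro _
            rfl
          · intro hxy
            rw [Fin.lastCases_last, Fin.lastCases_castSucc, Subtype.mk.injEq] at hxy
            exact absurd hxy.symm ((mem_rem h).mp (s b).2).1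
        · intro y
          refine Fin.lastCases ?_ (fun b => ?_) y
          · intro hxy
            rw [Fin.lastCases_last, Fin.lastCases_castSucc, Subtype.mk.injEq] at hxy
            exact absurd hxy ((mem_rem h).mp (s a).2).1
          · intro hxy
            rw [Fin.lastCases_castSucc, Fin.lastCases_castSucc, Subtype.mk.injEq] at hxy
            rw [s.injective (Subtype.ext hxy)]
      · rintro ⟨c, hc⟩
        by_cases h1 : c = (i, μ.rowLen i - 1)
        · refine ⟨Fin.last n, ?_⟩
          rw [Fin.lastCases_last]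
          exact Subtype.ext h1.symm
        · refine ⟨(s.symm ⟨c, (mem_rem h).mpr ⟨h1, hc⟩⟩).castSucc, ?_⟩
          rw [Fin.lastCases_castSucc]
          apply Subtype.ext
          change (s (s.symm _)).1 = c
          rw [Equiv.apply_symm_apply])

theorem extT_last {i : ℕ} (h : Corner μ i) (s : Tableau (rem μ i) (Fin n)) :
    (extT h s (Fin.last n)).1 = (i, μ.rowLen i - 1) := by
  unfold extT
  rw [Equiv.ofBijective_apply, Fin.lastCases_last]

theorem extT_castSucc {i : ℕ} (h : Corner μ i) (s : Tableau (rem μ i) (Fin n)) (a : Fin n) :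
    (extT h s a.castSucc).1 = (s a).1 := by
  unfold extT
  rw [Equiv.ofBijective_apply, Fin.lastCases_castSucc]

/-- extensionality for tableaux on `Fin (n + 1)`. -/
private theorem ba_ext {t u : Tableau μ (Fin (n + 1))} (h1 : (t (Fin.last n)).1 = (u (Fin.last n)).1)
    (h2 : ∀ a : Fin n, (t a.castSucc).1 = (u a.castSucc).1) : t = u := by
  apply Equiv.ext
  intro x
  apply Subtype.ext
  refine Fin.lastCases ?_ (fun a => ?_) x
  · exact h1
  · exact h2 a

/-- every tableau of `μ` with the last letter in the corner of row `i` arises. -/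
theorem exists_extT {i : ℕ} (h : Corner μ i) (t : Tableau μ (Fin (n + 1)))
    (ht : (t (Fin.last n)).1 = (i, μ.rowLen i - 1)) : ∃ s, t = extT h s := by
  have hne : ∀ a : Fin n, (t a.castSucc).1 ≠ (i, μ.rowLen i - 1) := by
    intro a h1
    rw [← ht] at h1
    exact (Fin.castSucc_lt_last a).ne (t.injective (Subtype.ext h1))
  let g : Fin n → {c : ℕ × ℕ // c ∈ (rem μ i).cells} := fun a =>
    ⟨(t a.castSucc).1, (mem_rem h).mpr ⟨hne a, (t a.castSucc).2⟩⟩
  have hg : Function.Bijective g := by
    constructor
    · intro a b hab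
      have h1 : (t a.castSucc).1 = (t b.castSucc).1 :=
        congrArg (fun z : {c : ℕ × ℕ // c ∈ (rem μ i).cells} => z.1) hab
      exact Fin.castSucc_injective n (t.injective (Subtype.ext h1))
    · rintro ⟨c, hc⟩
      obtain ⟨h1, h2⟩ := (mem_rem h).mp hc
      have h3 : t (t.symm ⟨c, h2⟩) = ⟨c, h2⟩ := Equiv.apply_symm_apply _ _
      rcases Fin.eq_castSucc_or_eq_last (t.symm ⟨c, h2⟩) with ⟨a, ha⟩ | ha
      · refine ⟨a, Subtype.ext ?_⟩
        change (t a.castSucc).1 = c
        rw [← ha, h3]
      · exfalso
        rw [ha] at h3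
        apply h1
        rw [← ht, h3]
  refine ⟨Equiv.ofBijective g hg, ba_ext ?_ fun a => ?_⟩
  · rw [ht, extT_last]
  · rw [extT_castSucc]
    rfl

/-- compatible with the action of `Perm (Fin n)`. -/
theorem act_extT {i : ℕ} (h : Corner μ i) (s : Tableau (rem μ i) (Fin n))
    (σ : Equiv.Perm (Fin n)) :
    Tableau.act (up n 1 σ) (extT h s) = extT h (Tableau.act σ s) := by
  apply ba_ext
  · rw [Tableau.act_apply, ← map_inv, up_last, extT_last, extT_last]
  · intro a
    rw [Tableau.act_apply, ← map_inv, up_castSucc, extT_castSucc, extT_castSucc]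
    rfl

/-- restriction of a tabloid whose last letter is in the corner row `i`. -/
def resTabloid {i : ℕ} (h : Corner μ i) (f : Tabloid μ (Fin (n + 1))) (hf : f.1 (Fin.last n) = i) :
    Tabloid (rem μ i) (Fin n) :=
  ⟨fun a => f.1 a.castSucc, by
    intro j
    have h1 := f.2 j
    rw [card_filter, Fin.sum_univ_castSucc, ← card_filter, hf] at h1
    rw [rem_rowLen h]
    by_cases hj : j = i
    · subst hj
      rw [if_pos rfl] at h1 ⊢
      exact Nat.eq_sub_of_add_eq h1
    · rw [if_neg (Ne.symm hj), add_zero] at h1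
      rw [if_neg hj]
      exact h1⟩

/-- James' map `θ_i`: `f ↦ f|` if the last letter is in row `i`, and `f ↦ 0` otherwise. -/
noncomputable def thet (R : Type*) [CommRing R] {i : ℕ} (h : Corner μ i) (n : ℕ) :
    (Tabloid μ (Fin (n + 1)) →₀ R) →ₗ[R] (Tabloid (rem μ i) (Fin n) →₀ R) :=
  Finsupp.linearCombination R (fun f =>
    if hf : f.1 (Fin.last n) = i then Finsupp.single (resTabloid h f hf) (1 : R) else 0)

private theorem ba_thet_single (R : Type*) [CommRing R] {i : ℕ} (h : Corner μ i)
    (f : Tabloid μ (Fin (n + 1))) (r : R) :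
    thet R h n (Finsupp.single f r) = r • (if hf : f.1 (Fin.last n) = i then
      Finsupp.single (resTabloid h f hf) (1 : R) else 0) := by
  unfold thet
  rw [Finsupp.linearCombination_single]

/-- `θ_i` is `Perm (Fin n)`-equivariant. -/
theorem thet_perm (R : Type*) [CommRing R] {i : ℕ} (h : Corner μ i) (σ : Equiv.Perm (Fin n))
    (v : Tabloid μ (Fin (n + 1)) →₀ R) :
    thet R h n (permRep R μ (Fin (n + 1)) (up n 1 σ) v) =
      permRep R (rem μ i) (Fin n) σ (thet R h n v) := by
  induction v using Finsupp.induction_linear with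
  | zero => simp only [map_zero]
  | add x y hx hy => simp only [map_add, hx, hy]
  | single f r =>
    rw [permRep_single]
    have h1 : ((up n 1 σ) • f).1 (Fin.last n) = f.1 (Fin.last n) := by
      rw [smul_val, ← map_inv, up_last]
    rw [ba_thet_single, ba_thet_single]
    by_cases hf : f.1 (Fin.last n) = i
    · rw [dif_pos (h1.trans hf), dif_pos hf, map_smul, permRep_single]
      congr 2
      ext a
      change f.1 ((up n 1 σ)⁻¹ a.castSucc) = f.1 (σ⁻¹ a).castSucc
      rw [← map_inv, up_castSucc]
    · rw [dif_neg (fun h2 => hf (h1.symm.trans h2)), dif_neg hf, smul_zero, map_zero]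

private theorem ba_inv {α : Type*} (τ : Equiv.Perm α) (x : α) : τ (τ⁻¹ x) = x :=
  Equiv.apply_symm_apply τ x

private theorem ba_up_sign (σ : Equiv.Perm (Fin n)) :
    Equiv.Perm.sign (up n 1 σ) = Equiv.Perm.sign σ := by
  change Equiv.Perm.sign (finSumFinEquiv.permCongr (Equiv.Perm.sumCongr σ 1)) = _
  rw [Equiv.Perm.sign_permCongr, Equiv.Perm.sign_sumCongr, Equiv.Perm.sign_one, mul_one]

private theorem ba_up_inj : Function.Injective (up n 1) := by
  intro σ τ h
  apply Equiv.ext
  intro a
  have h1 := congrArg (fun ρ : Equiv.Perm (Fin (n + 1)) => ρ a.castSucc) h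
  simp only [up_castSucc] at h1
  exact Fin.castSucc_injective n h1

private theorem ba_exists_up (τ : Equiv.Perm (Fin (n + 1))) (hτ : τ (Fin.last n) = Fin.last n) :
    ∃ σ : Equiv.Perm (Fin n), up n 1 σ = τ := by
  have hne : ∀ a : Fin n, τ a.castSucc ≠ Fin.last n := by
    intro a h1
    rw [← hτ] at h1
    exact (Fin.castSucc_lt_last a).ne (τ.injective h1)
  let g : Fin n → Fin n := fun a => (τ a.castSucc).castPred (hne a)
  have hg : Function.Injective g := by
    intro a b hab
    have h1 : (g a).castSucc = (g b).castSucc := by rw [hab]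
    simp only [g, Fin.castSucc_castPred] at h1
    exact Fin.castSucc_injective n (τ.injective h1)
  refine ⟨Equiv.ofBijective g (Finite.injective_iff_bijective.mp hg), ?_⟩
  apply Equiv.ext
  intro x
  refine Fin.lastCases ?_ (fun a => ?_) x
  · rw [up_last, hτ]
  · rw [up_castSucc, Equiv.ofBijective_apply]
    simp only [g, Fin.castSucc_castPred]

/-- `θ_i e_t = e_s` if `t = extT h s`.

Sketch.  `e_t = ∑_{σ ∈ C_t} sgn σ σ{t}`; the last letter is in row `i` of `σ {t}` iff `σ⁻¹ last` is
the entry of row `i` in the column `μ_i - 1` of `t` (the last cell of the column), i.e. iff `σ`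
fixes `last`; these `σ` are exactly `up n 1 σ'`, `σ' ∈ C_s`, with the same sign
(`Equiv.Perm.sign_permCongr`, `Equiv.Perm.sign_sumCongr`), and
`resTabloid (up σ' {t}) = σ' {s}`. -/
theorem thet_extT (R : Type*) [CommRing R] {i : ℕ} (h : Corner μ i)
    (s : Tableau (rem μ i) (Fin n)) :
    thet R h n (polytabloid R (extT h s)) = polytabloid R s := by
  unfold polytabloid
  rw [map_sum]
  symm
  refine Finset.sum_of_injOn (up n 1) (ba_up_inj.injOn) ?_ ?_ ?_
  · intro σ hσ
    rw [Finset.mem_coe, mem_colStab] at hσ ⊢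
    intro x
    refine Fin.lastCases ?_ (fun a => ?_) x
    · rw [up_last]
    · rw [up_castSucc]
      have h1 := hσ a
      unfold Tableau.col at h1 ⊢
      rw [extT_castSucc, extT_castSucc]
      exact h1
  · intro τ hτ hτ'
    rw [ba_thet_single, dif_neg, smul_zero]
    intro hf
    apply hτ'
    rw [mem_colStab] at hτ
    rw [smul_val, Tableau.tabloid_val] at hf
    have h1 : Tableau.col (extT h s) (τ⁻¹ (Fin.last n)) = Tableau.col (extT h s) (Fin.last n) := by
      have h2 := hτ (τ⁻¹ (Fin.last n))
      rw [ba_inv] at h2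
      exact h2.symm
    have h3 : τ⁻¹ (Fin.last n) = Fin.last n := by
      apply (extT h s).injective
      apply Subtype.ext
      apply Prod.ext
      · change Tableau.row (extT h s) (τ⁻¹ (Fin.last n)) = _
        rw [hf, extT_last]
      · exact h1
    have h4 : τ (Fin.last n) = Fin.last n := by
      conv_lhs => rw [← h3]
      exact ba_inv _ _
    obtain ⟨σ, rfl⟩ := ba_exists_up τ h4
    refine ⟨σ, ?_, rfl⟩
    rw [Finset.mem_coe, mem_colStab]
    intro a
    have h5 := hτ a.castSucc
    rw [up_castSucc] at h5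
    unfold Tableau.col at h5 ⊢
    rw [extT_castSucc, extT_castSucc] at h5
    exact h5
  · intro σ _
    have hf : ((up n 1 σ) • (extT h s).tabloid).1 (Fin.last n) = i := by
      rw [smul_val, ← map_inv, up_last, Tableau.tabloid_val]
      unfold Tableau.row
      rw [extT_last]
    rw [ba_thet_single, dif_pos hf, ba_up_sign, Finsupp.smul_single, smul_eq_mul, mul_one]
    congr 1
    ext a
    change (s (σ⁻¹ a)).1.1 = ((extT h s) ((up n 1 σ)⁻¹ a.castSucc)).1.1
    rw [← map_inv, up_castSucc, extT_castSucc]

/-- `θ_i e_t = 0` if the last letter of `t` is in the corner of a row `j < i`: all letters of the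
column of this corner are in rows `≤ j < i` in all tabloids of `e_t`. -/
theorem thet_extT_zero (R : Type*) [CommRing R] {i j : ℕ} (h : Corner μ i) (hj : Corner μ j)
    (hji : j < i) (s : Tableau (rem μ j) (Fin n)) :
    thet R h n (polytabloid R (extT hj s)) = 0 := by
  unfold polytabloid
  rw [map_sum]
  apply Finset.sum_eq_zero
  intro τ hτ
  rw [ba_thet_single, dif_neg, smul_zero]
  intro hf
  rw [mem_colStab] at hτ
  rw [smul_val, Tableau.tabloid_val] at hf
  have h1 : Tableau.col (extT hj s) (τ⁻¹ (Fin.last n)) = Tableau.col (extT hj s) (Fin.last n) := by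
    have h2 := hτ (τ⁻¹ (Fin.last n))
    rw [ba_inv] at h2
    exact h2.symm
  have h3 : Tableau.col (extT hj s) (Fin.last n) = μ.rowLen j - 1 := by
    unfold Tableau.col
    rw [extT_last]
  have h4 := ((extT hj s) (τ⁻¹ (Fin.last n))).2
  have h5 : ((extT hj s) (τ⁻¹ (Fin.last n))).1 = (i, μ.rowLen j - 1) := by
    apply Prod.ext
    · exact hf
    · exact h1.trans h3
  rw [h5, YoungDiagram.mem_cells, YoungDiagram.mem_iff_lt_rowLen] at h4
  have h6 := μ.rowLen_anti (j + 1) i hji
  unfold Corner at hj
  omega

end SPV
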