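import Mathlib

/-!
# SPV / LA : ranks and traces along one step of a filtration
-/

namespace SPV

variable {K V W : Type*} [Field K] [AddCommGroup V] [Module K V] [AddCommGroup W] [Module K W]
  [FiniteDimensional K V] [FiniteDimensional K W]

omit [FiniteDimensional K V] [FiniteDimensional K W] in
private theorem LA_range (θ : V →ₗ[K] W) (W₁ : Submodule K V) (U : Submodule K W)
    (hmap : W₁.map θ = U) (h : ∀ v ∈ W₁, θ v ∈ U) :
    Function.Surjective (θ.restrict h) := by
  rintro ⟨u, hu⟩
  have hu' := hu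
  rw [← hmap] at hu'
  obtain ⟨v, hv, rfl⟩ := hu'
  exact ⟨⟨v, hv⟩, rfl⟩

/-- `W₀ ≤ W₁`, `θ W₁ = U`, `θ W₀ = 0`: `dim W₀ + dim U ≤ dim W₁`. -/
theorem finrank_filtration (θ : V →ₗ[K] W) (W₁ W₀ : Submodule K V) (U : Submodule K W)
    (h01 : W₀ ≤ W₁) (hmap : W₁.map θ = U) (hker : ∀ v ∈ W₀, θ v = 0) :
    Module.finrank K W₀ + Module.finrank K U ≤ Module.finrank K W₁ := by
  have h : ∀ v ∈ W₁, θ v ∈ U := fun v hv => hmap ▸ Submodule.mem_map_of_mem hv
  set T : W₁ →ₗ[K] U := θ.restrict h with hT
  have hs : Function.Surjective T := LA_range θ W₁ U hmap h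
  have h1 := LinearMap.finrank_range_add_finrank_ker T
  rw [LinearMap.range_eq_top.2 hs, finrank_top] at h1
  let J : W₀ →ₗ[K] LinearMap.ker T := LinearMap.codRestrict _ (Submodule.inclusion h01) (by
    rintro ⟨v, hv⟩
    rw [LinearMap.mem_ker]
    exact Subtype.ext (hker v hv))
  have hJ : Function.Injective J := by
    intro a b hab
    have h2 : (((J a : W₁)) : V) = (((J b : W₁)) : V) := by rw [hab]
    exact Subtype.ext h2
  have h3 := LinearMap.finrank_le_finrank_of_injective hJ
  omega

private theorem LA_trace {M : Type*} [AddCommGroup M] [Module K M] [FiniteDimensional K M]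
    (N : Submodule K M) (e : M →ₗ[K] M) (he : N ≤ N.comap e) :
    LinearMap.trace K M e = LinearMap.trace K N (e.restrict he) +
      LinearMap.trace K (M ⧸ N) (N.mapQ N e he) := by
  classical
  let m := Module.Free.ChooseBasisIndex K N
  let bW : Module.Basis m K N := Module.Free.chooseBasis K N
  let n := Module.Free.ChooseBasisIndex K (M ⧸ N)
  let bQ : Module.Basis n K (M ⧸ N) := Module.Free.chooseBasis K (M ⧸ N)
  let b := Module.Basis.sumQuot bW bQ
  let A : Matrix m m K := LinearMap.toMatrix bW bW (e.restrict he)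
  let B : Matrix m n K := Matrix.of fun i l ↦
    ((Module.Basis.sumQuot bW bQ).repr (e ((Module.Basis.sumQuot bW bQ) (Sum.inr l)))) (Sum.inl i)
  let D : Matrix n n K := LinearMap.toMatrix bQ bQ (N.mapQ N e he)
  suffices LinearMap.toMatrix b b e = Matrix.fromBlocks A B 0 D by
    rw [LinearMap.trace_eq_matrix_trace K b, this, LinearMap.trace_eq_matrix_trace K bW,
      LinearMap.trace_eq_matrix_trace K bQ]
    simp [Matrix.trace, Fintype.sum_sum_type, A, D]
  ext u v
  cases u with
  | inl i =>
    cases v with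
    | inl k =>
      simp only [b, Module.Basis.sumQuot_inl, Matrix.fromBlocks_apply₁₁, A, LinearMap.toMatrix_apply]
      apply Module.Basis.sumQuot_repr_inl_of_mem
    | inr l => simp [b, LinearMap.toMatrix_apply, Matrix.fromBlocks_apply₁₂, B]
  | inr j =>
    cases v with
    | inl k =>
      suffices N.mkQ (e (bW k)) = 0 by simp [LinearMap.toMatrix_apply, b, this]
      rw [← LinearMap.mem_ker, Submodule.ker_mkQ]
      exact he (Submodule.coe_mem (bW k))
    | inr l =>
      simp only [LinearMap.toMatrix_apply, Module.Basis.sumQuot_repr_inr,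
        Matrix.fromBlocks_apply₂₂, b, D]
      rw [← Module.Basis.sumQuot_inr bW bQ l, N.mapQ_apply]
      simp

/-- If moreover the dimensions add up, traces of compatible operators add up.

Sketch.  The kernel of `θ|W₁ : W₁ → U` is `W₀` by dimensions.  Choose a complement `C` of `W₀` in
`W₁` (as subspaces of `V`), or a basis of `W₁` extending one of `W₀`: the matrix of `A|W₁` is block
triangular with diagonal blocks `A|W₀` and (via `θ : C ≃ U`) `B|U`.  Perhaps Mathlib has the
additivity of `LinearMap.trace` for an invariant submodule and its quotient. -/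
theorem trace_filtration (θ : V →ₗ[K] W) (A : Module.End K V) (B : Module.End K W)
    (hθ : ∀ v, θ (A v) = B (θ v)) (W₁ W₀ : Submodule K V) (U : Submodule K W)
    (h01 : W₀ ≤ W₁) (hmap : W₁.map θ = U) (hker : ∀ v ∈ W₀, θ v = 0)
    (hdim : Module.finrank K W₁ = Module.finrank K W₀ + Module.finrank K U)
    (hA1 : ∀ v ∈ W₁, A v ∈ W₁) (hA0 : ∀ v ∈ W₀, A v ∈ W₀) (hB : ∀ u ∈ U, B u ∈ U) :
    LinearMap.trace K W₁ (A.restrict hA1) =
      LinearMap.trace K W₀ (A.restrict hA0) + LinearMap.trace K U (B.restrict hB) := by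
  have h : ∀ v ∈ W₁, θ v ∈ U := fun v hv => hmap ▸ Submodule.mem_map_of_mem hv
  set T : W₁ →ₗ[K] U := θ.restrict h with hT
  have hs : Function.Surjective T := LA_range θ W₁ U hmap h
  have h1 := LinearMap.finrank_range_add_finrank_ker T
  rw [LinearMap.range_eq_top.2 hs, finrank_top] at h1
  let J : W₀ →ₗ[K] LinearMap.ker T := LinearMap.codRestrict _ (Submodule.inclusion h01) (by
    rintro ⟨v, hv⟩
    rw [LinearMap.mem_ker]
    exact Subtype.ext (hker v hv))
  have hJ : Function.Injective J := by
    intro a b hab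
    have h2 : (((J a : W₁)) : V) = (((J b : W₁)) : V) := by rw [hab]
    exact Subtype.ext h2
  have hJs : Function.Surjective J :=
    (LinearMap.injective_iff_surjective_of_finrank_eq_finrank (by omega)).1 hJ
  let EJ : W₀ ≃ₗ[K] LinearMap.ker T := LinearEquiv.ofBijective J ⟨hJ, hJs⟩
  have hcomp : ∀ v : W₁, T ((A.restrict hA1) v) = (B.restrict hB) (T v) := by
    intro v
    exact Subtype.ext (hθ v)
  have he : LinearMap.ker T ≤ (LinearMap.ker T).comap (A.restrict hA1) := by
    intro v hv
    rw [Submodule.mem_comap, LinearMap.mem_ker, hcomp, LinearMap.mem_ker.1 hv, map_zero]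
  rw [LA_trace (LinearMap.ker T) (A.restrict hA1) he]
  congr 1
  · rw [← LinearMap.trace_conj' (A.restrict hA0) EJ]
    congr 1
    ext v
    obtain ⟨w, rfl⟩ := EJ.surjective v
    rw [LinearEquiv.conj_apply_apply, LinearEquiv.symm_apply_apply]
    rfl
  · rw [← LinearMap.trace_conj' (Submodule.mapQ (LinearMap.ker T) (LinearMap.ker T) (A.restrict hA1) he)
      (T.quotKerEquivOfSurjective hs)]
    congr 1
    apply LinearMap.ext
    intro v
    obtain ⟨w, rfl⟩ := (T.quotKerEquivOfSurjective hs).surjective v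
    rw [LinearEquiv.conj_apply_apply, LinearEquiv.symm_apply_apply]
    obtain ⟨w, rfl⟩ := Submodule.mkQ_surjective _ w
    exact hcomp w

end SPV
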