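import Pool.Agent.SPV.BA
import Pool.Agent.SPV.LA

/-!
# SPV / BB : the branching filtration of a Specht module
-/

set_option linter.unusedSectionVars false

namespace SPV

open Finset

variable {μ : YoungDiagram} {n : ℕ}

/-- span of the polytabloids whose last letter is in a corner of a row `< r`. -/
noncomputable def Vf (K : Type*) [Field K] (μ : YoungDiagram) (n r : ℕ) :
    Submodule K (Tabloid μ (Fin (n + 1)) →₀ K) :=
  Submodule.span K {e | ∃ i, ∃ h : Corner μ i, i < r ∧ ∃ s : Tableau (rem μ i) (Fin n),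
    e = polytabloid K (extT h s)}

theorem Vf_le (K : Type*) [Field K] (r : ℕ) : Vf K μ n r ≤ Specht K μ (Fin (n + 1)) := by
  unfold Vf
  rw [Submodule.span_le]
  rintro _ ⟨i, h, -, s, rfl⟩
  exact polytabloid_mem K _

theorem Vf_zero (K : Type*) [Field K] : Vf K μ n 0 = ⊥ := by
  unfold Vf
  rw [eq_bot_iff, Submodule.span_le]
  rintro _ ⟨i, h, hi, s, rfl⟩
  exact absurd hi (Nat.not_lt_zero i)

theorem Vf_mono (K : Type*) [Field K] (r : ℕ) : Vf K μ n r ≤ Vf K μ n (r + 1) := by
  unfold Vf
  apply Submodule.span_mono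
  rintro _ ⟨i, h, hi, s, rfl⟩
  exact ⟨i, h, Nat.lt_succ_of_lt hi, s, rfl⟩

theorem Vf_succ_of_not (K : Type*) [Field K] {r : ℕ} (h : ¬ Corner μ r) :
    Vf K μ n (r + 1) = Vf K μ n r := by
  apply le_antisymm _ (Vf_mono K r)
  unfold Vf
  apply Submodule.span_mono
  rintro _ ⟨i, h', hi, s, rfl⟩
  refine ⟨i, h', ?_, s, rfl⟩
  rcases Nat.lt_succ_iff_lt_or_eq.mp hi with h1 | h1
  · exact h1
  · subst h1; exact absurd h' h

/-- `θ_r (Vf (r+1)) = S^{rem μ r}`. -/
theorem Vf_map (K : Type*) [Field K] {r : ℕ} (h : Corner μ r) :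
    (Vf K μ n (r + 1)).map (thet K h n) = Specht K (rem μ r) (Fin n) := by
  apply le_antisymm
  · unfold Vf
    rw [Submodule.map_span, Submodule.span_le]
    rintro _ ⟨_, ⟨i, h', hi, s, rfl⟩, rfl⟩
    rcases Nat.lt_succ_iff_lt_or_eq.mp hi with h1 | h1
    · rw [thet_extT_zero K h h' h1 s]
      exact Submodule.zero_mem _
    · subst h1
      rw [thet_extT K h s]
      exact polytabloid_mem K s
  · unfold Specht
    rw [Submodule.span_le]
    rintro _ ⟨s, rfl⟩
    refine ⟨polytabloid K (extT h s), ?_, thet_extT K h s⟩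
    exact Submodule.subset_span ⟨r, h, Nat.lt_succ_self r, s, rfl⟩

theorem Vf_ker (K : Type*) [Field K] {r : ℕ} (h : Corner μ r) (v : Tabloid μ (Fin (n + 1)) →₀ K)
    (hv : v ∈ Vf K μ n r) : thet K h n v = 0 := by
  have h1 : Vf K μ n r ≤ LinearMap.ker (thet K h n) := by
    unfold Vf
    rw [Submodule.span_le]
    rintro _ ⟨i, h', hi, s, rfl⟩
    exact thet_extT_zero K h h' hi s
  exact h1 hv

/-- `Vf` is invariant under `Perm (Fin n)` (`act_extT`, `permRep_polytabloid`). -/
theorem Vf_invariant (K : Type*) [Field K] (r : ℕ) (σ : Equiv.Perm (Fin n))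
    (v : Tabloid μ (Fin (n + 1)) →₀ K) (hv : v ∈ Vf K μ n r) :
    permRep K μ (Fin (n + 1)) (up n 1 σ) v ∈ Vf K μ n r := by
  have h1 : Vf K μ n r ≤ (Vf K μ n r).comap (permRep K μ (Fin (n + 1)) (up n 1 σ)) := by
    conv_lhs => unfold Vf
    rw [Submodule.span_le]
    rintro _ ⟨i, h', hi, s, rfl⟩
    show permRep K μ (Fin (n + 1)) (up n 1 σ) (polytabloid K (extT h' s)) ∈ Vf K μ n r
    rw [permRep_polytabloid, act_extT]
    exact Submodule.subset_span ⟨i, h', hi, _, rfl⟩
  exact h1 hv

/-- Lower bound: `∑_i dim S^{rem μ i} ≤ dim Vf r ≤ dim S^μ` (sum over the corners in rows `< r`;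
induction on `r`, `finrank_filtration`; finally `r = μ.colLen 0`). -/
theorem finrank_Vf_ge (K : Type*) [Field K] (r : ℕ) :
    ∑ i ∈ (corners μ).filter (· < r), Module.finrank K (Specht K (rem μ i) (Fin n)) ≤
      Module.finrank K (Vf K μ n r) := by
  induction r with
  | zero =>
    rw [Finset.filter_false_of_mem (fun i _ => Nat.not_lt_zero i), Finset.sum_empty]
    exact Nat.zero_le _
  | succ r ih =>
    by_cases h : Corner μ r
    · have h1 : (corners μ).filter (· < r + 1) = insert r ((corners μ).filter (· < r)) := by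
        ext i
        rw [Finset.mem_insert, Finset.mem_filter, Finset.mem_filter, mem_corners]
        constructor
        · rintro ⟨h2, h3⟩
          rcases Nat.lt_succ_iff_lt_or_eq.mp h3 with h4 | h4
          · exact Or.inr ⟨h2, h4⟩
          · exact Or.inl h4
        · rintro (rfl | ⟨h2, h3⟩)
          · exact ⟨h, Nat.lt_succ_self _⟩
          · exact ⟨h2, Nat.lt_succ_of_lt h3⟩
      have h2 : r ∉ (corners μ).filter (· < r) := by
        rw [Finset.mem_filter]
        rintro ⟨-, h3⟩
        exact lt_irrefl r h3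
      rw [h1, Finset.sum_insert h2]
      have h3 := finrank_filtration (thet K h n) (Vf K μ n (r + 1)) (Vf K μ n r)
        (Specht K (rem μ r) (Fin n)) (Vf_mono K r) (Vf_map K h) (Vf_ker K h)
      omega
    · have h1 : (corners μ).filter (· < r + 1) = (corners μ).filter (· < r) := by
        ext i
        rw [Finset.mem_filter, Finset.mem_filter, mem_corners]
        constructor
        · rintro ⟨h2, h3⟩
          refine ⟨h2, ?_⟩
          rcases Nat.lt_succ_iff_lt_or_eq.mp h3 with h4 | h4
          · exact h4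
          · subst h4; exact absurd h2 h
        · rintro ⟨h2, h3⟩
          exact ⟨h2, Nat.lt_succ_of_lt h3⟩
      rw [h1, Vf_succ_of_not K h]
      exact ih

theorem finrank_specht_ge (K : Type*) [Field K] (μ : YoungDiagram) (n : ℕ) :
    ∑ i ∈ corners μ, Module.finrank K (Specht K (rem μ i) (Fin n)) ≤
      Module.finrank K (Specht K μ (Fin (n + 1))) := by
  have h1 := finrank_Vf_ge (μ := μ) (n := n) K (μ.colLen 0)
  rw [Finset.filter_true_of_mem (fun i hi => (mem_corners.mp hi).lt)] at h1
  exact h1.trans (Submodule.finrank_mono (Vf_le K _))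

end SPV
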