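import Pool.Agent.SPV.BB

/-!
# SPV / BC : the branching rule for traces
-/

set_option linter.unusedSectionVars false

namespace SPV

open Finset

variable {μ : YoungDiagram} {n : ℕ}

private theorem BC_trace_congr {K V : Type*} [Field K] [AddCommGroup V] [Module K V]
    (A : Module.End K V) (W₁ W₂ : Submodule K V) (h : W₁ = W₂) (h1 : ∀ v ∈ W₁, A v ∈ W₁)
    (h2 : ∀ v ∈ W₂, A v ∈ W₂) :
    LinearMap.trace K W₁ (A.restrict h1) = LinearMap.trace K W₂ (A.restrict h2) := by
  subst h
  rfl

private theorem BC_trace_bot {K V : Type*} [Field K] [AddCommGroup V] [Module K V]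
    (A : Module.End K V) (W₁ : Submodule K V) (h : W₁ = ⊥) (h1 : ∀ v ∈ W₁, A v ∈ W₁) :
    LinearMap.trace K W₁ (A.restrict h1) = 0 := by
  subst h
  have : A.restrict h1 = 0 := by
    apply LinearMap.ext
    intro v
    exact Subsingleton.elim _ _
  rw [this, map_zero]

/-- dimension contributed by the row `i` -/
private noncomputable def BC_a (K : Type*) [Field K] (μ : YoungDiagram) (n i : ℕ) : ℕ :=
  if Corner μ i then Module.finrank K (Specht K (rem μ i) (Fin n)) else 0

private theorem BC_step (K : Type*) [Field K] (r : ℕ) :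
    Module.finrank K (Vf K μ n r) + BC_a K μ n r ≤ Module.finrank K (Vf K μ n (r + 1)) := by
  unfold BC_a
  split_ifs with h
  · exact finrank_filtration (thet K h n) _ _ _ (Vf_mono K r) (Vf_map K h) (Vf_ker K h)
  · rw [Vf_succ_of_not K h, add_zero]

private theorem BC_low (K : Type*) [Field K] (r k : ℕ) :
    Module.finrank K (Vf K μ n r) + ∑ i ∈ range k, BC_a K μ n (r + i) ≤
      Module.finrank K (Vf K μ n (r + k)) := by
  induction k with
  | zero => simp
  | succ k ih =>
    rw [sum_range_succ, ← add_assoc]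
    have := BC_step (μ := μ) (n := n) K (r + k)
    rw [← add_assoc]
    omega

private theorem BC_low0 (K : Type*) [Field K] (k : ℕ) :
    ∑ i ∈ range k, BC_a K μ n i ≤ Module.finrank K (Vf K μ n k) := by
  induction k with
  | zero => simp
  | succ k ih =>
    rw [sum_range_succ]
    have := BC_step (μ := μ) (n := n) K k
    omega

private theorem BC_sum (K : Type*) [Field K] (μ : YoungDiagram) (n : ℕ) :
    ∑ i ∈ corners μ, Module.finrank K (Specht K (rem μ i) (Fin n)) =
      ∑ i ∈ range (μ.colLen 0), BC_a K μ n i := by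
  unfold corners BC_a
  rw [sum_filter]

/-- The branching rule for traces. -/
theorem trace_branch (K : Type*) [Field K] (μ : YoungDiagram) (n : ℕ)
    (hdim : ∑ i ∈ corners μ, Module.finrank K (Specht K (rem μ i) (Fin n)) =
      Module.finrank K (Specht K μ (Fin (n + 1)))) (σ : Equiv.Perm (Fin n)) :
    LinearMap.trace K _ (spechtRep K μ (Fin (n + 1)) (up n 1 σ)) =
      ∑ i ∈ corners μ, LinearMap.trace K _ (spechtRep K (rem μ i) (Fin n) σ) := by
  classical
  set R := μ.colLen 0 with hR
  rw [BC_sum, ← hR] at hdim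
  have hle : Module.finrank K (Vf K μ n R) ≤ Module.finrank K (Specht K μ (Fin (n + 1))) :=
    Submodule.finrank_mono (Vf_le K R)
  -- the dimensions
  have hd : ∀ r, r ≤ R → Module.finrank K (Vf K μ n r) = ∑ i ∈ range r, BC_a K μ n i := by
    intro r hr
    obtain ⟨k, hk⟩ := Nat.exists_eq_add_of_le hr
    have h1 := BC_low (μ := μ) (n := n) K r k
    have h2 := BC_low0 (μ := μ) (n := n) K r
    rw [← hk] at h1
    have h3 : ∑ i ∈ range R, BC_a K μ n i =
        ∑ i ∈ range r, BC_a K μ n i + ∑ i ∈ range k, BC_a K μ n (r + i) := by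
      rw [hk, sum_range_add]
    omega
  have hstep : ∀ r, r < R → Module.finrank K (Vf K μ n (r + 1)) =
      Module.finrank K (Vf K μ n r) + BC_a K μ n r := by
    intro r hr
    rw [hd (r + 1) hr, hd r hr.le, sum_range_succ]
  have htop : Vf K μ n R = Specht K μ (Fin (n + 1)) := by
    apply Submodule.eq_of_le_of_finrank_eq (Vf_le K R)
    rw [hd R le_rfl, ← hdim]
  set A : Module.End K (Tabloid μ (Fin (n + 1)) →₀ K) :=
    permRep K μ (Fin (n + 1)) (up n 1 σ) with hA
  have hinv : ∀ r, ∀ v ∈ Vf K μ n r, A v ∈ Vf K μ n r := fun r v hv => Vf_invariant K r σ v hv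
  have key : ∀ r, r ≤ R → LinearMap.trace K (Vf K μ n r) (A.restrict (hinv r)) =
      ∑ i ∈ range r, (if Corner μ i then
        LinearMap.trace K _ (spechtRep K (rem μ i) (Fin n) σ) else 0) := by
    intro r
    induction r with
    | zero =>
      intro _
      rw [range_zero, sum_empty]
      exact BC_trace_bot A _ (Vf_zero K) _
    | succ r ih =>
      intro hr
      rw [sum_range_succ, ← ih (by omega)]
      by_cases h : Corner μ r
      · rw [if_pos h]
        have h1 := hstep r hr
        unfold BC_a at h1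
        rw [if_pos h] at h1
        exact trace_filtration (thet K h n) A (permRep K (rem μ r) (Fin n) σ)
          (fun v => thet_perm K h σ v) (Vf K μ n (r + 1)) (Vf K μ n r)
          (Specht K (rem μ r) (Fin n)) (Vf_mono K r) (Vf_map K h) (Vf_ker K h) h1
          (hinv (r + 1)) (hinv r) (specht_invariant K σ)
      · rw [if_neg h, add_zero]
        exact BC_trace_congr A _ _ (Vf_succ_of_not K h) _ _
  have h1 := key R le_rfl
  rw [← sum_filter] at h1
  rw [show corners μ = (range R).filter (Corner μ) from rfl, ← h1]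
  exact (BC_trace_congr A _ _ htop _ (specht_invariant K (up n 1 σ))).symm

end SPV
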