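import Pool.Agent.SPV.Rk

/-!
# SPV / Dec : decomposition of idempotents into primitive ones (as an induction principle)
-/

namespace SPV

variable {F G V : Type*} [Field F] [Group G] [AddCommGroup V] [Module F V]
  [FiniteDimensional F V]

/-- Induction principle for idempotents of `End_{FP}(V)`.

Sketch.  Strong induction on `rk f`.  If `f = 0`: `h0`.  If `f` is primitive: `hprim`.  Otherwise
there is an idempotent `e` in the corner of `f` with `e ≠ 0`, `e ≠ f`; put `e' = f - e`
(idempotent, orthogonal to `e`, commutes with `P`), `rk f = rk e + rk e'` with both positive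
(`rk_add`, `rk_pos`), and apply `hadd`. -/
theorem idem_induction (ρ : Representation F G V) (P : Subgroup G)
    {motive : Module.End F V → Prop} (h0 : motive 0)
    (hadd : ∀ e e' : Module.End F V, e * e = e → e' * e' = e' → e * e' = 0 → e' * e = 0 →
      Cm ρ P e → Cm ρ P e' → motive e → motive e' → motive (e + e'))
    (hprim : ∀ f, Prim ρ P f → motive f) (f : Module.End F V) (hff : f * f = f)
    (hf : Cm ρ P f) : motive f := by
  have main : ∀ n : ℕ, ∀ f : Module.End F V, f * f = f → Cm ρ P f → rk f ≤ n → motive f := by
    intro n
    induction n with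
    | zero =>
      intro f _ _ hn
      have hf0 : f = 0 := by
        by_contra hne
        have := rk_pos hne
        omega
      rw [hf0]; exact h0
    | succ n ih =>
      intro f hff hf hn
      by_cases hf0 : f = 0
      · rw [hf0]; exact h0
      by_cases hP : Prim ρ P f
      · exact hprim f hP
      have hex : ∃ e : Module.End F V, e * e = e ∧ InC ρ P f e ∧ e ≠ 0 ∧ e ≠ f := by
        by_contra hcon
        refine hP ⟨hf0, hff, hf, fun e he hc => ?_⟩
        by_contra h
        rw [not_or] at h
        exact hcon ⟨e, he, hc, h.1, h.2⟩
      obtain ⟨e, he, hc, he0, hef⟩ := hex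
      have hfe : f * e = e := hc.l
      have hef' : e * f = e := hc.r
      have h1 : e * (f - e) = 0 := by rw [mul_sub, hef', he, sub_self]
      have h2 : (f - e) * e = 0 := by rw [sub_mul, hfe, he, sub_self]
      have h3 : (f - e) * (f - e) = f - e := by rw [mul_sub, h2, sub_zero, sub_mul, hff, hef']
      have h4 : e + (f - e) = f := by abel
      have hrk := rk_add he h3 h1 h2
      rw [h4] at hrk
      have hr1 := rk_pos he0
      have hr2 := rk_pos (sub_ne_zero.2 (Ne.symm hef))
      have h5 := hadd e (f - e) he h3 h1 h2 hc.cm (hf.sub hc.cm)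
        (ih e he hc.cm (by omega)) (ih (f - e) h3 (hf.sub hc.cm) (by omega))
      rwa [h4] at h5
  exact main _ f hff hf le_rfl

end SPV
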