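import Pool.Agent.SPV.Stp
import Pool.Agent.SPV.Dec

/-!
# SPV / Ctr : the trace vanishes
-/

namespace SPV

variable {F G V : Type*} [Field F] [Group G] [AddCommGroup V] [Module F V]
  [FiniteDimensional F V]

/-- The subgroup `Q ∪ t Q`. -/
private def ctrH (Q : Subgroup G) (t : G) (ht2 : t * t = 1) (htn : ∀ q ∈ Q, t * q * t⁻¹ ∈ Q) :
    Subgroup G where
  carrier := {h | h ∈ Q ∨ t * h ∈ Q}
  one_mem' := Or.inl Q.one_mem
  mul_mem' := by
    rintro a b (ha | ha) (hb | hb)
    · exact Or.inl (Q.mul_mem ha hb)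
    · right
      have h := Q.mul_mem (htn a ha) hb
      have h1 : t * a * t⁻¹ * (t * b) = t * (a * b) := by group
      rwa [h1] at h
    · right
      have h := Q.mul_mem ha hb
      rwa [mul_assoc] at h
    · left
      have h := Q.mul_mem (htn _ ha) hb
      have h1 : t * (t * a) * t⁻¹ * (t * b) = (t * t) * (a * b) := by group
      rwa [h1, ht2, one_mul] at h
  inv_mem' := by
    rintro a (ha | ha)
    · exact Or.inl (Q.inv_mem ha)
    · right
      have h := htn _ (Q.inv_mem ha)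
      have h1 : t * (t * a)⁻¹ * t⁻¹ = t * a⁻¹ * (t * t)⁻¹ := by group
      rwa [h1, ht2, inv_one, mul_one] at h

private theorem ctr_mem {Q : Subgroup G} {t : G} {ht2 : t * t = 1}
    {htn : ∀ q ∈ Q, t * q * t⁻¹ ∈ Q} {h : G} : h ∈ ctrH Q t ht2 htn ↔ h ∈ Q ∨ t * h ∈ Q := Iff.rfl

private theorem ctr_half {Q : Subgroup G} {t : G} (ht : t ∉ Q) (ht2 : t * t = 1)
    (htn : ∀ q ∈ Q, t * q * t⁻¹ ∈ Q) : Half (ctrH Q t ht2 htn) Q t where
  le := fun q hq => Or.inl hq
  mem := Or.inr (by rw [ht2]; exact Q.one_mem)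
  nmem := ht
  cov := by
    intro p hp hp1
    have h1 : t⁻¹ = t := inv_eq_of_mul_eq_one_left ht2
    rw [h1]
    rcases hp with hp | hp
    · exact absurd hp hp1
    · exact hp

private theorem ctr_pgroup {Q : Subgroup G} {t : G} (hQ : IsPGroup 2 Q) (ht : t ∉ Q)
    (ht2 : t * t = 1) (htn : ∀ q ∈ Q, t * q * t⁻¹ ∈ Q) :
    IsPGroup 2 (ctrH Q t ht2 htn) := by
  have key : ∀ q ∈ Q, ∃ k : ℕ, q ^ 2 ^ k = 1 := by
    intro q hq
    obtain ⟨k, hk⟩ := hQ ⟨q, hq⟩
    exact ⟨k, by simpa using congrArg Subtype.val hk⟩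
  rintro ⟨h, hh⟩
  by_cases hq : h ∈ Q
  · obtain ⟨k, hk⟩ := key h hq
    exact ⟨k, Subtype.ext (by simpa using hk)⟩
  · have h2 : h * h ∈ Q := ((ctr_half ht ht2 htn).change hh hq).sq
    obtain ⟨k, hk⟩ := key _ h2
    refine ⟨k + 1, Subtype.ext ?_⟩
    show h ^ 2 ^ (k + 1) = 1
    rw [pow_succ', pow_mul, pow_two]
    exact hk

omit [FiniteDimensional F V] in
private theorem ctr_inv (ρ : Representation F G V) (g : G) : ρ g⁻¹ * ρ g = 1 := by
  rw [← map_mul, inv_mul_cancel, map_one]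

omit [FiniteDimensional F V] in
/-- the half-step: `tr (a e) = 0`. -/
private theorem ctr_half_trace {ρ : Representation F G V} {Q : Subgroup G} {t : G}
    (hstar : ∀ a : Module.End F V, Cm ρ Q a →
      LinearMap.trace F V a = LinearMap.trace F V (a * ρ t))
    {f a e : Module.End F V} (ha : Cm ρ Q a) (hee : e * e = e) (hec : Cm ρ Q e)
    (hef : e * f = e) (hs : e + ρ t * e * ρ t⁻¹ = f) :
    LinearMap.trace F V (a * e) = 0 := by
  have h1 := hstar (e * a * e) ((hec.mul ha).mul hec)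
  have h2 : LinearMap.trace F V (e * a * e) = LinearMap.trace F V (a * e) := by
    rw [mul_assoc, LinearMap.trace_mul_comm, mul_assoc, hee]
  have h3 : ρ t * e = (ρ t * e * ρ t⁻¹) * ρ t := by
    rw [mul_assoc (ρ t * e), ctr_inv, mul_one]
  have h4 : ρ t * e * ρ t⁻¹ = f - e := by rw [← hs]; abel
  have h5 : e * ρ t * e = 0 := by
    rw [mul_assoc, h3, h4, ← mul_assoc, mul_sub, hef, hee, sub_self, zero_mul]
  have h6 : LinearMap.trace F V (e * a * e * ρ t) = 0 := by
    have h7 : e * a * e * ρ t = e * (a * e * ρ t) := by simp only [mul_assoc]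
    rw [h7, LinearMap.trace_mul_comm]
    have h8 : a * e * ρ t * e = a * (e * ρ t * e) := by simp only [mul_assoc]
    rw [h8, h5, mul_zero, map_zero]
  rw [← h2, h1, h6]

/-- The contradiction theorem.

Sketch.  `H = {h | h ∈ Q ∨ t * h ∈ Q}` is a subgroup (`ht2`, `htn`), `Half H Q t` holds and `H` is a
2-group.  By `idem_induction` for `H` with motive `f ↦ tr (f * Φ 1) = 0` (additive) it is enough
to treat a primitive `f` of `End_{FH}(V)` (at the end take `f = 1`).  Put `a = f * Φ 1 * f`, it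
commutes with `Q` and `tr a = tr (f Φ 1)`.  Apply `step` with `P = H`, `X = G ⧸ Q`,
`φ x = f * Φ x * f` (sum `f * 1 * f = f`); no `x = g Q` is fixed by `H` since
`g⁻¹ H g ≤ Q` is impossible by cardinality.  We get `P₁, y, e`; for every `z ∈ H \ P₁` also
`e + ρ z e ρ z⁻¹ = f` (as `y⁻¹ z ∈ P₁`).
* If some `q ∈ Q` is not in `P₁`: `a` commutes with `ρ q`, so
  `tr a = tr (a e) + tr (a q e q⁻¹) = 2 tr (a e) = 0`.
* Otherwise `Q ≤ P₁`, so `Q = P₁` (`Half.eq_of_le`), `t ∉ P₁`, `e + t e t⁻¹ = f`.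
  `e a e` commutes with `Q`; `hstar`: `tr (e a e) = tr (e a e t) = tr (a e t e)` and
  `e t e = e (t e t⁻¹) t = e (f - e) t = 0`.  So `tr (a e) = tr (e a e) = 0`.  The same with
  `e' = f - e = t e t⁻¹` (`t e' t⁻¹ = e` because `t t = 1`): `tr (a e') = 0`.  Add. -/
theorem trace_zero [Finite G] [IsAlgClosed F] [CharP F 2] {ρ : Representation F G V}
    {Q : Subgroup G} (hQ : IsPGroup 2 Q) [Fintype (G ⧸ Q)] (Φ : G ⧸ Q → Module.End F V)
    (heq : ∀ (g : G) (x : G ⧸ Q), ρ g * Φ x * ρ g⁻¹ = Φ (g • x)) (hsum : ∑ x, Φ x = 1)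
    {t : G} (ht : t ∉ Q) (ht2 : t * t = 1) (htn : ∀ q ∈ Q, t * q * t⁻¹ ∈ Q)
    (hstar : ∀ a : Module.End F V, Cm ρ Q a →
      LinearMap.trace F V a = LinearMap.trace F V (a * ρ t)) :
    LinearMap.trace F V (Φ ((1 : G) : G ⧸ Q)) = 0 := by
  have hHQ := ctr_half ht ht2 htn
  have hHP := ctr_pgroup hQ ht ht2 htn
  have key : LinearMap.trace F V ((1 : Module.End F V) * Φ ((1 : G) : G ⧸ Q)) = 0 := by
    refine idem_induction ρ (ctrH Q t ht2 htn)
      (motive := fun f => LinearMap.trace F V (f * Φ ((1 : G) : G ⧸ Q)) = 0)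
      ?_ ?_ ?_ 1 (one_mul 1) (Cm.one ρ _)
    · show LinearMap.trace F V (0 * Φ ((1 : G) : G ⧸ Q)) = 0
      rw [zero_mul, map_zero]
    · intro e e' _ _ _ _ _ _ h1 h2
      show LinearMap.trace F V ((e + e') * Φ ((1 : G) : G ⧸ Q)) = 0
      rw [add_mul, map_add]
      have h1' : LinearMap.trace F V (e * Φ ((1 : G) : G ⧸ Q)) = 0 := h1
      have h2' : LinearMap.trace F V (e' * Φ ((1 : G) : G ⧸ Q)) = 0 := h2
      rw [h1', h2', add_zero]
    · intro f hf
      show LinearMap.trace F V (f * Φ ((1 : G) : G ⧸ Q)) = 0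
      have hfQ : Cm ρ Q f := hf.cm.mono hHQ.le
      have hΦQ : Cm ρ Q (Φ ((1 : G) : G ⧸ Q)) := by
        refine cm_of_conj fun q hq => ?_
        rw [heq]
        congr 1
        show ((q * 1 : G) : G ⧸ Q) = ((1 : G) : G ⧸ Q)
        rw [mul_one]
        exact QuotientGroup.eq.2 (by simpa using hq)
      set a : Module.End F V := f * Φ ((1 : G) : G ⧸ Q) * f with ha
      have haQ : Cm ρ Q a := (hfQ.mul hΦQ).mul hfQ
      have haf : a * f = a := by rw [ha, mul_assoc, hf.idem]
      have htr : LinearMap.trace F V (f * Φ ((1 : G) : G ⧸ Q)) = LinearMap.trace F V a := by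
        rw [ha, LinearMap.trace_mul_comm F (f * Φ ((1 : G) : G ⧸ Q)) f, ← mul_assoc, hf.idem]
      rw [htr]
      obtain ⟨P₁, y, e, hh, hee, hec, hes⟩ := step hHP hf
        (fun x : G ⧸ Q => f * Φ x * f) (by
          intro p hp x
          show ρ p * (f * Φ x * f) * ρ p⁻¹ = f * Φ (p • x) * f
          rw [← heq]
          have h1 := hf.cm p hp
          have h2 : f * ρ p⁻¹ = ρ p⁻¹ * f :=
            (hf.cm p⁻¹ ((ctrH Q t ht2 htn).inv_mem hp)).symm
          calc ρ p * (f * Φ x * f) * ρ p⁻¹ = (ρ p * f) * Φ x * (f * ρ p⁻¹) := by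
                simp only [mul_assoc]
            _ = f * (ρ p * Φ x * ρ p⁻¹) * f := by
                rw [h1, h2]; simp only [mul_assoc])
        (by
          intro x
          show f * (f * Φ x * f) = f * Φ x * f
          rw [← mul_assoc, ← mul_assoc, hf.idem])
        (by
          intro x
          show f * Φ x * f * f = f * Φ x * f
          rw [mul_assoc, hf.idem])
        (by
          show ∑ x, f * Φ x * f = f
          rw [← Finset.sum_mul, ← Finset.mul_sum, hsum, mul_one, hf.idem])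
        (by
          intro x
          by_contra hcon
          push Not at hcon
          obtain ⟨g, rfl⟩ := Quotient.exists_rep x
          have h1 : ∀ p ∈ ctrH Q t ht2 htn, g⁻¹ * p * g ∈ Q := by
            intro p hp
            have h2 : ((p * g : G) : G ⧸ Q) = (g : G ⧸ Q) := hcon p hp
            have h3 := Q.inv_mem (QuotientGroup.eq.1 h2)
            have h4 : ((p * g)⁻¹ * g)⁻¹ = g⁻¹ * p * g := by group
            rwa [h4] at h3
          have h5 : Nat.card (ctrH Q t ht2 htn) ≤ Nat.card Q := by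
            refine Nat.card_le_card_of_injective
              (fun p : ctrH Q t ht2 htn => (⟨g⁻¹ * p.1 * g, h1 p.1 p.2⟩ : Q)) ?_
            intro p q hpq
            have h6 : g⁻¹ * p.1 * g = g⁻¹ * q.1 * g := congrArg Subtype.val hpq
            exact Subtype.ext (mul_left_cancel (mul_right_cancel h6))
          have h7 : Q = ctrH Q t ht2 htn := Subgroup.eq_of_le_of_card_ge hHQ.le h5
          exact ht (h7 ▸ hHQ.mem))
      have hz : ∀ z ∈ ctrH Q t ht2 htn, z ∉ P₁ → e + ρ z * e * ρ z⁻¹ = f := by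
        intro z hz hz1
        have h1 := hh.cov z hz hz1
        have h2 := hec.cm.conj h1
        have h3 : ρ z * e * ρ z⁻¹ = ρ y * e * ρ y⁻¹ := by
          conv_rhs => rw [← h2]
          have h4 : (z : G) = y * (y⁻¹ * z) := by group
          have h5 : (z⁻¹ : G) = (y⁻¹ * z)⁻¹ * y⁻¹ := by group
          rw [show ρ z = ρ y * ρ (y⁻¹ * z) by rw [← map_mul, ← h4],
            show ρ z⁻¹ = ρ (y⁻¹ * z)⁻¹ * ρ y⁻¹ by rw [← map_mul, ← h5]]
          simp only [mul_assoc]
        rw [h3, hes]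
      by_cases hle : Q ≤ P₁
      · have h1 : Q = P₁ := hh.eq_of_le hHQ hle
        have h2 : Cm ρ Q e := by rw [h1]; exact hec.cm
        have h3 : e + ρ t * e * ρ t⁻¹ = f := hz t hHQ.mem (by rw [← h1]; exact ht)
        have h4 := ctr_half_trace hstar haQ hee h2 hec.r h3
        have hee' : (f - e) * (f - e) = f - e := by
          rw [mul_sub, sub_mul, sub_mul, hf.idem, hec.l, hec.r, hee]; abel
        have h5 := ctr_half_trace (f := f) hstar haQ hee' (hfQ.sub h2)
          (by rw [sub_mul, hf.idem, hec.r])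
          (by
            have h6 : ρ t * e * ρ t⁻¹ = f - e := by rw [← h3]; abel
            rw [mul_sub, sub_mul, h6, hf.cm.conj hHQ.mem]; abel)
        have h6 : a = a * e + a * (f - e) := by
          rw [mul_sub, haf]; abel
        rw [h6, map_add, h4, h5, add_zero]
      · obtain ⟨q, hq, hq1⟩ := Set.not_subset.1 hle
        have h1 := hz q (hHQ.le hq) hq1
        have h2 : a * (ρ q * e * ρ q⁻¹) = ρ q * (a * e) * ρ q⁻¹ := by
          rw [← mul_assoc, ← mul_assoc, ← haQ q hq, mul_assoc (ρ q)]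
        have h3 : a = a * e + ρ q * (a * e) * ρ q⁻¹ := by
          rw [← h2, ← mul_add, h1, haf]
        rw [h3, map_add, trace_conj]
        exact CharTwo.add_self_eq_zero _
  rwa [one_mul] at key

end SPV
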