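import Pool.Agent.SPV.LmG
import Pool.Agent.SPV.Ctr

/-!
# SPV / BCh : base change to the algebraic closure, and the two dimension theorems
-/

namespace SPV

open TensorProduct

variable {F G V : Type*} [Field F] [Group G] [AddCommGroup V] [Module F V]

/-- base change of a representation -/
noncomputable def bc (K : Type*) [Field K] [Algebra F K] (ρ : Representation F G V) :
    Representation K G (K ⊗[F] V) where
  toFun g := (ρ g).baseChange K
  map_one' := by
    rw [map_one]; exact LinearMap.baseChange_id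
  map_mul' g h := by
    rw [map_mul]; exact LinearMap.baseChange_comp _ _

theorem bc_apply (K : Type*) [Field K] [Algebra F K] (ρ : Representation F G V) (g : G) :
    bc K ρ g = (ρ g).baseChange K := rfl

private theorem BCh_bc_mul (K : Type*) [Field K] [Algebra F K] (a b : Module.End F V) :
    (a * b).baseChange K = (a.baseChange K : Module.End K (K ⊗[F] V)) * b.baseChange K :=
  LinearMap.baseChange_comp _ _

private theorem BCh_bc_one (K : Type*) [Field K] [Algebra F K] :
    (1 : Module.End F V).baseChange K = (1 : Module.End K (K ⊗[F] V)) :=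
  LinearMap.baseChange_id

/-- the operator identity survives base change. -/
theorem bc_hasE (K : Type*) [Field K] [Algebra F K] {ρ : Representation F G V} {g t s : G}
    (h : HasE ρ g t s) : HasE (bc K ρ) g t s := by
  obtain ⟨E, hE⟩ := h
  refine ⟨E.baseChange K, ?_⟩
  have h1 := congrArg (fun z : Module.End F V => (z.baseChange K : Module.End K (K ⊗[F] V))) hE
  simp only [BCh_bc_mul, LinearMap.baseChange_add, BCh_bc_one] at h1
  simp only [bc_apply]
  exact h1

/-- The trace identity from the operator: for `a` commuting with `ρ g`,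
`tr (a g E g⁻¹) = tr (a E)`, so `0 = tr a + tr (a t) + 4 tr (a s)`. -/
theorem star_of_hasE [CharP F 2] {ρ : Representation F G V} {g t s : G}
    (h : HasE ρ g t s) {a : Module.End F V} (ha : ρ g * a = a * ρ g) :
    LinearMap.trace F V a = LinearMap.trace F V (a * ρ t) := by
  obtain ⟨E, hE⟩ := h
  have key : ∀ (n : ℕ) (b : Module.End F V),
      LinearMap.trace F V (a * (ρ (g ^ n) * b * ρ (g ^ n)⁻¹)) = LinearMap.trace F V (a * b) := by
    intro n b
    have hc : ρ (g ^ n) * a = a * ρ (g ^ n) := by
      rw [map_pow]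
      have hcom : Commute (ρ g) a := ha
      exact (hcom.pow_left n).eq
    have h1 : a * (ρ (g ^ n) * b * ρ (g ^ n)⁻¹) = ρ (g ^ n) * (a * b) * ρ (g ^ n)⁻¹ := by
      simp only [← mul_assoc]
      rw [hc]
    rw [h1, LinearMap.trace_mul_comm, ← mul_assoc, ← map_mul, inv_mul_cancel, map_one, one_mul]
  have hs : ∀ n : ℕ, LinearMap.trace F V (a * ρ (g ^ n * s * (g ^ n)⁻¹))
      = LinearMap.trace F V (a * ρ s) := by
    intro n
    have h1 : ρ (g ^ n * s * (g ^ n)⁻¹) = ρ (g ^ n) * ρ s * ρ (g ^ n)⁻¹ := by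
      rw [map_mul ρ, map_mul ρ]
    rw [h1]
    exact key n (ρ s)
  have h1 := key 1 E
  have hs1 := hs 1
  rw [pow_one] at h1 hs1
  rw [hE] at h1
  simp only [mul_add, map_add, mul_one] at h1
  rw [hs1, hs 2, hs 3] at h1
  have htwo : (2 : F) = 0 := CharTwo.two_eq_zero
  have h2 : LinearMap.trace F V a + LinearMap.trace F V (a * ρ t) = 0 := by
    linear_combination h1 - 2 * LinearMap.trace F V (a * ρ s) * htwo
  linear_combination h2 - LinearMap.trace F V (a * ρ t) * htwo

/-- Green: `|G : Q|_2` divides the dimension (base change to `AlgebraicClosure F`, `lemmaG`). -/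
theorem dim_dvd [Finite G] [CharP F 2] [FiniteDimensional F V] {ρ : Representation F G V}
    {Q : Subgroup G} (hQ : IsPGroup 2 Q) (h : TrOne ρ Q) (k : ℕ)
    (hk : Nat.card Q * 2 ^ k = 2 ^ (padicValNat 2 (Nat.card G))) :
    2 ^ k ∣ Module.finrank F V := by
  obtain ⟨hfin, Φ, heq, hsum⟩ := h
  haveI : CharP (AlgebraicClosure F) 2 :=
    charP_of_injective_algebraMap (algebraMap F (AlgebraicClosure F)).injective 2
  obtain ⟨d, hd, -⟩ := lemmaG (ρ := bc (AlgebraicClosure F) ρ) hQ
    (fun x => (Φ x).baseChange (AlgebraicClosure F)) (by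
      intro g x
      simp only [bc_apply]
      rw [← BCh_bc_mul, ← BCh_bc_mul, heq]) (by
      have h1 := congrArg (fun z : Module.End F V => z.baseChange (AlgebraicClosure F)) hsum
      simp only [BCh_bc_one] at h1
      rw [← h1]
      exact (map_sum (LinearMap.baseChangeHom F (AlgebraicClosure F) V V) _ _).symm) k hk
  rw [Module.finrank_baseChange] at hd
  exact ⟨d, hd⟩

/-- With the operator `E` one gets one more factor 2: base change to `K = AlgebraicClosure F`;
`star_of_hasE` for `bc K ρ` gives `hstar` (elements commuting with `Q` commute with `g ∈ Q`), so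
`trace_zero` says `tr (Φ 1) = 0`, and in `lemmaG` `(d : K) = 0`, so `d` is even. -/
theorem dim_dvd_succ [Finite G] [CharP F 2] [FiniteDimensional F V] {ρ : Representation F G V}
    {Q : Subgroup G} (hQ : IsPGroup 2 Q) (h : TrOne ρ Q) (k : ℕ)
    (hk : Nat.card Q * 2 ^ k = 2 ^ (padicValNat 2 (Nat.card G)))
    {g t s : G} (hg : g ∈ Q) (ht : t ∉ Q) (ht2 : t * t = 1) (htn : ∀ q ∈ Q, t * q * t⁻¹ ∈ Q)
    (hE : HasE ρ g t s) : 2 ^ (k + 1) ∣ Module.finrank F V := by
  obtain ⟨hfin, Φ, heq, hsum⟩ := h
  haveI : CharP (AlgebraicClosure F) 2 :=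
    charP_of_injective_algebraMap (algebraMap F (AlgebraicClosure F)).injective 2
  have heq' : ∀ (g : G) (x : G ⧸ Q), bc (AlgebraicClosure F) ρ g *
      (Φ x).baseChange (AlgebraicClosure F) * bc (AlgebraicClosure F) ρ g⁻¹
      = (Φ (g • x)).baseChange (AlgebraicClosure F) := by
    intro g x
    simp only [bc_apply]
    rw [← BCh_bc_mul, ← BCh_bc_mul, heq]
  have hsum' : ∑ x, (Φ x).baseChange (AlgebraicClosure F)
      = (1 : Module.End (AlgebraicClosure F) (AlgebraicClosure F ⊗[F] V)) := by
    have h1 := congrArg (fun z : Module.End F V => z.baseChange (AlgebraicClosure F)) hsum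
    simp only [BCh_bc_one] at h1
    rw [← h1]
    exact (map_sum (LinearMap.baseChangeHom F (AlgebraicClosure F) V V) _ _).symm
  obtain ⟨d, hd, hdt⟩ := lemmaG (ρ := bc (AlgebraicClosure F) ρ) hQ
    (fun x => (Φ x).baseChange (AlgebraicClosure F)) heq' hsum' k hk
  have hz := trace_zero (ρ := bc (AlgebraicClosure F) ρ) hQ
    (fun x => (Φ x).baseChange (AlgebraicClosure F)) heq' hsum' ht ht2 htn (by
      intro a ha
      exact star_of_hasE (bc_hasE (AlgebraicClosure F) hE) (ha g hg))
  rw [hz] at hdt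
  rw [Module.finrank_baseChange] at hd
  have h2 : 2 ∣ d := (CharP.cast_eq_zero_iff (AlgebraicClosure F) 2 d).1 hdt
  obtain ⟨e, he⟩ := h2
  refine ⟨e, ?_⟩
  rw [hd, he, pow_succ, mul_assoc]

end SPV
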