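import Pool.Agent.SPV.Jam

/-!
# SPV / CE : the relative trace of the Young symmetrizer is central and acts by an integer
-/

set_option linter.unusedSectionVars false

namespace SPV

open Finset

variable {κ μ : YoungDiagram} {m k : ℕ}
variable {R : Type*} [CommRing R] {V : Type*} [AddCommGroup V] [Module R V]

/-- elements of `fixer m k` commute with `up m k h` (disjoint supports). -/
theorem fixer_comm {s : Equiv.Perm (Fin (m + k))} (hs : s ∈ fixer m k)
    (h : Equiv.Perm (Fin m)) : up m k h * s = s * up m k h := by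
  rw [mem_fixer] at hs
  apply Equiv.ext
  intro x
  rw [Equiv.Perm.mul_apply, Equiv.Perm.mul_apply]
  refine Fin.addCases (fun i => ?_) (fun i => ?_) x
  · rw [hs, up_castAdd, hs]
  · rw [up_natAdd]
    obtain ⟨j, hj⟩ : ∃ j : Fin k, s (Fin.natAdd m i) = Fin.natAdd m j := by
      rcases Fin.addCases (motive := fun y => (∃ j : Fin m, y = Fin.castAdd k j) ∨
          ∃ j : Fin k, y = Fin.natAdd m j) (fun j => Or.inl ⟨j, rfl⟩) (fun j => Or.inr ⟨j, rfl⟩)
          (s (Fin.natAdd m i)) with ⟨j, hj⟩ | h'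
      · exfalso
        have h1 := s.injective (hj.trans (hs j).symm)
        have h2 := congrArg Fin.val h1
        rw [Fin.val_natAdd, Fin.val_castAdd] at h2
        have := j.2
        omega
      · exact h'
    rw [hj, up_natAdd]

/-- the order of `fixer m k` is `k!`. -/
theorem card_fixer (m k : ℕ) : Nat.card (fixer m k) = k.factorial := by
  classical
  let P : Fin (m + k) → Prop := fun a => m ≤ a.val
  have e1 : {f : Equiv.Perm (Fin (m + k)) // ∀ a, ¬ P a → f a = a} ≃ fixer m k :=
    Equiv.subtypeEquivRight (fun f => by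
      rw [mem_fixer]
      constructor
      · intro h i
        apply h
        change ¬ (m ≤ (Fin.castAdd k i).val)
        rw [Fin.val_castAdd]
        have := i.2
        omega
      · intro h a ha
        have ha' : a.val < m := not_le.1 ha
        have := h ⟨a.val, ha'⟩
        exact this)
  have e2 : Fin k ≃ {a : Fin (m + k) // P a} :=
    { toFun := fun i => ⟨Fin.natAdd m i, by
        change m ≤ (Fin.natAdd m i).val
        rw [Fin.val_natAdd]; omega⟩
      invFun := fun a => ⟨a.1.val - m, by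
        have h1 := a.1.2
        have h2 : m ≤ a.1.val := a.2
        omega⟩
      left_inv := fun i => by
        apply Fin.ext
        simp
      right_inv := fun a => by
        apply Subtype.ext
        apply Fin.ext
        have h2 : m ≤ a.1.val := a.2
        simp only [Fin.val_natAdd]
        omega }
  rw [← Nat.card_congr e1, ← Nat.card_congr (Equiv.Perm.subtypeEquivSubtypePerm P),
    Nat.card_eq_fintype_card, Fintype.card_perm, ← Fintype.card_congr e2, Fintype.card_fin]

private theorem CE_bO_comm (ρ : Representation R (Equiv.Perm (Fin (m + k))) V)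
    (t : Tableau κ (Fin m)) {s : Equiv.Perm (Fin (m + k))} (hs : s ∈ fixer m k) :
    ρ s * bO (ρ.comp (up m k)) t = bO (ρ.comp (up m k)) t * ρ s := by
  have h0 : ∀ h : Equiv.Perm (Fin m),
      ρ s * (ρ.comp (up m k)) h = (ρ.comp (up m k)) h * ρ s := by
    intro h
    change ρ s * ρ (up m k h) = ρ (up m k h) * ρ s
    rw [← map_mul, ← map_mul, fixer_comm hs h]
  have h1 : ρ s * kapO (ρ.comp (up m k)) t = kapO (ρ.comp (up m k)) t * ρ s := by
    unfold kapO
    rw [Finset.mul_sum, Finset.sum_mul]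
    refine Finset.sum_congr rfl fun σ _ => ?_
    rw [mul_smul_comm, smul_mul_assoc, h0]
  have h2 : ρ s * rhoO (ρ.comp (up m k)) t = rhoO (ρ.comp (up m k)) t * ρ s := by
    unfold rhoO
    rw [Finset.mul_sum, Finset.sum_mul]
    exact Finset.sum_congr rfl fun σ _ => h0 σ
  unfold bO
  rw [← mul_assoc, h1, mul_assoc, h2, mul_assoc]

/-- the family of conjugates of the Young symmetrizer is equivariant (`fixer_comm`: the conjugate
does not depend on the representative of the coset). -/
theorem aO_fam (ρ : Representation R (Equiv.Perm (Fin (m + k))) V) (t : Tableau κ (Fin m))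
    (g : Equiv.Perm (Fin (m + k))) (q : Equiv.Perm (Fin (m + k)) ⧸ fixer m k) :
    ρ g * (ρ q.out * bO (ρ.comp (up m k)) t * ρ q.out⁻¹) * ρ g⁻¹ =
      ρ (g • q).out * bO (ρ.comp (up m k)) t * ρ (g • q).out⁻¹ := by
  set b := bO (ρ.comp (up m k)) t with hb
  obtain ⟨s, hs, hout⟩ : ∃ s ∈ fixer m k, (g • q).out = g * q.out * s := by
    refine ⟨(g * q.out)⁻¹ * (g • q).out, ?_, by group⟩
    rw [← QuotientGroup.eq, QuotientGroup.out_eq']
    conv_rhs => rw [← QuotientGroup.out_eq' q]
    rfl
  have hsb : ρ s * b * ρ s⁻¹ = b := by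
    rw [hb, CE_bO_comm ρ t hs, mul_assoc, ← map_mul, mul_inv_cancel, map_one, mul_one]
  rw [hout]
  have e1 : ρ (g * q.out * s) = ρ g * ρ q.out * ρ s := by rw [map_mul, map_mul]
  have e2 : ρ (g * q.out * s)⁻¹ = ρ s⁻¹ * (ρ q.out⁻¹ * ρ g⁻¹) := by
    rw [mul_inv_rev, mul_inv_rev, map_mul, map_mul]
  rw [e1, e2]
  calc ρ g * (ρ q.out * b * ρ q.out⁻¹) * ρ g⁻¹
      = ρ g * ρ q.out * b * (ρ q.out⁻¹ * ρ g⁻¹) := by simp only [mul_assoc]
    _ = ρ g * ρ q.out * (ρ s * b * ρ s⁻¹) * (ρ q.out⁻¹ * ρ g⁻¹) := by rw [hsb]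
    _ = _ := by simp only [mul_assoc]

theorem aO_comm (ρ : Representation R (Equiv.Perm (Fin (m + k))) V) (t : Tableau κ (Fin m))
    (g : Equiv.Perm (Fin (m + k))) : ρ g * aO ρ t = aO ρ t * ρ g := by
  have h1 : ρ g * aO ρ t * ρ g⁻¹ = aO ρ t := by
    unfold aO
    rw [Finset.mul_sum, Finset.sum_mul, Finset.sum_congr rfl fun q _ => aO_fam ρ t g q]
    exact Equiv.sum_comp (MulAction.toPerm g) (fun q : Equiv.Perm (Fin (m + k)) ⧸ fixer m k =>
      ρ q.out * bO (ρ.comp (up m k)) t * ρ q.out⁻¹)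
  calc ρ g * aO ρ t = ρ g * aO ρ t * (ρ g⁻¹ * ρ g) := by
        rw [← map_mul, inv_mul_cancel, map_one, mul_one]
    _ = (ρ g * aO ρ t * ρ g⁻¹) * ρ g := by simp only [mul_assoc]
    _ = aO ρ t * ρ g := by rw [h1]

private theorem CE_bO_val (R : Type*) [CommRing R] (t : Tableau κ (Fin m))
    (v : Specht R μ (Fin (m + k))) :
    Subtype.val (bO ((spechtRep R μ (Fin (m + k))).comp (up m k)) t v) =
      bO ((permRep R μ (Fin (m + k))).comp (up m k)) t v.1 := by
  have h1 : ∀ w : Specht R μ (Fin (m + k)),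
      Subtype.val (rhoO ((spechtRep R μ (Fin (m + k))).comp (up m k)) t w) =
      rhoO ((permRep R μ (Fin (m + k))).comp (up m k)) t w.1 := by
    intro w
    unfold rhoO
    rw [LinearMap.sum_apply, LinearMap.sum_apply, Submodule.coe_sum]
    rfl
  have h2 : ∀ w : Specht R μ (Fin (m + k)),
      Subtype.val (kapO ((spechtRep R μ (Fin (m + k))).comp (up m k)) t w) =
      kapO ((permRep R μ (Fin (m + k))).comp (up m k)) t w.1 := by
    intro w
    unfold kapO
    rw [LinearMap.sum_apply, LinearMap.sum_apply, Submodule.coe_sum]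
    rfl
  unfold bO
  rw [Module.End.mul_apply, Module.End.mul_apply, h2, h1]

/-- `aO` on the Specht module is the restriction of `aO` on the permutation module. -/
theorem aO_val (R : Type*) [CommRing R] (t : Tableau κ (Fin m))
    (v : Specht R μ (Fin (m + k))) :
    Subtype.val (aO (spechtRep R μ (Fin (m + k))) t v) =
      aO (permRep R μ (Fin (m + k))) t v.1 := by
  unfold aO
  rw [LinearMap.sum_apply, LinearMap.sum_apply, Submodule.coe_sum]
  refine Finset.sum_congr rfl fun q _ => ?_
  rw [Module.End.mul_apply, Module.End.mul_apply, Module.End.mul_apply, Module.End.mul_apply,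
    spechtRep_val, CE_bO_val, spechtRep_val]

/-- base change of tabloid vectors -/
private noncomputable def CE_Φ (R : Type*) [CommRing R] (ν : YoungDiagram) (n : ℕ) :
    (Tabloid ν (Fin n) →₀ ℤ) →+ (Tabloid ν (Fin n) →₀ R) :=
  Finsupp.mapRange.addMonoidHom (Int.castAddHom R)

private theorem CE_Φ_apply (R : Type*) [CommRing R] (ν : YoungDiagram) (n : ℕ)
    (v : Tabloid ν (Fin n) →₀ ℤ) (f : Tabloid ν (Fin n)) : CE_Φ R ν n v f = ((v f : ℤ) : R) := rfl

private theorem CE_Φ_single (R : Type*) [CommRing R] (ν : YoungDiagram) (n : ℕ)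
    (f : Tabloid ν (Fin n)) (z : ℤ) :
    CE_Φ R ν n (Finsupp.single f z) = Finsupp.single f (z : R) := by
  change Finsupp.mapRange (Int.castAddHom R) (map_zero _) _ = _
  rw [Finsupp.mapRange_single]
  rfl

private theorem CE_Φ_smul (R : Type*) [CommRing R] (ν : YoungDiagram) (n : ℕ)
    (z : ℤ) (v : Tabloid ν (Fin n) →₀ ℤ) : CE_Φ R ν n (z • v) = (z : R) • CE_Φ R ν n v := by
  ext f
  rw [CE_Φ_apply, Finsupp.smul_apply, Finsupp.smul_apply, CE_Φ_apply, smul_eq_mul, smul_eq_mul,
    Int.cast_mul]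

private theorem CE_Φ_perm (R : Type*) [CommRing R] (ν : YoungDiagram) (n : ℕ)
    (σ : Equiv.Perm (Fin n)) (v : Tabloid ν (Fin n) →₀ ℤ) :
    CE_Φ R ν n (permRep ℤ ν (Fin n) σ v) = permRep R ν (Fin n) σ (CE_Φ R ν n v) := by
  induction v using Finsupp.induction_linear with
  | zero => simp only [map_zero]
  | add x y hx hy => simp only [map_add, hx, hy]
  | single f z => rw [permRep_single, CE_Φ_single, CE_Φ_single, permRep_single]

private theorem CE_Φ_aO (R : Type*) [CommRing R] (ν : YoungDiagram) (t : Tableau κ (Fin m))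
    (v : Tabloid ν (Fin (m + k)) →₀ ℤ) :
    CE_Φ R ν (m + k) (aO (permRep ℤ ν (Fin (m + k))) t v) =
      aO (permRep R ν (Fin (m + k))) t (CE_Φ R ν (m + k) v) := by
  have h1 : ∀ w, CE_Φ R ν (m + k) (rhoO ((permRep ℤ ν (Fin (m + k))).comp (up m k)) t w) =
      rhoO ((permRep R ν (Fin (m + k))).comp (up m k)) t (CE_Φ R ν (m + k) w) := by
    intro w
    unfold rhoO
    rw [LinearMap.sum_apply, LinearMap.sum_apply, map_sum]
    exact Finset.sum_congr rfl fun σ _ => CE_Φ_perm R ν (m + k) (up m k σ) w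
  have h2 : ∀ w, CE_Φ R ν (m + k) (kapO ((permRep ℤ ν (Fin (m + k))).comp (up m k)) t w) =
      kapO ((permRep R ν (Fin (m + k))).comp (up m k)) t (CE_Φ R ν (m + k) w) := by
    intro w
    unfold kapO
    rw [LinearMap.sum_apply, LinearMap.sum_apply, map_sum]
    refine Finset.sum_congr rfl fun σ _ => ?_
    rw [LinearMap.smul_apply, LinearMap.smul_apply]
    have := CE_Φ_smul R ν (m + k) ((Equiv.Perm.sign σ : ℤˣ) : ℤ)
      (((permRep ℤ ν (Fin (m + k))).comp (up m k)) σ w)
    rw [Int.cast_id, this]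
    congr 1
    exact CE_Φ_perm R ν (m + k) (up m k σ) w
  unfold aO
  rw [LinearMap.sum_apply, LinearMap.sum_apply, map_sum]
  refine Finset.sum_congr rfl fun q _ => ?_
  rw [Module.End.mul_apply, Module.End.mul_apply, Module.End.mul_apply, Module.End.mul_apply,
    CE_Φ_perm]
  congr 1
  unfold bO
  rw [Module.End.mul_apply, Module.End.mul_apply, h2, h1, CE_Φ_perm]

private theorem CE_theta (t : Tableau κ (Fin m)) (u : Tableau μ (Fin (m + k))) :
    ∃ θ : ℤ, aO (permRep ℤ μ (Fin (m + k))) t (polytabloid ℤ u) = θ • polytabloid ℤ u := by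
  -- commutation with `kapO`
  have hc : kapO (permRep ℤ μ (Fin (m + k))) u * aO (permRep ℤ μ (Fin (m + k))) t =
      aO (permRep ℤ μ (Fin (m + k))) t * kapO (permRep ℤ μ (Fin (m + k))) u := by
    unfold kapO
    rw [Finset.mul_sum, Finset.sum_mul]
    refine Finset.sum_congr rfl fun σ _ => ?_
    rw [mul_smul_comm, smul_mul_assoc, aO_comm]
  obtain ⟨θ, hθ⟩ := kapO_eq_smul ℤ u
    (aO (permRep ℤ μ (Fin (m + k))) t (Finsupp.single u.tabloid 1))
  exact ⟨θ, by
    rw [← hθ, ← kapO_tabloid (R := ℤ) u, ← Module.End.mul_apply, ← Module.End.mul_apply, hc]⟩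

private theorem CE_theta2 (R : Type*) [CommRing R] (t : Tableau κ (Fin m))
    (u : Tableau μ (Fin (m + k))) (θ : ℤ)
    (hu : aO (permRep ℤ μ (Fin (m + k))) t (polytabloid ℤ u) = θ • polytabloid ℤ u)
    (v : Tabloid μ (Fin (m + k)) →₀ R) (hv : v ∈ Specht R μ (Fin (m + k))) :
    aO (permRep R μ (Fin (m + k))) t v = (θ : R) • v := by
  have hΦ : ∀ u' : Tableau μ (Fin (m + k)), CE_Φ R μ (m + k) (polytabloid ℤ u') =
      polytabloid R u' := by
    intro u'
    ext f
    rw [CE_Φ_apply, ← polytabloid_cast]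
  have huR : aO (permRep R μ (Fin (m + k))) t (polytabloid R u) = (θ : R) • polytabloid R u := by
    rw [← hΦ, ← CE_Φ_aO, hu, CE_Φ_smul]
  unfold Specht at hv
  induction hv using Submodule.span_induction with
  | mem x hx =>
    obtain ⟨u', rfl⟩ := hx
    have hg : u' = Tableau.act (u.trans u'.symm) u := by
      apply Equiv.ext
      intro a
      change u' a = u ((u.trans u'.symm)⁻¹ a)
      have : (u.trans u'.symm)⁻¹ a = u.symm (u' a) := rfl
      rw [this, Equiv.apply_symm_apply]
    dsimp only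
    rw [hg, ← permRep_polytabloid, ← Module.End.mul_apply, ← aO_comm, Module.End.mul_apply, huR,
      map_smul]
  | zero => rw [map_zero, smul_zero]
  | add x y _ _ hx hy => rw [map_add, hx, hy, smul_add]
  | smul c x _ hx => rw [map_smul, hx, smul_comm]

/-- `aO` acts on the Specht modules over all rings by one integer `θ`.

Sketch.  If there is no `μ`-tableau, `S^μ = 0` and `θ = 0` works.  Fix a tableau `u`.
`aO` commutes with all `ρ g`, so with `κ_u`; over any ring
`aO e_u = aO κ_u {u} = κ_u (aO {u})`, and `aO {u} = ∑_f z_f f` with integers `z_f`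
which do not depend on the ring, so `aO e_u = θ e_u` with `θ = ∑_f z_f jc u f` (`kapO_single`).
For another tableau `u' = g u`, `e_{u'} = g e_u` (`permRep_polytabloid`) and `aO` commutes with
`g`. -/
theorem exists_theta (F : Type*) [Field F] (t : Tableau κ (Fin m)) (μ : YoungDiagram) (k : ℕ) :
    ∃ θ : ℤ, (∀ v ∈ Specht ℚ μ (Fin (m + k)),
        aO (permRep ℚ μ (Fin (m + k))) t v = (θ : ℚ) • v) ∧
      (∀ v ∈ Specht F μ (Fin (m + k)),
        aO (permRep F μ (Fin (m + k))) t v = (θ : F) • v) := by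
  rcases isEmpty_or_nonempty (Tableau μ (Fin (m + k))) with he | ⟨⟨u⟩⟩
  · refine ⟨0, fun v hv => ?_, fun v hv => ?_⟩
    · rw [Specht, Set.range_eq_empty, Submodule.span_empty, Submodule.mem_bot] at hv
      rw [hv, map_zero, smul_zero]
    · rw [Specht, Set.range_eq_empty, Submodule.span_empty, Submodule.mem_bot] at hv
      rw [hv, map_zero, smul_zero]
  · obtain ⟨θ, hθ⟩ := CE_theta t u
    exact ⟨θ, CE_theta2 ℚ t u θ hθ, CE_theta2 F t u θ hθ⟩

/-- the trace of `aO` is the index times the trace of the Young symmetrizer. -/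
theorem trace_aO (t : Tableau κ (Fin m)) (μ : YoungDiagram) (k : ℕ) :
    LinearMap.trace ℚ (Specht ℚ μ (Fin (m + k))) (aO (spechtRep ℚ μ (Fin (m + k))) t) =
      (Nat.card (Equiv.Perm (Fin (m + k)) ⧸ fixer m k) : ℚ) *
        LinearMap.trace ℚ (Specht ℚ μ (Fin (m + k)))
          (bO ((spechtRep ℚ μ (Fin (m + k))).comp (up m k)) t) := by
  unfold aO
  rw [map_sum, Finset.sum_congr rfl fun q _ => ?_, Finset.sum_const, nsmul_eq_mul,
    Finset.card_univ, ← Nat.card_eq_fintype_card]
  rw [mul_assoc, LinearMap.trace_mul_comm, mul_assoc, ← map_mul, inv_mul_cancel, map_one, mul_one]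

end SPV
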