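import Pool.Agent.SPV.D2

/-!
# SPV / HK : the hook product in terms of beta numbers
-/

set_option linter.unusedSectionVars false

namespace SPV

open Finset

/-- Sketch.  `b_i! = ∏_{a < b_i} (b_i - a)`; the `a` which are beta numbers `b_j < b_i` (i.e. `j > i`)
give together `Vd b`. -/
theorem hook_identity {k : ℕ} (b : Fin k → ℕ) (hb : StrictAnti b) :
    ∏ i, ((b i).factorial : ℤ) = Vd b *
      ∏ i, ∏ a ∈ (range (b i)).filter (fun a => ∀ j, b j ≠ a), ((b i : ℤ) - (a : ℤ)) := by
  unfold Vd
  rw [← Finset.prod_mul_distrib]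
  refine Finset.prod_congr rfl (fun i _ => ?_)
  have h1 : ((b i).factorial : ℤ) = ∏ a ∈ range (b i), ((b i : ℤ) - (a : ℤ)) := by
    rw [← Nat.descFactorial_self, Nat.descFactorial_eq_prod_range, Nat.cast_prod]
    refine Finset.prod_congr rfl (fun a ha => ?_)
    rw [Nat.cast_sub (Finset.mem_range.mp ha).le]
  rw [h1, ← Finset.prod_filter_mul_prod_filter_not (range (b i)) (fun a => ∃ j, b j = a)]
  congr 1
  · symm
    refine Finset.prod_bij (fun j _ => b j) ?_ ?_ ?_ ?_
    · intro j hj
      rw [Finset.mem_filter, Finset.mem_range]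
      exact ⟨hb (Finset.mem_Ioi.mp hj), j, rfl⟩
    · intro j _ j' _ h
      exact hb.injective h
    · intro a ha
      rw [Finset.mem_filter, Finset.mem_range] at ha
      obtain ⟨h2, j, rfl⟩ := ha
      exact ⟨j, Finset.mem_Ioi.mpr (hb.lt_iff_gt.mp h2), rfl⟩
    · intro j _
      rfl
  · refine Finset.prod_congr ?_ (fun _ _ => rfl)
    ext a
    simp only [Finset.mem_filter, not_exists, ne_eq]

end SPV
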