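import Pool.Agent.SPV.NA

/-!
# SPV / KC : the 2-core in terms of beta numbers
-/

set_option linter.unusedSectionVars false

namespace SPV

open Finset

/-- a diagram with given beta numbers (`YoungDiagram.ofRowLens` with row lengths
`b i - (k - 1 - i)`; strictly decreasing gives `b i ≥ k - 1 - i`). -/
theorem exists_bet {k : ℕ} (b : Fin k → ℕ) (hb : StrictAnti b) :
    ∃ κ : YoungDiagram, κ.colLen 0 ≤ k ∧ bet κ k = b := by
  have hstep : ∀ (d : ℕ) (i j : Fin k), (j : ℕ) = i + d → b j + d ≤ b i := by
    intro d
    induction d with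
    | zero =>
      intro i j h
      have : j = i := Fin.ext (by omega)
      rw [this]
      omega
    | succ d ih =>
      intro i j h
      have h1 := ih i ⟨i + d, by have := j.2; omega⟩ rfl
      have h2 : b j < b ⟨i + d, by have := j.2; omega⟩ := hb (by
        rw [Fin.lt_def]; show (i : ℕ) + d < j; omega)
      omega
  have hlow : ∀ i : Fin k, k - 1 - i ≤ b i := by
    intro i
    have h1 := hstep (k - 1 - i) i ⟨k - 1, by have := i.2; omega⟩
      (by show k - 1 = i + (k - 1 - i); have := i.2; omega)
    omega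
  have hsort : (List.ofFn (fun i : Fin k => b i - (k - 1 - i))).SortedGE := by
    rw [List.sortedGE_ofFn_iff]
    intro i j hij
    have h1 := hstep (j - i) i j (by have : (i : ℕ) ≤ j := hij; omega)
    have h2 := hlow i
    have h3 := hlow j
    have h4 : (i : ℕ) ≤ j := hij
    have h5 := j.2
    show b j - (k - 1 - j) ≤ b i - (k - 1 - i)
    omega
  refine ⟨YoungDiagram.ofRowLens _ hsort, ?_, ?_⟩
  · by_contra hcon
    push Not at hcon
    rw [← YoungDiagram.mem_iff_lt_colLen, YoungDiagram.mem_ofRowLens] at hcon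
    obtain ⟨h1, -⟩ := hcon
    rw [List.length_ofFn] at h1
    exact lt_irrefl _ h1
  · funext i
    have hi : (i : ℕ) < (List.ofFn (fun i : Fin k => b i - (k - 1 - i))).length := by
      rw [List.length_ofFn]; exact i.2
    have h1 := YoungDiagram.rowLen_ofRowLens (hw := hsort) ⟨i, hi⟩
    have h2 : (List.ofFn (fun i : Fin k => b i - (k - 1 - i))).get ⟨i, hi⟩ = b i - (k - 1 - i) := by
      simp
    have h3 := hlow i
    unfold bet
    have h4 : (YoungDiagram.ofRowLens _ hsort).rowLen (i : ℕ) = b i - (k - 1 - i) := h1.trans h2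
    rw [h4]
    omega

/-- push the beta number `b i` down as far as possible inside its parity class -/
def cr {k : ℕ} (b : Fin k → ℕ) (i : Fin k) : ℕ :=
  2 * (univ.filter (fun j => b j < b i ∧ b j % 2 = b i % 2)).card + b i % 2

theorem cr_mod {k : ℕ} (b : Fin k → ℕ) (i : Fin k) : cr b i % 2 = b i % 2 := by
  unfold cr
  omega

private theorem kc_card_lt {k : ℕ} (b : Fin k → ℕ) {i j : Fin k} (h : b i < b j)
    (hp : b i % 2 = b j % 2) :
    (univ.filter (fun l => b l < b i ∧ b l % 2 = b i % 2)).card <
      (univ.filter (fun l => b l < b j ∧ b l % 2 = b j % 2)).card := by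
  apply Finset.card_lt_card
  rw [Finset.ssubset_iff_of_subset]
  · refine ⟨i, ?_, ?_⟩
    · rw [Finset.mem_filter]; exact ⟨Finset.mem_univ _, h, hp⟩
    · rw [Finset.mem_filter]; rintro ⟨-, h1, -⟩; exact lt_irrefl _ h1
  · intro l hl
    rw [Finset.mem_filter] at hl ⊢
    exact ⟨hl.1, hl.2.1.trans h, hl.2.2.trans hp⟩

theorem cr_injective {k : ℕ} (b : Fin k → ℕ) (hb : Function.Injective b) :
    Function.Injective (cr b) := by
  intro i j hij
  have h1 := cr_mod b i
  have h2 := cr_mod b j
  have hp : b i % 2 = b j % 2 := by rw [← h1, ← h2, hij]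
  have hc : (univ.filter (fun l => b l < b i ∧ b l % 2 = b i % 2)).card =
      (univ.filter (fun l => b l < b j ∧ b l % 2 = b j % 2)).card := by
    unfold cr at hij
    omega
  rcases lt_trichotomy (b i) (b j) with h | h | h
  · exact absurd hc (kc_card_lt b h hp).ne
  · exact hb h
  · exact absurd hc (kc_card_lt b h hp.symm).ne'

private theorem kc_card_par (n : ℕ) :
    ((range n).filter (fun a => a % 2 = n % 2)).card = n / 2 := by
  have h1 : (range n).filter (fun a => a % 2 = n % 2) =
      (range (n / 2)).image (fun c => 2 * c + n % 2) := by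
    ext a
    rw [Finset.mem_filter, Finset.mem_image, Finset.mem_range]
    constructor
    · rintro ⟨h1, h2⟩
      exact ⟨a / 2, by rw [Finset.mem_range]; omega, by omega⟩
    · rintro ⟨c, hc, rfl⟩
      rw [Finset.mem_range] at hc
      omega
  rw [h1, Finset.card_image_of_injective _ (fun x y h => by
    have h' : 2 * x + n % 2 = 2 * y + n % 2 := h
    omega),
    Finset.card_range]

/-- Sketch.  The `a < b i` with `a ≡ b i` mod 2 number `(b i - b i % 2) / 2`; they are either beta
numbers (counted by `cr`) or not. -/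
theorem cr_count {k : ℕ} (b : Fin k → ℕ) (hb : Function.Injective b) (i : Fin k) :
    b i = cr b i +
      2 * ((range (b i)).filter (fun a => (∀ j, b j ≠ a) ∧ a % 2 = b i % 2)).card := by
  have h1 := kc_card_par (b i)
  rw [← Finset.card_filter_add_card_filter_not (s := (range (b i)).filter
    (fun a => a % 2 = b i % 2)) (fun a => ∀ j, b j ≠ a)] at h1
  have h2 : ((range (b i)).filter (fun a => a % 2 = b i % 2)).filter (fun a => ∀ j, b j ≠ a) =
      (range (b i)).filter (fun a => (∀ j, b j ≠ a) ∧ a % 2 = b i % 2) := by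
    ext a
    simp only [Finset.mem_filter]
    tauto
  have h3 : (((range (b i)).filter (fun a => a % 2 = b i % 2)).filter
      (fun a => ¬ ∀ j, b j ≠ a)).card =
      (univ.filter (fun j => b j < b i ∧ b j % 2 = b i % 2)).card := by
    symm
    refine Finset.card_bij (fun j _ => b j) ?_ ?_ ?_
    · intro j hj
      rw [Finset.mem_filter] at hj
      rw [Finset.mem_filter, Finset.mem_filter, Finset.mem_range]
      exact ⟨⟨hj.2.1, hj.2.2⟩, fun h => h j rfl⟩
    · intro j _ j' _ h
      exact hb h
    · intro a ha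
      rw [Finset.mem_filter, Finset.mem_filter, Finset.mem_range] at ha
      obtain ⟨⟨h4, h5⟩, h6⟩ := ha
      push Not at h6
      obtain ⟨j, rfl⟩ := h6
      exact ⟨j, by rw [Finset.mem_filter]; exact ⟨Finset.mem_univ _, h4, h5⟩, rfl⟩
  rw [h2, h3] at h1
  unfold cr
  omega

/-- In the new set every smaller number of the same parity is present. -/
theorem cr_down {k : ℕ} (b : Fin k → ℕ) (hb : Function.Injective b) (i : Fin k) (a : ℕ)
    (ha : a < cr b i) (hpar : a % 2 = cr b i % 2) : ∃ j, cr b j = a := by
  have hp := cr_mod b i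
  have hac : a / 2 < (univ.filter (fun j => b j < b i ∧ b j % 2 = b i % 2)).card := by
    unfold cr at ha hpar
    omega
  have himg : (univ.filter (fun j => b j < b i ∧ b j % 2 = b i % 2)).image
      (fun j => (univ.filter (fun l => b l < b j ∧ b l % 2 = b j % 2)).card) =
      range (univ.filter (fun j => b j < b i ∧ b j % 2 = b i % 2)).card := by
    apply Finset.eq_of_subset_of_card_le
    · intro c hc
      obtain ⟨j, hj, rfl⟩ := Finset.mem_image.mp hc
      rw [Finset.mem_filter] at hj
      rw [Finset.mem_range]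
      exact kc_card_lt b hj.2.1 hj.2.2
    · rw [Finset.card_range, Finset.card_image_of_injOn]
      intro j hj j' hj' h
      rw [Finset.mem_coe, Finset.mem_filter] at hj hj'
      have hpp : b j % 2 = b j' % 2 := hj.2.2.trans hj'.2.2.symm
      simp only at h
      rcases lt_trichotomy (b j) (b j') with h1 | h1 | h1
      · exact absurd h (kc_card_lt b h1 hpp).ne
      · exact hb h1
      · exact absurd h (kc_card_lt b h1 hpp.symm).ne'
  have hmem : a / 2 ∈ (univ.filter (fun j => b j < b i ∧ b j % 2 = b i % 2)).image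
      (fun j => (univ.filter (fun l => b l < b j ∧ b l % 2 = b j % 2)).card) := by
    rw [himg, Finset.mem_range]; exact hac
  obtain ⟨j, hj, hja⟩ := Finset.mem_image.mp hmem
  rw [Finset.mem_filter] at hj
  refine ⟨j, ?_⟩
  have h1 := hj.2.2
  unfold cr
  rw [hja]
  omega

/-- sorting an injective sequence decreasingly -/
theorem exists_sort {k : ℕ} (c : Fin k → ℕ) (hc : Function.Injective c) :
    ∃ σ : Equiv.Perm (Fin k), StrictAnti (c ∘ σ) := by
  have h1 : Monotone ((OrderDual.toDual ∘ c) ∘ Tuple.sort (OrderDual.toDual ∘ c)) :=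
    Tuple.monotone_sort (OrderDual.toDual ∘ c)
  refine ⟨Tuple.sort (OrderDual.toDual ∘ c), ?_⟩
  have h2 : Antitone (c ∘ Tuple.sort (OrderDual.toDual ∘ c)) := fun x y hxy => h1 hxy
  exact h2.strictAnti_of_injective (hc.comp (Tuple.sort (OrderDual.toDual ∘ c)).injective)

end SPV
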