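import Pool.Agent.SPV.PB
import Pool.Agent.SPV.HK
import Pool.Agent.SPV.KC

/-!
# SPV / CO : the combinatorial theorem on 2-cores
-/

set_option linter.unusedSectionVars false

namespace SPV

open Finset

private theorem CO_two_pow_dvd (b : ℕ) (S : ℕ → Prop) [DecidablePred S] :
    (2 : ℤ) ^ ((range b).filter (fun a => S a ∧ a % 2 = b % 2)).card ∣
      ∏ a ∈ (range b).filter S, ((b : ℤ) - (a : ℤ)) := by
  rw [← Finset.prod_filter_mul_prod_filter_not ((range b).filter S) (fun a => a % 2 = b % 2)]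
  refine Dvd.dvd.mul_right ?_ _
  rw [Finset.filter_filter, ← Finset.prod_const]
  apply Finset.prod_dvd_prod_of_dvd
  intro a ha
  rw [Finset.mem_filter] at ha
  have h := ha.2.2
  omega

/-- Sketch.  `b = bet μ k` (strictly decreasing), `c = cr b` (injective, `c ≡ b` mod 2),
`kk = c ∘ σ` strictly decreasing (`exists_sort`), `κ` with `bet κ k = kk` (`exists_bet`),
`w_i = #{a < b_i | a ∉ B, a ≡ b_i}`, `w = ∑ w_i`; `∑ b = ∑ c + 2 w` (`cr_count`), so
`μ.card = κ.card + 2 w` (`sum_bet`).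
`Dt_parity b c kk`: `Dt b kk = P * Vd b`, `Dt c kk = H * Vd c`, `P ≡ H`.  `c = kk ∘ σ⁻¹`, so
(`Dt_comp_perm`, `Vd_comp_perm`, `Dt_self`) `∏ kk! = H * Vd kk`.  By `hook_identity` for `kk` and
`Vd_pos`, `H = ∏_i ∏_{a < kk_i, a ∉ KK} (kk_i - a)`, and all factors are odd by `cr_down`.
So `H` and `P` are odd.  By `hook_identity` for `b`, `∏ b! = Vd b * ∏_i ∏_{a ∉ B, a < b_i} (b_i - a)` and
for each `i` there are `w_i` even factors, so the product is divisible by `2 ^ w`. -/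
theorem core_exists (μ : YoungDiagram) (k : ℕ) (hk : μ.colLen 0 ≤ k) :
    ∃ (κ : YoungDiagram) (w : ℕ) (H P H' : ℤ), κ.colLen 0 ≤ k ∧ μ.card = κ.card + 2 * w ∧
      H % 2 = 1 ∧ P % 2 = 1 ∧
      ∏ i, ((bet κ k i).factorial : ℤ) = H * Vd (bet κ k) ∧
      Dt (bet μ k) (bet κ k) = P * Vd (bet μ k) ∧
      ∏ i, ((bet μ k i).factorial : ℤ) = 2 ^ w * H' * Vd (bet μ k) := by
  have hb : StrictAnti (bet μ k) := bet_strictAnti μ k
  generalize hbd : bet μ k = b at hb ⊢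
  have hbi := hb.injective
  have hc : Function.Injective (cr b) := cr_injective b hbi
  obtain ⟨σ, hσ⟩ := exists_sort (cr b) hc
  obtain ⟨κ, hκ, hκb⟩ := exists_bet (cr b ∘ σ) hσ
  have hcount := cr_count b hbi
  set w : Fin k → ℕ := fun i =>
    ((range (b i)).filter (fun a => (∀ j, b j ≠ a) ∧ a % 2 = b i % 2)).card with hw
  obtain ⟨P, H, hP, hH, hPH⟩ := Dt_parity b (cr b) (cr b ∘ σ) (fun i => (cr_mod b i).symm)
  -- the sorted determinant
  have h1 : Dt (cr b ∘ σ) (cr b ∘ σ) = H * Vd (cr b ∘ σ) := by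
    rw [Dt_comp_perm (cr b) (cr b ∘ σ) σ, Vd_comp_perm (cr b) σ, hH]
    ring
  have h2 : ∏ i, (((cr b ∘ σ) i).factorial : ℤ) = H * Vd (cr b ∘ σ) := by
    rw [← Dt_self (cr b ∘ σ) hσ.injective, h1]
  have hV := Vd_pos hσ
  have h3 : H = ∏ i, ∏ a ∈ (range ((cr b ∘ σ) i)).filter (fun a => ∀ j, (cr b ∘ σ) j ≠ a),
      (((cr b ∘ σ) i : ℤ) - (a : ℤ)) := by
    have h4 := hook_identity (cr b ∘ σ) hσ
    rw [h2, mul_comm] at h4
    exact mul_left_cancel₀ hV.ne' h4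
  have hodd : Odd H := by
    rw [h3]
    refine Finset.prod_induction _ (fun x : ℤ => Odd x) (fun _ _ => Odd.mul) odd_one ?_
    intro i _
    refine Finset.prod_induction _ (fun x : ℤ => Odd x) (fun _ _ => Odd.mul) odd_one ?_
    intro a ha
    rw [Finset.mem_filter, Finset.mem_range] at ha
    obtain ⟨ha1, ha2⟩ := ha
    have hne : a % 2 ≠ (cr b ∘ σ) i % 2 := by
      intro hpar
      obtain ⟨j, hj⟩ := cr_down b hbi (σ i) a ha1 hpar
      exact ha2 (σ.symm j) (by rw [Function.comp_apply, Equiv.apply_symm_apply, hj])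
    rw [Int.odd_iff]
    omega
  have hH1 : H % 2 = 1 := Int.odd_iff.mp hodd
  -- divisibility by the power of two
  have h5 : (2 : ℤ) ^ (∑ i, w i) ∣
      ∏ i, ∏ a ∈ (range (b i)).filter (fun a => ∀ j, b j ≠ a), ((b i : ℤ) - (a : ℤ)) := by
    rw [← Finset.prod_pow_eq_pow_sum]
    apply Finset.prod_dvd_prod_of_dvd
    intro i _
    exact CO_two_pow_dvd (b i) (fun a => ∀ j, b j ≠ a)
  obtain ⟨H', hH'⟩ := h5
  refine ⟨κ, ∑ i, w i, H, P, H', hκ, ?_, hH1, hPH.trans hH1, ?_, ?_, ?_⟩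
  · have e1 := sum_bet μ k hk
    have e2 := sum_bet κ k hκ
    rw [hbd] at e1
    rw [hκb] at e2
    have e3 : ∑ i : Fin k, (((cr b ∘ σ) i : ℕ) : ℤ) = ∑ i : Fin k, ((cr b i : ℕ) : ℤ) :=
      Equiv.sum_comp σ (fun i => ((cr b i : ℕ) : ℤ))
    have e4 : ∑ i : Fin k, (b i : ℤ) = ∑ i : Fin k, ((cr b i : ℕ) : ℤ) + 2 * ∑ i, (w i : ℤ) := by
      rw [Finset.mul_sum, ← Finset.sum_add_distrib]
      refine Finset.sum_congr rfl (fun i _ => ?_)
      have h := hcount i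
      have h' : b i = cr b i + 2 * w i := h
      calc (b i : ℤ) = ((cr b i + 2 * w i : ℕ) : ℤ) := by rw [← h']
        _ = _ := by push_cast; ring
    have e5 : ((∑ i, w i : ℕ) : ℤ) = ∑ i, (w i : ℤ) := by push_cast; rfl
    have : (μ.card : ℤ) = (κ.card : ℤ) + 2 * ((∑ i, w i : ℕ) : ℤ) := by
      rw [e5]; linarith
    exact_mod_cast this
  · rw [hκb]; exact h2
  · rw [hκb]; exact hP
  · rw [hook_identity b hb, hH']
    ring

end SPV
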