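import Mathlib

/-!
# SPV / D1 : definitions of Part I (abstract relative projectivity, characteristic 2)

`G` is a finite group, `ρ : Representation F G V`, `V` finite dimensional.
-/

namespace SPV

open scoped BigOperators

variable {F G V : Type*} [Field F] [Group G] [AddCommGroup V] [Module F V]

/-- `a` commutes with all `ρ p`, `p ∈ P`, i.e. `a ∈ End_{FP}(V)`. -/
def Cm (ρ : Representation F G V) (P : Subgroup G) (a : Module.End F V) : Prop :=
  ∀ p ∈ P, ρ p * a = a * ρ p

/-- rank of an endomorphism -/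
noncomputable def rk (e : Module.End F V) : ℕ := Module.finrank F (LinearMap.range e)

/-- `a` lies in the corner `f End_{FP}(V) f`. -/
structure InC (ρ : Representation F G V) (P : Subgroup G) (f a : Module.End F V) : Prop where
  cm : Cm ρ P a
  l : f * a = a
  r : a * f = a

/-- `f` is a primitive idempotent of `End_{FP}(V)`. -/
structure Prim (ρ : Representation F G V) (P : Subgroup G) (f : Module.End F V) : Prop where
  ne : f ≠ 0
  idem : f * f = f
  cm : Cm ρ P f
  prim : ∀ e : Module.End F V, e * e = e → InC ρ P f e → e = 0 ∨ e = f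

/-- `P = P₁ ∪ y P₁` with `y ∈ P \ P₁`, i.e. `P₁` has index two in `P`. -/
structure Half (P P₁ : Subgroup G) (y : G) : Prop where
  le : P₁ ≤ P
  mem : y ∈ P
  nmem : y ∉ P₁
  cov : ∀ p ∈ P, p ∉ P₁ → y⁻¹ * p ∈ P₁

/-- `V` is relatively `H`-projective, in Higman's form: there is a `G`-equivariant family
`Φ` of endomorphisms indexed by `G ⧸ H` with sum `1` (so `Φ H` commutes with `H` and the
relative trace of `Φ H` from `H` to `G` is `1`). -/
def TrOne (ρ : Representation F G V) (H : Subgroup G) : Prop :=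
  ∃ (_ : Fintype (G ⧸ H)) (Φ : G ⧸ H → Module.End F V),
    (∀ (g : G) (x : G ⧸ H), ρ g * Φ x * ρ g⁻¹ = Φ (g • x)) ∧ ∑ x, Φ x = 1

/-- The operator identity behind the key trace identity. -/
def HasE (ρ : Representation F G V) (g t s : G) : Prop :=
  ∃ E : Module.End F V, ρ g * E * ρ g⁻¹ = E + 1 + ρ t +
    (ρ s + ρ (g * s * g⁻¹) + ρ (g ^ 2 * s * (g ^ 2)⁻¹) + ρ (g ^ 3 * s * (g ^ 3)⁻¹))

/-- `V` is a direct summand of `Ind_H^G Res_H V` (Green's relative projectivity). -/
def IsRelProj (ρ : Representation F G V) (H : Subgroup G) : Prop :=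
  ∃ (i : V →ₗ[F] Representation.IndV H.subtype (ρ.comp H.subtype))
    (p : Representation.IndV H.subtype (ρ.comp H.subtype) →ₗ[F] V),
    (∀ g v, i (ρ g v) = Representation.ind H.subtype (ρ.comp H.subtype) g (i v)) ∧
    (∀ g x, p (Representation.ind H.subtype (ρ.comp H.subtype) g x) = ρ g (p x)) ∧
    p ∘ₗ i = LinearMap.id

/-- a vertex of `V`: a minimal subgroup `Q` such that `V` is a direct summand of
`Ind_Q^G Res_Q V`. -/
def IsVertex (ρ : Representation F G V) (Q : Subgroup G) : Prop :=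
  Minimal (fun H : Subgroup G => IsRelProj ρ H) Q

/-- indecomposable representation -/
def IsIndec (ρ : Representation F G V) : Prop :=
  Nontrivial V ∧ ∀ U W : Submodule F V, (∀ g, ∀ u ∈ U, ρ g u ∈ U) → (∀ g, ∀ w ∈ W, ρ g w ∈ W) →
    IsCompl U W → U = ⊥ ∨ W = ⊥

namespace Half

variable {P P₁ : Subgroup G} {y : G}

theorem sq (h : Half P P₁ y) : y * y ∈ P₁ := by
  by_contra hc
  have := h.cov (y * y) (P.mul_mem h.mem h.mem) hc
  rw [inv_mul_cancel_left] at this
  exact h.nmem this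

theorem norm (h : Half P P₁ y) {p : G} (hp : p ∈ P₁) : y * p * y⁻¹ ∈ P₁ := by
  by_contra hc
  have h1 := h.cov (y * p * y⁻¹) (P.mul_mem (P.mul_mem h.mem (h.le hp)) (P.inv_mem h.mem)) hc
  have h2 : y⁻¹ * (y * p * y⁻¹) = p * y⁻¹ := by group
  rw [h2] at h1
  have h3 := P₁.mul_mem (P₁.inv_mem hp) h1
  rw [inv_mul_cancel_left] at h3
  exact h.nmem (by simpa using P₁.inv_mem h3)

theorem norm' (h : Half P P₁ y) {p : G} (hp : p ∈ P₁) : y⁻¹ * p * y ∈ P₁ := by
  have h1 : y⁻¹ * p * y = (y * y)⁻¹ * (y * p * y⁻¹) * (y * y) := by group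
  rw [h1]
  exact P₁.mul_mem (P₁.mul_mem (P₁.inv_mem h.sq) (h.norm hp)) h.sq

theorem change (h : Half P P₁ y) {z : G} (hz : z ∈ P) (hz1 : z ∉ P₁) : Half P P₁ z := by
  refine ⟨h.le, hz, hz1, fun p hp hp1 => ?_⟩
  have h1 := h.cov z hz hz1
  have h2 := h.cov p hp hp1
  have h3 : z⁻¹ * p = (y⁻¹ * z)⁻¹ * (y⁻¹ * p) := by group
  rw [h3]
  exact P₁.mul_mem (P₁.inv_mem h1) h2

end Half

/-- `a` commutes with `P₁ ≤ P` if it commutes with `P`. -/
theorem Cm.mono {ρ : Representation F G V} {P P₁ : Subgroup G} (h : P₁ ≤ P)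
    {a : Module.End F V} (ha : Cm ρ P a) : Cm ρ P₁ a := fun p hp => ha p (h hp)

theorem Cm.add {ρ : Representation F G V} {P : Subgroup G}
    {a b : Module.End F V} (ha : Cm ρ P a) (hb : Cm ρ P b) : Cm ρ P (a + b) := by
  intro p hp; rw [mul_add, add_mul, ha p hp, hb p hp]

theorem Cm.sub {ρ : Representation F G V} {P : Subgroup G}
    {a b : Module.End F V} (ha : Cm ρ P a) (hb : Cm ρ P b) : Cm ρ P (a - b) := by
  intro p hp; rw [mul_sub, sub_mul, ha p hp, hb p hp]

theorem Cm.mul {ρ : Representation F G V} {P : Subgroup G}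
    {a b : Module.End F V} (ha : Cm ρ P a) (hb : Cm ρ P b) : Cm ρ P (a * b) := by
  intro p hp; rw [← mul_assoc, ha p hp, mul_assoc, hb p hp, mul_assoc]

theorem Cm.smul {ρ : Representation F G V} {P : Subgroup G}
    {a : Module.End F V} (c : F) (ha : Cm ρ P a) : Cm ρ P (c • a) := by
  intro p hp; rw [mul_smul_comm, smul_mul_assoc, ha p hp]

theorem Cm.one (ρ : Representation F G V) (P : Subgroup G) : Cm ρ P 1 := by
  intro p _; rw [mul_one, one_mul]

theorem Cm.zero (ρ : Representation F G V) (P : Subgroup G) : Cm ρ P 0 := by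
  intro p _; rw [mul_zero, zero_mul]

theorem Cm.pow {ρ : Representation F G V} {P : Subgroup G}
    {a : Module.End F V} (ha : Cm ρ P a) (n : ℕ) : Cm ρ P (a ^ n) := by
  induction n with
  | zero => rw [pow_zero]; exact Cm.one ρ P
  | succ n ih => rw [pow_succ]; exact ih.mul ha

theorem Cm.sum {ι : Type*} {ρ : Representation F G V} {P : Subgroup G} (s : Finset ι)
    {a : ι → Module.End F V} (ha : ∀ i ∈ s, Cm ρ P (a i)) : Cm ρ P (∑ i ∈ s, a i) := by
  intro p hp
  rw [Finset.mul_sum, Finset.sum_mul]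
  exact Finset.sum_congr rfl fun i hi => ha i hi p hp

/-- conjugation form of commuting -/
theorem Cm.conj {ρ : Representation F G V} {P : Subgroup G}
    {a : Module.End F V} (ha : Cm ρ P a) {p : G} (hp : p ∈ P) : ρ p * a * ρ p⁻¹ = a := by
  rw [ha p hp, mul_assoc, ← map_mul, mul_inv_cancel, map_one, mul_one]

theorem cm_of_conj {ρ : Representation F G V} {P : Subgroup G}
    {a : Module.End F V} (ha : ∀ p ∈ P, ρ p * a * ρ p⁻¹ = a) : Cm ρ P a := by
  intro p hp
  conv_rhs => rw [← ha p hp]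
  rw [mul_assoc, mul_assoc, ← map_mul, inv_mul_cancel, map_one, mul_one]

end SPV
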