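import Pool.Agent.SPV.D1

/-!
# SPV / D2 : tabloids, polytabloids, Specht modules (over any commutative ring)

`μ : YoungDiagram` is the shape, `α` a finite type of letters (entries).
-/

set_option linter.unusedSectionVars false

namespace SPV

open Finset

/-- A `μ`-tabloid with entries in `α`: a `μ`-tableau up to permutations inside the rows, i.e. the
function which sends an entry to the index of its row; row `i` has `μ.rowLen i` entries. -/
def Tabloid (μ : YoungDiagram) (α : Type*) [Fintype α] : Type _ :=
  {f : α → ℕ // ∀ i, (univ.filter (fun a => f a = i)).card = μ.rowLen i}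

/-- A `μ`-tableau with entries in `α`: a bijection between the entries and the cells of `μ`
(`t a` is the cell which contains the entry `a`). -/
abbrev Tableau (μ : YoungDiagram) (α : Type*) : Type _ := α ≃ {c : ℕ × ℕ // c ∈ μ.cells}

variable {μ : YoungDiagram} {α : Type*} [Fintype α] [DecidableEq α]

@[ext] theorem Tabloid.ext {f g : Tabloid μ α} (h : ∀ a, f.1 a = g.1 a) : f = g :=
  Subtype.ext (funext h)

theorem Tabloid.mem (f : Tabloid μ α) (a : α) : 0 < μ.rowLen (f.1 a) := by
  rw [← f.2 (f.1 a)]
  exact card_pos.mpr ⟨a, by simp⟩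

theorem Tabloid.lt_colLen (f : Tabloid μ α) (a : α) : f.1 a < μ.colLen 0 := by
  rw [← YoungDiagram.mem_iff_lt_colLen, YoungDiagram.mem_iff_lt_rowLen]
  exact f.mem a

instance : Finite (Tabloid μ α) := by
  apply Finite.of_injective (β := α → Fin (μ.colLen 0)) (fun f a => ⟨f.1 a, f.lt_colLen a⟩)
  intro f g h
  ext a
  exact congrArg Fin.val (congrFun h a)

/-- The symmetric group acts on tabloids by permuting the entries. -/
instance : MulAction (Equiv.Perm α) (Tabloid μ α) where
  smul σ f := ⟨fun a => f.1 (σ⁻¹ a), fun i => by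
    rw [← f.2 i]
    apply card_bij (fun a _ => σ⁻¹ a)
    · intro a ha; simpa using ha
    · intro a _ b _ h; exact σ⁻¹.injective h
    · intro b hb; exact ⟨σ b, by simpa using hb, by simp⟩⟩
  one_smul f := by ext a; rfl
  mul_smul σ τ f := by
    ext a
    change f.1 ((σ * τ)⁻¹ a) = f.1 (τ⁻¹ (σ⁻¹ a))
    rw [mul_inv_rev]; rfl

theorem smul_val (σ : Equiv.Perm α) (f : Tabloid μ α) (a : α) : (σ • f).1 a = f.1 (σ⁻¹ a) := rfl

/-- row index of the entry `a` -/
def Tableau.row (t : Tableau μ α) (a : α) : ℕ := (t a).1.1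
/-- column index of the entry `a` -/
def Tableau.col (t : Tableau μ α) (a : α) : ℕ := (t a).1.2

/-- The tabloid `{t}` of a tableau `t`. -/
def Tableau.tabloid (t : Tableau μ α) : Tabloid μ α :=
  ⟨fun a => (t a).1.1, fun i => by
    rw [YoungDiagram.rowLen_eq_card]
    apply card_bij (fun a _ => (t a).1)
    · intro a ha
      rw [YoungDiagram.mem_row_iff]
      exact ⟨(YoungDiagram.mem_cells _).mp (t a).2, by simpa using ha⟩
    · intro a _ b _ h; exact t.injective (Subtype.ext h)
    · intro c hc
      rw [YoungDiagram.mem_row_iff] at hc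
      refine ⟨t.symm ⟨c, (YoungDiagram.mem_cells _).mpr hc.1⟩, ?_, ?_⟩
      · simpa using hc.2
      · simp⟩

theorem Tableau.tabloid_val (t : Tableau μ α) (a : α) : t.tabloid.1 a = Tableau.row t a := rfl

/-- the symmetric group acts on tableaux: `σ t` has the entry `σ a` where `t` has `a`. -/
def Tableau.act (σ : Equiv.Perm α) (t : Tableau μ α) : Tableau μ α := (σ⁻¹ : Equiv.Perm α).trans t

theorem Tableau.act_apply (σ : Equiv.Perm α) (t : Tableau μ α) (a : α) :
    Tableau.act σ t a = t (σ⁻¹ a) := rfl

theorem Tableau.act_tabloid (σ : Equiv.Perm α) (t : Tableau μ α) :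
    (Tableau.act σ t).tabloid = σ • t.tabloid := rfl

/-- column stabilizer -/
def colStab (t : Tableau μ α) : Finset (Equiv.Perm α) :=
  univ.filter (fun σ => ∀ a, Tableau.col t (σ a) = Tableau.col t a)

/-- row stabilizer -/
def rowStab (t : Tableau μ α) : Finset (Equiv.Perm α) :=
  univ.filter (fun σ => ∀ a, Tableau.row t (σ a) = Tableau.row t a)

theorem mem_colStab {t : Tableau μ α} {σ : Equiv.Perm α} :
    σ ∈ colStab t ↔ ∀ a, Tableau.col t (σ a) = Tableau.col t a := by simp [colStab]

theorem mem_rowStab {t : Tableau μ α} {σ : Equiv.Perm α} :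
    σ ∈ rowStab t ↔ ∀ a, Tableau.row t (σ a) = Tableau.row t a := by simp [rowStab]

variable (R : Type*) [CommRing R]

/-- The permutation module `M^μ` on the `μ`-tabloids, as a representation. -/
noncomputable def permRep (μ : YoungDiagram) (α : Type*) [Fintype α] [DecidableEq α] :
    Representation R (Equiv.Perm α) (Tabloid μ α →₀ R) where
  toFun σ := Finsupp.lmapDomain R R (σ • ·)
  map_one' := by
    refine LinearMap.ext fun v => ?_
    have h : ((1 : Equiv.Perm α) • · : Tabloid μ α → Tabloid μ α) = id := by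
      funext f; exact one_smul _ f
    rw [Finsupp.lmapDomain_apply, h, Finsupp.mapDomain_id]
    rfl
  map_mul' σ τ := by
    refine LinearMap.ext fun v => ?_
    have h : ((σ * τ) • · : Tabloid μ α → Tabloid μ α) = (σ • ·) ∘ (τ • ·) := by
      funext f; exact mul_smul σ τ f
    rw [Finsupp.lmapDomain_apply, h, Finsupp.mapDomain_comp]
    rfl

@[simp] theorem permRep_single (σ : Equiv.Perm α) (f : Tabloid μ α) (r : R) :
    permRep R μ α σ (Finsupp.single f r) = Finsupp.single (σ • f) r := by
  simp [permRep]

/-- The polytabloid `e_t = ∑_{σ ∈ C_t} sgn(σ) σ{t}`. -/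
noncomputable def polytabloid (t : Tableau μ α) : Tabloid μ α →₀ R :=
  ∑ σ ∈ colStab t, Finsupp.single (σ • t.tabloid) (((Equiv.Perm.sign σ : ℤˣ) : ℤ) : R)

/-- The Specht module: the span of the polytabloids. -/
noncomputable def Specht (μ : YoungDiagram) (α : Type*) [Fintype α] [DecidableEq α] :
    Submodule R (Tabloid μ α →₀ R) :=
  Submodule.span R (Set.range (fun t : Tableau μ α => polytabloid R t))

theorem polytabloid_mem (t : Tableau μ α) : polytabloid R t ∈ Specht R μ α :=
  Submodule.subset_span ⟨t, rfl⟩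

theorem colStab_act (σ : Equiv.Perm α) (t : Tableau μ α) (τ : Equiv.Perm α) :
    τ ∈ colStab (Tableau.act σ t) ↔ σ⁻¹ * τ * σ ∈ colStab t := by
  rw [mem_colStab, mem_colStab]
  constructor
  · intro h a
    have := h (σ a)
    simpa [Tableau.col, Tableau.act] using this
  · intro h a
    have := h (σ⁻¹ a)
    simpa [Tableau.col, Tableau.act] using this

/-- `σ e_t = e_{σ t}`. -/
theorem permRep_polytabloid (σ : Equiv.Perm α) (t : Tableau μ α) :
    permRep R μ α σ (polytabloid R t) = polytabloid R (Tableau.act σ t) := by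
  unfold polytabloid
  rw [map_sum]
  refine sum_bij (fun τ _ => σ * τ * σ⁻¹) ?_ ?_ ?_ ?_
  · intro τ hτ
    rw [colStab_act]
    have : σ⁻¹ * (σ * τ * σ⁻¹) * σ = τ := by group
    rwa [this]
  · intro τ _ τ' _ h
    simpa using h
  · intro τ hτ
    refine ⟨σ⁻¹ * τ * σ, (colStab_act σ t τ).mp hτ, by group⟩
  · intro τ _
    rw [permRep_single, Tableau.act_tabloid]
    congr 1
    · rw [← mul_smul, ← mul_smul]; congr 1; group
    · rw [Equiv.Perm.sign_mul, Equiv.Perm.sign_mul, Equiv.Perm.sign_inv, mul_comm, ← mul_assoc,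
        Int.units_mul_self, one_mul]

theorem specht_invariant (σ : Equiv.Perm α) (v : Tabloid μ α →₀ R) (hv : v ∈ Specht R μ α) :
    permRep R μ α σ v ∈ Specht R μ α := by
  unfold Specht at hv
  induction hv using Submodule.span_induction with
  | mem x hx =>
    obtain ⟨t, rfl⟩ := hx
    exact (permRep_polytabloid R σ t).symm ▸ polytabloid_mem R _
  | zero => rw [map_zero]; exact Submodule.zero_mem _
  | add x y _ _ hx hy => rw [map_add]; exact Submodule.add_mem _ hx hy
  | smul c x _ hx => rw [map_smul]; exact Submodule.smul_mem _ c hx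

/-- the restriction of a representation to an invariant subspace -/
def subRep {G V : Type*} [Group G] [AddCommGroup V] [Module R V] (ρ : Representation R G V)
    (W : Submodule R V) (h : ∀ (g : G) (v : V), v ∈ W → ρ g v ∈ W) : Representation R G W where
  toFun g := (ρ g).restrict (h g)
  map_one' := by ext v; simp
  map_mul' g g' := by ext v; simp

/-- The Specht module `S^μ` as a representation of the symmetric group. -/
noncomputable def spechtRep (μ : YoungDiagram) (α : Type*) [Fintype α] [DecidableEq α] :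
    Representation R (Equiv.Perm α) (Specht R μ α) :=
  subRep R (permRep R μ α) (Specht R μ α) (specht_invariant R)

@[simp] theorem spechtRep_val (σ : Equiv.Perm α) (v : Specht R μ α) :
    (spechtRep R μ α σ v : Tabloid μ α →₀ R) = permRep R μ α σ v := rfl

/-! ### Young symmetrizer-type operators for any representation -/

variable {R}
variable {V : Type*} [AddCommGroup V] [Module R V]

/-- signed column sum `κ_t` acting in a representation -/
noncomputable def kapO (ρ : Representation R (Equiv.Perm α) V) (t : Tableau μ α) :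
    Module.End R V := ∑ σ ∈ colStab t, (((Equiv.Perm.sign σ : ℤˣ) : ℤ) : R) • ρ σ

/-- row sum acting in a representation -/
noncomputable def rhoO (ρ : Representation R (Equiv.Perm α) V) (t : Tableau μ α) :
    Module.End R V := ∑ σ ∈ rowStab t, ρ σ

/-- Young symmetrizer `κ_t ρ_t` acting in a representation -/
noncomputable def bO (ρ : Representation R (Equiv.Perm α) V) (t : Tableau μ α) :
    Module.End R V := kapO ρ t * rhoO ρ t

theorem kapO_tabloid (t : Tableau μ α) :
    kapO (permRep R μ α) t (Finsupp.single t.tabloid 1) = polytabloid R t := by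
  simp [kapO, polytabloid, LinearMap.sum_apply]

/-! ### the embeddings `Perm (Fin m) → Perm (Fin (m + k))` -/

/-- `up m k h` acts on the first `m` letters as `h` and fixes the last `k`. -/
def up (m k : ℕ) : Equiv.Perm (Fin m) →* Equiv.Perm (Fin (m + k)) where
  toFun h := finSumFinEquiv.permCongr (Equiv.sumCongr h 1)
  map_one' := by
    ext x
    refine Fin.addCases (fun i => ?_) (fun i => ?_) x <;> simp [Equiv.permCongr_apply]
  map_mul' g h := by
    ext x
    refine Fin.addCases (fun i => ?_) (fun i => ?_) x <;> simp [Equiv.permCongr_apply]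

@[simp] theorem up_castAdd (m k : ℕ) (h : Equiv.Perm (Fin m)) (i : Fin m) :
    up m k h (Fin.castAdd k i) = Fin.castAdd k (h i) := by
  simp [up, Equiv.permCongr_apply]

@[simp] theorem up_natAdd (m k : ℕ) (h : Equiv.Perm (Fin m)) (i : Fin k) :
    up m k h (Fin.natAdd m i) = Fin.natAdd m i := by
  simp [up, Equiv.permCongr_apply]

@[simp] theorem up_castSucc (m : ℕ) (h : Equiv.Perm (Fin m)) (i : Fin m) :
    up m 1 h (Fin.castSucc i) = Fin.castSucc (h i) := up_castAdd m 1 h i

@[simp] theorem up_last (m : ℕ) (h : Equiv.Perm (Fin m)) :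
    up m 1 h (Fin.last m) = Fin.last m := up_natAdd m 1 h 0

theorem up_succ (m k : ℕ) (h : Equiv.Perm (Fin m)) :
    up m (k + 1) h = up (m + k) 1 (up m k h) := by
  apply Equiv.ext
  intro x
  refine Fin.lastCases (n := m + k) ?_ (fun i => ?_) x
  · exact (up_natAdd m (k + 1) h (Fin.last k)).trans (up_last (m + k) (up m k h)).symm
  · rw [up_castSucc]
    refine Fin.addCases (fun j => ?_) (fun j => ?_) i
    · rw [up_castAdd]
      exact up_castAdd m (k + 1) h j
    · rw [up_natAdd]
      exact up_natAdd m (k + 1) h (Fin.castSucc j)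

/-- the subgroup of `Perm (Fin (m + k))` fixing the first `m` letters (a copy of `S_k`). -/
def fixer (m k : ℕ) : Subgroup (Equiv.Perm (Fin (m + k))) where
  carrier := {σ | ∀ i : Fin m, σ (Fin.castAdd k i) = Fin.castAdd k i}
  one_mem' := fun _ => rfl
  mul_mem' := by
    intro a b ha hb i
    change a (b _) = _
    rw [hb i, ha i]
  inv_mem' := by
    intro a ha i
    rw [Equiv.Perm.inv_eq_iff_eq]
    exact (ha i).symm

theorem mem_fixer {m k : ℕ} {σ : Equiv.Perm (Fin (m + k))} :
    σ ∈ fixer m k ↔ ∀ i : Fin m, σ (Fin.castAdd k i) = Fin.castAdd k i := Iff.rfl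

/-! ### removing a corner -/

/-- row `i` ends in a corner (removable cell) -/
def Corner (μ : YoungDiagram) (i : ℕ) : Prop := μ.rowLen (i + 1) < μ.rowLen i

instance (μ : YoungDiagram) (i : ℕ) : Decidable (Corner μ i) := by unfold Corner; infer_instance

/-- `μ` with the last cell of row `i` removed (if this is a corner; otherwise `μ`). -/
def rem (μ : YoungDiagram) (i : ℕ) : YoungDiagram :=
  if h : Corner μ i then
    { cells := μ.cells.erase (i, μ.rowLen i - 1)
      isLowerSet := by
        rintro ⟨a, b⟩ ⟨c, d⟩ hle hab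
        rw [Finset.coe_erase, Set.mem_sdiff] at hab ⊢
        obtain ⟨h1, h2⟩ := hab
        refine ⟨μ.isLowerSet hle h1, ?_⟩
        intro h3
        rw [Set.mem_singleton_iff, Prod.mk.injEq] at h3
        obtain ⟨rfl, rfl⟩ := h3
        have h1' : b < μ.rowLen a := YoungDiagram.mem_iff_lt_rowLen.mp
          ((YoungDiagram.mem_cells _).mp (Finset.mem_coe.mp h1))
        have hle1 : c ≤ a := hle.1
        have hle2 : μ.rowLen c - 1 ≤ b := hle.2
        rcases Nat.lt_or_ge c a with hca | hca
        · have h4 := μ.rowLen_anti (c + 1) a hca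
          unfold Corner at h
          omega
        · have : c = a := le_antisymm hle1 hca
          subst this
          apply h2
          rw [Set.mem_singleton_iff, Prod.mk.injEq]
          refine ⟨rfl, ?_⟩
          omega }
  else μ

theorem rem_cells {μ : YoungDiagram} {i : ℕ} (h : Corner μ i) :
    (rem μ i).cells = μ.cells.erase (i, μ.rowLen i - 1) := by
  rw [rem, dif_pos h]

theorem mem_rem {μ : YoungDiagram} {i : ℕ} (h : Corner μ i) {c : ℕ × ℕ} :
    c ∈ (rem μ i).cells ↔ c ≠ (i, μ.rowLen i - 1) ∧ c ∈ μ.cells := by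
  rw [rem_cells h, Finset.mem_erase]

theorem rem_card {μ : YoungDiagram} {i : ℕ} (h : Corner μ i) :
    (rem μ i).card + 1 = μ.card := by
  unfold YoungDiagram.card
  rw [rem_cells h]
  refine Finset.card_erase_add_one ?_
  rw [YoungDiagram.mem_cells, YoungDiagram.mem_iff_lt_rowLen]
  unfold Corner at h
  omega

theorem rem_rowLen {μ : YoungDiagram} {i : ℕ} (h : Corner μ i) (j : ℕ) :
    (rem μ i).rowLen j = if j = i then μ.rowLen i - 1 else μ.rowLen j := by
  have hk : ∀ j b, b < (rem μ i).rowLen j ↔ (b < μ.rowLen j ∧ ¬ (j = i ∧ b = μ.rowLen i - 1)) := by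
    intro j b
    rw [← YoungDiagram.mem_iff_lt_rowLen, ← YoungDiagram.mem_cells, rem_cells h,
      Finset.mem_erase, YoungDiagram.mem_cells, YoungDiagram.mem_iff_lt_rowLen, Ne,
      Prod.mk.injEq, and_comm]
  unfold Corner at h
  split_ifs with hj
  · subst hj
    apply le_antisymm
    · by_contra hc
      have := (hk j (μ.rowLen j - 1)).mp (by omega)
      exact this.2 ⟨rfl, rfl⟩
    · by_contra hc
      have h1 := (hk j ((rem μ j).rowLen j)).mpr ⟨by omega, by omega⟩
      omega
  · apply le_antisymm
    · by_contra hc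
      have := (hk j (μ.rowLen j)).mp (by omega)
      omega
    · by_contra hc
      have h1 := (hk j ((rem μ i).rowLen j)).mpr ⟨by omega, by tauto⟩
      omega

/-- the rows which end in a corner -/
def corners (μ : YoungDiagram) : Finset ℕ := (Finset.range (μ.colLen 0)).filter (Corner μ)

theorem Corner.lt {μ : YoungDiagram} {i : ℕ} (h : Corner μ i) : i < μ.colLen 0 := by
  rw [← YoungDiagram.mem_iff_lt_colLen, YoungDiagram.mem_iff_lt_rowLen]
  unfold Corner at h
  omega

theorem mem_corners {μ : YoungDiagram} {i : ℕ} : i ∈ corners μ ↔ Corner μ i := by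
  rw [corners, Finset.mem_filter, Finset.mem_range]
  exact ⟨fun h => h.2, fun h => ⟨h.lt, h⟩⟩

/-! ### the relative trace of the Young symmetrizer from `fixer m k` -/

noncomputable instance (m k : ℕ) : Fintype (Equiv.Perm (Fin (m + k)) ⧸ fixer m k) :=
  Fintype.ofFinite _

/-- relative trace of the operator `b` -/
noncomputable def aO {κ : YoungDiagram} {m k : ℕ}
    (ρ : Representation R (Equiv.Perm (Fin (m + k))) V) (t : Tableau κ (Fin m)) :
    Module.End R V :=
  ∑ q : Equiv.Perm (Fin (m + k)) ⧸ fixer m k, ρ q.out * bO (ρ.comp (up m k)) t * ρ q.out⁻¹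

/-! ### standard tableaux -/

/-- standard tableaux: entries increase along rows and down columns -/
def IsStd {n : ℕ} (t : Tableau μ (Fin n)) : Prop :=
  (∀ a b, Tableau.row t a = Tableau.row t b → Tableau.col t a < Tableau.col t b → a < b) ∧
  (∀ a b, Tableau.col t a = Tableau.col t b → Tableau.row t a < Tableau.row t b → a < b)

/-- number of standard tableaux -/
noncomputable def nStd (μ : YoungDiagram) (n : ℕ) : ℕ :=
  Nat.card {t : Tableau μ (Fin n) // IsStd t}

/-! ### beta numbers and the determinants -/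

/-- the beta numbers of `μ` with `k` rows (sensible if `μ` has at most `k` rows) -/
def bet (μ : YoungDiagram) (k : ℕ) (i : Fin k) : ℕ := μ.rowLen i + (k - 1 - i)

/-- `∏_{i<j} (x_i - x_j)` -/
def Vd {k : ℕ} (x : Fin k → ℕ) : ℤ := ∏ i, ∏ j ∈ Finset.Ioi i, ((x i : ℤ) - (x j : ℤ))

/-- `D x κ = det [ (x_i)(x_i - 1)...(x_i - κ_j + 1) ]` (falling factorials). -/
def Dt {k : ℕ} (x κ : Fin k → ℕ) : ℤ :=
  Matrix.det (Matrix.of fun i j => ((x i).descFactorial (κ j) : ℤ))

end SPV
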