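import Pool.Agent.SPV.GA

/-!
# SPV / GB : the standard polytabloids span over `ℚ`
-/

set_option linter.unusedSectionVars false

namespace SPV

open Finset

variable {μ : YoungDiagram} {n : ℕ}

private theorem gb_mem_symOn {α : Type*} [Fintype α] [DecidableEq α] (X : Finset α)
    (σ : Equiv.Perm α) : σ ∈ symOn X ↔ ∀ a, a ∉ X → σ a = a := by
  unfold symOn
  rw [mem_filter]
  exact ⟨fun h => h.2, fun h => ⟨mem_univ _, h⟩⟩

/-- weight of a tableau -/
def wtT (t : Tableau μ (Fin n)) : ℕ := ∑ a : Fin n, (a : ℕ) * Tableau.col t a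

theorem wtT_colStab (t : Tableau μ (Fin n)) {σ : Equiv.Perm (Fin n)} (hσ : σ ∈ colStab t) :
    wtT (Tableau.act σ t) = wtT t := by
  unfold wtT
  refine sum_congr rfl fun a _ => ?_
  congr 1
  change Tableau.col t (σ⁻¹ a) = Tableau.col t a
  have := (mem_colStab.1 hσ) (σ⁻¹ a)
  rw [Equiv.Perm.inv_def, Equiv.apply_symm_apply] at this
  exact this.symm

/-- every tableau can be made column increasing by an element of its column stabilizer. -/
theorem exists_col_increasing (t : Tableau μ (Fin n)) :
    ∃ σ ∈ colStab t, ∀ a b, Tableau.col (Tableau.act σ t) a = Tableau.col (Tableau.act σ t) b →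
      Tableau.row (Tableau.act σ t) a < Tableau.row (Tableau.act σ t) b → a < b := by
  classical
  obtain ⟨σ, hσ, hmax⟩ := Finset.exists_max_image (colStab t)
    (fun σ => ∑ x : Fin n, (x : ℕ) * Tableau.row (Tableau.act σ t) x)
    ⟨1, mem_colStab.2 fun a => rfl⟩
  refine ⟨σ, hσ, ?_⟩
  intro a b hcol hrow
  by_contra hab
  have hne : a ≠ b := by
    rintro rfl
    exact lt_irrefl _ hrow
  have hba : b < a := lt_of_le_of_ne (not_lt.1 hab) hne.symm
  have hc1 : ∀ x, Tableau.col t (σ⁻¹ x) = Tableau.col t x := by
    intro x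
    have := (mem_colStab.1 hσ) (σ⁻¹ x)
    rw [Equiv.Perm.inv_def, Equiv.apply_symm_apply] at this
    exact this.symm
  have hcab : Tableau.col t a = Tableau.col t b := by
    have : Tableau.col t (σ⁻¹ a) = Tableau.col t (σ⁻¹ b) := hcol
    rwa [hc1, hc1] at this
  have hswap : ∀ y, Tableau.col t (Equiv.swap a b y) = Tableau.col t y := by
    intro y
    by_cases h1 : y = a
    · subst h1; rw [Equiv.swap_apply_left, hcab]
    · by_cases h2 : y = b
      · subst h2; rw [Equiv.swap_apply_right, hcab]
      · rw [Equiv.swap_apply_of_ne_of_ne h1 h2]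
  have hmem : Equiv.swap a b * σ ∈ colStab t := by
    rw [mem_colStab]
    intro x
    rw [Equiv.Perm.mul_apply, hswap]
    exact (mem_colStab.1 hσ) x
  have hle := hmax _ hmem
  have hrow' : ∀ x, Tableau.row (Tableau.act (Equiv.swap a b * σ) t) x =
      Tableau.row (Tableau.act σ t) (Equiv.swap a b x) := by
    intro x
    change (t ((Equiv.swap a b * σ)⁻¹ x)).1.1 = (t (σ⁻¹ (Equiv.swap a b x))).1.1
    rw [mul_inv_rev, Equiv.swap_inv, Equiv.Perm.mul_apply]
  simp only [hrow'] at hle
  set f : Fin n → ℕ := fun x => Tableau.row (Tableau.act σ t) x with hf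
  have hrow2 : f a < f b := hrow
  have key : ∑ x : Fin n, (x : ℕ) * f x < ∑ x : Fin n, (x : ℕ) * f (Equiv.swap a b x) := by
    have hsplit : ∀ g : Fin n → ℕ, ∑ x, g x = g a + (g b + ∑ x ∈ (univ.erase a).erase b, g x) := by
      intro g
      rw [← Finset.add_sum_erase univ g (Finset.mem_univ a),
        ← Finset.add_sum_erase (univ.erase a) g (Finset.mem_erase.2 ⟨hne.symm, Finset.mem_univ b⟩)]
    rw [hsplit, hsplit (fun x => (x : ℕ) * f (Equiv.swap a b x))]
    have hrest : ∑ x ∈ (univ.erase a).erase b, (x : ℕ) * f (Equiv.swap a b x) =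
        ∑ x ∈ (univ.erase a).erase b, (x : ℕ) * f x := by
      refine sum_congr rfl fun x hx => ?_
      rw [Finset.mem_erase, Finset.mem_erase] at hx
      rw [Equiv.swap_apply_of_ne_of_ne hx.2.1 hx.1]
    rw [hrest, Equiv.swap_apply_left, Equiv.swap_apply_right]
    have hba' : (b : ℕ) < a := hba
    have : (a : ℕ) * f a + (b : ℕ) * f b < (a : ℕ) * f b + (b : ℕ) * f a := by
      obtain ⟨u, hu⟩ : ∃ u, (a : ℕ) = b + (u + 1) := ⟨a - b - 1, by omega⟩
      obtain ⟨w, hw⟩ : ∃ w, f b = f a + (w + 1) := ⟨f b - f a - 1, by omega⟩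
      rw [hu, hw]
      nlinarith
    omega
  exact absurd hle (not_le.2 key)

/-- The combinatorial core of the straightening.

`t` column increasing with a row descent: `a₀` in column `j`, `b₀` in column `j + 1`, same row,
`b₀ < a₀`.  `A` = entries of column `j` in rows `≥ row a₀` (all `≥ a₀`), `B` = entries of column
`j + 1` in rows `≤ row b₀` (all `≤ b₀`).  `X = A ∪ B` has `μ'_j + 1` elements.  A permutation `π` of
`X` which does not preserve `A` satisfies `wtT (π t) > wtT t`; and one which preserves `A` (and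
`B`) is in `C_t`.

Sketch for the weight: with `t' = π t`, `wtT t' - wtT t` = (sum of the entries of `X` in column
`j + 1` of `t'`) - (sum of `B`), these entries form a subset of `X` of the same size as `B`, different
from `B`, and every element of `A` is larger than every element of `B`. -/
theorem exists_garnir_set (t : Tableau μ (Fin n))
    (hcol : ∀ a b, Tableau.col t a = Tableau.col t b → Tableau.row t a < Tableau.row t b → a < b)
    (hns : ¬ IsStd t) :
    ∃ (X : Finset (Fin n)) (j : ℕ), (∀ a ∈ X, Tableau.col t a = j ∨ Tableau.col t a = j + 1) ∧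
      μ.colLen j < X.card ∧
      ∀ σ ∈ symOn X, σ ∈ colStab t ∨ wtT t < wtT (Tableau.act σ t) := by
  classical
  -- adjacent descent
  have hadj : ∀ m : ℕ, ∀ a b : Fin n, Tableau.row t a = Tableau.row t b →
      Tableau.col t b = Tableau.col t a + (m + 1) → b < a →
      ∃ a₀ b₀ : Fin n, Tableau.row t a₀ = Tableau.row t b₀ ∧
        Tableau.col t b₀ = Tableau.col t a₀ + 1 ∧ b₀ < a₀ := by
    intro m
    induction m with
    | zero => intro a b h1 h2 h3; exact ⟨a, b, h1, h2, h3⟩
    | succ m ih =>
      intro a b h1 h2 h3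
      have hcell : ((Tableau.row t a, Tableau.col t a + (m + 1)) : ℕ × ℕ) ∈ μ.cells := by
        have hb : ((t b).1 : ℕ × ℕ) ∈ μ.cells := (t b).2
        refine μ.isLowerSet ?_ hb
        refine ⟨?_, ?_⟩
        · exact h1.le
        · change Tableau.col t a + (m + 1) ≤ Tableau.col t b
          omega
      set e := t.symm ⟨_, hcell⟩ with he
      have hte : (t e).1 = (Tableau.row t a, Tableau.col t a + (m + 1)) := by
        rw [he, Equiv.apply_symm_apply]
      have her : Tableau.row t e = Tableau.row t a := by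
        unfold Tableau.row at *
        rw [hte]
      have hec : Tableau.col t e = Tableau.col t a + (m + 1) := by
        unfold Tableau.col at *
        rw [hte]
      by_cases hlt : e < a
      · exact ih a e her.symm hec hlt
      · refine ⟨e, b, her.trans h1, ?_, lt_of_lt_of_le h3 (not_lt.1 hlt)⟩
        rw [hec, h2]
        omega
  obtain ⟨a₀, b₀, hr, hc, hlt⟩ : ∃ a₀ b₀ : Fin n, Tableau.row t a₀ = Tableau.row t b₀ ∧
        Tableau.col t b₀ = Tableau.col t a₀ + 1 ∧ b₀ < a₀ := by
    by_contra hcon
    apply hns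
    refine ⟨?_, hcol⟩
    intro a b h1 h2
    by_contra hab
    have hne : a ≠ b := by rintro rfl; exact lt_irrefl _ h2
    exact hcon (hadj (Tableau.col t b - Tableau.col t a - 1) a b h1 (by omega)
      (lt_of_le_of_ne (not_lt.1 hab) hne.symm))
  set j := Tableau.col t a₀ with hj
  set i := Tableau.row t a₀ with hi
  set B : Finset (Fin n) := univ.filter (fun x => Tableau.col t x = j + 1 ∧ Tableau.row t x ≤ i)
    with hB
  set X : Finset (Fin n) := univ.filter (fun x => (Tableau.col t x = j ∧ i ≤ Tableau.row t x) ∨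
    (Tableau.col t x = j + 1 ∧ Tableau.row t x ≤ i)) with hX
  have hmB : ∀ x, x ∈ B ↔ Tableau.col t x = j + 1 ∧ Tableau.row t x ≤ i := by
    intro x; rw [hB, mem_filter]; simp
  have hmX : ∀ x, x ∈ X ↔ (Tableau.col t x = j ∧ i ≤ Tableau.row t x) ∨
      (Tableau.col t x = j + 1 ∧ Tableau.row t x ≤ i) := by
    intro x; rw [hX, mem_filter]; simp
  have hBX : B ⊆ X := fun x hx => (hmX x).2 (Or.inr ((hmB x).1 hx))
  have hBle : ∀ x ∈ B, x ≤ b₀ := by
    intro x hx
    obtain ⟨h1, h2⟩ := (hmB x).1 hx
    rcases lt_or_eq_of_le h2 with h3 | h3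
    · exact (hcol x b₀ (by rw [h1, hc]) (by rw [← hr]; exact h3)).le
    · have : t x = t b₀ := by
        apply Subtype.ext
        apply Prod.ext
        · change Tableau.row t x = Tableau.row t b₀
          rw [h3, hr]
        · change Tableau.col t x = Tableau.col t b₀
          rw [h1, hc]
      exact (t.injective this).le
  have hAge : ∀ x ∈ X, x ∉ B → a₀ ≤ x := by
    intro x hx hxB
    rcases (hmX x).1 hx with ⟨h1, h2⟩ | h
    · rcases lt_or_eq_of_le h2 with h3 | h3
      · exact (hcol a₀ x (by rw [h1]) h3).le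
      · have : t a₀ = t x := by
          apply Subtype.ext
          apply Prod.ext
          · change Tableau.row t a₀ = Tableau.row t x
            rw [← h3]
          · change Tableau.col t a₀ = Tableau.col t x
            rw [h1]
        exact (t.injective this).le
    · exact absurd ((hmB x).2 h) hxB
  refine ⟨X, j, ?_, ?_, ?_⟩
  · intro a ha
    rcases (hmX a).1 ha with ⟨h1, _⟩ | ⟨h1, _⟩
    · exact Or.inl h1
    · exact Or.inr h1
  · -- cardinality
    have hsurj : Set.SurjOn (fun x => if Tableau.col t x = j + 1 then Tableau.row t x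
        else Tableau.row t x + 1) (X : Set (Fin n)) (range (μ.colLen j + 1) : Set ℕ) := by
      intro r hr'
      rw [Finset.mem_coe, Finset.mem_range] at hr'
      by_cases hri : r ≤ i
      · have hcell : ((r, j + 1) : ℕ × ℕ) ∈ μ.cells := by
          have hb : ((t b₀).1 : ℕ × ℕ) ∈ μ.cells := (t b₀).2
          refine μ.isLowerSet ⟨?_, ?_⟩ hb
          · change r ≤ Tableau.row t b₀
            rw [← hr]; exact hri
          · change j + 1 ≤ Tableau.col t b₀
            rw [hc]
        have hte : (t (t.symm ⟨_, hcell⟩)).1 = (r, j + 1) := by rw [Equiv.apply_symm_apply]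
        have h1 : Tableau.row t (t.symm ⟨_, hcell⟩) = r := by
          unfold Tableau.row; rw [hte]
        have h2 : Tableau.col t (t.symm ⟨_, hcell⟩) = j + 1 := by
          unfold Tableau.col; rw [hte]
        refine ⟨t.symm ⟨_, hcell⟩, ?_, ?_⟩
        · rw [Finset.mem_coe, hmX]
          exact Or.inr ⟨h2, by rw [h1]; exact hri⟩
        · simp only [h2, if_true, h1]
      · have hcell : ((r - 1, j) : ℕ × ℕ) ∈ μ.cells := by
          rw [YoungDiagram.mem_cells, YoungDiagram.mem_iff_lt_colLen]
          omega
        have hte : (t (t.symm ⟨_, hcell⟩)).1 = (r - 1, j) := by rw [Equiv.apply_symm_apply]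
        have h1 : Tableau.row t (t.symm ⟨_, hcell⟩) = r - 1 := by
          unfold Tableau.row; rw [hte]
        have h2 : Tableau.col t (t.symm ⟨_, hcell⟩) = j := by
          unfold Tableau.col; rw [hte]
        refine ⟨t.symm ⟨_, hcell⟩, ?_, ?_⟩
        · rw [Finset.mem_coe, hmX]
          exact Or.inl ⟨h2, by rw [h1]; omega⟩
        · have h3 : ¬ (j = j + 1) := by omega
          simp only [h2, h3, if_false, h1]
          omega
    have := Finset.card_le_card_of_surjOn _ hsurj
    rw [Finset.card_range] at this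
    omega
  · intro σ hσ
    have hσX : ∀ a, a ∉ X → σ a = a := (gb_mem_symOn X σ).1 hσ
    have hσmem : ∀ a, σ a ∈ X ↔ a ∈ X := by
      intro a
      constructor
      · intro h
        by_contra h1
        rw [hσX a h1] at h
        exact h1 h
      · intro h
        by_contra h1
        have h2 := hσX _ h1
        have h3 : σ a = a := σ.injective h2
        rw [h3] at h1
        exact h1 h
    set c' : Fin n → ℕ := fun y => Tableau.col t y - (if y ∈ B then 1 else 0) with hc'
    have hcc : ∀ y, Tableau.col t y = (if y ∈ B then 1 else 0) + c' y := by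
      intro y
      rw [hc']
      by_cases hy : y ∈ B
      · simp only [hy, if_true]
        rw [((hmB y).1 hy).1]
        omega
      · simp only [hy, if_false]
        omega
    have hcX : ∀ y ∈ X, c' y = j := by
      intro y hy
      rw [hc']
      by_cases hyB : y ∈ B
      · simp only [hyB, if_true]
        rw [((hmB y).1 hyB).1]
        omega
      · simp only [hyB, if_false]
        rcases (hmX y).1 hy with ⟨h1, _⟩ | h
        · rw [h1]; omega
        · exact absurd ((hmB y).2 h) hyB
    have hcσ : ∀ y, c' (σ y) = c' y := by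
      intro y
      by_cases hy : y ∈ X
      · rw [hcX y hy, hcX _ ((hσmem y).2 hy)]
      · rw [hσX y hy]
    have hw1 : wtT t = ∑ y ∈ B, (y : ℕ) + ∑ y : Fin n, (y : ℕ) * c' y := by
      unfold wtT
      rw [sum_congr rfl fun y _ => by rw [hcc y, mul_add], sum_add_distrib]
      congr 1
      simp only [mul_ite, mul_one, mul_zero]
      rw [← sum_filter]
      refine sum_congr ?_ fun _ _ => rfl
      ext y; simp
    have hw2 : wtT (Tableau.act σ t) = ∑ y ∈ B, ((σ y : Fin n) : ℕ) +
        ∑ y : Fin n, (y : ℕ) * c' y := by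
      have e1 : wtT (Tableau.act σ t) = ∑ y : Fin n, ((σ y : Fin n) : ℕ) * Tableau.col t y := by
        unfold wtT
        rw [← Equiv.sum_comp σ]
        refine sum_congr rfl fun y _ => ?_
        congr 1
        change Tableau.col t (σ⁻¹ (σ y)) = _
        rw [Equiv.Perm.inv_def, Equiv.symm_apply_apply]
      rw [e1, sum_congr rfl fun y _ => by rw [hcc y, mul_add], sum_add_distrib]
      congr 1
      · simp only [mul_ite, mul_one, mul_zero]
        rw [← sum_filter]
        refine sum_congr ?_ fun _ _ => rfl
        ext y; simp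
      · rw [← Equiv.sum_comp σ (fun y => (y : ℕ) * c' y)]
        exact sum_congr rfl fun y _ => by rw [hcσ]
    set S : Finset (Fin n) := B.map σ.toEmbedding with hS
    have hScard : S.card = B.card := by rw [hS, card_map]
    have hSX : S ⊆ X := by
      intro x hx
      rw [hS, mem_map] at hx
      obtain ⟨y, hy, rfl⟩ := hx
      exact (hσmem y).2 (hBX hy)
    have hSsum : ∑ y ∈ B, ((σ y : Fin n) : ℕ) = ∑ x ∈ S, (x : ℕ) := by
      rw [hS, sum_map]
      rfl
    by_cases hSB : S ⊆ B
    · left
      have hSB' : S = B := eq_of_subset_of_card_le hSB (by rw [hScard])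
      have hiff : ∀ y, σ y ∈ B ↔ y ∈ B := by
        intro y
        constructor
        · intro h
          rw [← hSB', hS, mem_map] at h
          obtain ⟨z, hz, hzy⟩ := h
          have : z = y := σ.injective hzy
          rwa [← this]
        · intro h
          rw [← hSB', hS]
          exact mem_map_of_mem σ.toEmbedding h
      rw [mem_colStab]
      intro y
      rw [hcc (σ y), hcc y, hcσ]
      by_cases hy : y ∈ B
      · rw [if_pos hy, if_pos ((hiff y).2 hy)]
      · rw [if_neg hy, if_neg (fun h => hy ((hiff y).1 h))]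
    · right
      rw [hw1, hw2, hSsum]
      have hm : (S \ B).card = (B \ S).card := by
        have h1 := card_sdiff_add_card_inter S B
        have h2 := card_sdiff_add_card_inter B S
        rw [inter_comm] at h2
        omega
      have hmpos : 0 < (S \ B).card := by
        rw [card_pos]
        rw [Finset.nonempty_iff_ne_empty, Ne, sdiff_eq_empty_iff_subset]
        exact hSB
      have h1 : (S \ B).card * (a₀ : ℕ) ≤ ∑ x ∈ S \ B, (x : ℕ) := by
        rw [← smul_eq_mul, ← sum_const]
        refine sum_le_sum fun x hx => ?_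
        rw [mem_sdiff] at hx
        exact hAge x (hSX hx.1) hx.2
      have h2 : ∑ x ∈ B \ S, (x : ℕ) ≤ (B \ S).card * (b₀ : ℕ) := by
        rw [← smul_eq_mul, ← sum_const]
        refine sum_le_sum fun x hx => ?_
        rw [mem_sdiff] at hx
        exact hBle x hx.1
      have h3 : ∑ x ∈ S, (x : ℕ) = ∑ x ∈ S \ B, (x : ℕ) + ∑ x ∈ S ∩ B, (x : ℕ) := by
        rw [← sum_sdiff (inter_subset_left : S ∩ B ⊆ S), sdiff_inter_self_left]
      have h4 : ∑ x ∈ B, (x : ℕ) = ∑ x ∈ B \ S, (x : ℕ) + ∑ x ∈ S ∩ B, (x : ℕ) := by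
        rw [← sum_sdiff (inter_subset_right : S ∩ B ⊆ B), sdiff_inter_self_right]
      have hlt' : (b₀ : ℕ) < a₀ := hlt
      have h5 : (B \ S).card * (b₀ : ℕ) < (S \ B).card * (a₀ : ℕ) := by
        rw [← hm]
        exact Nat.mul_lt_mul_of_pos_left hlt' hmpos
      omega

/-- Straightening.

Sketch.  `wtT` is bounded (by `n * n * n`, or because there are finitely many tableaux), so use
strong induction on `bound - wtT t`.  Make `t` column increasing (`polytabloid_colStab`,
`wtT_colStab`).  If `t` is standard, done.  Otherwise take `X`, `j` from `exists_garnir_set` and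
`garnir`: `c e_t = - ∑ ± e_{σ t}` over `σ ∈ Sym X`, `σ ∉ C_t`, where
`c = #(Sym X ∩ C_t) > 0` (for `σ ∈ C_t`, `sgn σ • σ e_t = e_t`). -/
theorem specht_le_span_std (μ : YoungDiagram) (n : ℕ) :
    Specht ℚ μ (Fin n) ≤
      Submodule.span ℚ {e | ∃ t : Tableau μ (Fin n), IsStd t ∧ e = polytabloid ℚ t} := by
  classical
  set W := Submodule.span ℚ {e | ∃ t : Tableau μ (Fin n), IsStd t ∧ e = polytabloid ℚ t} with hW
  set M := (univ : Finset (Tableau μ (Fin n))).sup wtT with hM
  have hMle : ∀ t : Tableau μ (Fin n), wtT t ≤ M := fun t => Finset.le_sup (f := wtT) (mem_univ t)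
  have hsgn : ∀ σ : Equiv.Perm (Fin n), (((Equiv.Perm.sign σ : ℤˣ) : ℤ) : ℚ) *
      (((Equiv.Perm.sign σ : ℤˣ) : ℤ) : ℚ) = 1 := by
    intro σ
    rw [← Int.cast_mul, ← Units.val_mul, Int.units_mul_self, Units.val_one, Int.cast_one]
  have key : ∀ k : ℕ, ∀ t : Tableau μ (Fin n), M - wtT t < k → polytabloid ℚ t ∈ W := by
    intro k
    induction k with
    | zero => intro t h; exact absurd h (Nat.not_lt_zero _)
    | succ k ih =>
      intro t ht
      obtain ⟨σ₀, hσ₀, hinc⟩ := exists_col_increasing t
      set t' := Tableau.act σ₀ t with ht'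
      have hwt : wtT t' = wtT t := wtT_colStab t hσ₀
      have hmain : polytabloid ℚ t' ∈ W := by
        by_cases hstd : IsStd t'
        · exact Submodule.subset_span ⟨t', hstd, rfl⟩
        · obtain ⟨X, j, hX, hcard, hgt⟩ := exists_garnir_set t' hinc hstd
          have hg := garnir ℚ t' X j (j + 1) (Nat.le_succ j) hX hcard
          rw [← sum_filter_add_sum_filter_not (symOn X) (fun σ => σ ∈ colStab t')] at hg
          have h1 : ∑ σ ∈ (symOn X).filter (fun σ => σ ∈ colStab t'),
              (((Equiv.Perm.sign σ : ℤˣ) : ℤ) : ℚ) • permRep ℚ μ (Fin n) σ (polytabloid ℚ t') =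
              (((symOn X).filter (fun σ => σ ∈ colStab t')).card : ℚ) • polytabloid ℚ t' := by
            rw [sum_congr rfl fun σ hσ => ?_, sum_const, ← Nat.cast_smul_eq_nsmul ℚ]
            rw [permRep_polytabloid, polytabloid_colStab ℚ t' (mem_filter.1 hσ).2, smul_smul,
              hsgn, one_smul]
          have h2 : ∑ σ ∈ (symOn X).filter (fun σ => ¬ σ ∈ colStab t'),
              (((Equiv.Perm.sign σ : ℤˣ) : ℤ) : ℚ) • permRep ℚ μ (Fin n) σ (polytabloid ℚ t') ∈
              W := by
            refine Submodule.sum_mem _ fun σ hσ => Submodule.smul_mem _ _ ?_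
            rw [permRep_polytabloid]
            rw [mem_filter] at hσ
            rcases hgt σ hσ.1 with h3 | h3
            · exact absurd h3 hσ.2
            · refine ih _ ?_
              have := hMle (Tableau.act σ t')
              have := hMle t
              rw [hwt] at h3
              omega
          rw [h1] at hg
          have h3 : (((symOn X).filter (fun σ => σ ∈ colStab t')).card : ℚ) •
              polytabloid ℚ t' ∈ W := by
            rw [add_eq_zero_iff_eq_neg] at hg
            rw [hg]
            exact Submodule.neg_mem _ h2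
          have h4 : (((symOn X).filter (fun σ => σ ∈ colStab t')).card : ℚ) ≠ 0 := by
            have : 0 < ((symOn X).filter (fun σ => σ ∈ colStab t')).card := by
              rw [card_pos]
              refine ⟨1, mem_filter.2 ⟨(gb_mem_symOn X 1).2 fun a _ => rfl, ?_⟩⟩
              exact mem_colStab.2 fun a => rfl
            exact_mod_cast this.ne'
          have h5 := Submodule.smul_mem W (((symOn X).filter (fun σ => σ ∈ colStab t')).card : ℚ)⁻¹ h3
          rwa [smul_smul, inv_mul_cancel₀ h4, one_smul] at h5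
      have h6 := polytabloid_colStab ℚ t hσ₀
      have h7 : polytabloid ℚ t = (((Equiv.Perm.sign σ₀ : ℤˣ) : ℤ) : ℚ) • polytabloid ℚ t' := by
        rw [ht', h6, smul_smul, hsgn, one_smul]
      rw [h7]
      exact Submodule.smul_mem _ _ hmain
  unfold Specht
  rw [Submodule.span_le]
  rintro _ ⟨t, rfl⟩
  exact key (M - wtT t + 1) t (Nat.lt_succ_self _)

theorem finrank_le_nStd (μ : YoungDiagram) (n : ℕ) :
    Module.finrank ℚ (Specht ℚ μ (Fin n)) ≤ nStd μ n := by
  classical
  have h1 := Submodule.finrank_mono (specht_le_span_std μ n)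
  refine h1.trans ?_
  have : Fintype {t : Tableau μ (Fin n) // IsStd t} := Fintype.ofFinite _
  have h2 : {e | ∃ t : Tableau μ (Fin n), IsStd t ∧ e = polytabloid ℚ t} =
      Set.range (fun t : {t : Tableau μ (Fin n) // IsStd t} => polytabloid ℚ t.1) := by
    ext e
    constructor
    · rintro ⟨t, ht, rfl⟩
      exact ⟨⟨t, ht⟩, rfl⟩
    · rintro ⟨t, rfl⟩
      exact ⟨t.1, t.2, rfl⟩
  rw [h2, nStd, Nat.card_eq_fintype_card]
  exact finrank_range_le_card _

end SPV
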