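import Pool.Agent.SPV.BA

/-!
# SPV / GC : counting standard tableaux
-/

set_option linter.unusedSectionVars false

namespace SPV

open Finset

private theorem GC_corner (μ : YoungDiagram) (n : ℕ) (t : Tableau μ (Fin (n + 1))) (ht : IsStd t) :
    Corner μ (Tableau.row t (Fin.last n)) ∧
      (t (Fin.last n)).1 = (Tableau.row t (Fin.last n), μ.rowLen (Tableau.row t (Fin.last n)) - 1) := by
  set c := (t (Fin.last n)).1 with hc
  have hrow : Tableau.row t (Fin.last n) = c.1 := rfl
  have hcol : Tableau.col t (Fin.last n) = c.2 := rfl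
  have hmem : c ∈ μ.cells := (t (Fin.last n)).2
  have hlt : c.2 < μ.rowLen c.1 := by
    have h : (c.1, c.2) ∈ μ := (YoungDiagram.mem_cells _).mp hmem
    exact YoungDiagram.mem_iff_lt_rowLen.mp h
  have h1 : c.2 + 1 = μ.rowLen c.1 := by
    by_contra hne
    have h2 : c.2 + 1 < μ.rowLen c.1 := by omega
    have h3 : (c.1, c.2 + 1) ∈ μ.cells :=
      (YoungDiagram.mem_cells _).mpr (YoungDiagram.mem_iff_lt_rowLen.mpr h2)
    obtain ⟨a, ha⟩ := t.surjective ⟨(c.1, c.2 + 1), h3⟩
    have h4 : Tableau.row t a = c.1 := by unfold Tableau.row; rw [ha]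
    have h5 : Tableau.col t a = c.2 + 1 := by unfold Tableau.col; rw [ha]
    have h6 := ht.1 (Fin.last n) a (by rw [hrow, h4]) (by rw [hcol, h5]; omega)
    exact absurd h6 (not_lt.mpr (Fin.le_last a))
  have h7 : μ.rowLen (c.1 + 1) < μ.rowLen c.1 := by
    by_contra hne
    have h2 : c.2 < μ.rowLen (c.1 + 1) := by omega
    have h3 : (c.1 + 1, c.2) ∈ μ.cells :=
      (YoungDiagram.mem_cells _).mpr (YoungDiagram.mem_iff_lt_rowLen.mpr h2)
    obtain ⟨a, ha⟩ := t.surjective ⟨(c.1 + 1, c.2), h3⟩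
    have h4 : Tableau.row t a = c.1 + 1 := by unfold Tableau.row; rw [ha]
    have h5 : Tableau.col t a = c.2 := by unfold Tableau.col; rw [ha]
    have h6 := ht.2 (Fin.last n) a (by rw [hcol, h5]) (by rw [hrow, h4]; omega)
    exact absurd h6 (not_lt.mpr (Fin.le_last a))
  rw [hrow]
  refine ⟨h7, ?_⟩
  ext
  · rfl
  · show c.2 = μ.rowLen c.1 - 1
    omega

/-- Sketch.  In a standard tableau the last letter is in a corner (its cell `(i, j)` has no right
and no lower neighbour), `t = extT h s` (`exists_extT`) and `s` is standard; `t ↦ (i, s)` is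
injective. -/
theorem nStd_le (μ : YoungDiagram) (n : ℕ) (hμ : μ.card = n + 1) :
    nStd μ (n + 1) ≤ ∑ i ∈ corners μ, nStd (rem μ i) n := by
  classical
  have key : ∀ t : {t : Tableau μ (Fin (n + 1)) // IsStd t},
      ∃ x : (Σ i : {i : ℕ // i ∈ corners μ}, {s : Tableau (rem μ i) (Fin n) // IsStd s}),
        t.1 = extT (mem_corners.mp x.1.2) x.2.1 := by
    intro t
    obtain ⟨i, h1, h2⟩ : ∃ i, Corner μ i ∧ (t.1 (Fin.last n)).1 = (i, μ.rowLen i - 1) :=
      ⟨_, GC_corner μ n t.1 t.2⟩
    obtain ⟨s, hs⟩ := exists_extT h1 t.1 h2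
    have hr : ∀ a, Tableau.row s a = Tableau.row t.1 a.castSucc := by
      intro a
      unfold Tableau.row
      rw [hs, extT_castSucc]
    have hcl : ∀ a, Tableau.col s a = Tableau.col t.1 a.castSucc := by
      intro a
      unfold Tableau.col
      rw [hs, extT_castSucc]
    refine ⟨⟨⟨_, mem_corners.mpr h1⟩, ⟨s, ?_, ?_⟩⟩, hs⟩
    · intro a b hab hcc
      have := t.2.1 a.castSucc b.castSucc (by rw [← hr, ← hr]; exact hab)
        (by rw [← hcl, ← hcl]; exact hcc)
      exact Fin.castSucc_lt_castSucc_iff.mp this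
    · intro a b hab hcc
      have := t.2.2 a.castSucc b.castSucc (by rw [← hcl, ← hcl]; exact hab)
        (by rw [← hr, ← hr]; exact hcc)
      exact Fin.castSucc_lt_castSucc_iff.mp this
  choose F hF using key
  have hinj : Function.Injective F := by
    intro a b hab
    apply Subtype.ext
    rw [hF a, hF b, hab]
  have hfin : ∀ (ν : YoungDiagram), Finite {s : Tableau ν (Fin n) // IsStd s} := by
    intro ν
    infer_instance
  have h3 : nStd μ (n + 1) ≤
      Nat.card (Σ i : {i : ℕ // i ∈ corners μ}, {s : Tableau (rem μ i) (Fin n) // IsStd s}) :=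
    Nat.card_le_card_of_injective F hinj
  refine h3.trans (le_of_eq ?_)
  rw [Nat.card_sigma]
  exact Finset.sum_coe_sort (corners μ) (fun i => nStd (rem μ i) n)

theorem nStd_zero (μ : YoungDiagram) : nStd μ 0 ≤ 1 := by
  unfold nStd
  rw [Finite.card_le_one_iff_subsingleton]
  refine ⟨fun a b => ?_⟩
  apply Subtype.ext
  apply Equiv.ext
  intro x
  exact x.elim0

end SPV
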