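import Pool.Agent.SPV.NA

/-!
# SPV / NB : solving the branching recursion
-/

set_option linter.unusedSectionVars false

namespace SPV

open Finset

/-- a nonzero term of the determinant, with equal sums, is a rearrangement -/
private theorem NB_term {k : ℕ} (x κ : Fin k → ℕ) (hs : ∑ i, x i = ∑ i, κ i)
    (σ : Equiv.Perm (Fin k)) (h : ∏ i, ((x (σ i)).descFactorial (κ i) : ℤ) ≠ 0) :
    ∀ i, x (σ i) = κ i := by
  have hle : ∀ i, κ i ≤ x (σ i) := by
    intro i
    by_contra hlt
    push Not at hlt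
    apply h
    apply Finset.prod_eq_zero (Finset.mem_univ i)
    rw [Nat.descFactorial_eq_zero_iff_lt.mpr hlt]
    rfl
  have hs' : ∑ i, κ i = ∑ i, x (σ i) := by
    rw [← hs]
    exact (Equiv.sum_comp σ x).symm
  have := (Finset.sum_eq_sum_iff_of_le (fun i _ => hle i)).mp hs'
  intro i
  exact (this i (Finset.mem_univ i)).symm

private theorem NB_det {k : ℕ} (x κ : Fin k → ℕ) :
    Dt x κ = ∑ σ : Equiv.Perm (Fin k), ((Equiv.Perm.sign σ : ℤˣ) : ℤ) *
      ∏ i, ((x (σ i)).descFactorial (κ i) : ℤ) := by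
  unfold Dt
  rw [Matrix.det_apply']
  rfl

/-- Sketch.  In `det [(β_i)_{β_j}]` the term of a permutation `σ` is nonzero only if
`β_{σ j} ≥ β_j` for all `j`; the sums are equal, so `β_{σ j} = β_j`, `σ = 1`. -/
theorem Dt_self {k : ℕ} (b : Fin k → ℕ) (hb : Function.Injective b) :
    Dt b b = ∏ i, ((b i).factorial : ℤ) := by
  rw [NB_det, Finset.sum_eq_single (1 : Equiv.Perm (Fin k))]
  · simp [Nat.descFactorial_self]
  · intro σ _ hσ
    by_contra hne
    apply hσ
    have h1 : ∏ i, ((b (σ i)).descFactorial (b i) : ℤ) ≠ 0 := right_ne_zero_of_mul hne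
    have h2 := NB_term b b rfl σ h1
    apply Equiv.ext
    intro i
    exact hb (h2 i)
  · intro h
    exact absurd (Finset.mem_univ _) h

/-- Sketch.  `μ ≠ κ`, `μ.card = κ.card`, so `∑ bet μ = ∑ bet κ` (`sum_bet`); a nonzero term of the
determinant forces `bet μ (σ j) = bet κ j` for all `j`; both are strictly decreasing, so
`bet μ = bet κ`, `μ = κ` (`bet_injective`). -/
theorem Dt_ne {k : ℕ} {μ κ : YoungDiagram} (hk : μ.colLen 0 ≤ k) (hk' : κ.colLen 0 ≤ k)
    (hc : μ.card = κ.card) (hne : μ ≠ κ) : Dt (bet μ k) (bet κ k) = 0 := by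
  rw [NB_det]
  apply Finset.sum_eq_zero
  intro σ _
  by_contra hne0
  have h1 : ∏ i, ((bet μ k (σ i)).descFactorial (bet κ k i) : ℤ) ≠ 0 := right_ne_zero_of_mul hne0
  have hs : ∑ i, bet μ k i = ∑ i, bet κ k i := by
    have e1 := sum_bet μ k hk
    have e2 := sum_bet κ k hk'
    have e3 : (∑ i, (bet μ k i : ℤ)) = ∑ i, (bet κ k i : ℤ) := by rw [e1, e2, hc]
    exact_mod_cast e3
  have h2 := NB_term _ _ hs σ h1
  have hμa := bet_strictAnti μ k
  have hκa := bet_strictAnti κ k
  have hσ : StrictMono σ := by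
    intro i j hij
    have h3 : bet κ k j < bet κ k i := hκa hij
    rw [← h2 i, ← h2 j] at h3
    exact hμa.lt_iff_gt.mp h3
  have hid : (σ : Fin k → Fin k) = id := by
    refine (StrictMono.range_inj hσ strictMono_id).mp ?_
    rw [Set.range_id, σ.surjective.range_eq]
  apply hne
  apply bet_injective hk hk'
  funext i
  have := h2 i
  rw [hid] at this
  exact this

/-- Solution of the recursion.

Sketch.  Induction on `l`.  `l = 0`: `Dt_self`, `Dt_ne`.  Step: for a corner `i` of `μ`,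
`∏ (bet μ)! = bet μ i * ∏ (bet (rem μ i))!` (`bet_rem`, `bet_pos`), so
`X (l+1) μ * ∏ (bet μ)! = ∑_{corners} bet μ i * c * l! * Dt (bet (rem μ i)) (bet κ)`, which is the sum
over all `i : Fin k` of `c l! bet_i Dt (update ..)` by `Dt_noncorner` (corners are `< μ.colLen 0 ≤ k`),
i.e. `c * l! * (∑ bet μ - ∑ bet κ) * Dt = c * l! * (l + 1) * Dt` by `Dt_rec`, `sum_bet`. -/
theorem rec_solve {k m : ℕ} (κ : YoungDiagram) (hκ : κ.card = m) (hκk : κ.colLen 0 ≤ k) (c : ℚ)
    (X : ℕ → YoungDiagram → ℚ) (h0 : X 0 κ = c)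
    (hbase : ∀ ν : YoungDiagram, ν.card = m → ν ≠ κ → X 0 ν = 0)
    (hrec : ∀ (l : ℕ) (μ : YoungDiagram), μ.card = m + l + 1 →
      X (l + 1) μ = ∑ i ∈ corners μ, X l (rem μ i)) :
    ∀ (l : ℕ) (μ : YoungDiagram), μ.card = m + l → μ.colLen 0 ≤ k →
      X l μ * ∏ i, ((bet μ k i).factorial : ℚ) =
        c * (l.factorial : ℚ) * ((Dt (bet μ k) (bet κ k) : ℤ) : ℚ) := by
  intro l
  induction l with
  | zero =>
    intro μ hμ hμk
    by_cases h : μ = κ
    · subst h
      rw [h0, Dt_self _ (bet_strictAnti μ k).injective]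
      push_cast
      simp
    · rw [hbase μ hμ h, Dt_ne hμk hκk (by omega) h]
      simp
  | succ l ih =>
    intro μ hμ hμk
    set G : ℕ → ℚ := fun i => if h : i < k then
      (bet μ k ⟨i, h⟩ : ℚ) * ((Dt (Function.update (bet μ k) ⟨i, h⟩ (bet μ k ⟨i, h⟩ - 1))
        (bet κ k) : ℤ) : ℚ) else 0 with hG
    have hsub : corners μ ⊆ Finset.range k := by
      intro i hi
      rw [Finset.mem_range]
      exact (mem_corners.mp hi).lt.trans_le hμk
    have h1 : ∑ i ∈ corners μ, G i = ∑ i ∈ Finset.range k, G i := by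
      apply Finset.sum_subset hsub
      intro i hi hni
      rw [Finset.mem_range] at hi
      rw [hG]
      dsimp only
      rw [dif_pos hi]
      have h2 := Dt_noncorner hμk ⟨i, hi⟩ (fun h => hni (mem_corners.mpr h)) (bet κ k)
      exact_mod_cast h2
    have h2 : ∑ i ∈ Finset.range k, G i = ((l : ℚ) + 1) * ((Dt (bet μ k) (bet κ k) : ℤ) : ℚ) := by
      rw [Finset.sum_range]
      have h3 := Dt_rec (bet μ k) (bet κ k)
      have e1 := sum_bet μ k hμk
      have e2 := sum_bet κ k hκk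
      have e3 : (∑ i, (bet μ k i : ℤ)) - ∑ i, (bet κ k i : ℤ) = (l : ℤ) + 1 := by
        rw [e1, e2, hμ, hκ]
        push_cast
        ring
      rw [e3] at h3
      have h4 := congrArg (fun z : ℤ => (z : ℚ)) h3
      push_cast at h4
      rw [← h4]
      apply Finset.sum_congr rfl
      intro i _
      rw [hG]
      dsimp only
      rw [dif_pos i.2]
    have h5 : ∀ i ∈ corners μ, X l (rem μ i) * ∏ j, ((bet μ k j).factorial : ℚ) =
        c * (l.factorial : ℚ) * G i := by
      intro i hi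
      have hcor := mem_corners.mp hi
      have hik : i < k := Finset.mem_range.mp (hsub hi)
      have hrc := rem_card hcor
      have h6 := ih (rem μ i) (by omega) (rem_colLen_le hcor hμk)
      rw [hG]
      dsimp only
      rw [dif_pos hik]
      have hb := bet_rem hcor hik
      have hpos := bet_pos hcor hik
      have h7 : ∏ j, ((bet μ k j).factorial : ℚ) =
          (bet μ k ⟨i, hik⟩ : ℚ) * ∏ j, ((bet (rem μ i) k j).factorial : ℚ) := by
        rw [hb, ← Finset.mul_prod_erase univ _ (Finset.mem_univ (⟨i, hik⟩ : Fin k)),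
          ← Finset.mul_prod_erase univ
            (fun j => ((Function.update (bet μ k) ⟨i, hik⟩ (bet μ k ⟨i, hik⟩ - 1) j).factorial : ℚ))
            (Finset.mem_univ (⟨i, hik⟩ : Fin k)), ← mul_assoc]
        congr 1
        · rw [Function.update_self]
          obtain ⟨r, hr⟩ : ∃ r, bet μ k ⟨i, hik⟩ = r + 1 := ⟨bet μ k ⟨i, hik⟩ - 1, by omega⟩
          rw [hr, Nat.factorial_succ, Nat.add_sub_cancel]
          push_cast
          ring
        · apply Finset.prod_congr rfl
          intro j hj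
          rw [Function.update_of_ne (Finset.ne_of_mem_erase hj)]
      rw [h7]
      calc X l (rem μ i) * ((bet μ k ⟨i, hik⟩ : ℚ) * ∏ j, ((bet (rem μ i) k j).factorial : ℚ))
          = (bet μ k ⟨i, hik⟩ : ℚ) * (X l (rem μ i) * ∏ j, ((bet (rem μ i) k j).factorial : ℚ)) := by
            ring
        _ = _ := by
            rw [h6, hb]
            ring
    rw [hrec l μ (by omega), Finset.sum_mul, Finset.sum_congr rfl h5, ← Finset.mul_sum, h1, h2,
      Nat.factorial_succ]
    push_cast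
    ring

/-- Vandermonde: `det [(x_i)_{k-1-j}] = ∏_{i<j} (x_i - x_j)` (e.g. from
`Matrix.det_eval_matrixOfPolynomials_eq_det_vandermonde` for `descPochhammer`, after reversing the
columns, or by induction). -/
theorem Dt_vandermonde {k : ℕ} (x : Fin k → ℕ) : Dt x (bet ⊥ k) = Vd x := by
  have h := Matrix.det_eval_matrixOfPolynomials_eq_det_vandermonde
    (fun i : Fin k => ((x i.rev : ℕ) : ℤ))
    (fun i => descPochhammer ℤ i)
    (fun i => descPochhammer_natDegree ℤ i)
    (fun i => monic_descPochhammer ℤ i)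
  have h1 : Dt x (bet ⊥ k) = (Matrix.of (fun i j : Fin k =>
      ((descPochhammer ℤ j).eval ((x i.rev : ℕ) : ℤ)))).det := by
    unfold Dt
    rw [← Matrix.det_submatrix_equiv_self Fin.revPerm]
    congr 1
    ext i j
    rw [Matrix.submatrix_apply, Matrix.of_apply, Matrix.of_apply,
      descPochhammer_eval_eq_descFactorial, bet_bot]
    have e1 : k - 1 - ((Fin.revPerm j : Fin k) : ℕ) = (j : ℕ) := by
      rw [Fin.revPerm_apply, Fin.val_rev]
      omega
    rw [e1]
    rfl
  rw [h1, ← h, Matrix.det_vandermonde]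
  unfold Vd
  rw [Finset.prod_sigma', Finset.prod_sigma']
  refine Finset.prod_bij' (fun p _ => ⟨p.2.rev, p.1.rev⟩) (fun p _ => ⟨p.2.rev, p.1.rev⟩) ?_ ?_ ?_ ?_ ?_
  · rintro ⟨i, j⟩ hp
    rw [Finset.mem_sigma, Finset.mem_Ioi] at hp ⊢
    exact ⟨Finset.mem_univ _, Fin.rev_lt_rev.mpr hp.2⟩
  · rintro ⟨i, j⟩ hp
    rw [Finset.mem_sigma, Finset.mem_Ioi] at hp ⊢
    exact ⟨Finset.mem_univ _, Fin.rev_lt_rev.mpr hp.2⟩
  · rintro ⟨i, j⟩ _
    simp
  · rintro ⟨i, j⟩ _
    simp
  · rintro ⟨i, j⟩ _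
    rfl

theorem Vd_pos {k : ℕ} {x : Fin k → ℕ} (hx : StrictAnti x) : 0 < Vd x := by
  unfold Vd
  apply Finset.prod_pos
  intro i _
  apply Finset.prod_pos
  intro j hj
  rw [Finset.mem_Ioi] at hj
  have : x j < x i := hx hj
  have h2 : (x j : ℤ) < x i := by exact_mod_cast this
  linarith

end SPV
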