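import Pool.Agent.SPV.Jam

/-!
# SPV / RK : the rank modulo 2 is at most the rank over `ℚ`
-/

set_option linter.unusedSectionVars false

namespace SPV

open Finset

private theorem rk_two_pow {T κ : Type*} [Fintype κ] (F : Type*) [Field F]
    [CharP F 2] (w : κ → T → ℤ)
    (hw : LinearIndependent F (fun (i : κ) (x : T) => ((w i x : ℤ) : F))) :
    ∀ (n : ℕ) (c : κ → ℤ), (∀ x, ∑ i, c i * w i x = 0) → ∀ i, (2 : ℤ) ^ n ∣ c i := by
  rw [Fintype.linearIndependent_iff] at hw
  have h2 : ∀ c : κ → ℤ, (∀ x, ∑ i, c i * w i x = 0) → ∀ i, (2 : ℤ) ∣ c i := by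
    intro c hc i
    have h1 := hw (fun i => ((c i : ℤ) : F)) (by
      funext x
      rw [Finset.sum_apply]
      simp only [Pi.smul_apply, smul_eq_mul, Pi.zero_apply]
      have h3 := congrArg (Int.cast : ℤ → F) (hc x)
      push_cast at h3
      exact h3) i
    have h4 := (CharP.intCast_eq_zero_iff F 2 (c i)).mp h1
    exact_mod_cast h4
  intro n
  induction n with
  | zero => intro c _ i; rw [pow_zero]; exact one_dvd _
  | succ n ih =>
    intro c hc i
    choose c' hc' using h2 c hc
    have h3 : ∀ x, ∑ i, c' i * w i x = 0 := by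
      intro x
      have h4 := hc x
      rw [Finset.sum_congr rfl (fun i _ => by rw [hc' i, mul_assoc]), ← Finset.mul_sum] at h4
      exact (mul_eq_zero.mp h4).resolve_left two_ne_zero
    rw [hc' i, pow_succ, mul_comm]
    exact mul_dvd_mul_left 2 (ih c' h3 i)

private theorem rk_linInd {T κ : Type*} [Fintype κ] (F : Type*) [Field F]
    [CharP F 2] (w : κ → T → ℤ)
    (hw : LinearIndependent F (fun (i : κ) (x : T) => ((w i x : ℤ) : F))) :
    LinearIndependent ℚ (fun (i : κ) (x : T) => ((w i x : ℤ) : ℚ)) := by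
  rw [← LinearIndependent.iff_fractionRing (R := ℤ), Fintype.linearIndependent_iff]
  intro c hc i
  have h1 : ∀ x, ∑ i, c i * w i x = 0 := by
    intro x
    have h2 := congrFun hc x
    rw [Finset.sum_apply] at h2
    simp only [Pi.smul_apply, zsmul_eq_mul, Pi.zero_apply] at h2
    exact_mod_cast h2
  have h3 := rk_two_pow F w hw (c i).natAbs c h1 i
  by_contra h0
  have h4 : (2 : ℕ) ^ (c i).natAbs ∣ (c i).natAbs := by
    have := Int.natAbs_dvd_natAbs.mpr h3
    rwa [Int.natAbs_pow] at this
  have h5 := Nat.le_of_dvd (Int.natAbs_pos.mpr h0) h4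
  exact absurd h5 (not_le.mpr Nat.lt_two_pow_self)

/-- Sketch.  Let `p = 2`.  Choose a subfamily of the vectors whose images over `F` form a basis of
the span over `F`.  Their images over `ℚ` are linearly independent: a rational relation gives
an integral one, `∑ c_j v_j = 0` in `ℤ^T`; modulo 2 (in `F`) all `(c_j : F) = 0`, so all `c_j` are
even (`CharP.intCast_eq_zero_iff`); divide by 2 and repeat: all `c_j` are divisible by all
powers of 2, so they are 0. -/
theorem finrank_span_le {T I : Type*} [Fintype T] (F : Type*) [Field F] [CharP F 2]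
    (v : I → T → ℤ) :
    Module.finrank F (Submodule.span F (Set.range fun (i : I) (x : T) => ((v i x : ℤ) : F))) ≤
      Module.finrank ℚ
        (Submodule.span ℚ (Set.range fun (i : I) (x : T) => ((v i x : ℤ) : ℚ))) := by
  obtain ⟨κ, a, -, hspan, hli⟩ := exists_linearIndependent' F
    (fun (i : I) (x : T) => ((v i x : ℤ) : F))
  have hfin : Finite κ := hli.finite
  let iκ : Fintype κ := Fintype.ofFinite κ
  have hli' : LinearIndependent F (fun (i : κ) (x : T) => ((v (a i) x : ℤ) : F)) := hli
  have hQ := rk_linInd F (fun i => v (a i)) hli'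
  have h1 := finrank_span_eq_card hli
  have h2 := finrank_span_eq_card hQ
  rw [← hspan, h1, ← h2]
  apply Submodule.finrank_mono
  apply Submodule.span_mono
  rintro _ ⟨i, rfl⟩
  exact ⟨a i, rfl⟩

private theorem rk_specht (K : Type*) [Field K] (μ : YoungDiagram) (n : ℕ)
    [Fintype (Tabloid μ (Fin n))] :
    Module.finrank K (Specht K μ (Fin n)) =
      Module.finrank K (Submodule.span K (Set.range fun (t : Tableau μ (Fin n))
        (f : Tabloid μ (Fin n)) => ((polytabloid ℤ t f : ℤ) : K))) := by
  have h1 : Submodule.span K (Set.range fun (t : Tableau μ (Fin n))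
        (f : Tabloid μ (Fin n)) => ((polytabloid ℤ t f : ℤ) : K)) =
      (Specht K μ (Fin n)).map
        (Finsupp.linearEquivFunOnFinite K K (Tabloid μ (Fin n))).toLinearMap := by
    unfold Specht
    rw [Submodule.map_span, ← Set.range_comp]
    congr 2
    funext t f
    show ((polytabloid ℤ t f : ℤ) : K) = polytabloid K t f
    rw [polytabloid_cast K t f]
  rw [h1]
  exact (LinearEquiv.finrank_map_eq _ _).symm

/-- via `Finsupp.linearEquivFunOnFinite` and `polytabloid_cast`. -/
theorem finrank_specht_le (F : Type*) [Field F] [CharP F 2] (μ : YoungDiagram) (n : ℕ) :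
    Module.finrank F (Specht F μ (Fin n)) ≤ Module.finrank ℚ (Specht ℚ μ (Fin n)) := by
  let iT : Fintype (Tabloid μ (Fin n)) := Fintype.ofFinite _
  rw [rk_specht F μ n, rk_specht ℚ μ n]
  exact finrank_span_le F (fun (t : Tableau μ (Fin n)) (f : Tabloid μ (Fin n)) => polytabloid ℤ t f)

end SPV
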