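import Pool.Agent.SPV.BB
import Pool.Agent.SPV.GB
import Pool.Agent.SPV.GC
import Pool.Agent.SPV.RK
import Pool.Agent.SPV.NB

/-!
# SPV / DM : dimensions of Specht modules
-/

set_option linter.unusedSectionVars false

namespace SPV

open Finset

private theorem DM_pos (F : Type*) [Field F] (μ : YoungDiagram) (hμ : μ.card = 0) :
    1 ≤ Module.finrank F (Specht F μ (Fin 0)) := by
  have hcard : Fintype.card (Fin 0) = Fintype.card {c : ℕ × ℕ // c ∈ μ.cells} := by
    rw [Fintype.card_coe, Fintype.card_fin]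
    exact hμ.symm
  have t : Tableau μ (Fin 0) := Fintype.equivOfCardEq hcard
  have hne : polytabloid F t ≠ 0 := by
    intro h
    have h1 := polytabloid_apply_self F t
    rw [h] at h1
    simp at h1
  have hfin : Module.Finite F (Tabloid μ (Fin 0) →₀ F) := inferInstance
  have : Nontrivial (Specht F μ (Fin 0)) := by
    refine ⟨⟨⟨polytabloid F t, polytabloid_mem F t⟩, 0, ?_⟩⟩
    intro h
    exact hne (congrArg Subtype.val h)
  exact Module.finrank_pos (R := F) (M := Specht F μ (Fin 0))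

/-- Induction on `n`: `nStd_le`, `finrank_specht_ge`; `n = 0`: `nStd_zero` and `S^∅ ≠ 0`
(there is a tableau, and polytabloids are nonzero by `polytabloid_apply_self`). -/
theorem nStd_le_finrank (F : Type*) [Field F] (n : ℕ) (μ : YoungDiagram) (hμ : μ.card = n) :
    nStd μ n ≤ Module.finrank F (Specht F μ (Fin n)) := by
  induction n generalizing μ with
  | zero => exact (nStd_zero μ).trans (DM_pos F μ hμ)
  | succ n ih =>
    refine (nStd_le μ n hμ).trans (le_trans (Finset.sum_le_sum ?_) (finrank_specht_ge F μ n))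
    intro i hi
    apply ih
    have := rem_card (mem_corners.mp hi)
    omega

/-- from `finrank_le_nStd`. -/
theorem finrank_rat (n : ℕ) (μ : YoungDiagram) (hμ : μ.card = n) :
    Module.finrank ℚ (Specht ℚ μ (Fin n)) = nStd μ n :=
  le_antisymm (finrank_le_nStd μ n) (nStd_le_finrank ℚ n μ hμ)

/-- `nStd μ (n+1) ≤ ∑ nStd (rem μ i) n = ∑ dim ≤ dim S^μ = nStd μ (n+1)`. -/
theorem finrank_rec (n : ℕ) (μ : YoungDiagram) (hμ : μ.card = n + 1) :
    ∑ i ∈ corners μ, Module.finrank ℚ (Specht ℚ (rem μ i) (Fin n)) =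
      Module.finrank ℚ (Specht ℚ μ (Fin (n + 1))) := by
  apply le_antisymm (finrank_specht_ge ℚ μ n)
  rw [finrank_rat (n + 1) μ hμ]
  refine (nStd_le μ n hμ).trans (le_of_eq (Finset.sum_congr rfl ?_))
  intro i hi
  have := rem_card (mem_corners.mp hi)
  exact (finrank_rat n (rem μ i) (by omega)).symm

private theorem DM_bot {ν : YoungDiagram} (h : ν.card = 0) : ν = ⊥ := by
  apply YoungDiagram.ext
  rw [YoungDiagram.cells_bot]
  exact Finset.card_eq_zero.mp h

/-- The degree formula `f^μ ∏ β_i! = n! ∏_{i<j} (β_i - β_j)`: `rec_solve` with `m = 0`, `κ = ⊥`,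
`c = 1`, `X l μ = dim S^μ`, and `Dt_vandermonde`. -/
theorem finrank_formula (n k : ℕ) (μ : YoungDiagram) (hμ : μ.card = n) (hk : μ.colLen 0 ≤ k) :
    (Module.finrank ℚ (Specht ℚ μ (Fin n)) : ℤ) * ∏ i, ((bet μ k i).factorial : ℤ) =
      (n.factorial : ℤ) * Vd (bet μ k) := by
  have hb0 : (⊥ : YoungDiagram).card = 0 := by
    unfold YoungDiagram.card
    rw [YoungDiagram.cells_bot, Finset.card_empty]
  have hbk : (⊥ : YoungDiagram).colLen 0 ≤ k := by
    by_contra hlt
    push Not at hlt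
    have h1 : (k, 0) ∈ (⊥ : YoungDiagram) := YoungDiagram.mem_iff_lt_colLen.mpr hlt
    exact YoungDiagram.notMem_bot _ h1
  have h0 : ((Module.finrank ℚ (Specht ℚ (⊥ : YoungDiagram) (Fin 0)) : ℕ) : ℚ) = 1 := by
    have h1 := DM_pos ℚ (⊥ : YoungDiagram) hb0
    have h2 : Module.finrank ℚ (Specht ℚ (⊥ : YoungDiagram) (Fin 0)) ≤ 1 :=
      (finrank_le_nStd _ 0).trans (nStd_zero _)
    have h3 : Module.finrank ℚ (Specht ℚ (⊥ : YoungDiagram) (Fin 0)) = 1 := by omega
    rw [h3]
    norm_num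
  have h := rec_solve (k := k) (m := 0) ⊥ hb0 hbk 1
    (fun l ν => ((Module.finrank ℚ (Specht ℚ ν (Fin l)) : ℕ) : ℚ)) h0
    (fun ν hν hne => absurd (DM_bot hν) hne)
    (fun l ν hν => by
      have := finrank_rec l ν (by omega)
      rw [← this]
      push_cast
      rfl) n μ (by omega) hk
  rw [Dt_vandermonde, one_mul] at h
  exact_mod_cast h

/-- `finrank_specht_le`, `nStd_le_finrank`, `finrank_rat`. -/
theorem finrank_char_two (F : Type*) [Field F] [CharP F 2] (n : ℕ) (μ : YoungDiagram)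
    (hμ : μ.card = n) :
    Module.finrank F (Specht F μ (Fin n)) = Module.finrank ℚ (Specht ℚ μ (Fin n)) := by
  apply le_antisymm (finrank_specht_le F μ n)
  rw [finrank_rat n μ hμ]
  exact nStd_le_finrank F n μ hμ

end SPV
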