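import Pool.Agent.SPV.D2

/-!
# SPV / EA : the operator `E`
-/

set_option linter.unusedSectionVars false

namespace SPV

open Finset

variable {F : Type*} [Field F] {μ : YoungDiagram} {n : ℕ}

/-- `E f = ∑_{i<j, f i > f j} (f + (i j) f)` on the permutation module. -/
noncomputable def Eop (F : Type*) [Field F] (μ : YoungDiagram) (n : ℕ) :
    Module.End F (Tabloid μ (Fin n) →₀ F) :=
  Finsupp.linearCombination F (fun f : Tabloid μ (Fin n) =>
    ∑ p ∈ univ.filter (fun p : Fin n × Fin n => p.1 < p.2 ∧ f.1 p.2 < f.1 p.1),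
      (Finsupp.single f (1 : F) + Finsupp.single (Equiv.swap p.1 p.2 • f) (1 : F)))

/-- `δ(g) = ∑ (1 + (i j))` over the inversions `i < j`, `g⁻¹ i > g⁻¹ j`. -/
noncomputable def dlt {V : Type*} [AddCommGroup V] [Module F V]
    (ρ : Representation F (Equiv.Perm (Fin n)) V) (g : Equiv.Perm (Fin n)) : Module.End F V :=
  ∑ p ∈ univ.filter (fun p : Fin n × Fin n => p.1 < p.2 ∧ g⁻¹ p.2 < g⁻¹ p.1),
    (1 + ρ (Equiv.swap p.1 p.2))

private theorem EA_two [CharP F 2] (x : Tabloid μ (Fin n) →₀ F) : x + x = 0 := by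
  ext a
  rw [Finsupp.add_apply, CharTwo.add_self_eq_zero, Finsupp.zero_apply]

private theorem EA_fix (h : Tabloid μ (Fin n)) (a b : Fin n) (hab : h.1 a = h.1 b) :
    Equiv.swap a b • h = h := by
  ext x
  rw [smul_val, Equiv.swap_inv]
  rcases eq_or_ne x a with rfl | hxa
  · rw [Equiv.swap_apply_left, hab]
  · rcases eq_or_ne x b with rfl | hxb
    · rw [Equiv.swap_apply_right, hab]
    · rw [Equiv.swap_apply_of_ne_of_ne hxa hxb]

/-- `E (g f) = g E f + δ(g) g f` for tabloids `f`.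

Sketch.  `g E f = ∑_{i<j, f i > f j} (g f + (g i  g j) g f)`.  Reindex by the unordered pair
`{a, b} = {g i, g j}`, `a < b`: the pairs with `g⁻¹ a < g⁻¹ b` give the condition
`f (g⁻¹ a) > f (g⁻¹ b)`, those with `g⁻¹ a > g⁻¹ b` give `f (g⁻¹ b) > f (g⁻¹ a)`.  `E (g f)` is the
sum over `a < b` with `f (g⁻¹ a) > f (g⁻¹ b)`.  The difference (char 2) is the sum over `a < b`,
`g⁻¹ a > g⁻¹ b`, `f (g⁻¹ a) ≠ f (g⁻¹ b)` of `(1 + (a b)) g f`, and when
`f (g⁻¹ a) = f (g⁻¹ b)` then `(a b) g f = g f`, so `(1 + (a b)) g f = 0`. -/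
theorem Eop_single [CharP F 2] (g : Equiv.Perm (Fin n)) (f : Tabloid μ (Fin n)) :
    Eop F μ n (Finsupp.single (g • f) 1) =
      permRep F μ (Fin n) g (Eop F μ n (Finsupp.single f 1)) +
      dlt (permRep F μ (Fin n)) g (Finsupp.single (g • f) 1) := by
  classical
  set h : Tabloid μ (Fin n) := g • f with hh
  let φ : Fin n × Fin n → (Tabloid μ (Fin n) →₀ F) := fun p =>
    Finsupp.single h (1 : F) + Finsupp.single (Equiv.swap p.1 p.2 • h) (1 : F)
  have hφs : ∀ p : Fin n × Fin n, φ p.swap = φ p := by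
    intro p
    simp only [φ, Prod.fst_swap, Prod.snd_swap, Equiv.swap_comm]
  have hφ0 : ∀ p : Fin n × Fin n, h.1 p.1 = h.1 p.2 → φ p = 0 := by
    intro p hp
    simp only [φ, EA_fix h _ _ hp]
    exact EA_two _
  have hg : ∀ i, h.1 (g i) = f.1 i := by
    intro i
    rw [hh, smul_val]
    simp
  obtain ⟨k, hk⟩ : ∃ k : Fin n → Fin n, ∀ x, g⁻¹ x = k x := ⟨_, fun _ => rfl⟩
  have hkg : ∀ x, k (g x) = x := by
    intro x
    rw [← hk]
    simp
  have hkinj : ∀ x y, k x = k y → x = y := by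
    intro x y hxy
    rw [← hk, ← hk] at hxy
    exact g⁻¹.injective hxy
  -- the three sums
  have e1 : Eop F μ n (Finsupp.single h 1) =
      ∑ p : Fin n × Fin n, if p.1 < p.2 ∧ h.1 p.2 < h.1 p.1 then φ p else 0 := by
    rw [Eop, Finsupp.linearCombination_single, one_smul, sum_filter]
  have e3 : dlt (permRep F μ (Fin n)) g (Finsupp.single h 1) =
      ∑ p : Fin n × Fin n, if p.1 < p.2 ∧ k p.2 < k p.1 then φ p else 0 := by
    rw [dlt, LinearMap.sum_apply, sum_filter]
    refine sum_congr rfl fun p _ => ?_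
    rw [hk, hk]
    split_ifs
    · rw [LinearMap.add_apply, permRep_single]
      rfl
    · rfl
  have e2 : permRep F μ (Fin n) g (Eop F μ n (Finsupp.single f 1)) =
      ∑ p : Fin n × Fin n, if k p.1 < k p.2 ∧ h.1 p.2 < h.1 p.1 then φ p else 0 := by
    rw [Eop, Finsupp.linearCombination_single, one_smul, map_sum, sum_filter]
    refine Eq.trans ?_ (Equiv.sum_comp (Equiv.prodCongr g g)
      (fun p => if k p.1 < k p.2 ∧ h.1 p.2 < h.1 p.1 then φ p else 0))
    refine sum_congr rfl fun p _ => ?_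
    have e4 : permRep F μ (Fin n) g (Finsupp.single f (1 : F) +
        Finsupp.single (Equiv.swap p.1 p.2 • f) (1 : F)) = φ (g p.1, g p.2) := by
      rw [map_add, permRep_single, permRep_single]
      simp only [φ, hh]
      congr 2
      rw [← mul_smul, ← mul_smul]
      congr 1
      rw [Equiv.swap_apply_apply]
      group
    rw [e4]
    change _ = if k (g p.1) < k (g p.2) ∧ h.1 (g p.2) < h.1 (g p.1) then φ (g p.1, g p.2) else 0
    rw [hkg, hkg, hg, hg]
  have e5 : (∑ p : Fin n × Fin n, if k p.1 < k p.2 ∧ h.1 p.2 < h.1 p.1 then φ p else 0) =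
      (∑ p : Fin n × Fin n,
        if (k p.1 < k p.2 ∧ h.1 p.2 < h.1 p.1) ∧ p.1 < p.2 then φ p else 0) +
      ∑ p : Fin n × Fin n,
        if (k p.2 < k p.1 ∧ h.1 p.1 < h.1 p.2) ∧ p.1 < p.2 then φ p else 0 := by
    have e6 : (∑ p : Fin n × Fin n,
        if (k p.2 < k p.1 ∧ h.1 p.1 < h.1 p.2) ∧ p.1 < p.2 then φ p else 0) =
        ∑ p : Fin n × Fin n,
        if (k p.1 < k p.2 ∧ h.1 p.2 < h.1 p.1) ∧ p.2 < p.1 then φ p else 0 := by
      rw [← (Equiv.prodComm (Fin n) (Fin n)).sum_comp]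
      refine sum_congr rfl fun p _ => ?_
      simp only [Equiv.prodComm_apply, Prod.fst_swap, Prod.snd_swap, hφs]
    rw [e6, ← sum_add_distrib]
    refine sum_congr rfl fun p _ => ?_
    by_cases hA : k p.1 < k p.2 ∧ h.1 p.2 < h.1 p.1
    · have hne : p.1 ≠ p.2 := by
        intro he
        rw [he] at hA
        exact lt_irrefl _ hA.1
      rcases lt_or_gt_of_ne hne with hlt | hlt
      · rw [if_pos hA, if_pos ⟨hA, hlt⟩, if_neg (fun h' => hlt.le.not_gt h'.2), add_zero]
      · rw [if_pos hA, if_neg (fun h' => hlt.le.not_gt h'.2), if_pos ⟨hA, hlt⟩, zero_add]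
    · rw [if_neg hA, if_neg (fun h' => hA h'.1), if_neg (fun h' => hA h'.1), add_zero]
  rw [e1, e2, e3, e5, ← sum_add_distrib, ← sum_add_distrib]
  refine sum_congr rfl fun p _ => ?_
  by_cases hp : p.1 < p.2
  · have hne : k p.1 ≠ k p.2 := fun he => hp.ne (hkinj _ _ he)
    rcases lt_or_gt_of_ne hne with hlt | hlt
    · have h1 : ¬ k p.2 < k p.1 := hlt.le.not_gt
      simp only [hp, hlt, h1, true_and, and_true, false_and, and_false, if_false, add_zero]
    · have h1 : ¬ k p.1 < k p.2 := hlt.le.not_gt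
      simp only [hp, hlt, h1, true_and, and_true, false_and, and_false, if_false, if_true,
        zero_add]
      rcases lt_trichotomy (h.1 p.1) (h.1 p.2) with h2 | h2 | h2
      · rw [if_neg h2.le.not_gt, if_pos h2, EA_two]
      · rw [if_neg (by rw [h2]; exact lt_irrefl _), if_neg (by rw [h2]; exact lt_irrefl _),
          hφ0 p h2, add_zero]
      · rw [if_pos h2, if_neg h2.le.not_gt, zero_add]
  · simp only [hp, false_and, and_false, if_false, add_zero]

/-- `E g = g E + δ(g) g`, hence `g E g⁻¹ = E + δ(g)`. -/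
theorem Eop_conj [CharP F 2] (g : Equiv.Perm (Fin n)) :
    permRep F μ (Fin n) g * Eop F μ n * permRep F μ (Fin n) g⁻¹ =
      Eop F μ n + dlt (permRep F μ (Fin n)) g := by
  refine Finsupp.lhom_ext fun f r => ?_
  have h4 : (Finsupp.single f r : Tabloid μ (Fin n) →₀ F) = r • Finsupp.single f 1 := by
    rw [Finsupp.smul_single, smul_eq_mul, mul_one]
  rw [h4, map_smul, map_smul]
  congr 1
  have h5 := Eop_single (F := F) g (g⁻¹ • f)
  rw [smul_inv_smul] at h5
  change permRep F μ (Fin n) g (Eop F μ n (permRep F μ (Fin n) g⁻¹ (Finsupp.single f 1))) =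
    Eop F μ n (Finsupp.single f 1) + dlt (permRep F μ (Fin n)) g (Finsupp.single f 1)
  rw [permRep_single, h5, add_assoc, EA_two, add_zero]

end SPV
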