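import Mathlib

/-!
# SPV / SL : sums of distinct natural numbers
-/

namespace SPV

open Finset

private theorem le_emb (s : Finset ℕ) : ∀ i : Fin s.card, (i : ℕ) ≤ s.orderEmbOfFin rfl i := by
  intro i
  obtain ⟨i, hi⟩ := i
  induction i with
  | zero => exact Nat.zero_le _
  | succ i ih =>
    have h1 := ih (by omega)
    have h2 : s.orderEmbOfFin rfl ⟨i, by omega⟩ < s.orderEmbOfFin rfl ⟨i + 1, hi⟩ :=
      (s.orderEmbOfFin rfl).strictMono (by simp)
    simp only at h1 ⊢
    omega

private theorem sum_emb (s : Finset ℕ) :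
    ∑ i ∈ s, i = ∑ i : Fin s.card, s.orderEmbOfFin rfl i := by
  have h : s = univ.map (s.orderEmbOfFin rfl).toEmbedding := by
    rw [Finset.map_orderEmbOfFin_univ]
  conv_lhs => rw [h]
  rw [sum_map]
  rfl

/-- `s.card` distinct natural numbers have sum at least `0 + 1 + ... + (s.card - 1)`. -/
theorem sum_range_card_le (s : Finset ℕ) : ∑ i ∈ range s.card, i ≤ ∑ i ∈ s, i := by
  rw [sum_range, sum_emb s]
  exact sum_le_sum fun i _ => le_emb s i

/-- equality only for `s = range s.card`.  (Induction on `s.card`: the largest element of `s` is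
`≥ s.card - 1`, and the rest is handled by `sum_range_card_le`.) -/
theorem eq_range_of_sum_le (s : Finset ℕ) (h : ∑ i ∈ s, i ≤ ∑ i ∈ range s.card, i) :
    s = range s.card := by
  rw [sum_range, sum_emb s] at h
  have h1 : ∑ i : Fin s.card, (i : ℕ) = ∑ i : Fin s.card, s.orderEmbOfFin rfl i :=
    le_antisymm (sum_le_sum fun i _ => le_emb s i) h
  have h2 := (sum_eq_sum_iff_of_le (fun i _ => le_emb s i)).1 h1
  ext x
  rw [mem_range]
  constructor
  · intro hx
    rw [← Finset.mem_coe, ← Finset.range_orderEmbOfFin s rfl] at hx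
    obtain ⟨i, rfl⟩ := hx
    rw [← h2 i (mem_univ _)]
    exact i.2
  · intro hx
    have h3 := h2 ⟨x, hx⟩ (mem_univ _)
    simp only at h3
    rw [h3]
    exact Finset.orderEmbOfFin_mem s rfl _

private theorem class_sum {α : Type*} [Fintype α] [DecidableEq α] (f g : α → ℕ)
    (hinj : ∀ a b, a ≠ b → f a = f b → g a ≠ g b) (i : ℕ) :
    ((univ.filter (fun a => f a = i)).image g).card = (univ.filter (fun a => f a = i)).card ∧
    ∑ a ∈ univ.filter (fun a => f a = i), g a =
      ∑ j ∈ (univ.filter (fun a => f a = i)).image g, j := by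
  have h : Set.InjOn g (univ.filter (fun a => f a = i) : Finset α) := by
    intro a ha b hb hab
    by_contra hne
    simp only [coe_filter, mem_univ, true_and, Set.mem_ofPred_eq] at ha hb
    exact hinj a b hne (ha.trans hb.symm) hab
  exact ⟨card_image_of_injOn h, (sum_image (f := fun x => x) h).symm⟩

private theorem fiber_sum {α : Type*} [Fintype α] [DecidableEq α] (f g : α → ℕ)
    (N : ℕ) (hN : ∀ a, f a < N) :
    ∑ a, g a = ∑ i ∈ range N, ∑ a ∈ univ.filter (fun a => f a = i), g a :=
  (sum_fiberwise_of_maps_to (fun a _ => mem_range.2 (hN a)) g).symm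

private theorem class_le {α : Type*} [Fintype α] [DecidableEq α] (f g : α → ℕ)
    (hinj : ∀ a b, a ≠ b → f a = f b → g a ≠ g b) (i : ℕ) :
    ∑ j ∈ range (univ.filter (fun a => f a = i)).card, j ≤
      ∑ a ∈ univ.filter (fun a => f a = i), g a := by
  obtain ⟨h1, h2⟩ := class_sum f g hinj i
  rw [h2, ← h1]
  exact sum_range_card_le _

/-- `g` injective on the classes `{f = i}`: the sum of `g` is at least the sum over the classes
of `0 + 1 + ... + (size - 1)`. -/
theorem fam_sum_le {α : Type*} [Fintype α] [DecidableEq α] (f g : α → ℕ)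
    (hinj : ∀ a b, a ≠ b → f a = f b → g a ≠ g b) (N : ℕ) (hN : ∀ a, f a < N) :
    ∑ i ∈ range N, ∑ j ∈ range (univ.filter (fun a => f a = i)).card, j ≤ ∑ a, g a := by
  rw [fiber_sum f g N hN]
  exact sum_le_sum fun i _ => class_le f g hinj i

/-- equality case: on every class the values of `g` are exactly `0, ..., size - 1`. -/
theorem fam_sum_eq {α : Type*} [Fintype α] [DecidableEq α] (f g : α → ℕ)
    (hinj : ∀ a b, a ≠ b → f a = f b → g a ≠ g b) (N : ℕ) (hN : ∀ a, f a < N)
    (h : ∑ a, g a ≤ ∑ i ∈ range N, ∑ j ∈ range (univ.filter (fun a => f a = i)).card, j) (i : ℕ) :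
    (univ.filter (fun a => f a = i)).image g =
      range (univ.filter (fun a => f a = i)).card := by
  by_cases hi : i < N
  · rw [fiber_sum f g N hN] at h
    have h1 := le_antisymm (sum_le_sum fun i _ => class_le f g hinj i) h
    have h2 := (sum_eq_sum_iff_of_le (fun i _ => class_le f g hinj i)).1 h1 i (mem_range.2 hi)
    obtain ⟨h3, h4⟩ := class_sum f g hinj i
    rw [← h3]
    apply eq_range_of_sum_le
    rw [← h4, h3, h2]
  · have h1 : univ.filter (fun a => f a = i) = ∅ := by
      rw [filter_eq_empty_iff]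
      intro a _ ha
      exact hi (ha ▸ hN a)
    rw [h1]
    simp

end SPV
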