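import Pool.Agent.SPV.D2
import Pool.Agent.SPV.SL

/-!
# SPV / Jam : James' lemma `κ_t M^μ = R e_t`
-/

set_option linter.unusedSectionVars false

namespace SPV

open Finset

variable {μ ν : YoungDiagram} {α : Type*} [Fintype α] [DecidableEq α]

private theorem app_inv (σ : Equiv.Perm α) (x : α) : σ (σ⁻¹ x) = x := by
  rw [← Equiv.Perm.mul_apply, mul_inv_cancel, Equiv.Perm.one_apply]

private theorem inv_app (σ : Equiv.Perm α) (x : α) : σ⁻¹ (σ x) = x := by
  rw [← Equiv.Perm.mul_apply, inv_mul_cancel, Equiv.Perm.one_apply]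

private theorem kapO_single' (R : Type*) [CommRing R] (t : Tableau μ α) (f : Tabloid ν α) :
    kapO (permRep R ν α) t (Finsupp.single f 1) =
      ∑ σ ∈ colStab t, Finsupp.single (σ • f) (((Equiv.Perm.sign σ : ℤˣ) : ℤ) : R) := by
  simp [kapO, LinearMap.sum_apply]

private theorem swap_smul (f : Tabloid ν α) {a b : α} (hr : f.1 a = f.1 b) :
    Equiv.swap a b • f = f := by
  ext x
  rw [smul_val, Equiv.swap_inv]
  by_cases hxa : x = a
  · subst hxa; rw [Equiv.swap_apply_left, hr]
  · by_cases hxb : x = b
    · subst hxb; rw [Equiv.swap_apply_right, hr]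
    · rw [Equiv.swap_apply_of_ne_of_ne hxa hxb]

private theorem swap_mem_colStab (t : Tableau μ α) {a b : α}
    (hc : Tableau.col t a = Tableau.col t b) : Equiv.swap a b ∈ colStab t := by
  rw [mem_colStab]
  intro x
  by_cases hxa : x = a
  · subst hxa; rw [Equiv.swap_apply_left, hc]
  · by_cases hxb : x = b
    · subst hxb; rw [Equiv.swap_apply_right, hc]
    · rw [Equiv.swap_apply_of_ne_of_ne hxa hxb]

private theorem swap_mem_rowStab (t : Tableau μ α) {a b : α}
    (hc : Tableau.row t a = Tableau.row t b) : Equiv.swap a b ∈ rowStab t := by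
  rw [mem_rowStab]
  intro x
  by_cases hxa : x = a
  · subst hxa; rw [Equiv.swap_apply_left, hc]
  · by_cases hxb : x = b
    · subst hxb; rw [Equiv.swap_apply_right, hc]
    · rw [Equiv.swap_apply_of_ne_of_ne hxa hxb]

private theorem colStab_mul {t : Tableau μ α} {σ τ : Equiv.Perm α} (hσ : σ ∈ colStab t)
    (hτ : τ ∈ colStab t) : σ * τ ∈ colStab t := by
  rw [mem_colStab] at *
  intro a
  rw [Equiv.Perm.mul_apply, hσ, hτ]

private theorem rowStab_mul {t : Tableau μ α} {σ τ : Equiv.Perm α} (hσ : σ ∈ rowStab t)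
    (hτ : τ ∈ rowStab t) : σ * τ ∈ rowStab t := by
  rw [mem_rowStab] at *
  intro a
  rw [Equiv.Perm.mul_apply, hσ, hτ]

private theorem colStab_inv {t : Tableau μ α} {σ : Equiv.Perm α} (hσ : σ ∈ colStab t) :
    σ⁻¹ ∈ colStab t := by
  rw [mem_colStab] at *
  intro a
  have := hσ (σ⁻¹ a)
  rw [app_inv] at this
  exact this.symm

/-- If two entries of one column of `t` lie in the same row of `f` then `κ_t f = 0`: pair
`σ` with `σ * swap a b` (`swap a b ∈ colStab t` and `swap a b • f = f`; signs are opposite;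
`Finset.sum_involution`).  Here the tableau `t` and the tabloid `f` may have different shapes. -/
theorem kapO_single_eq_zero (R : Type*) [CommRing R] (t : Tableau μ α) (f : Tabloid ν α) {a b : α}
    (hab : a ≠ b) (hc : Tableau.col t a = Tableau.col t b) (hr : f.1 a = f.1 b) :
    kapO (permRep R ν α) t (Finsupp.single f 1) = 0 := by
  rw [kapO_single']
  refine Finset.sum_involution (fun σ _ => σ * Equiv.swap a b) ?_ ?_ ?_ ?_
  · intro σ _
    rw [mul_smul, swap_smul f hr, ← Finsupp.single_add, Equiv.Perm.sign_mul,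
      Equiv.Perm.sign_swap hab]
    simp
  · intro σ _ _ h
    have h1 : Equiv.swap a b = 1 := mul_left_cancel (a := σ) (by rw [h, mul_one])
    exact hab (Equiv.swap_eq_one_iff.1 h1)
  · intro σ hσ
    exact colStab_mul hσ (swap_mem_colStab t hc)
  · intro σ _
    rw [mul_assoc, Equiv.swap_mul_self, mul_one]

private theorem permRep_swap_polytabloid (R : Type*) [CommRing R] (u : Tableau ν α) {a b : α}
    (hab : a ≠ b) (hc : Tableau.col u a = Tableau.col u b) :
    permRep R ν α (Equiv.swap a b) (polytabloid R u) = - polytabloid R u := by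
  unfold polytabloid
  rw [map_sum, ← Finset.sum_neg_distrib]
  refine sum_bij (fun τ _ => Equiv.swap a b * τ) ?_ ?_ ?_ ?_
  · intro τ hτ
    exact colStab_mul (swap_mem_colStab u hc) hτ
  · intro τ _ τ' _ h
    exact mul_left_cancel h
  · intro τ hτ
    refine ⟨Equiv.swap a b * τ, colStab_mul (swap_mem_colStab u hc) hτ, ?_⟩
    rw [← mul_assoc, Equiv.swap_mul_self, one_mul]
  · intro τ _
    rw [permRep_single, ← mul_smul, ← Finsupp.single_neg, Equiv.Perm.sign_mul,
      Equiv.Perm.sign_swap hab]
    simp

/-- The same for row sums and a column antisymmetric vector: if `a ≠ b` are in the same row of `t`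
and in the same column of `u` then `2 ρ_t e_u = 0`. -/
theorem two_rhoO_polytabloid (R : Type*) [CommRing R] (t : Tableau μ α) (u : Tableau ν α)
    {a b : α} (hab : a ≠ b) (hr : Tableau.row t a = Tableau.row t b)
    (hc : Tableau.col u a = Tableau.col u b) :
    (2 : R) • rhoO (permRep R ν α) t (polytabloid R u) = 0 := by
  have h1 : rhoO (permRep R ν α) t * permRep R ν α (Equiv.swap a b) =
      rhoO (permRep R ν α) t := by
    unfold rhoO
    rw [Finset.sum_mul]
    refine sum_bij (fun τ _ => τ * Equiv.swap a b) ?_ ?_ ?_ ?_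
    · intro τ hτ
      exact rowStab_mul hτ (swap_mem_rowStab t hr)
    · intro τ _ τ' _ h
      exact mul_right_cancel h
    · intro τ hτ
      refine ⟨τ * Equiv.swap a b, rowStab_mul hτ (swap_mem_rowStab t hr), ?_⟩
      rw [mul_assoc, Equiv.swap_mul_self, mul_one]
    · intro τ _
      rw [map_mul]
  have h2 : rhoO (permRep R ν α) t (polytabloid R u) =
      - rhoO (permRep R ν α) t (polytabloid R u) := by
    conv_lhs => rw [← h1]
    rw [Module.End.mul_apply, permRep_swap_polytabloid R u hab hc, map_neg]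
  rw [two_smul]
  nth_rewrite 1 [h2]
  rw [neg_add_cancel]

private theorem sum_eq_of_card_fiber (f g : α → ℕ) (M : ℕ) (hf : ∀ a, f a < M)
    (hg : ∀ a, g a < M)
    (h : ∀ i, (univ.filter (fun a => f a = i)).card = (univ.filter (fun a => g a = i)).card) :
    ∑ a, f a = ∑ a, g a := by
  have key : ∀ f : α → ℕ, (∀ a, f a < M) →
      ∑ a, f a = ∑ i ∈ range M, (univ.filter (fun a => f a = i)).card * i := by
    intro f hf
    rw [← sum_fiberwise_of_maps_to (fun a _ => mem_range.2 (hf a)) f]
    refine sum_congr rfl fun i _ => ?_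
    rw [Finset.sum_congr rfl (fun a ha => (mem_filter.1 ha).2), sum_const, smul_eq_mul]
  rw [key f hf, key g hg]
  exact sum_congr rfl fun i _ => by rw [h i]

private theorem image_row (t : Tableau μ α) (j : ℕ) :
    (univ.filter (fun a => Tableau.col t a = j)).image (Tableau.row t) = range (μ.colLen j) := by
  ext i
  rw [mem_image, mem_range, ← YoungDiagram.mem_iff_lt_colLen]
  constructor
  · rintro ⟨a, ha, rfl⟩
    rw [mem_filter] at ha
    have h1 := (t a).2
    rw [YoungDiagram.mem_cells] at h1
    have h2 : (Tableau.row t a, j) = (t a).1 := by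
      rw [← ha.2]; rfl
    rw [h2]
    exact h1
  · intro h
    refine ⟨t.symm ⟨(i, j), (YoungDiagram.mem_cells _).mpr h⟩, ?_, ?_⟩
    · rw [mem_filter]
      refine ⟨mem_univ _, ?_⟩
      simp [Tableau.col]
    · simp [Tableau.row]

private theorem tab_inj (t : Tableau μ α) {a b : α} (h1 : Tableau.row t a = Tableau.row t b)
    (h2 : Tableau.col t a = Tableau.col t b) : a = b :=
  t.injective (Subtype.ext (Prod.ext h1 h2))

private theorem col_lt (t : Tableau μ α) (a : α) : Tableau.col t a < μ.rowLen 0 := by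
  have h1 := (t a).2
  rw [YoungDiagram.mem_cells] at h1
  rw [← YoungDiagram.mem_iff_lt_rowLen]
  exact μ.up_left_mem (Nat.zero_le _) le_rfl h1

/-- The basic combinatorial lemma.  If the entries of every column of `t` lie in different rows of
the tabloid `f` (of the same shape) then `f = σ {t}` with `σ ∈ C_t`.

Sketch.  `∑_a f a = ∑_i i μ_i = ∑_a row_t a = ∑_j ∑_{i < μ'_j} i`, so `fam_sum_eq` (classes
`col t`, values `f`) shows that on the column `j` of `t` the values of `f` are `0, ..., μ'_j - 1`
(`YoungDiagram.colLen_eq_card`).  So for every `a` there is exactly one `b = σ a` in the column of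
`a` with `f b = row_t a`; `σ` is injective, `σ ∈ C_t` and `f (σ a) = row_t a`. -/
theorem exists_colStab (t : Tableau μ α) (f : Tabloid μ α)
    (h : ∀ a b, a ≠ b → Tableau.col t a = Tableau.col t b → f.1 a ≠ f.1 b) :
    ∃ σ ∈ colStab t, f = σ • t.tabloid := by
  have hcard : ∀ j, (univ.filter (fun a => Tableau.col t a = j)).card = μ.colLen j := by
    intro j
    have h1 := image_row t j
    have h2 : ((univ.filter (fun a => Tableau.col t a = j)).image (Tableau.row t)).card =
        (univ.filter (fun a => Tableau.col t a = j)).card := by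
      apply card_image_of_injOn
      intro a ha b hb hab
      rw [mem_coe, mem_filter] at ha hb
      exact tab_inj t hab (ha.2.trans hb.2.symm)
    rw [← h2, h1, card_range]
  have hsum : ∑ a, f.1 a = ∑ a, Tableau.row t a := by
    refine sum_eq_of_card_fiber f.1 (Tableau.row t) (μ.colLen 0) f.lt_colLen
      (fun a => t.tabloid.lt_colLen a) (fun i => ?_)
    rw [f.2 i]
    exact (t.tabloid.2 i).symm
  have hrow : ∑ a, Tableau.row t a =
      ∑ j ∈ range (μ.rowLen 0), ∑ k ∈ range
        (univ.filter (fun a => Tableau.col t a = j)).card, k := by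
    rw [← sum_fiberwise_of_maps_to (fun a _ => mem_range.2 (col_lt t a)) (Tableau.row t)]
    refine sum_congr rfl fun j _ => ?_
    rw [hcard j, ← image_row t j]
    symm
    refine sum_image (f := fun x => x) ?_
    intro a ha b hb hab
    rw [mem_coe, mem_filter] at ha hb
    exact tab_inj t hab (ha.2.trans hb.2.symm)
  have himg : ∀ j, (univ.filter (fun a => Tableau.col t a = j)).image f.1 =
      range (μ.colLen j) := by
    intro j
    rw [← hcard j]
    exact fam_sum_eq (Tableau.col t) f.1 h (μ.rowLen 0) (col_lt t) (by rw [hsum, hrow]) j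
  have hex : ∀ a, ∃ b, Tableau.col t b = Tableau.col t a ∧ f.1 b = Tableau.row t a := by
    intro a
    have h1 : Tableau.row t a ∈
        (univ.filter (fun b => Tableau.col t b = Tableau.col t a)).image f.1 := by
      rw [himg, ← image_row t]
      exact mem_image_of_mem _ (mem_filter.2 ⟨mem_univ _, rfl⟩)
    obtain ⟨b, hb, hb2⟩ := mem_image.1 h1
    exact ⟨b, (mem_filter.1 hb).2, hb2⟩
  choose s hs1 hs2 using hex
  have hinj : Function.Injective s := by
    intro a b hab
    refine tab_inj t ?_ ?_
    · rw [← hs2 a, ← hs2 b, hab]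
    · rw [← hs1 a, ← hs1 b, hab]
  set σ : Equiv.Perm α := Equiv.ofBijective s (Finite.injective_iff_bijective.1 hinj) with hσ
  have hσs : ∀ a, σ a = s a := fun a => rfl
  refine ⟨σ, mem_colStab.2 fun a => by rw [hσs, hs1], ?_⟩
  ext x
  rw [smul_val, Tableau.tabloid_val]
  have h1 := hs2 (σ⁻¹ x)
  rw [← hσs, app_inv] at h1
  exact h1

/-- the coefficient of `{t}` in `e_t` is `1` (`σ ∈ C_t`, `σ {t} = {t}` imply `σ = 1`, since an
entry is determined by its row and its column). -/
theorem polytabloid_apply_self (R : Type*) [CommRing R] (t : Tableau μ α) :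
    polytabloid R t t.tabloid = 1 := by
  unfold polytabloid
  rw [Finsupp.finsetSum_apply, Finset.sum_eq_single (1 : Equiv.Perm α)]
  · simp
  · intro σ hσ hne
    refine Finsupp.single_eq_of_ne fun h0 => hne ?_
    have h : σ • t.tabloid = t.tabloid := h0.symm
    apply Equiv.ext
    intro a
    rw [mem_colStab] at hσ
    refine tab_inj t ?_ (hσ a)
    have h1 := congrArg (fun g : Tabloid μ α => g.1 (σ a)) h
    simp only [smul_val, inv_app, Tableau.tabloid_val] at h1
    rw [Equiv.Perm.one_apply]
    exact h1.symm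
  · intro h
    exact absurd (mem_colStab.2 fun a => rfl) h

/-- the integer `c` with `κ_t f = c e_t` (it is `0` or `±1`). -/
noncomputable def jc (t : Tableau μ α) (f : Tabloid μ α) : ℤ :=
  kapO (permRep ℤ μ α) t (Finsupp.single f 1) t.tabloid

private theorem kapO_smul_tabloid (R : Type*) [CommRing R] (t : Tableau μ α) {σ : Equiv.Perm α}
    (hσ : σ ∈ colStab t) :
    kapO (permRep R μ α) t (Finsupp.single (σ • t.tabloid) 1) =
      (((Equiv.Perm.sign σ : ℤˣ) : ℤ) : R) • polytabloid R t := by
  rw [kapO_single']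
  unfold polytabloid
  rw [Finset.smul_sum]
  refine sum_bij (fun τ _ => τ * σ) ?_ ?_ ?_ ?_
  · intro τ hτ
    exact colStab_mul hτ hσ
  · intro τ _ τ' _ h
    exact mul_right_cancel h
  · intro τ hτ
    exact ⟨τ * σ⁻¹, colStab_mul hτ (colStab_inv hσ), by group⟩
  · intro τ _
    rw [← mul_smul, Finsupp.smul_single, Equiv.Perm.sign_mul]
    congr 1
    have h1 : ((((Equiv.Perm.sign σ : ℤˣ) : ℤ) : R)) * (((Equiv.Perm.sign σ : ℤˣ) : ℤ) : R) = 1 := by
      rw [← Int.cast_mul, ← Units.val_mul, Int.units_mul_self]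
      simp
    rw [smul_eq_mul, Units.val_mul, Int.cast_mul, mul_comm, mul_assoc, h1, mul_one]

/-- James' lemma, uniformly in the ring `R`.

Sketch.  If two entries of a column of `t` are in the same row of `f` both sides are `0`
(`kapO_single_eq_zero` over `R` and over `ℤ`).  Otherwise `f = σ • {t}` with `σ ∈ C_t`
(`exists_colStab`), and `κ_t σ {t} = sgn σ • κ_t {t} = sgn σ • e_t`. -/
theorem kapO_single (R : Type*) [CommRing R] (t : Tableau μ α) (f : Tabloid μ α) :
    kapO (permRep R μ α) t (Finsupp.single f 1) = ((jc t f : ℤ) : R) • polytabloid R t := by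
  by_cases h : ∀ a b, a ≠ b → Tableau.col t a = Tableau.col t b → f.1 a ≠ f.1 b
  · obtain ⟨σ, hσ, rfl⟩ := exists_colStab t f h
    have h1 : jc t (σ • t.tabloid) = ((Equiv.Perm.sign σ : ℤˣ) : ℤ) := by
      unfold jc
      rw [kapO_smul_tabloid ℤ t hσ, Finsupp.smul_apply, polytabloid_apply_self, smul_eq_mul,
        mul_one, Int.cast_id]
    rw [h1, kapO_smul_tabloid R t hσ]
  · have h2 : ∃ a b, a ≠ b ∧ Tableau.col t a = Tableau.col t b ∧ f.1 a = f.1 b := by
      by_contra hcon
      exact h fun a b hab hc hr => hcon ⟨a, b, hab, hc, hr⟩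
    obtain ⟨a, b, hab, hc, hr⟩ := h2
    have h1 : jc t f = 0 := by
      unfold jc
      rw [kapO_single_eq_zero ℤ t f hab hc hr, Finsupp.zero_apply]
    rw [h1, kapO_single_eq_zero R t f hab hc hr, Int.cast_zero, zero_smul]

theorem kapO_eq_smul (R : Type*) [CommRing R] (t : Tableau μ α) (v : Tabloid μ α →₀ R) :
    ∃ c : R, kapO (permRep R μ α) t v = c • polytabloid R t := by
  induction v using Finsupp.induction_linear with
  | zero => exact ⟨0, by rw [map_zero, zero_smul]⟩
  | add f g hf hg =>
    obtain ⟨c, hc⟩ := hf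
    obtain ⟨d, hd⟩ := hg
    exact ⟨c + d, by rw [map_add, hc, hd, add_smul]⟩
  | single f r =>
    refine ⟨r * ((jc t f : ℤ) : R), ?_⟩
    have h1 : (Finsupp.single f r : Tabloid μ α →₀ R) = r • Finsupp.single f 1 := by
      rw [Finsupp.smul_single, smul_eq_mul, mul_one]
    rw [h1, map_smul, kapO_single, smul_smul]

/-- the coefficients of the polytabloids are integers independent of the ring -/
theorem polytabloid_cast (R : Type*) [CommRing R] (t : Tableau μ α) (f : Tabloid μ α) :
    polytabloid R t f = ((polytabloid ℤ t f : ℤ) : R) := by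
  unfold polytabloid
  rw [Finsupp.finsetSum_apply, Finsupp.finsetSum_apply, Int.cast_sum]
  refine sum_congr rfl fun σ _ => ?_
  by_cases h : σ • t.tabloid = f
  · rw [h, Finsupp.single_eq_same, Finsupp.single_eq_same, Int.cast_id]
  · rw [Finsupp.single_eq_of_ne (fun h' => h h'.symm), Finsupp.single_eq_of_ne (fun h' => h h'.symm),
      Int.cast_zero]

end SPV
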