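import Pool.Agent.SPV.EA
import Pool.Agent.SPV.Jam

/-!
# SPV / EB : `E` preserves the Specht module
-/

set_option linter.unusedSectionVars false

namespace SPV

open Finset

variable {F : Type*} [Field F] {μ : YoungDiagram} {n : ℕ}

/-- A tableau whose column function is monotone: `t = σ t₀` with `σ` from `Tuple.sort`
(`Tuple.monotone_sort`). -/
theorem exists_mono_tableau (t₀ : Tableau μ (Fin n)) :
    ∃ σ : Equiv.Perm (Fin n), Monotone (Tableau.col (Tableau.act σ t₀)) := by
  refine ⟨(Tuple.sort (Tableau.col t₀))⁻¹, ?_⟩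
  have h : Tableau.col (Tableau.act (Tuple.sort (Tableau.col t₀))⁻¹ t₀) =
      Tableau.col t₀ ∘ Tuple.sort (Tableau.col t₀) := by
    funext a
    simp only [Tableau.col, Tableau.act_apply, inv_inv, Function.comp]
  rw [h]
  exact Tuple.monotone_sort _

private theorem eb_sign [CharP F 2] (σ : Equiv.Perm (Fin n)) :
    (((Equiv.Perm.sign σ : ℤˣ) : ℤ) : F) = 1 := by
  rcases Int.units_eq_one_or (Equiv.Perm.sign σ) with h | h
  · rw [h]; simp
  · rw [h]; simp [CharTwo.neg_eq]

/-- For a tableau `t` with monotone column function, `∑_{σ ∈ C_t} δ(σ) σ` is a multiple of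
`κ_t = ∑_{σ ∈ C_t} σ` (char 2).

Sketch.  For `σ ∈ C_t`, `i < j` and `σ⁻¹ i > σ⁻¹ j` force `col i = col j` (columns are intervals
and `σ` preserves them).  So only pairs `p = (i, j)`, `i < j`, `col i = col j` occur, with
`τ = swap i j ∈ C_t`, and `∑_σ δ(σ) σ = ∑_p ∑_{σ ∈ C_t, σ⁻¹ i > σ⁻¹ j} (σ + τ σ)`.  For fixed `p`
the map `σ ↦ τ σ` is an involution of `C_t` which exchanges `{σ⁻¹ i > σ⁻¹ j}` and its
complement (`(τ σ)⁻¹ i = σ⁻¹ j`), so the inner sum is `∑_{σ ∈ C_t} σ`. -/
theorem sum_dlt [CharP F 2] (t : Tableau μ (Fin n)) (ht : Monotone (Tableau.col t)) :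
    ∃ c : F, ∑ σ ∈ colStab t, dlt (permRep F μ (Fin n)) σ * permRep F μ (Fin n) σ =
      c • kapO (permRep F μ (Fin n)) t := by
  classical
  set ρ := permRep F μ (Fin n) with hρ
  set P : Finset (Fin n × Fin n) :=
    univ.filter (fun p => p.1 < p.2 ∧ Tableau.col t p.1 = Tableau.col t p.2) with hP
  have hk : kapO ρ t = ∑ σ ∈ colStab t, ρ σ := by
    unfold kapO
    exact sum_congr rfl fun σ _ => by rw [eb_sign, one_smul]
  have h1 : ∀ σ ∈ colStab t, dlt ρ σ * ρ σ =
      ∑ p ∈ P, if σ⁻¹ p.2 < σ⁻¹ p.1 then ρ σ + ρ (Equiv.swap p.1 p.2 * σ) else 0 := by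
    intro σ hσ
    rw [mem_colStab] at hσ
    have hinv : ∀ a, Tableau.col t (σ⁻¹ a) = Tableau.col t a := by
      intro a
      have := hσ (σ⁻¹ a)
      rw [← Equiv.Perm.mul_apply, mul_inv_cancel, Equiv.Perm.one_apply] at this
      exact this.symm
    unfold dlt
    rw [← sum_filter, sum_mul]
    have hf : (univ.filter (fun p : Fin n × Fin n => p.1 < p.2 ∧ σ⁻¹ p.2 < σ⁻¹ p.1)) =
        P.filter (fun p => σ⁻¹ p.2 < σ⁻¹ p.1) := by
      ext p
      simp only [hP, mem_filter, mem_univ, true_and]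
      constructor
      · rintro ⟨h1, h2⟩
        refine ⟨⟨h1, le_antisymm (ht h1.le) ?_⟩, h2⟩
        have := ht h2.le
        rwa [hinv, hinv] at this
      · rintro ⟨⟨h1, _⟩, h2⟩
        exact ⟨h1, h2⟩
    rw [hf]
    refine sum_congr rfl fun p _ => ?_
    rw [add_mul, one_mul, map_mul]
  have h2 : ∀ p ∈ P, (∑ σ ∈ colStab t,
      if σ⁻¹ p.2 < σ⁻¹ p.1 then ρ σ + ρ (Equiv.swap p.1 p.2 * σ) else 0) =
      ∑ σ ∈ colStab t, ρ σ := by
    intro p hp
    simp only [hP, mem_filter, mem_univ, true_and] at hp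
    obtain ⟨hlt, hcol⟩ := hp
    rw [← sum_filter, sum_add_distrib,
      ← sum_filter_add_sum_filter_not (colStab t) (fun σ => σ⁻¹ p.2 < σ⁻¹ p.1) (fun σ => ρ σ)]
    congr 1
    have hsw : ∀ a, Tableau.col t (Equiv.swap p.1 p.2 a) = Tableau.col t a := by
      intro a
      by_cases ha1 : a = p.1
      · rw [ha1, Equiv.swap_apply_left, hcol]
      by_cases ha2 : a = p.2
      · rw [ha2, Equiv.swap_apply_right, hcol]
      rw [Equiv.swap_apply_of_ne_of_ne ha1 ha2]
    have hmem : ∀ σ ∈ colStab t, Equiv.swap p.1 p.2 * σ ∈ colStab t := by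
      intro σ hσ
      rw [mem_colStab] at hσ ⊢
      intro a
      rw [Equiv.Perm.mul_apply, hsw, hσ]
    have hi1 : ∀ σ : Equiv.Perm (Fin n), (Equiv.swap p.1 p.2 * σ)⁻¹ p.1 = σ⁻¹ p.2 := by
      intro σ
      rw [mul_inv_rev, Equiv.Perm.mul_apply, Equiv.swap_inv, Equiv.swap_apply_left]
    have hi2 : ∀ σ : Equiv.Perm (Fin n), (Equiv.swap p.1 p.2 * σ)⁻¹ p.2 = σ⁻¹ p.1 := by
      intro σ
      rw [mul_inv_rev, Equiv.Perm.mul_apply, Equiv.swap_inv, Equiv.swap_apply_right]
    refine sum_bij (fun σ _ => Equiv.swap p.1 p.2 * σ) ?_ ?_ ?_ ?_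
    · intro σ hσ
      rw [mem_filter] at hσ ⊢
      refine ⟨hmem σ hσ.1, ?_⟩
      rw [hi1, hi2, not_lt]
      exact hσ.2.le
    · intro σ _ τ _ h
      exact mul_left_cancel h
    · intro σ hσ
      rw [mem_filter] at hσ
      refine ⟨Equiv.swap p.1 p.2 * σ, ?_, ?_⟩
      · rw [mem_filter]
        refine ⟨hmem σ hσ.1, ?_⟩
        rw [hi1, hi2]
        refine lt_of_le_of_ne (not_lt.mp hσ.2) ?_
        intro h
        exact hlt.ne (σ⁻¹.injective h)
      · rw [← mul_assoc, Equiv.swap_mul_self, one_mul]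
    · intro σ _
      rfl
  refine ⟨(P.card : F), ?_⟩
  rw [sum_congr rfl h1, sum_comm, sum_congr rfl h2, sum_const, hk, Nat.cast_smul_eq_nsmul]

private theorem eb_dlt_mem (g : Equiv.Perm (Fin n)) (v : Tabloid μ (Fin n) →₀ F)
    (hv : v ∈ Specht F μ (Fin n)) :
    dlt (permRep F μ (Fin n)) g v ∈ Specht F μ (Fin n) := by
  unfold dlt
  rw [LinearMap.sum_apply]
  refine Submodule.sum_mem _ fun p _ => ?_
  rw [LinearMap.add_apply, Module.End.one_apply]
  exact Submodule.add_mem _ hv (specht_invariant F _ v hv)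

private theorem eb_mono [CharP F 2] (t : Tableau μ (Fin n)) (ht : Monotone (Tableau.col t)) :
    Eop F μ n (polytabloid F t) ∈ Specht F μ (Fin n) := by
  obtain ⟨c, hc⟩ := sum_dlt (F := F) t ht
  have h1 : polytabloid F t = ∑ σ ∈ colStab t, Finsupp.single (σ • t.tabloid) (1 : F) := by
    unfold polytabloid
    exact sum_congr rfl fun σ _ => by rw [eb_sign]
  have h2 : Eop F μ n (polytabloid F t) =
      kapO (permRep F μ (Fin n)) t (Eop F μ n (Finsupp.single t.tabloid 1)) +
      c • kapO (permRep F μ (Fin n)) t (Finsupp.single t.tabloid 1) := by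
    rw [h1, map_sum]
    have h3 := LinearMap.congr_fun hc (Finsupp.single t.tabloid 1)
    rw [LinearMap.smul_apply, LinearMap.sum_apply] at h3
    rw [← h3]
    unfold kapO
    rw [LinearMap.sum_apply, ← sum_add_distrib]
    refine sum_congr rfl fun σ _ => ?_
    rw [eb_sign, one_smul, Eop_single, Module.End.mul_apply, permRep_single]
  rw [h2]
  obtain ⟨d, hd⟩ := kapO_eq_smul F t (Eop F μ n (Finsupp.single t.tabloid 1))
  rw [hd, kapO_tabloid]
  exact Submodule.add_mem _ (Submodule.smul_mem _ _ (polytabloid_mem F t))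
    (Submodule.smul_mem _ _ (polytabloid_mem F t))

private theorem eb_poly [CharP F 2] (u : Tableau μ (Fin n)) :
    Eop F μ n (polytabloid F u) ∈ Specht F μ (Fin n) := by
  obtain ⟨σ, hσ⟩ := exists_mono_tableau u
  set t := Tableau.act σ u with ht
  have h1 := eb_mono (F := F) t hσ
  have h2 : polytabloid F t = permRep F μ (Fin n) σ (polytabloid F u) := by
    rw [permRep_polytabloid]
  have h3 := LinearMap.congr_fun (Eop_conj (F := F) (μ := μ) σ⁻¹) (polytabloid F u)
  rw [Module.End.mul_apply, Module.End.mul_apply, inv_inv, LinearMap.add_apply, ← h2] at h3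
  have h4 : Eop F μ n (polytabloid F u) =
      permRep F μ (Fin n) σ⁻¹ (Eop F μ n (polytabloid F t)) -
        dlt (permRep F μ (Fin n)) σ⁻¹ (polytabloid F u) := by
    rw [h3, add_sub_cancel_right]
  rw [h4]
  exact Submodule.sub_mem _ (specht_invariant F _ _ h1)
    (eb_dlt_mem _ _ (polytabloid_mem F u))

/-- `E` maps the Specht module into itself.

Sketch.  For `t` with monotone columns, `e_t = ∑_{σ ∈ C_t} σ {t}` (char 2: signs are 1), and by
`Eop_single` `E e_t = ∑_σ (σ E {t} + δ(σ) σ {t}) = κ_t (E {t}) + c κ_t {t} ∈ F e_t`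
(`kapO_eq_smul`).  Every tableau is `g t` (`exists_mono_tableau`) and
`E (g e_t) = g E e_t + δ(g) g e_t` lies in the Specht module (`Eop_conj`,
`specht_invariant`, `permRep_polytabloid`). -/
theorem Eop_mem [CharP F 2] (v : Tabloid μ (Fin n) →₀ F) (hv : v ∈ Specht F μ (Fin n)) :
    Eop F μ n v ∈ Specht F μ (Fin n) := by
  unfold Specht at hv
  induction hv using Submodule.span_induction with
  | mem x hx =>
    obtain ⟨t, rfl⟩ := hx
    exact eb_poly t
  | zero => rw [map_zero]; exact Submodule.zero_mem _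
  | add x y _ _ hx hy => rw [map_add]; exact Submodule.add_mem _ hx hy
  | smul c x _ hx => rw [map_smul]; exact Submodule.smul_mem _ c hx

/-- restriction of `Eop` to the Specht module. -/
theorem exists_E (F : Type*) [Field F] [CharP F 2] (μ : YoungDiagram) (n : ℕ) :
    ∃ E : Module.End F (Specht F μ (Fin n)), ∀ g : Equiv.Perm (Fin n),
      spechtRep F μ (Fin n) g * E * spechtRep F μ (Fin n) g⁻¹ =
        E + dlt (V := Specht F μ (Fin n)) (spechtRep F μ (Fin n)) g := by
  refine ⟨(Eop F μ n).restrict Eop_mem, fun g => ?_⟩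
  apply LinearMap.ext
  intro v
  apply Subtype.ext
  have h1 := LinearMap.congr_fun (Eop_conj (F := F) (μ := μ) g) (v : Tabloid μ (Fin n) →₀ F)
  rw [Module.End.mul_apply, Module.End.mul_apply, LinearMap.add_apply] at h1
  have h2 : ((dlt (V := Specht F μ (Fin n)) (spechtRep F μ (Fin n)) g v :
      Specht F μ (Fin n)) : Tabloid μ (Fin n) →₀ F) = dlt (permRep F μ (Fin n)) g v := by
    unfold dlt
    rw [LinearMap.sum_apply, LinearMap.sum_apply, AddSubmonoidClass.coe_finsetSum]
    refine sum_congr rfl fun p _ => ?_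
    rw [LinearMap.add_apply, LinearMap.add_apply]
    rfl
  rw [Module.End.mul_apply, Module.End.mul_apply, LinearMap.add_apply]
  rw [Submodule.coe_add, h2]
  exact h1

end SPV
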