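import Pool.Agent.SPV.EA

/-!
# SPV / EC : the identity for 4-cycles
-/

set_option linter.unusedSectionVars false

namespace SPV

open Finset

variable {F : Type*} [Field F] {n : ℕ} {V : Type*} [AddCommGroup V] [Module F V]

/-- conjugation of the identity: replace `E` by `h E h⁻¹`. -/
theorem HasE.conj {ρ : Representation F (Equiv.Perm (Fin n)) V} {g t s : Equiv.Perm (Fin n)}
    (h : Equiv.Perm (Fin n)) (hE : HasE ρ g t s) :
    HasE ρ (h * g * h⁻¹) (h * t * h⁻¹) (h * s * h⁻¹) := by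
  obtain ⟨E, hE⟩ := hE
  have hh : ρ h * ρ h⁻¹ = 1 := by rw [← map_mul, mul_inv_cancel, map_one]
  have hh' : ρ h⁻¹ * ρ h = 1 := by rw [← map_mul, inv_mul_cancel, map_one]
  refine ⟨ρ h * E * ρ h⁻¹, ?_⟩
  have e1 : ρ (h * g * h⁻¹) * (ρ h * E * ρ h⁻¹) * ρ (h * g * h⁻¹)⁻¹ =
      ρ h * (ρ g * E * ρ g⁻¹) * ρ h⁻¹ := by
    have e : (h * g * h⁻¹)⁻¹ = h * g⁻¹ * h⁻¹ := by group
    rw [e]
    simp only [map_mul]
    calc ρ h * ρ g * ρ h⁻¹ * (ρ h * E * ρ h⁻¹) * (ρ h * ρ g⁻¹ * ρ h⁻¹)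
        = ρ h * ρ g * (ρ h⁻¹ * ρ h) * E * (ρ h⁻¹ * ρ h) * ρ g⁻¹ * ρ h⁻¹ := by
          simp only [mul_assoc]
      _ = ρ h * (ρ g * E * ρ g⁻¹) * ρ h⁻¹ := by rw [hh']; simp only [mul_assoc, mul_one, one_mul]
  rw [e1, hE]
  have c1 : ∀ a : Equiv.Perm (Fin n), ρ h * ρ a * ρ h⁻¹ = ρ (h * a * h⁻¹) := by
    intro a; simp only [map_mul]
  have d2 : h * g * h⁻¹ * (h * s * h⁻¹) * (h * g * h⁻¹)⁻¹ = h * (g * s * g⁻¹) * h⁻¹ := by group
  have d3 : (h * g * h⁻¹) ^ 2 * (h * s * h⁻¹) * ((h * g * h⁻¹) ^ 2)⁻¹ =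
      h * (g ^ 2 * s * (g ^ 2)⁻¹) * h⁻¹ := by
    rw [conj_pow]; group
  have d4 : (h * g * h⁻¹) ^ 3 * (h * s * h⁻¹) * ((h * g * h⁻¹) ^ 3)⁻¹ =
      h * (g ^ 3 * s * (g ^ 3)⁻¹) * h⁻¹ := by
    rw [conj_pow]; group
  rw [d2, d3, d4, ← c1 t, ← c1 s, ← c1 (g * s * g⁻¹), ← c1 (g ^ 2 * s * (g ^ 2)⁻¹),
    ← c1 (g ^ 3 * s * (g ^ 3)⁻¹)]
  simp only [mul_add, add_mul, mul_one, hh]

private theorem ec_cases4 (z : Fin (n + 4)) : z = 0 ∨ z = 1 ∨ z = 2 ∨ z = 3 ∨ 4 ≤ z.val := by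
  have v1 : ((1 : Fin (n + 4)) : ℕ) = 1 := Fin.val_one _
  have v2 : ((2 : Fin (n + 4)) : ℕ) = 2 := Fin.val_two
  have v3 : ((3 : Fin (n + 4)) : ℕ) = 3 := by
    show 3 % (n + 4) = 3
    exact Nat.mod_eq_of_lt (by omega)
  have v0 : ((0 : Fin (n + 4)) : ℕ) = 0 := rfl
  simp only [Fin.ext_iff, v0, v1, v2, v3]
  omega

/-- The 4-cycle `g = (0 2 1 3)` in `Perm (Fin (n + 4))`.

Sketch.  Let `g` with `g 0 = 2`, `g 2 = 1`, `g 1 = 3`, `g 3 = 0`, and `g z = z` for `z ≥ 4`.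
The inversions `a < b`, `g⁻¹ a > g⁻¹ b` are exactly `(0,1), (0,2), (0,3), (1,2), (1,3)`
(`g⁻¹ : 0 ↦ 3, 1 ↦ 2, 2 ↦ 0, 3 ↦ 1`), so `δ(g) = 5 + (0 1) + (0 2) + (0 3) + (1 2) + (1 3)`, `5 = 1`,
and with `s = (0 2)`: `g s g⁻¹ = (2 1)`, `g² s g⁻² = (1 3)`, `g³ s g⁻³ = (3 0)`; `t = (0 1)`. -/
theorem hasE_std [CharP F 2] {ρ : Representation F (Equiv.Perm (Fin (n + 4))) V}
    (hE : ∃ E : Module.End F V, ∀ g : Equiv.Perm (Fin (n + 4)), ρ g * E * ρ g⁻¹ = E + dlt ρ g)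
    (g : Equiv.Perm (Fin (n + 4))) (h0 : g 0 = 2) (h2 : g 2 = 1) (h1 : g 1 = 3) (h3 : g 3 = 0)
    (hz : ∀ z : Fin (n + 4), 4 ≤ z.val → g z = z) :
    HasE ρ g (Equiv.swap 0 1) (Equiv.swap 0 2) := by
  obtain ⟨E, hE⟩ := hE
  refine ⟨E, ?_⟩
  rw [hE g]
  have v0 : ((0 : Fin (n + 4)) : ℕ) = 0 := rfl
  have v1 : ((1 : Fin (n + 4)) : ℕ) = 1 := Fin.val_one _
  have v2 : ((2 : Fin (n + 4)) : ℕ) = 2 := Fin.val_two
  have v3 : ((3 : Fin (n + 4)) : ℕ) = 3 := by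
    show 3 % (n + 4) = 3
    exact Nat.mod_eq_of_lt (by omega)
  have i0 : g⁻¹ 0 = 3 := by rw [Equiv.Perm.inv_eq_iff_eq]; exact h3.symm
  have i1 : g⁻¹ 1 = 2 := by rw [Equiv.Perm.inv_eq_iff_eq]; exact h2.symm
  have i2 : g⁻¹ 2 = 0 := by rw [Equiv.Perm.inv_eq_iff_eq]; exact h0.symm
  have i3 : g⁻¹ 3 = 1 := by rw [Equiv.Perm.inv_eq_iff_eq]; exact h1.symm
  have iz : ∀ z : Fin (n + 4), 4 ≤ z.val → g⁻¹ z = z := by
    intro z hz4
    rw [Equiv.Perm.inv_eq_iff_eq]; exact (hz z hz4).symm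
  have hfil : (univ.filter (fun p : Fin (n + 4) × Fin (n + 4) => p.1 < p.2 ∧ g⁻¹ p.2 < g⁻¹ p.1)) =
      {(0, 1), (0, 2), (0, 3), (1, 2), (1, 3)} := by
    ext ⟨a, b⟩
    simp only [mem_filter, mem_univ, true_and, mem_insert, mem_singleton, Prod.mk.injEq]
    rcases ec_cases4 a with rfl | rfl | rfl | rfl | ha <;>
    rcases ec_cases4 b with rfl | rfl | rfl | rfl | hb <;>
    first
      | (simp only [i0, i1, i2, i3, Fin.lt_def, Fin.ext_iff, v0, v1, v2, v3]; norm_num; done)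
      | (rw [iz _ ha, iz _ hb]
         simp only [Fin.lt_def, Fin.ext_iff, v0, v1, v2, v3]; omega)
      | (rw [iz _ ha]
         simp only [i0, i1, i2, i3, Fin.lt_def, Fin.ext_iff, v0, v1, v2, v3, true_and, and_true]
         omega)
      | (rw [iz _ hb]
         simp only [i0, i1, i2, i3, Fin.lt_def, Fin.ext_iff, v0, v1, v2, v3, true_and, and_true]
         omega)
  have hsum : dlt ρ g = (1 + ρ (Equiv.swap 0 1)) + ((1 + ρ (Equiv.swap 0 2)) +
      ((1 + ρ (Equiv.swap 0 3)) + ((1 + ρ (Equiv.swap 1 2)) + (1 + ρ (Equiv.swap 1 3))))) := by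
    unfold dlt
    rw [hfil, sum_insert, sum_insert, sum_insert, sum_insert, sum_singleton]
    all_goals
      simp only [mem_insert, mem_singleton, Prod.mk.injEq, Fin.ext_iff, v0, v1, v2, v3]
      omega
  have two : (1 : Module.End F V) + 1 = 0 := by
    rw [← two_smul F (1 : Module.End F V), CharTwo.two_eq_zero, zero_smul]
  have s1 : g * Equiv.swap 0 2 * g⁻¹ = Equiv.swap 1 2 := by
    rw [← Equiv.swap_apply_apply, h0, h2, Equiv.swap_comm]
  have s2 : g ^ 2 * Equiv.swap 0 2 * (g ^ 2)⁻¹ = Equiv.swap 1 3 := by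
    rw [← Equiv.swap_apply_apply, pow_two, Equiv.Perm.mul_apply, Equiv.Perm.mul_apply, h0, h2, h1]
  have s3 : g ^ 3 * Equiv.swap 0 2 * (g ^ 3)⁻¹ = Equiv.swap 0 3 := by
    rw [← Equiv.swap_apply_apply, pow_succ, pow_two, Equiv.Perm.mul_apply, Equiv.Perm.mul_apply,
      Equiv.Perm.mul_apply, Equiv.Perm.mul_apply, h0, h2, h1, h3, Equiv.swap_comm]
  rw [hsum, s1, s2, s3]
  have key : (1 + ρ (Equiv.swap 0 1)) + ((1 + ρ (Equiv.swap 0 2)) +
      ((1 + ρ (Equiv.swap 0 3)) + ((1 + ρ (Equiv.swap 1 2)) + (1 + ρ (Equiv.swap 1 3))))) =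
      ((1 : Module.End F V) + 1) + (1 + 1) + (1 + ρ (Equiv.swap 0 1) +
      (ρ (Equiv.swap 0 2) + ρ (Equiv.swap 1 2) + ρ (Equiv.swap 1 3) +
        ρ (Equiv.swap (0 : Fin (n + 4)) 3))) := by abel
  rw [key, two, zero_add, zero_add]
  abel

/-- General 4-cycles.

Sketch.  `x, g x, g² x, g³ x` are distinct, so `n ≥ 4`; choose a permutation `h` with `h 0 = x`,
`h 2 = g x`, `h 1 = g (g x)`, `h 3 = g (g (g x))` and apply `hasE_std` to `h⁻¹ g h` and
`HasE.conj` (`h (swap a b) h⁻¹ = swap (h a) (h b)`). -/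
theorem hasE_of_cycle [CharP F 2] {ρ : Representation F (Equiv.Perm (Fin n)) V}
    (hE : ∃ E : Module.End F V, ∀ g : Equiv.Perm (Fin n), ρ g * E * ρ g⁻¹ = E + dlt ρ g)
    (g : Equiv.Perm (Fin n)) (x : Fin n) (h1 : g x ≠ x) (h2 : g (g x) ≠ x)
    (h3 : g (g (g x)) ≠ x) (h4 : g (g (g (g x))) = x)
    (h5 : ∀ z, z ≠ x → z ≠ g x → z ≠ g (g x) → z ≠ g (g (g x)) → g z = z) :
    HasE ρ g (Equiv.swap x (g (g x))) (Equiv.swap x (g x)) := by
  have h6 : g (g x) ≠ g x := fun h => h1 (g.injective h)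
  have h7 : g (g (g x)) ≠ g x := fun h => h2 (g.injective h)
  have h8 : g (g (g x)) ≠ g (g x) := fun h => h6 (g.injective h)
  obtain ⟨m, rfl⟩ : ∃ m, n = m + 4 := by
    have hc : ({x, g x, g (g x), g (g (g x))} : Finset (Fin n)).card = 4 := by
      rw [card_insert_of_notMem, card_insert_of_notMem, card_insert_of_notMem, card_singleton]
      · simp only [mem_singleton]; exact fun h => h8 h.symm
      · simp only [mem_insert, mem_singleton]
        rintro (h | h)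
        · exact h6 h.symm
        · exact h7 h.symm
      · simp only [mem_insert, mem_singleton]
        rintro (h | h | h)
        · exact h1 h.symm
        · exact h2 h.symm
        · exact h3 h.symm
    have hle : 4 ≤ n := by
      rw [← hc]
      calc _ ≤ (univ : Finset (Fin n)).card := card_le_card (subset_univ _)
        _ = n := by simp
    exact ⟨n - 4, by omega⟩
  have v0 : ((0 : Fin (m + 4)) : ℕ) = 0 := rfl
  have v1 : ((1 : Fin (m + 4)) : ℕ) = 1 := Fin.val_one _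
  have v2 : ((2 : Fin (m + 4)) : ℕ) = 2 := Fin.val_two
  have v3 : ((3 : Fin (m + 4)) : ℕ) = 3 := by
    show 3 % (m + 4) = 3
    exact Nat.mod_eq_of_lt (by omega)
  obtain ⟨h, a0, a2, a1, a3⟩ : ∃ h : Equiv.Perm (Fin (m + 4)), h 0 = x ∧ h 2 = g x ∧
      h 1 = g (g x) ∧ h 3 = g (g (g x)) := by
    have m1 : 1 % (m + 4) = 1 := Nat.mod_eq_of_lt (by omega)
    have m2 : 2 % (m + 4) = 2 := Nat.mod_eq_of_lt (by omega)
    have m3 : 3 % (m + 4) = 3 := Nat.mod_eq_of_lt (by omega)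
    have inj1 : Function.Injective (![0, 1, 2, 3] : Fin 4 → Fin (m + 4)) := by
      intro i j hij
      fin_cases i <;> fin_cases j <;>
        simp [Fin.ext_iff, v0, v1, v2, v3, m1, m2, m3] at hij ⊢
    have inj2 : Function.Injective (![x, g (g x), g x, g (g (g x))] : Fin 4 → Fin (m + 4)) := by
      intro i j hij
      fin_cases i <;> fin_cases j <;>
        simp [h1, h2, h3, h6, h7, h8, h1.symm, h2.symm, h3.symm, h6.symm, h7.symm, h8.symm,
          -EmbeddingLike.apply_eq_iff_eq] at hij ⊢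
    obtain ⟨h, hh⟩ := (Equiv.Perm.isMultiplyPretransitive (Fin (m + 4)) 4).exists_smul_eq
      ⟨_, inj1⟩ ⟨_, inj2⟩
    refine ⟨h, ?_, ?_, ?_, ?_⟩
    · exact DFunLike.congr_fun hh 0
    · exact DFunLike.congr_fun hh 2
    · exact DFunLike.congr_fun hh 1
    · exact DFunLike.congr_fun hh 3
  have hg : h * (h⁻¹ * g * h) * h⁻¹ = g := by group
  have inv : ∀ y z, h y = z → h⁻¹ z = y := by
    intro y z hy
    rw [Equiv.Perm.inv_eq_iff_eq]; exact hy.symm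
  have key := hasE_std (ρ := ρ) hE (h⁻¹ * g * h)
    (by simp only [Equiv.Perm.mul_apply]; rw [a0]; exact inv _ _ a2)
    (by simp only [Equiv.Perm.mul_apply]; rw [a2]; exact inv _ _ a1)
    (by simp only [Equiv.Perm.mul_apply]; rw [a1]; exact inv _ _ a3)
    (by simp only [Equiv.Perm.mul_apply]; rw [a3, h4]; exact inv _ _ a0)
    (by
      intro z hz
      simp only [Equiv.Perm.mul_apply]
      rw [h5 (h z)]
      · exact inv _ _ rfl
      · rw [← a0]; intro e; have := h.injective e; rw [this, v0] at hz; omega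
      · rw [← a2]; intro e; have := h.injective e; rw [this, v2] at hz; omega
      · rw [← a1]; intro e; have := h.injective e; rw [this, v1] at hz; omega
      · rw [← a3]; intro e; have := h.injective e; rw [this, v3] at hz; omega)
  have key2 := HasE.conj h key
  rw [hg, ← Equiv.swap_apply_apply, ← Equiv.swap_apply_apply, a0, a1, a2] at key2
  exact key2

end SPV
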