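import Pool.Agent.SPV.D1

/-!
# SPV / Fit : Fitting's lemma in the corner ring of a primitive idempotent
-/

namespace SPV

variable {F G V : Type*} [Field F] [Group G] [AddCommGroup V] [Module F V]
  [FiniteDimensional F V]

private theorem aeval_comm {x a : Module.End F V} (h : x * a = a * x) (r : Polynomial F) :
    x * Polynomial.aeval a r = Polynomial.aeval a r * x := by
  induction r using Polynomial.induction_on' with
  | add p q hp hq => rw [map_add, mul_add, add_mul, hp, hq]
  | monomial n c =>
    rw [Polynomial.aeval_monomial]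
    exact (Algebra.commute_algebraMap_right c x).mul_right (Commute.pow_right h n)

/-- Every element `a` of the corner of a primitive idempotent `f` is nilpotent or invertible in
the corner.

Sketch.  Let `μ = minpoly F a = X ^ m * q` with `q.coeff 0 ≠ 0` (e.g.
`Polynomial.exists_eq_pow_rootMultiplicity_mul_and_not_dvd` at the root `0`), and multiply by one
more `X` so that the exponent is `m + 1 ≥ 1` (`a ^ (m+1) * q(a) = 0`).  `X ^ (m+1)` and `q` are
coprime: `u * X ^ (m+1) + v * q = 1`.  Put `e = aeval a (u * X ^ (m+1)) = u(a) a^(m+1)`.  Then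
`e * e = e` (`e * (1 - e) = u a^(m+1) v q(a) = 0`), `e` commutes with everything that commutes
with `a` and `f * e = e = e * f`, because `f` commutes with `a` (`f * a = a = a * f`) and `e` is a
multiple of `a`.  So `e = 0` or `e = f`.  If `e = 0` then `(v q)(a) = 1`, so
`a^(m+1) = a^(m+1) (v q)(a) = 0`.  If `e = f` then `a' = f u(a) a^m f` works. -/
theorem Prim.nil_or_unit {ρ : Representation F G V} {P : Subgroup G} {f : Module.End F V}
    (hf : Prim ρ P f) {a : Module.End F V} (ha : InC ρ P f a) :
    IsNilpotent a ∨ ∃ a', InC ρ P f a' ∧ a * a' = f ∧ a' * a = f := by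
  have hint : IsIntegral F a := Algebra.IsIntegral.isIntegral a
  obtain ⟨q, hq, hnd⟩ := Polynomial.exists_eq_pow_rootMultiplicity_mul_and_not_dvd
    (minpoly F a) (minpoly.ne_zero hint) 0
  rw [Polynomial.C_0, sub_zero] at hq hnd
  set m := (minpoly F a).rootMultiplicity 0 with hm
  have hco : IsCoprime (Polynomial.X ^ (m + 1) : Polynomial F) q :=
    ((Polynomial.irreducible_X.coprime_iff_not_dvd).2 hnd).pow_left
  obtain ⟨u, v, huv⟩ := hco
  have h0 : Polynomial.aeval a (Polynomial.X ^ (m + 1) * q) = 0 := by
    have h1 : (Polynomial.X ^ (m + 1) * q : Polynomial F) = Polynomial.X * minpoly F a := by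
      rw [hq]; ring
    rw [h1, map_mul, minpoly.aeval, mul_zero]
  set e : Module.End F V := Polynomial.aeval a (u * Polynomial.X ^ (m + 1)) with he
  set w : Module.End F V := Polynomial.aeval a (v * q) with hw
  set u' : Module.End F V := Polynomial.aeval a (u * Polynomial.X ^ m) with hu'
  have hew : e + w = 1 := by rw [he, hw, ← map_add, huv, map_one]
  have hew0 : e * w = 0 := by
    have h1 : (u * Polynomial.X ^ (m + 1) * (v * q) : Polynomial F) =
      u * v * (Polynomial.X ^ (m + 1) * q) := by ring
    rw [he, hw, ← map_mul, h1, map_mul, h0, mul_zero]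
  have hee : e * e = e := by
    have h1 : e * (e + w) = e := by rw [hew, mul_one]
    rwa [mul_add, hew0, add_zero] at h1
  have heu : e = u' * a := by
    have h1 : (u * Polynomial.X ^ (m + 1) : Polynomial F) = u * Polynomial.X ^ m * Polynomial.X := by
      ring
    rw [he, h1, map_mul, Polynomial.aeval_X]
  have heu2 : e = a * u' := by rw [heu, hu', aeval_comm rfl]
  have hfe : f * e = e := by rw [heu2, ← mul_assoc, ha.l]
  have hef : e * f = e := by rw [heu, mul_assoc, ha.r]
  have hcm : ∀ r : Polynomial F, Cm ρ P (Polynomial.aeval a r) :=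
    fun r p hp => aeval_comm (ha.cm p hp) r
  rcases hf.prim e hee ⟨hcm _, hfe, hef⟩ with h | h
  · left
    refine ⟨m + 1, ?_⟩
    have h1 : w = 1 := by rw [← hew, h, zero_add]
    have h2 : a ^ (m + 1) * w = 0 := by
      have h3 : a ^ (m + 1) = Polynomial.aeval a (Polynomial.X ^ (m + 1) : Polynomial F) := by
        rw [map_pow, Polynomial.aeval_X]
      have h4 : (Polynomial.X ^ (m + 1) * (v * q) : Polynomial F) =
        v * (Polynomial.X ^ (m + 1) * q) := by ring
      rw [h3, hw, ← map_mul, h4, map_mul, h0, mul_zero]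
    rwa [h1, mul_one] at h2
  · right
    refine ⟨f * u' * f, ⟨(hf.cm.mul (hcm _)).mul hf.cm, ?_, ?_⟩, ?_, ?_⟩
    · rw [← mul_assoc, ← mul_assoc, hf.idem]
    · rw [mul_assoc, hf.idem]
    · rw [← mul_assoc, ← mul_assoc, ha.r, ← heu2, h, hf.idem]
    · rw [mul_assoc, ha.l, mul_assoc, ← heu, h, hf.idem]

end SPV
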