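import Pool.Agent.SPV.D2

/-!
# SPV / GA : the Garnir relation (for the full symmetric group on `X`)
-/

set_option linter.unusedSectionVars false

namespace SPV

open Finset

variable {μ : YoungDiagram} {α : Type*} [Fintype α] [DecidableEq α]

/-- permutations supported on `X` -/
def symOn (X : Finset α) : Finset (Equiv.Perm α) :=
  univ.filter (fun σ => ∀ a, a ∉ X → σ a = a)

/-- If `X` is contained in the columns `j ≤ j'` of `t` and has more than `μ'_j` elements then
`∑_{σ ∈ Sym X} sgn σ σ e_t = 0`.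

Sketch.  `e_t` is a combination of tabloids `f = τ {t}`, `τ ∈ C_t`.  For `a ∈ X`, `f a = row_t (τ⁻¹ a)`
and `τ⁻¹ a` is in the same column as `a` (`j` or `j'`), so `f a < μ.colLen j`
(`YoungDiagram.mem_iff_lt_colLen`, `colLen_anti`).  By the pigeonhole principle there are
`a ≠ b ∈ X` with `f a = f b`, i.e. `swap a b • f = f`, and `σ ↦ σ * swap a b` is a sign reversing
involution of `Sym X`. -/
theorem garnir (R : Type*) [CommRing R] (t : Tableau μ α) (X : Finset α) (j j' : ℕ)
    (hjj : j ≤ j') (hX : ∀ a ∈ X, Tableau.col t a = j ∨ Tableau.col t a = j')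
    (hcard : μ.colLen j < X.card) :
    ∑ σ ∈ symOn X, (((Equiv.Perm.sign σ : ℤˣ) : ℤ) : R) •
      permRep R μ α σ (polytabloid R t) = 0 := by
  have key : ∀ τ ∈ colStab t, ∑ σ ∈ symOn X, (((Equiv.Perm.sign σ : ℤˣ) : ℤ) : R) •
      permRep R μ α σ (Finsupp.single (τ • t.tabloid)
        ((((Equiv.Perm.sign τ : ℤˣ) : ℤ) : R))) = 0 := by
    intro τ hτ
    have hτ' := mem_colStab.mp hτ
    have hmaps : ∀ a ∈ X, (τ • t.tabloid).1 a ∈ Finset.range (μ.colLen j) := by
      intro a ha
      rw [smul_val, Tableau.tabloid_val, Finset.mem_range]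
      have h1 : Tableau.col t (τ⁻¹ a) = Tableau.col t a := by
        have h0 : τ (τ⁻¹ a) = a := by simp
        have := hτ' (τ⁻¹ a)
        rw [h0] at this
        exact this.symm
      have h2 : Tableau.row t (τ⁻¹ a) < μ.colLen (Tableau.col t (τ⁻¹ a)) := by
        rw [← YoungDiagram.mem_iff_lt_colLen, ← YoungDiagram.mem_cells]
        exact (t (τ⁻¹ a)).2
      refine lt_of_lt_of_le h2 ?_
      rw [h1]
      rcases hX a ha with h3 | h3
      · rw [h3]
      · rw [h3]; exact μ.colLen_anti j j' hjj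
    obtain ⟨a, ha, b, hb, hab, hfab⟩ := Finset.exists_ne_map_eq_of_card_lt_of_maps_to
      (by rw [Finset.card_range]; exact hcard) hmaps
    have hswap : Equiv.swap a b • (τ • t.tabloid) = τ • t.tabloid := by
      refine Tabloid.ext fun c => ?_
      rw [smul_val, Equiv.swap_inv]
      by_cases hca : c = a
      · rw [hca, Equiv.swap_apply_left]; exact hfab.symm
      · by_cases hcb : c = b
        · rw [hcb, Equiv.swap_apply_right]; exact hfab
        · rw [Equiv.swap_apply_of_ne_of_ne hca hcb]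
    refine Finset.sum_involution (fun σ _ => σ * Equiv.swap a b) ?_ ?_ ?_ ?_
    · intro σ _
      rw [permRep_single, permRep_single, mul_smul, hswap, Equiv.Perm.sign_mul,
        Equiv.Perm.sign_swap hab, ← add_smul]
      have : ((((Equiv.Perm.sign σ : ℤˣ) : ℤ) : R)) +
          ((((Equiv.Perm.sign σ * -1 : ℤˣ) : ℤ) : R)) = 0 := by
        push_cast
        ring
      rw [this, zero_smul]
    · intro σ _ _ heq
      have h1 : Equiv.swap a b = 1 := by
        have := congrArg (fun x => σ⁻¹ * x) heq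
        simpa using this
      exact hab ((Equiv.swap_eq_one_iff).mp h1)
    · intro σ hσ
      rw [symOn, Finset.mem_filter] at hσ ⊢
      refine ⟨Finset.mem_univ _, fun c hc => ?_⟩
      rw [Equiv.Perm.mul_apply, Equiv.swap_apply_of_ne_of_ne]
      · exact hσ.2 c hc
      · rintro rfl; exact hc ha
      · rintro rfl; exact hc hb
    · intro σ _
      rw [mul_assoc, Equiv.swap_mul_self, mul_one]
  have h1 : ∀ σ ∈ symOn X, (((Equiv.Perm.sign σ : ℤˣ) : ℤ) : R) •
      permRep R μ α σ (polytabloid R t) = ∑ τ ∈ colStab t, (((Equiv.Perm.sign σ : ℤˣ) : ℤ) : R) •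
      permRep R μ α σ (Finsupp.single (τ • t.tabloid)
        ((((Equiv.Perm.sign τ : ℤˣ) : ℤ) : R))) := by
    intro σ _
    unfold polytabloid
    rw [map_sum, Finset.smul_sum]
  rw [Finset.sum_congr rfl h1, Finset.sum_comm]
  exact Finset.sum_eq_zero key

/-- `e_{σ t} = ± e_t` for `σ ∈ C_t`. -/
theorem polytabloid_colStab (R : Type*) [CommRing R] (t : Tableau μ α) {σ : Equiv.Perm α}
    (hσ : σ ∈ colStab t) :
    polytabloid R (Tableau.act σ t) = (((Equiv.Perm.sign σ : ℤˣ) : ℤ) : R) • polytabloid R t := by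
  have hσ' := mem_colStab.mp hσ
  rw [← permRep_polytabloid]
  unfold polytabloid
  rw [map_sum, Finset.smul_sum]
  refine Finset.sum_bij' (fun τ _ => σ * τ) (fun τ _ => σ⁻¹ * τ) ?_ ?_ ?_ ?_ ?_
  · intro τ hτ
    rw [mem_colStab] at hτ ⊢
    intro a
    rw [Equiv.Perm.mul_apply, hσ', hτ]
  · intro τ hτ
    rw [mem_colStab] at hτ ⊢
    intro a
    rw [Equiv.Perm.mul_apply]
    have h0 : σ (σ⁻¹ (τ a)) = τ a := by simp
    have h1 := hσ' (σ⁻¹ (τ a))
    rw [h0] at h1
    rw [← h1, hτ]
  · intro τ _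
    rw [inv_mul_cancel_left]
  · intro τ _
    rw [mul_inv_cancel_left]
  · intro τ _
    rw [permRep_single, mul_smul, Finsupp.smul_single, smul_eq_mul, Equiv.Perm.sign_mul]
    congr 1
    have h1 : ((Equiv.Perm.sign σ : ℤˣ) : ℤ) * ((Equiv.Perm.sign σ : ℤˣ) : ℤ) = 1 := by
      rw [← Units.val_mul, Int.units_mul_self, Units.val_one]
    have h2 : ((((Equiv.Perm.sign σ : ℤˣ) : ℤ) : R)) * ((((Equiv.Perm.sign σ : ℤˣ) : ℤ) : R)) = 1 := by
      exact_mod_cast congrArg (Int.cast : ℤ → R) h1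
    push_cast
    rw [← mul_assoc, h2, one_mul]

end SPV
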