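import Pool.Agent.SPV.Jam

/-!
# SPV / GM : the Young symmetrizer on its own Specht module
-/

set_option linter.unusedSectionVars false

namespace SPV

open Finset

variable {κ : YoungDiagram} {m : ℕ}

private theorem GM_rho_coe {α : Type*} [Fintype α] [DecidableEq α] {μ ν : YoungDiagram}
    (t : Tableau ν α) (v : Specht ℚ μ α) :
    ((bO (spechtRep ℚ μ α) t v : Specht ℚ μ α) : Tabloid μ α →₀ ℚ) =
      bO (permRep ℚ μ α) t (v : Tabloid μ α →₀ ℚ) := by
  simp [bO, kapO, rhoO, LinearMap.sum_apply]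

/-- `κ_t ρ_t e_t = γ e_t` with an integer `γ` (`kapO_single`, all coefficients are integers). -/
theorem bO_polytabloid (t : Tableau κ (Fin m)) :
    ∃ γ : ℤ, bO (permRep ℚ κ (Fin m)) t (polytabloid ℚ t) = (γ : ℚ) • polytabloid ℚ t := by
  refine ⟨∑ r ∈ rowStab t, ∑ c ∈ colStab t,
    ((Equiv.Perm.sign c : ℤˣ) : ℤ) * jc t (r • c • t.tabloid), ?_⟩
  have h1 : rhoO (permRep ℚ κ (Fin m)) t (polytabloid ℚ t) =
      ∑ r ∈ rowStab t, ∑ c ∈ colStab t, (((Equiv.Perm.sign c : ℤˣ) : ℤ) : ℚ) •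
        Finsupp.single (r • c • t.tabloid) (1 : ℚ) := by
    simp only [rhoO, LinearMap.sum_apply, polytabloid, map_sum, permRep_single]
    rw [sum_comm]
    refine sum_congr rfl fun r _ => sum_congr rfl fun c _ => ?_
    rw [Finsupp.smul_single, smul_eq_mul, mul_one]
  rw [bO, Module.End.mul_apply, h1]
  simp only [map_sum, map_smul, kapO_single, smul_smul]
  push_cast
  simp only [sum_smul]

/-- `b = κ_t ρ_t` maps `S^κ` into `ℚ e_t` (`kapO_eq_smul`), so its trace is `γ`. -/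
theorem trace_bO (t : Tableau κ (Fin m)) (γ : ℤ)
    (hγ : bO (permRep ℚ κ (Fin m)) t (polytabloid ℚ t) = (γ : ℚ) • polytabloid ℚ t) :
    LinearMap.trace ℚ (Specht ℚ κ (Fin m)) (bO (spechtRep ℚ κ (Fin m)) t) = (γ : ℚ) := by
  let φ : Specht ℚ κ (Fin m) →ₗ[ℚ] ℚ :=
    (Finsupp.lapply t.tabloid).comp
      ((bO (permRep ℚ κ (Fin m)) t).comp (Specht ℚ κ (Fin m)).subtype)
  let e : Specht ℚ κ (Fin m) := ⟨polytabloid ℚ t, polytabloid_mem ℚ t⟩
  have h : bO (spechtRep ℚ κ (Fin m)) t = φ.smulRight e := by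
    refine LinearMap.ext fun v => Subtype.ext ?_
    rw [GM_rho_coe]
    obtain ⟨c, hc⟩ := kapO_eq_smul ℚ t (rhoO (permRep ℚ κ (Fin m)) t (v : Tabloid κ (Fin m) →₀ ℚ))
    have hc' : bO (permRep ℚ κ (Fin m)) t (v : Tabloid κ (Fin m) →₀ ℚ) = c • polytabloid ℚ t := hc
    have hφ : φ v = c := by
      change (bO (permRep ℚ κ (Fin m)) t (v : Tabloid κ (Fin m) →₀ ℚ)) t.tabloid = c
      rw [hc', Finsupp.smul_apply, polytabloid_apply_self, smul_eq_mul, mul_one]
    rw [hc', LinearMap.smulRight_apply, hφ]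
    rfl
  rw [h, LinearMap.trace_smulRight]
  change (bO (permRep ℚ κ (Fin m)) t (polytabloid ℚ t)) t.tabloid = (γ : ℚ)
  rw [hγ, Finsupp.smul_apply, polytabloid_apply_self, smul_eq_mul, mul_one]

private theorem GM_permRep_apply (h : Equiv.Perm (Fin m)) (v : Tabloid κ (Fin m) →₀ ℚ)
    (f : Tabloid κ (Fin m)) : permRep ℚ κ (Fin m) h v f = v (h⁻¹ • f) := by
  have hinj : Function.Injective (h • · : Tabloid κ (Fin m) → Tabloid κ (Fin m)) :=
    MulAction.injective h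
  have := Finsupp.mapDomain_apply hinj v (h⁻¹ • f)
  simp only [smul_inv_smul] at this
  exact this

private theorem GM_mem_rowStab (t : Tableau κ (Fin m)) (g : Equiv.Perm (Fin m)) :
    g ∈ rowStab t ↔ g • t.tabloid = t.tabloid := by
  rw [mem_rowStab]
  constructor
  · intro h
    ext a
    rw [smul_val, Tableau.tabloid_val, Tableau.tabloid_val]
    have := h (g⁻¹ a)
    simpa using this.symm
  · intro h a
    have h1 := congrArg (fun f : Tabloid κ (Fin m) => f.1 (g a)) h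
    simp only [smul_val, Tableau.tabloid_val] at h1
    simpa using h1.symm

/-- restriction of the coefficients to the orbit -/
private noncomputable def GMj (t : Tableau κ (Fin m)) :
    (Tabloid κ (Fin m) →₀ ℚ) →ₗ[ℚ] (Equiv.Perm (Fin m) → ℚ) :=
  LinearMap.pi fun g => Finsupp.lapply (g • t.tabloid)

private noncomputable def GMu (t : Tableau κ (Fin m)) :
    (Equiv.Perm (Fin m) → ℚ) →ₗ[ℚ] (Tabloid κ (Fin m) →₀ ℚ) :=
  Fintype.linearCombination ℚ (fun g => permRep ℚ κ (Fin m) g (polytabloid ℚ t))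

private theorem GM_Q_apply (t : Tableau κ (Fin m)) (v : Tabloid κ (Fin m) →₀ ℚ) :
    (GMu t ∘ₗ GMj t) v =
      ∑ g : Equiv.Perm (Fin m), v (g • t.tabloid) • permRep ℚ κ (Fin m) g (polytabloid ℚ t) := by
  rw [LinearMap.comp_apply, GMu, Fintype.linearCombination_apply]
  rfl

private theorem GM_Q_comm (t : Tableau κ (Fin m)) (h : Equiv.Perm (Fin m))
    (v : Tabloid κ (Fin m) →₀ ℚ) :
    (GMu t ∘ₗ GMj t) (permRep ℚ κ (Fin m) h v) =
      permRep ℚ κ (Fin m) h ((GMu t ∘ₗ GMj t) v) := by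
  rw [GM_Q_apply, GM_Q_apply, map_sum]
  refine Fintype.sum_equiv (Equiv.mulLeft h⁻¹) _ _ fun g => ?_
  rw [GM_permRep_apply, LinearMap.map_smul, Equiv.coe_mulLeft, ← Module.End.mul_apply, ← map_mul,
    mul_inv_cancel_left, mul_smul]

private theorem GM_Q_single (t : Tableau κ (Fin m)) :
    (GMu t ∘ₗ GMj t) (Finsupp.single t.tabloid 1) =
      rhoO (permRep ℚ κ (Fin m)) t (polytabloid ℚ t) := by
  classical
  rw [GM_Q_apply, rhoO, LinearMap.sum_apply, rowStab, sum_filter]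
  refine sum_congr rfl fun g _ => ?_
  have hg := GM_mem_rowStab t g
  rw [mem_rowStab] at hg
  by_cases h : g • t.tabloid = t.tabloid
  · rw [if_pos (hg.2 h), h, Finsupp.single_eq_same, one_smul]
  · rw [if_neg (fun h' => h (hg.1 h')), Finsupp.single_eq_of_ne h, zero_smul]

private theorem GM_Q_poly (t : Tableau κ (Fin m)) :
    (GMu t ∘ₗ GMj t) (polytabloid ℚ t) = bO (permRep ℚ κ (Fin m)) t (polytabloid ℚ t) := by
  conv_lhs => rw [← kapO_tabloid]
  rw [bO, Module.End.mul_apply, ← GM_Q_single]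
  simp only [kapO, LinearMap.sum_apply, LinearMap.smul_apply, map_sum, map_smul]
  refine sum_congr rfl fun c _ => ?_
  rw [GM_Q_comm]

private theorem GM_exists_act (t s : Tableau κ (Fin m)) :
    ∃ g : Equiv.Perm (Fin m), s = Tableau.act g t := by
  refine ⟨(s.trans t.symm)⁻¹, ?_⟩
  apply Equiv.ext
  intro a
  rw [Tableau.act_apply, inv_inv]
  simp

private theorem GM_Q_eig (t : Tableau κ (Fin m)) (γ : ℤ)
    (hγ : bO (permRep ℚ κ (Fin m)) t (polytabloid ℚ t) = (γ : ℚ) • polytabloid ℚ t)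
    (w : Tabloid κ (Fin m) →₀ ℚ) (hw : w ∈ Specht ℚ κ (Fin m)) :
    (GMu t ∘ₗ GMj t) w = (γ : ℚ) • w := by
  unfold Specht at hw
  induction hw using Submodule.span_induction with
  | mem x hx =>
    obtain ⟨s, rfl⟩ := hx
    obtain ⟨g, rfl⟩ := GM_exists_act t s
    change (GMu t ∘ₗ GMj t) (polytabloid ℚ (Tableau.act g t)) =
      (γ : ℚ) • polytabloid ℚ (Tableau.act g t)
    rw [← permRep_polytabloid, GM_Q_comm, GM_Q_poly, hγ, map_smul]
  | zero => rw [map_zero, smul_zero]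
  | add x y _ _ hx hy => rw [map_add, hx, hy, smul_add]
  | smul c x _ hx => rw [map_smul, hx, smul_comm]

private theorem GM_Q_mem (t : Tableau κ (Fin m)) (v : Tabloid κ (Fin m) →₀ ℚ) :
    (GMu t ∘ₗ GMj t) v ∈ Specht ℚ κ (Fin m) := by
  rw [GM_Q_apply]
  refine Submodule.sum_mem _ fun g _ => Submodule.smul_mem _ _ ?_
  rw [permRep_polytabloid]
  exact polytabloid_mem ℚ _

private theorem GM_trace_left (t : Tableau κ (Fin m)) :
    LinearMap.trace ℚ _ (GMj t ∘ₗ GMu t) = (m.factorial : ℚ) := by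
  classical
  rw [LinearMap.trace_eq_matrix_trace ℚ (Pi.basisFun ℚ (Equiv.Perm (Fin m))), Matrix.trace]
  have h : ∀ g : Equiv.Perm (Fin m), Matrix.diag (LinearMap.toMatrix
      (Pi.basisFun ℚ (Equiv.Perm (Fin m))) (Pi.basisFun ℚ (Equiv.Perm (Fin m)))
      (GMj t ∘ₗ GMu t)) g = 1 := by
    intro g
    rw [Matrix.diag_apply, LinearMap.toMatrix_apply, Pi.basisFun_apply, Pi.basisFun_repr,
      LinearMap.comp_apply, GMu, Fintype.linearCombination_apply]
    change (∑ i, (Pi.single g (1 : ℚ) : Equiv.Perm (Fin m) → ℚ) i •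
      permRep ℚ κ (Fin m) i (polytabloid ℚ t)) (g • t.tabloid) = 1
    rw [Finset.sum_eq_single g]
    · rw [Pi.single_eq_same, one_smul, GM_permRep_apply, inv_smul_smul, polytabloid_apply_self]
    · intro i _ hi
      rw [Pi.single_eq_of_ne hi, zero_smul]
    · intro hg
      exact absurd (mem_univ g) hg
  rw [sum_congr rfl fun g _ => h g, sum_const, card_univ, Fintype.card_perm, Fintype.card_fin,
    nsmul_eq_mul, mul_one]

/-- `γ * dim S^κ = m!`.

Sketch.  Let `G = Perm (Fin m)`, `A = G →₀ ℚ` (or `G → ℚ`).  Linear maps: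
`π : A → M^κ`, `g ↦ g {t}`; `j : M^κ → A`, `f ↦ ∑_{g : g {t} = f} g` (so `j (g {t}) = ∑_{r ∈ R_t} g r`;
`j` is injective, the fibres are nonempty and disjoint); `K : A → A`, `g ↦ ∑_{c ∈ C_t} sgn c • g c`.
`T = j ∘ π ∘ K : g ↦ ∑_{c, r} sgn c • g c r` (right multiplication by `κ_t ρ_t`).
`π (K g) = g e_t`, so `range (π ∘ K) = S^κ` and `rank T = dim S^κ`.
`T` is left equivariant.  `T T = γ T`: `T (T 1) = j (π (K (j e_t)))` where
`π (K (j {e_t}))`: `j e_t = ∑_{c,r} sgn c • c r`, and `π (K (g)) = g e_t`, so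
`π (K (j e_t)) = κ_t ρ_t e_t = γ e_t`, hence `T (T 1) = γ j e_t = γ T 1`; by equivariance
`T (T g) = γ T g`.
`trace T = ∑_g (coefficient of g in T g) = m! * #{(c, r) | c r = 1} (signed) = m!`, because
`C_t ∩ R_t = 1`.  If `γ = 0` then `T T = 0` and `trace T = 0`, a contradiction; otherwise
`γ⁻¹ T` is idempotent of rank `dim S^κ`, so `m! = trace T = γ * dim S^κ`. -/
theorem gamma_mul (t : Tableau κ (Fin m)) (γ : ℤ)
    (hγ : bO (permRep ℚ κ (Fin m)) t (polytabloid ℚ t) = (γ : ℚ) • polytabloid ℚ t) :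
    γ * (Module.finrank ℚ (Specht ℚ κ (Fin m)) : ℤ) = (m.factorial : ℤ) := by
  have h1 : LinearMap.trace ℚ _ (GMu t ∘ₗ GMj t) = (m.factorial : ℚ) := by
    rw [LinearMap.trace_comp_comm', GM_trace_left]
  have h2 := LinearMap.trace_restrict_eq_of_forall_mem (Specht ℚ κ (Fin m)) (GMu t ∘ₗ GMj t)
    (GM_Q_mem t)
  have h3 : (GMu t ∘ₗ GMj t).restrict (fun x _ => GM_Q_mem t x) =
      (γ : ℚ) • (LinearMap.id : Specht ℚ κ (Fin m) →ₗ[ℚ] Specht ℚ κ (Fin m)) := by
    refine LinearMap.ext fun v => Subtype.ext ?_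
    exact GM_Q_eig t γ hγ v.1 v.2
  rw [h1] at h2
  have h4 : LinearMap.trace ℚ (Specht ℚ κ (Fin m))
      ((GMu t ∘ₗ GMj t).restrict (fun x _ => GM_Q_mem t x)) = (m.factorial : ℚ) := h2
  rw [h3, map_smul, LinearMap.trace_id, smul_eq_mul] at h4
  exact_mod_cast h4

end SPV
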