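import Pool.Agent.SPV.Loc

/-!
# SPV / Grn : Green's idempotent for a subgroup of index two, explicit
-/

namespace SPV

variable {F G V : Type*} [Field F] [Group G] [AddCommGroup V] [Module F V]
  [FiniteDimensional F V]

/-- Green's idempotent.

Sketch (characteristic 2).  Write `b^y = ρ y * b * ρ y⁻¹`; `b^y = f + b`.
`c = b * (f + b)` lies in the corner of `f` for `P`: it commutes with `P₁` (as `b`, `f` do), and
with `ρ y`: `c^y = b^y (f + b^y) = (f + b) b = c`; every element of `P` is in `P₁` or in `y P₁`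
(`Half.cov`).  By `Prim.exists_scalar` `c = l • f + n` with `n` nilpotent.  `F` is algebraically
closed: choose `m` with `m ^ 2 + m = l`.  Put `b' = b + m • f`; `b' (f + b') = c + l f = n`
nilpotent (everything here commutes: polynomials in `b`, `f`), and
`b' + b'^y = b + b^y + 2 m f = f`.  Let `n ^ (2 ^ N) = 0` and `e = b' ^ (2 ^ N)`.  In
characteristic 2, `(f + b') ^ (2^N) = f + e` (`add_pow_char_pow_of_commute`; note `f^(2^N) = f`;
use that `Module.End F V` has characteristic 2, or work with `add_pow_two` step by step), so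
`e (f + e) = (b' (f + b')) ^ (2^N) = 0`, i.e. `e * e = e`, and
`e + e^y = b'^(2^N) + (b'^y)^(2^N) = b'^(2^N) + (f + b')^(2^N) = f`. -/
theorem green [IsAlgClosed F] [CharP F 2] {ρ : Representation F G V} {P P₁ : Subgroup G} {y : G}
    (hh : Half P P₁ y) {f : Module.End F V} (hf : Prim ρ P f) {b : Module.End F V}
    (hb : InC ρ P₁ f b) (hsum : b + ρ y * b * ρ y⁻¹ = f) :
    ∃ e : Module.End F V, e * e = e ∧ InC ρ P₁ f e ∧ e + ρ y * e * ρ y⁻¹ = f := by
  have hYY : ρ y⁻¹ * ρ y = 1 := by rw [← map_mul, inv_mul_cancel, map_one]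
  have htwo : ∀ x : Module.End F V, x + x = 0 := by
    intro x
    have h2 : (2 : F) = 0 := CharP.cast_eq_zero F 2
    calc x + x = (2 : F) • x := (two_smul F x).symm
      _ = 0 := by rw [h2, zero_smul]
  have hneg : ∀ x : Module.End F V, -x = x := fun x => neg_eq_of_add_eq_zero_left (htwo x)
  have hsub : ∀ x z : Module.End F V, x - z = x + z := fun x z => by rw [sub_eq_add_neg, hneg]
  have hφmul : ∀ x z : Module.End F V,
      ρ y * (x * z) * ρ y⁻¹ = (ρ y * x * ρ y⁻¹) * (ρ y * z * ρ y⁻¹) := by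
    intro x z
    calc ρ y * (x * z) * ρ y⁻¹ = ρ y * x * 1 * z * ρ y⁻¹ := by noncomm_ring
      _ = ρ y * x * (ρ y⁻¹ * ρ y) * z * ρ y⁻¹ := by rw [hYY]
      _ = _ := by noncomm_ring
  have hφf : ρ y * f * ρ y⁻¹ = f := hf.cm.conj hh.mem
  have hφb : ρ y * b * ρ y⁻¹ = f + b := by
    have : ρ y * b * ρ y⁻¹ = f - b := by rw [← hsum]; abel
    rw [this, hsub]
  have hfb : f * b = b := hb.l
  have hbf : b * f = b := hb.r
  have hff : f * f = f := hf.idem
  -- the element `c`
  set c : Module.End F V := b + b * b with hc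
  have hcm1 : Cm ρ P₁ c := hb.cm.add (hb.cm.mul hb.cm)
  have hφc : ρ y * c * ρ y⁻¹ = c := by
    have h1 : ρ y * c * ρ y⁻¹ = (f + b) + (f + b) * (f + b) := by
      rw [hc, mul_add, add_mul, hφmul, hφb]
    rw [h1]
    have h2 : (f + b) * (f + b) = f + b + (b + b * b) := by
      rw [mul_add, add_mul, add_mul, hff, hfb, hbf]
    rw [h2, ← add_assoc, htwo, zero_add]
  have hcy : ρ y * c = c * ρ y := by
    calc ρ y * c = ρ y * c * (ρ y⁻¹ * ρ y) := by rw [hYY, mul_one]
      _ = (ρ y * c * ρ y⁻¹) * ρ y := by noncomm_ring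
      _ = c * ρ y := by rw [hφc]
  have hcP : Cm ρ P c := by
    intro p hp
    by_cases hp1 : p ∈ P₁
    · exact hcm1 p hp1
    · have h1 := hcm1 _ (hh.cov p hp hp1)
      have h2 : ρ p = ρ y * ρ (y⁻¹ * p) := by rw [← map_mul, mul_inv_cancel_left]
      rw [h2, mul_assoc, h1, ← mul_assoc, hcy, mul_assoc]
  have hcC : InC ρ P f c := by
    refine ⟨hcP, ?_, ?_⟩
    · rw [hc, mul_add, ← mul_assoc, hfb]
    · rw [hc, add_mul, mul_assoc, hbf]
  obtain ⟨l, k, hk⟩ := hf.exists_scalar hcC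
  -- the scalar `m`
  obtain ⟨m, hm⟩ : ∃ m : F, m ^ 2 + m = l := by
    have hdeg : (Polynomial.X ^ 2 + Polynomial.X + Polynomial.C l : Polynomial F).degree = 2 := by
      compute_degree!
    obtain ⟨m, hm⟩ := IsAlgClosed.exists_root
      (Polynomial.X ^ 2 + Polynomial.X + Polynomial.C l : Polynomial F) (by rw [hdeg]; decide)
    refine ⟨m, ?_⟩
    rw [Polynomial.IsRoot.def] at hm
    simp only [Polynomial.eval_add, Polynomial.eval_pow, Polynomial.eval_X, Polynomial.eval_C] at hm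
    have h3 : l + l = 0 := by
      have h2 : (2 : F) = 0 := CharP.cast_eq_zero F 2
      calc l + l = 2 * l := by ring
        _ = 0 := by rw [h2, zero_mul]
    calc m ^ 2 + m = (m ^ 2 + m + l) - (l + l) + l := by ring
      _ = l := by rw [hm, h3]; ring
  set b' : Module.End F V := b + m • f with hb'
  have hfb' : f * b' = b' := by rw [hb', mul_add, hfb, mul_smul_comm, hff]
  have hb'f : b' * f = b' := by rw [hb', add_mul, hbf, smul_mul_assoc, hff]
  have hcm' : Cm ρ P₁ b' := hb.cm.add ((hf.cm.mono hh.le).smul m)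
  have hφb' : ρ y * b' * ρ y⁻¹ = f + b' := by
    rw [hb', mul_add, add_mul, hφb, mul_smul_comm, smul_mul_assoc, hφf]
    abel
  have hn : b' * (f + b') = c - l • f := by
    rw [hsub, mul_add, hb'f, ← hm]
    have : b' * b' = b * b + m • b + m • b + (m ^ 2) • f := by
      rw [hb', mul_add, add_mul, add_mul, smul_mul_assoc, smul_mul_assoc, mul_smul_comm,
        mul_smul_comm, hfb, hbf, hff, smul_smul, pow_two m]
      abel
    rw [this, add_assoc (b * b), htwo, add_zero, hb', hc, add_smul]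
    abel
  -- powers
  have hpow : ∀ N : ℕ, (f + b') ^ (2 ^ N) = f + b' ^ (2 ^ N) ∧ f * b' ^ (2 ^ N) = b' ^ (2 ^ N) ∧
      b' ^ (2 ^ N) * f = b' ^ (2 ^ N) ∧
      ρ y * b' ^ (2 ^ N) * ρ y⁻¹ = (ρ y * b' * ρ y⁻¹) ^ (2 ^ N) := by
    intro N
    induction N with
    | zero => simp only [pow_zero, pow_one]; exact ⟨trivial, hfb', hb'f, trivial⟩
    | succ N ih =>
      obtain ⟨i1, i2, i3, i4⟩ := ih
      have e1 : ∀ x : Module.End F V, x ^ (2 ^ (N + 1)) = x ^ (2 ^ N) * x ^ (2 ^ N) := by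
        intro x
        rw [← pow_add, pow_succ, mul_two]
      refine ⟨?_, ?_, ?_, ?_⟩
      · rw [e1, e1, i1, mul_add, add_mul, add_mul, hff, i2, i3]
        calc f + b' ^ 2 ^ N + (b' ^ 2 ^ N + b' ^ 2 ^ N * b' ^ 2 ^ N)
            = f + (b' ^ 2 ^ N + b' ^ 2 ^ N) + b' ^ 2 ^ N * b' ^ 2 ^ N := by abel
          _ = _ := by rw [htwo, add_zero]
      · rw [e1, ← mul_assoc, i2]
      · rw [e1, mul_assoc, i3]
      · rw [e1, e1, hφmul, i4]
  have hcomm : Commute b' (f + b') := by
    have h1 : b' * (f + b') = b' + b' * b' := by rw [mul_add, hb'f]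
    have h2 : (f + b') * b' = b' + b' * b' := by rw [add_mul, hfb']
    exact h1.trans h2.symm
  obtain ⟨p1, p2, p3, p4⟩ := hpow k
  have hz : b' ^ (2 ^ k) * (f + b' ^ (2 ^ k)) = 0 := by
    rw [← p1, ← hcomm.mul_pow, hn]
    exact pow_eq_zero_of_le (Nat.lt_two_pow_self).le hk
  refine ⟨b' ^ (2 ^ k), ?_, ⟨hcm'.pow _, p2, p3⟩, ?_⟩
  · rw [mul_add, p3] at hz
    have := eq_neg_of_add_eq_zero_right hz
    rw [this, hneg]
  · rw [p4, hφb', p1, add_left_comm, htwo, add_zero]

end SPV
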