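import Pool.Agent.SPV.D1

/-!
# SPV / Hig : Higman's criterion for Mathlib's `Representation.ind`
-/

namespace SPV

variable {F G V : Type*} [Field F] [Group G] [AddCommGroup V] [Module F V]

open Representation in
private theorem hig_rel {ρ : Representation F G V} {H : Subgroup G} (s : H) (h : G) (a : V) :
    IndV.mk H.subtype (ρ.comp H.subtype) ((s : G) * h) (ρ (s : G) a) =
      IndV.mk H.subtype (ρ.comp H.subtype) h a := by
  have h1 := Coinvariants.mk_self_apply
    (Representation.tprod ((leftRegular F G).comp H.subtype) (ρ.comp H.subtype)) s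
    ((MonoidAlgebra.single h (1 : F)) ⊗ₜ[F] a)
  simpa using! h1

open Representation in
private noncomputable def higL {W : Type*} [AddCommGroup W] [Module F W]
    (ρ : Representation F G V) (H : Subgroup G) (f : G → V →ₗ[F] W)
    (hf : ∀ (s : H) (h : G) (a : V), f ((s : G) * h) (ρ (s : G) a) = f h a) :
    IndV H.subtype (ρ.comp H.subtype) →ₗ[F] W :=
  Coinvariants.lift _
    (TensorProduct.lift <| (Finsupp.lift _ _ _ f) ∘ₗ
      (MonoidAlgebra.coeffLinearEquiv F).toLinearMap)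
    fun s => by
      ext h x
      simp only [LinearMap.coe_comp, Function.comp_apply, MonoidAlgebra.lsingle_apply]
      simpa using! hf s h x

open Representation in
private theorem higL_mk {W : Type*} [AddCommGroup W] [Module F W]
    (ρ : Representation F G V) (H : Subgroup G) (f : G → V →ₗ[F] W)
    (hf : ∀ (s : H) (h : G) (a : V), f ((s : G) * h) (ρ (s : G) a) = f h a) (h : G) (a : V) :
    higL ρ H f hf (IndV.mk H.subtype (ρ.comp H.subtype) h a) = f h a := by
  simp [higL]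

open Representation in
private theorem hig_ext {W : Type*} [AddCommGroup W] [Module F W]
    {ρ : Representation F G V} {H : Subgroup G}
    {f g : IndV H.subtype (ρ.comp H.subtype) →ₗ[F] W}
    (h : ∀ (x : G) (a : V), f (IndV.mk H.subtype (ρ.comp H.subtype) x a) =
      g (IndV.mk H.subtype (ρ.comp H.subtype) x a)) : f = g := by
  apply IndV.hom_ext
  intro x
  ext a
  exact h x a

/-- Higman's criterion, first direction.

In `IndV` one has `⟦s h₁ ⊗ s a⟧ = ⟦h₁ ⊗ a⟧` for `s ∈ H` and `g ⟦h₁ ⊗ a⟧ = ⟦h₁ g⁻¹ ⊗ a⟧`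
(`Representation.ind_mk`).  Let `e : IndV → IndV` be the projection `⟦h₁ ⊗ a⟧ ↦ ⟦h₁ ⊗ a⟧` if
`h₁ ∈ H`, and `0` otherwise (via `Coinvariants.lift`/`Coinvariants.map`).  For `x = g H` put
`e_x = g e g⁻¹`: it sends `⟦h₁ ⊗ a⟧` to itself if `h₁ g ∈ H` and to `0` otherwise, so it only
depends on `x`, and `∑ e_x = 1` (exactly one coset `g H = h₁⁻¹ H`).  Put `Φ x = p e_x i`. -/
theorem trOne_of_isRelProj [Finite G] {ρ : Representation F G V} {H : Subgroup G}
    (h : IsRelProj ρ H) : TrOne ρ H := by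
  classical
  obtain ⟨i, p, hi, hp, hpi⟩ := h
  have hf : ∀ (x : G ⧸ H) (s : H) (h : G) (a : V),
      (if (((s : G) * h)⁻¹ : G) = (x : G ⧸ H) then
        Representation.IndV.mk H.subtype (ρ.comp H.subtype) ((s : G) * h) else 0) (ρ (s : G) a) =
      (if ((h⁻¹ : G) : G ⧸ H) = x then
        Representation.IndV.mk H.subtype (ρ.comp H.subtype) h else 0) a := by
    intro x s h a
    have h1 : (((((s : G) * h)⁻¹ : G)) : G ⧸ H) = ((h⁻¹ : G) : G ⧸ H) := by
      rw [mul_inv_rev]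
      exact QuotientGroup.mk_mul_of_mem _ (H.inv_mem s.2)
    rw [h1]
    split_ifs
    · exact hig_rel s h a
    · rfl
  let e : G ⧸ H → (Representation.IndV H.subtype (ρ.comp H.subtype) →ₗ[F]
      Representation.IndV H.subtype (ρ.comp H.subtype)) := fun x =>
    higL ρ H (fun h => if ((h⁻¹ : G) : G ⧸ H) = x then
        Representation.IndV.mk H.subtype (ρ.comp H.subtype) h else 0) (hf x)
  have he : ∀ (x : G ⧸ H) (h : G) (a : V),
      e x (Representation.IndV.mk H.subtype (ρ.comp H.subtype) h a) =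
      if ((h⁻¹ : G) : G ⧸ H) = x then
        Representation.IndV.mk H.subtype (ρ.comp H.subtype) h a else 0 := by
    intro x h a
    rw [show e x = higL ρ H _ (hf x) from rfl, higL_mk]
    split_ifs
    · rfl
    · rfl
  have hfin : Finite (G ⧸ H) := inferInstance
  let hft : Fintype (G ⧸ H) := Fintype.ofFinite _
  have hconj : ∀ (g : G) (x : G ⧸ H) (y : Representation.IndV H.subtype (ρ.comp H.subtype)),
      Representation.ind H.subtype (ρ.comp H.subtype) g (e x
        (Representation.ind H.subtype (ρ.comp H.subtype) g⁻¹ y)) = e (g • x) y := by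
    intro g x y
    have h1 : (Representation.ind H.subtype (ρ.comp H.subtype) g) ∘ₗ (e x) ∘ₗ
        (Representation.ind H.subtype (ρ.comp H.subtype) g⁻¹) = e (g • x) := by
      apply hig_ext
      intro h a
      rw [LinearMap.comp_apply, LinearMap.comp_apply, Representation.ind_mk, he, he]
      have h2 : (((h * g⁻¹⁻¹)⁻¹ : G) : G ⧸ H) = x ↔ ((h⁻¹ : G) : G ⧸ H) = g • x := by
        rw [inv_inv, mul_inv_rev]
        rw [show ((g⁻¹ * h⁻¹ : G) : G ⧸ H) = g⁻¹ • ((h⁻¹ : G) : G ⧸ H) from rfl]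
        exact inv_smul_eq_iff
      by_cases h3 : ((h⁻¹ : G) : G ⧸ H) = g • x
      · rw [if_pos (h2.mpr h3), if_pos h3, Representation.ind_mk]
        congr 2
        group
      · rw [if_neg (fun h4 => h3 (h2.mp h4)), if_neg h3, map_zero]
    exact LinearMap.congr_fun h1 y
  refine ⟨hft, fun x => p ∘ₗ e x ∘ₗ i, ?_, ?_⟩
  · intro g x
    ext v
    change ρ g (p (e x (i (ρ g⁻¹ v)))) = p (e (g • x) (i v))
    rw [← hp, hi, hconj]
  · have hsum : ∑ x, e x = LinearMap.id := by
      apply hig_ext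
      intro h a
      rw [LinearMap.sum_apply, Finset.sum_eq_single ((h⁻¹ : G) : G ⧸ H)]
      · rw [he, if_pos rfl]
        rfl
      · intro x _ hx
        rw [he, if_neg (Ne.symm hx)]
      · intro hx
        exact absurd (Finset.mem_univ _) hx
    ext v
    have h1 : (∑ x, (p ∘ₗ e x ∘ₗ i : Module.End F V)) v = p ((∑ x, e x) (i v)) := by
      rw [LinearMap.sum_apply, LinearMap.sum_apply, map_sum]
      rfl
    rw [h1, hsum]
    exact LinearMap.congr_fun hpi v

/-- Higman's criterion, second direction.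

`φ = Φ (1 H)` commutes with `H`, `Φ (g H) = g φ g⁻¹`.  Put
`i v = ∑ x : G ⧸ H, ⟦x.out⁻¹ ⊗ φ (x.out⁻¹ v)⟧` and `p ⟦h₁ ⊗ a⟧ = h₁⁻¹ a`
(`Representation.Coinvariants.lift`).  The term of `x = g H` does not depend on the
representative: `⟦s⁻¹ g⁻¹ ⊗ φ (s⁻¹ g⁻¹ v)⟧ = ⟦s⁻¹ g⁻¹ ⊗ s⁻¹ φ (g⁻¹ v)⟧ = ⟦g⁻¹ ⊗ φ (g⁻¹ v)⟧`, and
`g'` maps the term of `x` at `v` to the term of `g' x` at `g' v`.  `p (i v) = ∑ x Φ x v = v`. -/
theorem isRelProj_of_trOne [Finite G] {ρ : Representation F G V} {H : Subgroup G}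
    (h : TrOne ρ H) : IsRelProj ρ H := by
  classical
  obtain ⟨hft, Φ, hΦ, hsum⟩ := h
  let φ : Module.End F V := Φ ((1 : G) : G ⧸ H)
  have hφ : ∀ g : G, ρ g * φ * ρ g⁻¹ = Φ (g : G ⧸ H) := by
    intro g
    rw [hΦ]
    congr 1
    change ((g * 1 : G) : G ⧸ H) = (g : G ⧸ H)
    rw [mul_one]
  have hφc : ∀ s ∈ H, ∀ v, φ (ρ s v) = ρ s (φ v) := by
    intro s hs v
    have h1 : ρ s * φ * ρ s⁻¹ = φ := by
      rw [hφ]
      congr 1
      exact (QuotientGroup.eq.mpr (by simpa using hs) : ((1 : G) : G ⧸ H) = (s : G ⧸ H)).symm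
    have h2 : φ (ρ s v) = (ρ s * φ * ρ s⁻¹) (ρ s v) := by rw [h1]
    rw [h2]
    change ρ s (φ (ρ s⁻¹ (ρ s v))) = _
    rw [Representation.inv_self_apply]
  let T : G → V →ₗ[F] Representation.IndV H.subtype (ρ.comp H.subtype) := fun g =>
    Representation.IndV.mk H.subtype (ρ.comp H.subtype) g⁻¹ ∘ₗ φ ∘ₗ ρ g⁻¹
  have hT : ∀ (g s : G), s ∈ H → T (g * s) = T g := by
    intro g s hs
    ext v
    change Representation.IndV.mk H.subtype (ρ.comp H.subtype) (g * s)⁻¹ (φ (ρ (g * s)⁻¹ v)) =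
      Representation.IndV.mk H.subtype (ρ.comp H.subtype) g⁻¹ (φ (ρ g⁻¹ v))
    rw [mul_inv_rev, map_mul]
    change Representation.IndV.mk H.subtype (ρ.comp H.subtype) (s⁻¹ * g⁻¹)
      (φ (ρ s⁻¹ (ρ g⁻¹ v))) = _
    rw [hφc s⁻¹ (H.inv_mem hs)]
    exact hig_rel ⟨s⁻¹, H.inv_mem hs⟩ g⁻¹ (φ (ρ g⁻¹ v))
  let T' : G ⧸ H → V →ₗ[F] Representation.IndV H.subtype (ρ.comp H.subtype) := fun x => T x.out
  have hT' : ∀ g : G, T' (g : G ⧸ H) = T g := by
    intro g
    have h1 : g⁻¹ * (g : G ⧸ H).out ∈ H := by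
      rw [← QuotientGroup.eq]
      exact (Quotient.out_eq' (g : G ⧸ H)).symm
    have h2 : (g : G ⧸ H).out = g * (g⁻¹ * (g : G ⧸ H).out) := by group
    change T (g : G ⧸ H).out = T g
    rw [h2, hT _ _ h1]
  have hTg : ∀ (g : G) (x : G ⧸ H) (v : V),
      Representation.ind H.subtype (ρ.comp H.subtype) g (T' x v) = T' (g • x) (ρ g v) := by
    intro g x v
    obtain ⟨h, rfl⟩ := QuotientGroup.mk_surjective x
    rw [show g • ((h : G) : G ⧸ H) = ((g * h : G) : G ⧸ H) from rfl, hT', hT']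
    change Representation.ind H.subtype (ρ.comp H.subtype) g
      (Representation.IndV.mk H.subtype (ρ.comp H.subtype) h⁻¹ (φ (ρ h⁻¹ v))) =
      Representation.IndV.mk H.subtype (ρ.comp H.subtype) (g * h)⁻¹ (φ (ρ (g * h)⁻¹ (ρ g v)))
    rw [Representation.ind_mk, mul_inv_rev, map_mul]
    change _ = Representation.IndV.mk H.subtype (ρ.comp H.subtype) (h⁻¹ * g⁻¹)
      (φ (ρ h⁻¹ (ρ g⁻¹ (ρ g v))))
    rw [Representation.inv_self_apply]
  let p : Representation.IndV H.subtype (ρ.comp H.subtype) →ₗ[F] V :=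
    higL ρ H (fun h => ρ h⁻¹) (by
      intro s h a
      rw [mul_inv_rev, map_mul]
      change ρ h⁻¹ (ρ (s : G)⁻¹ (ρ (s : G) a)) = _
      rw [Representation.inv_self_apply])
  have hp : ∀ (h : G) (a : V),
      p (Representation.IndV.mk H.subtype (ρ.comp H.subtype) h a) = ρ h⁻¹ a := by
    intro h a
    exact higL_mk ρ H _ _ h a
  refine ⟨∑ x, T' x, p, ?_, ?_, ?_⟩
  · intro g v
    rw [LinearMap.sum_apply, LinearMap.sum_apply, map_sum]
    rw [← Equiv.sum_comp (MulAction.toPerm g)]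
    refine Finset.sum_congr rfl fun x _ => ?_
    rw [hTg]
    rfl
  · intro g x
    have h1 : p ∘ₗ (Representation.ind H.subtype (ρ.comp H.subtype) g) = ρ g ∘ₗ p := by
      apply hig_ext
      intro h a
      change p (Representation.ind H.subtype (ρ.comp H.subtype) g
        (Representation.IndV.mk H.subtype (ρ.comp H.subtype) h a)) =
        ρ g (p (Representation.IndV.mk H.subtype (ρ.comp H.subtype) h a))
      rw [Representation.ind_mk, hp, hp, mul_inv_rev, inv_inv, map_mul]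
      rfl
    exact LinearMap.congr_fun h1 x
  · ext v
    rw [LinearMap.comp_apply, LinearMap.sum_apply, map_sum]
    have h1 : ∀ x, p (T' x v) = Φ x v := by
      intro x
      obtain ⟨h, rfl⟩ := QuotientGroup.mk_surjective x
      rw [hT', ← hφ]
      change p (Representation.IndV.mk H.subtype (ρ.comp H.subtype) h⁻¹ (φ (ρ h⁻¹ v))) =
        ρ h (φ (ρ h⁻¹ v))
      rw [hp, inv_inv]
    rw [Finset.sum_congr rfl fun x _ => h1 x, ← LinearMap.sum_apply, hsum]
    rfl

end SPV
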