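import Pool.Agent.SPV.Rk

/-!
# SPV / LP0 : Lemma P for k = 0 and additivity
-/

namespace SPV

variable {F G V : Type*} [Field F] [Group G] [AddCommGroup V] [Module F V]
  [FiniteDimensional F V]

/-- The data of Lemma P: an idempotent `f` commuting with the 2-group `P`, a `P`-equivariant
family `φ : X → End V` in the corner of `f` with sum `f`, all `P`-orbits on `X` of size divisible
by `2 ^ k`, and a transversal `S` of the `P`-orbits of size exactly `2 ^ k`. -/
structure PData {X : Type*} [MulAction G X] [Fintype X] (ρ : Representation F G V)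
    (P : Subgroup G) (k : ℕ) (f : Module.End F V) (φ : X → Module.End F V) (S : Finset X) :
    Prop where
  idem : f * f = f
  cm : Cm ρ P f
  eqv : ∀ p ∈ P, ∀ x, ρ p * φ x * ρ p⁻¹ = φ (p • x)
  l : ∀ x, f * φ x = φ x
  r : ∀ x, φ x * f = φ x
  sum : ∑ x, φ x = f
  orb : ∀ x : X, 2 ^ k ∣ Nat.card (MulAction.orbit P x)
  hS : ∀ s ∈ S, Nat.card (MulAction.orbit P s) = 2 ^ k
  hS' : ∀ x : X, Nat.card (MulAction.orbit P x) = 2 ^ k → ∃! s, s ∈ S ∧ s ∈ MulAction.orbit P x

/-- Lemma P for `k = 0`.

Sketch.  `(rk f : F) = trace f = ∑ x, trace (φ x)`.  `x ↦ trace (φ x)` is constant on `P`-orbits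
(`trace_conj`), the orbits of size `> 1` have even size (`IsPGroup.card_orbit`), so they
contribute `0` in characteristic 2; the orbits of size 1 are the fixed points and `S` is exactly
the set of fixed points. -/
theorem PData.zero [Finite G] [CharP F 2] {X : Type*} [MulAction G X] [Fintype X]
    {ρ : Representation F G V} {P : Subgroup G} (hP : IsPGroup 2 P) {f : Module.End F V}
    {φ : X → Module.End F V} {S : Finset X} (h : PData ρ P 0 f φ S) :
    (rk f : F) = ∑ s ∈ S, LinearMap.trace F V (φ s) := by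
  classical
  have : Fact (Nat.Prime 2) := ⟨Nat.prime_two⟩
  set t : X → F := fun x => LinearMap.trace F V (φ x) with ht
  have hinv : ∀ x, ∀ y ∈ MulAction.orbit P x, t y = t x := by
    rintro x y ⟨p, rfl⟩
    have h1 := h.eqv p p.2 x
    change LinearMap.trace F V (φ ((p : G) • x)) = LinearMap.trace F V (φ x)
    rw [← h1, trace_conj]
  rw [← trace_idem h.idem, ← h.sum, map_sum]
  have hSub : ∀ s ∈ S, Nat.card (MulAction.orbit P s) = 1 := fun s hs => by
    simpa using h.hS s hs
  have hmem : ∀ x, Nat.card (MulAction.orbit P x) = 1 → x ∈ S := by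
    intro x hx
    obtain ⟨s, ⟨hs, hso⟩, _⟩ := h.hS' x (by simpa using hx)
    have hsx : s = x := by
      have hfin := Nat.card_eq_one_iff_unique.1 hx
      have := hfin.1
      have := Subsingleton.elim (⟨s, hso⟩ : MulAction.orbit P x) ⟨x, MulAction.mem_orbit_self x⟩
      simpa using congrArg Subtype.val this
    rwa [hsx] at hs
  have hsplit : ∑ x, t x = ∑ x ∈ S, t x + ∑ x ∈ Finset.univ \ S, t x := by
    rw [add_comm, Finset.sum_sdiff (Finset.subset_univ S)]
  change ∑ x, t x = ∑ s ∈ S, t s
  rw [hsplit]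
  suffices hz : ∑ x ∈ Finset.univ \ S, t x = 0 by rw [hz, add_zero]
  have hq : ∑ x ∈ Finset.univ \ S, t x =
      ∑ ω : Quotient (MulAction.orbitRel P X), ∑ x ∈ (Finset.univ \ S).filter
        (fun x => Quotient.mk (MulAction.orbitRel P X) x = ω), t x :=
    (Finset.sum_fiberwise _ _ _).symm
  rw [hq]
  refine Finset.sum_eq_zero fun ω _ => ?_
  rcases Finset.eq_empty_or_nonempty ((Finset.univ \ S).filter
        (fun x => Quotient.mk (MulAction.orbitRel P X) x = ω)) with he | ⟨x0, hx0⟩
  · rw [he, Finset.sum_empty]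
  · rw [Finset.mem_filter, Finset.mem_sdiff] at hx0
    obtain ⟨⟨_, hx0S⟩, rfl⟩ := hx0
    have hset : (Finset.univ \ S).filter (fun x => Quotient.mk (MulAction.orbitRel P X) x =
        Quotient.mk (MulAction.orbitRel P X) x0) = (MulAction.orbit P x0).toFinset := by
      ext y
      rw [Finset.mem_filter, Finset.mem_sdiff, Set.mem_toFinset]
      constructor
      · rintro ⟨_, hy⟩
        exact Quotient.exact hy
      · intro hy
        refine ⟨⟨Finset.mem_univ _, fun hyS => ?_⟩, Quotient.sound hy⟩
        have h1 : MulAction.orbit P y = MulAction.orbit P x0 := MulAction.orbit_eq_iff.2 hy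
        have h2 := hSub y hyS
        rw [h1] at h2
        exact hx0S (hmem x0 h2)
    rw [hset]
    have hconst : ∑ x ∈ (MulAction.orbit P x0).toFinset, t x =
        ∑ _x ∈ (MulAction.orbit P x0).toFinset, t x0 :=
      Finset.sum_congr rfl fun y hy => hinv x0 y (Set.mem_toFinset.1 hy)
    rw [hconst, Finset.sum_const, Set.toFinset_card, ← Nat.card_eq_fintype_card]
    obtain ⟨n, hn⟩ := hP.card_orbit x0
    have hn0 : n ≠ 0 := by
      rintro rfl
      exact hx0S (hmem x0 (by simpa using hn))
    obtain ⟨n', rfl⟩ := Nat.exists_eq_succ_of_ne_zero hn0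
    rw [hn, nsmul_eq_mul, Nat.cast_pow, Nat.cast_ofNat, CharTwo.two_eq_zero, zero_pow (by simp),
      zero_mul]

/-- Restriction of the data to a `P`-invariant orthogonal summand `e` of `f = e + e'`:
the family `e φ e`. -/
theorem PData.restrict {X : Type*} [MulAction G X] [Fintype X]
    {ρ : Representation F G V} {P : Subgroup G} {k : ℕ} {e e' : Module.End F V}
    {φ : X → Module.End F V} {S : Finset X} (he : e * e = e) (h1 : e * e' = 0)
    (h2 : e' * e = 0) (hc : Cm ρ P e) (h : PData ρ P k (e + e') φ S) :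
    PData ρ P k e (fun x => e * φ x * e) S := by
  refine ⟨he, hc, ?_, ?_, ?_, ?_, h.orb, h.hS, h.hS'⟩
  · intro p hp x
    have h3 := hc p hp
    have h4 := hc p⁻¹ (P.inv_mem hp)
    change ρ p * (e * φ x * e) * ρ p⁻¹ = e * φ (p • x) * e
    rw [← h.eqv p hp x]
    calc ρ p * (e * φ x * e) * ρ p⁻¹ = (ρ p * e) * φ x * (e * ρ p⁻¹) := by
          simp only [mul_assoc]
      _ = (e * ρ p) * φ x * (ρ p⁻¹ * e) := by rw [h3, h4]
      _ = e * (ρ p * φ x * ρ p⁻¹) * e := by simp only [mul_assoc]
  · intro x
    change e * (e * φ x * e) = e * φ x * e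
    rw [← mul_assoc, ← mul_assoc, he]
  · intro x
    change e * φ x * e * e = e * φ x * e
    rw [mul_assoc (e * φ x), he]
  · rw [← Finset.sum_mul, ← Finset.mul_sum, h.sum, mul_add, he, h1, add_zero, he]

/-- the traces add up: `tr φ = tr (e φ e) + tr (e' φ e')` if `φ` is in the corner of the sum
`e + e'` of two orthogonal idempotents. -/
theorem trace_corner_add {e e' a : Module.End F V} (he : e * e = e) (he' : e' * e' = e')
    (h1 : e * e' = 0) (h2 : e' * e = 0) (hl : (e + e') * a = a) (hr : a * (e + e') = a) :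
    LinearMap.trace F V a =
      LinearMap.trace F V (e * a * e) + LinearMap.trace F V (e' * a * e') := by
  have h3 : ∀ x : Module.End F V, x * x = x →
      LinearMap.trace F V (x * a * x) = LinearMap.trace F V (x * a) := by
    intro x hx
    rw [LinearMap.trace_mul_comm, ← mul_assoc, hx]
  rw [h3 e he, h3 e' he', ← map_add, ← add_mul, hl]

end SPV
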