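import Pool.Agent.SPV.D1

/-!
# SPV / Mxs : proper subgroups of a 2-group lie in subgroups of index two
-/

namespace SPV

variable {G : Type*} [Group G]

/-- Sketch.  `card P = 2 ^ n`, `card R = 2 ^ m` with `m < n`.  By
`Sylow.exists_subgroup_card_pow_prime_le` applied to the group `↥P` and `R.subgroupOf P` there is
a subgroup `K` of `P` of card `2 ^ (n-1)` containing `R`; `P₁ = K.map P.subtype`.  It has index 2
in `P`, so any `y ∈ P \ P₁` satisfies `P = P₁ ∪ y P₁` (`Subgroup.mul_mem_iff_of_index_two`). -/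
theorem exists_half [Finite G] {P R : Subgroup G} (hP : IsPGroup 2 P) (hR : R ≤ P)
    (hne : R ≠ P) : ∃ (P₁ : Subgroup G) (y : G), Half P P₁ y ∧ R ≤ P₁ := by
  classical
  have : Fact (Nat.Prime 2) := ⟨Nat.prime_two⟩
  obtain ⟨n, hn⟩ := IsPGroup.iff_card.1 hP
  obtain ⟨m, hm⟩ := IsPGroup.iff_card.1 (hP.to_subgroup (R.subgroupOf P))
  have hle : Nat.card (R.subgroupOf P) ∣ Nat.card P := Subgroup.card_subgroup_dvd_card _
  have hlt : m < n := by
    have h1 : m ≤ n := by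
      rw [hn, hm] at hle
      exact (Nat.pow_dvd_pow_iff_le_right (by norm_num)).1 hle
    refine lt_of_le_of_ne h1 ?_
    rintro rfl
    have h2 : R.subgroupOf P = ⊤ := by
      apply Subgroup.eq_top_of_card_eq
      rw [hm, hn]
    rw [Subgroup.subgroupOf_eq_top] at h2
    exact hne (le_antisymm hR h2)
  obtain ⟨K, hK, hRK⟩ := Sylow.exists_subgroup_card_pow_prime_le (G := P) 2
    (n := m) (m := n - 1) (by
      rw [hn]
      exact pow_dvd_pow 2 (Nat.sub_le n 1)) (R.subgroupOf P) hm (by omega)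
  have hidx : K.index = 2 := by
    have h1 := K.card_mul_index
    rw [hK, hn] at h1
    obtain ⟨n', rfl⟩ : ∃ n', n = n' + 1 := ⟨n - 1, by omega⟩
    rw [Nat.add_sub_cancel, pow_succ] at h1
    exact Nat.eq_of_mul_eq_mul_left (by positivity) h1
  have hKt : K ≠ ⊤ := by
    rintro rfl
    rw [Subgroup.index_top] at hidx
    omega
  obtain ⟨y, hy⟩ : ∃ y : P, y ∉ K := by
    by_contra hcon
    push Not at hcon
    exact hKt (eq_top_iff.2 fun x _ => hcon x)
  refine ⟨K.map P.subtype, y, ⟨Subgroup.map_subtype_le K, y.2, ?_, ?_⟩, ?_⟩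
  · rintro ⟨z, hz, hzy⟩
    exact hy (by rwa [← Subtype.ext hzy])
  · intro p hp hp1
    have hpK : (⟨p, hp⟩ : P) ∉ K := fun h => hp1 ⟨⟨p, hp⟩, h, rfl⟩
    have h1 : y⁻¹ * (⟨p, hp⟩ : P) ∈ K := by
      rw [Subgroup.mul_mem_iff_of_index_two hidx, inv_mem_iff]
      exact ⟨fun h => absurd h hy, fun h => absurd h hpK⟩
    exact ⟨_, h1, rfl⟩
  · intro r hr
    exact ⟨⟨r, hR hr⟩, hRK (by rw [Subgroup.mem_subgroupOf]; exact hr), rfl⟩

/-- two subgroups of index two with `Q ≤ P₁` are equal. -/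
theorem Half.eq_of_le [Finite G] {H P₁ Q : Subgroup G} {y t : G} (h : Half H P₁ y)
    (h' : Half H Q t) (hle : Q ≤ P₁) : Q = P₁ := by
  refine le_antisymm hle fun p hp => ?_
  by_contra hpQ
  have h1 := hle (h'.cov p (h.le hp) hpQ)
  have ht : t ∈ P₁ := by
    have h2 := P₁.mul_mem hp (P₁.inv_mem h1)
    rwa [mul_inv_rev, inv_inv, mul_inv_cancel_left] at h2
  have h3 := hle (h'.cov y h.mem fun hy => h.nmem (hle hy))
  have h4 := P₁.mul_mem ht h3
  rw [mul_inv_cancel_left] at h4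
  exact h.nmem h4

end SPV
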