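import Pool.Agent.SPV.LP0
import Pool.Agent.SPV.Mxs

/-!
# SPV / LP1 : transversals for a subgroup of index two (pure group actions)
-/

namespace SPV

variable {G : Type*} [Group G]

private theorem lp1_mem {X : Type*} [MulAction G X] {K : Subgroup G} {x z : X} :
    z ∈ MulAction.orbit K x ↔ ∃ p ∈ K, p • x = z := by
  constructor
  · rintro ⟨p, hp⟩
    exact ⟨p, p.2, hp⟩
  · rintro ⟨p, hp, hx⟩
    exact ⟨⟨p, hp⟩, hx⟩

private theorem lp1_union {X : Type*} [MulAction G X] {P P₁ : Subgroup G} {y : G}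
    (hh : Half P P₁ y) (x : X) :
    MulAction.orbit P x =
      MulAction.orbit P₁ x ∪ (fun z => y • z) '' (MulAction.orbit P₁ x) := by
  ext z
  rw [Set.mem_union, Set.mem_image, lp1_mem, lp1_mem]
  constructor
  · rintro ⟨p, hp, rfl⟩
    by_cases h1 : p ∈ P₁
    · exact Or.inl ⟨p, h1, rfl⟩
    · refine Or.inr ⟨(y⁻¹ * p) • x, lp1_mem.2 ⟨_, hh.cov p hp h1, rfl⟩, ?_⟩
      show y • (y⁻¹ * p) • x = p • x
      rw [mul_smul, smul_inv_smul]
  · rintro (⟨p, hp, rfl⟩ | ⟨w, hw, rfl⟩)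
    · exact ⟨p, hh.le hp, rfl⟩
    · rw [lp1_mem] at hw
      obtain ⟨p, hp, rfl⟩ := hw
      exact ⟨y * p, P.mul_mem hh.mem (hh.le hp), mul_smul y p x⟩

private theorem lp1_le {X : Type*} [MulAction G X] [Finite X] {P P₁ : Subgroup G} {y : G}
    (hh : Half P P₁ y) (x : X) :
    Nat.card (MulAction.orbit P x) ≤ 2 * Nat.card (MulAction.orbit P₁ x) := by
  rw [Nat.card_coe_set_eq, Nat.card_coe_set_eq, lp1_union hh x]
  refine (Set.ncard_union_le _ _).trans ?_
  rw [Set.ncard_image_of_injective _ (MulAction.injective y)]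
  omega

private theorem lp1_eq {X : Type*} [MulAction G X] [Finite X] {P P₁ : Subgroup G} {y : G}
    (hh : Half P P₁ y) (x : X) (hst : ∀ p ∈ P, p • x = x → p ∈ P₁) :
    Nat.card (MulAction.orbit P x) = 2 * Nat.card (MulAction.orbit P₁ x) := by
  have hdis : Disjoint (MulAction.orbit P₁ x)
      ((fun z => y • z) '' (MulAction.orbit P₁ x)) := by
    rw [Set.disjoint_left]
    rintro z hz ⟨w, hw, hwz⟩
    rw [lp1_mem] at hz hw
    obtain ⟨p, hp, rfl⟩ := hz
    obtain ⟨q, hq, rfl⟩ := hw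
    have h1 : (p⁻¹ * (y * q)) • x = x := by
      have hwz' : y • q • x = p • x := hwz
      rw [mul_smul, mul_smul, hwz', inv_smul_smul]
    have h2 := hst _ (P.mul_mem (P.inv_mem (hh.le hp)) (P.mul_mem hh.mem (hh.le hq))) h1
    apply hh.nmem
    have h3 := P₁.mul_mem (P₁.mul_mem hp h2) (P₁.inv_mem hq)
    have h4 : p * (p⁻¹ * (y * q)) * q⁻¹ = y := by group
    rwa [h4] at h3
  rw [Nat.card_coe_set_eq, Nat.card_coe_set_eq, lp1_union hh x,
    Set.ncard_union_eq hdis (Set.toFinite _) (Set.toFinite _),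
    Set.ncard_image_of_injective _ (MulAction.injective y)]
  omega

private theorem lp1_stab {X : Type*} [MulAction G X] [Finite X] {P P₁ : Subgroup G} {y : G}
    (hh : Half P P₁ y) (x : X)
    (hc : Nat.card (MulAction.orbit P x) = 2 * Nat.card (MulAction.orbit P₁ x)) :
    ∀ p ∈ P, p • x = x → p ∈ P₁ := by
  intro p hp hpx
  by_contra h1
  have h2 := hh.cov p hp h1
  -- then the two halves coincide
  have hsub : (fun z => y • z) '' (MulAction.orbit P₁ x) ⊆ MulAction.orbit P₁ x := by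
    rintro _ ⟨w, hw, rfl⟩
    rw [lp1_mem] at hw
    obtain ⟨q, hq, rfl⟩ := hw
    rw [lp1_mem]
    refine ⟨y * (q * (y⁻¹ * p)⁻¹) * y⁻¹, hh.norm (P₁.mul_mem hq (P₁.inv_mem h2)), ?_⟩
    have h3 : y * (q * (y⁻¹ * p)⁻¹) * y⁻¹ = y * q * p⁻¹ := by group
    have h4 : p⁻¹ • x = x := by
      conv_lhs => rw [← hpx]
      rw [inv_smul_smul]
    show (y * (q * (y⁻¹ * p)⁻¹) * y⁻¹) • x = y • q • x
    rw [h3, mul_smul, h4, mul_smul]
  rw [Nat.card_coe_set_eq, Nat.card_coe_set_eq, lp1_union hh x,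
    Set.union_eq_self_of_subset_right hsub] at hc
  have h5 : (MulAction.orbit P₁ x).ncard ≠ 0 :=
    (Set.ncard_pos (Set.toFinite _)).2 ⟨x, MulAction.mem_orbit_self x⟩ |>.ne'
  omega

/-- Sketch.  `P` a finite 2-group acting on `X`, `P = P₁ ∪ y P₁`.  If all `P`-orbits have size
divisible by `2 ^ (k+1)`, all `P₁`-orbits have size divisible by `2 ^ k`
(`|P₁ x| ∈ {|P x|, |P x| / 2}`). -/
theorem orb_half [Finite G] {X : Type*} [MulAction G X] [Finite X] {P P₁ : Subgroup G} {y : G}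
    (hP : IsPGroup 2 P) (hh : Half P P₁ y) {k : ℕ}
    (horb : ∀ x : X, 2 ^ (k + 1) ∣ Nat.card (MulAction.orbit P x)) (x : X) :
    2 ^ k ∣ Nat.card (MulAction.orbit P₁ x) := by
  have hP₁ : IsPGroup 2 P₁ := hP.to_le hh.le
  have : Fact (Nat.Prime 2) := ⟨Nat.prime_two⟩
  obtain ⟨b, hb⟩ := hP.card_orbit x
  obtain ⟨a, ha⟩ := hP₁.card_orbit x
  have h1 := horb x
  have h2 := lp1_le hh x
  rw [hb] at h1 h2
  rw [ha] at h2 ⊢
  have h3 : k + 1 ≤ b := (Nat.pow_dvd_pow_iff_le_right (by norm_num)).1 h1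
  have h4 : b ≤ a + 1 := by
    have h5 : 2 ^ b ≤ 2 ^ (a + 1) := by rw [pow_succ]; omega
    exact (Nat.pow_le_pow_iff_right (by norm_num)).1 h5
  exact pow_dvd_pow 2 (by omega)

open Classical in
/-- The new transversal: `S₁ = {s ∈ S | stab_P s ≤ P₁}` and `S' = S₁ ∪ y S₁`.

Sketch.  For `s ∈ S₁`, `|P₁ s| = |P₁| / |stab_P s| = 2 ^ k` and `P₁ (y s) = y P₁ s`.  Conversely
if `|P₁ x| = 2 ^ k` then `|P x| ≤ 2 ^ (k+1)`, so `|P x| = 2 ^ (k+1)`, `stab_P x ≤ P₁`; the unique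
`s ∈ S` in `P x` has `stab_P s` conjugate to `stab_P x`, so `≤ P₁` (`P₁` is normal in `P`), and
`P x = P₁ s ⊔ P₁ (y s)` (disjoint), so exactly one of `s`, `y s` lies in `P₁ x`. -/
theorem transversal_half [Finite G] {X : Type*} [MulAction G X] [Finite X]
    {P P₁ : Subgroup G} {y : G}
    (hP : IsPGroup 2 P) (hh : Half P P₁ y) {k : ℕ}
    (horb : ∀ x : X, 2 ^ (k + 1) ∣ Nat.card (MulAction.orbit P x)) (S : Finset X)
    (hS : ∀ s ∈ S, Nat.card (MulAction.orbit P s) = 2 ^ (k + 1))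
    (hS' : ∀ x : X, Nat.card (MulAction.orbit P x) = 2 ^ (k + 1) →
      ∃! s, s ∈ S ∧ s ∈ MulAction.orbit P x) :
    let S₁ := S.filter (fun s => ∀ p ∈ P, p • s = s → p ∈ P₁)
    let S' := S₁ ∪ S₁.image (fun s => y • s)
    (∀ s ∈ S', Nat.card (MulAction.orbit P₁ s) = 2 ^ k) ∧
    (∀ x : X, Nat.card (MulAction.orbit P₁ x) = 2 ^ k →
      ∃! s, s ∈ S' ∧ s ∈ MulAction.orbit P₁ x) ∧
    Disjoint S₁ (S₁.image (fun s => y • s)) := by
  intro S₁ S'
  have hS₁ : ∀ s, s ∈ S₁ ↔ s ∈ S ∧ ∀ p ∈ P, p • s = s → p ∈ P₁ := by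
    intro s
    exact Finset.mem_filter
  have hcS : ∀ s ∈ S₁, Nat.card (MulAction.orbit P₁ s) = 2 ^ k := by
    intro s hs
    rw [hS₁] at hs
    have h1 := lp1_eq hh s hs.2
    rw [hS s hs.1, pow_succ] at h1
    omega
  have horby : ∀ s : X, MulAction.orbit P₁ (y • s) = (fun z => y • z) '' (MulAction.orbit P₁ s) := by
    intro s
    ext z
    rw [lp1_mem, Set.mem_image]
    constructor
    · rintro ⟨p, hp, rfl⟩
      refine ⟨(y⁻¹ * p * y) • s, lp1_mem.2 ⟨_, hh.norm' hp, rfl⟩, ?_⟩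
      show y • (y⁻¹ * p * y) • s = p • y • s
      rw [smul_smul, smul_smul]
      congr 1
      group
    · rintro ⟨w, hw, rfl⟩
      rw [lp1_mem] at hw
      obtain ⟨p, hp, rfl⟩ := hw
      refine ⟨y * p * y⁻¹, hh.norm hp, ?_⟩
      show (y * p * y⁻¹) • y • s = y • p • s
      rw [smul_smul, smul_smul]
      congr 1
      group
  refine ⟨?_, ?_, ?_⟩
  · intro s hs
    rcases Finset.mem_union.1 hs with h1 | h1
    · exact hcS s h1
    · obtain ⟨w, hw, rfl⟩ := Finset.mem_image.1 h1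
      rw [horby w, Nat.card_coe_set_eq, Set.ncard_image_of_injective _ (MulAction.injective y),
        ← Nat.card_coe_set_eq]
      exact hcS w hw
  · intro x hx
    have h1 := lp1_le hh x
    have h2 := horb x
    have hne : Nat.card (MulAction.orbit P x) ≠ 0 := by
      have : Nonempty (MulAction.orbit P x) := ⟨⟨x, MulAction.mem_orbit_self x⟩⟩
      exact Nat.card_pos.ne'
    have h3 := Nat.le_of_dvd (Nat.pos_of_ne_zero hne) h2
    have hcard : Nat.card (MulAction.orbit P x) = 2 ^ (k + 1) := by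
      rw [hx] at h1
      rw [pow_succ] at h3 ⊢
      omega
    have hstx : ∀ p ∈ P, p • x = x → p ∈ P₁ := by
      apply lp1_stab hh x
      rw [hcard, hx, pow_succ]
      omega
    obtain ⟨s, ⟨hsS, hsx⟩, huniq⟩ := hS' x hcard
    have hsx' := hsx
    rw [lp1_mem] at hsx'
    obtain ⟨q, hq, hqs⟩ := hsx'
    have hnorm : ∀ g ∈ P, ∀ p ∈ P₁, g * p * g⁻¹ ∈ P₁ := by
      intro g hg p hp
      by_cases hg1 : g ∈ P₁
      · exact P₁.mul_mem (P₁.mul_mem hg1 hp) (P₁.inv_mem hg1)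
      · exact (hh.change hg hg1).norm hp
    have hs₁ : s ∈ S₁ := by
      rw [hS₁]
      refine ⟨hsS, fun p hp hps => ?_⟩
      have h4 : (q⁻¹ * p * q) • x = x := by
        rw [mul_smul, hqs, mul_smul, hps, ← hqs, inv_smul_smul]
      have h5 := hstx _ (P.mul_mem (P.mul_mem (P.inv_mem hq) hp) hq) h4
      have h6 := hnorm q hq _ h5
      have h7 : q * (q⁻¹ * p * q) * q⁻¹ = p := by group
      rwa [h7] at h6
    have hstS : ∀ p ∈ P, p • s = s → p ∈ P₁ := ((hS₁ s).1 hs₁).2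
    have huS : ∀ s', s' ∈ S₁ → s' ∈ MulAction.orbit P x → s' = s := fun s' h4 h5 =>
      huniq s' ⟨((hS₁ s').1 h4).1, h5⟩
    have hsub : ∀ z, z ∈ MulAction.orbit P₁ x → z ∈ MulAction.orbit P x := by
      intro z hz
      rw [lp1_mem] at hz ⊢
      obtain ⟨p, hp, h⟩ := hz
      exact ⟨p, hh.le hp, h⟩
    -- not both `s` and `y • s`
    have hnot : ¬ (s ∈ MulAction.orbit P₁ x ∧ y • s ∈ MulAction.orbit P₁ x) := by
      rintro ⟨h4, h5⟩
      rw [lp1_mem] at h4 h5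
      obtain ⟨p, hp, h4⟩ := h4
      obtain ⟨p', hp', h5⟩ := h5
      have h6 : (p * (p'⁻¹ * y)) • s = s := by
        rw [mul_smul, mul_smul, ← h5, inv_smul_smul, h4]
      have h7 := hstS _ (P.mul_mem (hh.le hp) (P.mul_mem (P.inv_mem (hh.le hp')) hh.mem)) h6
      apply hh.nmem
      have h8 := P₁.mul_mem hp' (P₁.mul_mem (P₁.inv_mem hp) h7)
      have h9 : p' * (p⁻¹ * (p * (p'⁻¹ * y))) = y := by group
      rwa [h9] at h8
    have hcase : ∀ s', s' ∈ S' → s' ∈ MulAction.orbit P₁ x → s' = s ∨ s' = y • s := by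
      intro s' h4 h5
      rcases Finset.mem_union.1 h4 with h6 | h6
      · exact Or.inl (huS s' h6 (hsub _ h5))
      · obtain ⟨w, hw, rfl⟩ := Finset.mem_image.1 h6
        right
        have h7 : w ∈ MulAction.orbit P x := by
          have h8 := hsub _ h5
          rw [lp1_mem] at h8 ⊢
          obtain ⟨p, hp, h8⟩ := h8
          refine ⟨y⁻¹ * p, P.mul_mem (P.inv_mem hh.mem) hp, ?_⟩
          rw [mul_smul, h8, inv_smul_smul]
        rw [huS w hw h7]
    have hex : s ∈ MulAction.orbit P₁ x ∨ y • s ∈ MulAction.orbit P₁ x := by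
      have h4 : x ∈ MulAction.orbit P s := by
        rw [lp1_mem]
        refine ⟨q⁻¹, P.inv_mem hq, ?_⟩
        rw [← hqs, inv_smul_smul]
      rw [lp1_union hh s, ← horby s] at h4
      rcases h4 with h4 | h4
      · left
        exact MulAction.mem_orbit_symm.1 h4
      · right
        exact MulAction.mem_orbit_symm.1 h4
    rcases hex with h4 | h4
    · refine ⟨s, ⟨Finset.mem_union_left _ hs₁, h4⟩, ?_⟩
      rintro s' ⟨h5, h6⟩
      rcases hcase s' h5 h6 with h7 | h7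
      · exact h7
      · exact absurd ⟨h4, h7 ▸ h6⟩ hnot
    · refine ⟨y • s, ⟨Finset.mem_union_right _ (Finset.mem_image.2 ⟨s, hs₁, rfl⟩), h4⟩, ?_⟩
      rintro s' ⟨h5, h6⟩
      rcases hcase s' h5 h6 with h7 | h7
      · exact absurd ⟨h7 ▸ h6, h4⟩ hnot
      · exact h7
  · rw [Finset.disjoint_left]
    intro s hs hs'
    obtain ⟨w, hw, hws⟩ := Finset.mem_image.1 hs'
    have hs1 := (hS₁ s).1 hs
    have hw1 := (hS₁ w).1 hw
    have hws' : y • w = s := hws
    obtain ⟨t, -, ht⟩ := hS' w (hS w hw1.1)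
    have h1 : s = t := ht s ⟨hs1.1, lp1_mem.2 ⟨y, hh.mem, hws'⟩⟩
    have h2 : w = t := ht w ⟨hw1.1, MulAction.mem_orbit_self w⟩
    apply hh.nmem
    apply hs1.2 y hh.mem
    rw [h1, ← h2, hws', h1, ← h2]

end SPV
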