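import Pool.Agent.SPV.LmP

/-!
# SPV / LmG : Lemma G (Green's dimension theorem with the trace)
-/

namespace SPV

variable {F G V : Type*} [Field F] [Group G] [AddCommGroup V] [Module F V]
  [FiniteDimensional F V]

private theorem lmg_orb [Finite G] {P Q : Subgroup G} {c : ℕ}
    (h : Nat.card P = Nat.card Q * c) (x : G ⧸ Q) : c ∣ Nat.card (MulAction.orbit P x) := by
  obtain ⟨g, rfl⟩ := QuotientGroup.mk_surjective x
  have hmem : ∀ p : MulAction.stabilizer P ((g : G) : G ⧸ Q), g⁻¹ * ((p : P) : G) * g ∈ Q := by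
    intro p
    have h1 : (p : P) • ((g : G) : G ⧸ Q) = ((g : G) : G ⧸ Q) := p.2
    have h2 : ((((p : P) : G) * g : G) : G ⧸ Q) = ((g : G) : G ⧸ Q) := h1
    have h3 := QuotientGroup.eq.mp h2.symm
    rwa [← mul_assoc] at h3
  let f : MulAction.stabilizer P ((g : G) : G ⧸ Q) →* Q :=
    { toFun := fun p => ⟨g⁻¹ * ((p : P) : G) * g, hmem p⟩
      map_one' := by
        apply Subtype.ext
        show g⁻¹ * 1 * g = 1
        rw [mul_one, inv_mul_cancel]
      map_mul' := by
        intro a b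
        apply Subtype.ext
        show g⁻¹ * (((a : P) : G) * ((b : P) : G)) * g =
          (g⁻¹ * ((a : P) : G) * g) * (g⁻¹ * ((b : P) : G) * g)
        group }
  have hf : Function.Injective f := by
    intro a b hab
    have h1 : g⁻¹ * ((a : P) : G) * g = g⁻¹ * ((b : P) : G) * g := congrArg Subtype.val hab
    have h2 := mul_left_cancel (mul_right_cancel h1)
    exact Subtype.ext (Subtype.ext h2)
  have hd := Subgroup.card_dvd_of_injective f hf
  have ho := Nat.card_congr (MulAction.orbitProdStabilizerEquivGroup P ((g : G) : G ⧸ Q))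
  rw [Nat.card_prod, h] at ho
  obtain ⟨m, hm⟩ := hd
  rw [hm] at ho
  have hpos : 0 < Nat.card (MulAction.stabilizer P ((g : G) : G ⧸ Q)) := Nat.card_pos
  refine ⟨m, ?_⟩
  have h4 : Nat.card (MulAction.stabilizer P ((g : G) : G ⧸ Q)) *
      Nat.card (MulAction.orbit P ((g : G) : G ⧸ Q)) =
      Nat.card (MulAction.stabilizer P ((g : G) : G ⧸ Q)) * (c * m) := by
    rw [mul_comm, ho]; ring
  exact Nat.eq_of_mul_eq_mul_left hpos h4

/-- Lemma G.

Sketch.  Let `P` be a Sylow 2-subgroup of `G` (`card P = 2 ^ v`, `v = padicValNat 2 (card G)`),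
`X = G ⧸ Q`, `f = 1`, `φ = Φ`.  The stabilizer in `P` of `x = g Q` is `P ⊓ g Q g⁻¹`, of order
(a power of 2) `≤ card Q`, so every orbit of `P` has size `card P / card stab` divisible by
`2 ^ k = card P / card Q`.  Let `S` be a transversal of the orbits of size exactly `2 ^ k`.  All
traces `tr (Φ x)` are equal to `tr (Φ 1)`.  `lemmaP` gives `finrank V = 2 ^ k * d`,
`(d : F) = S.card * tr (Φ 1)`.  `S.card` is odd: `card (G ⧸ Q) = card G / card Q = 2 ^ k * odd`
is the sum of the orbit sizes (each a power of 2 divisible by `2^k`), hence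
`≡ S.card * 2 ^ k mod 2 ^ (k+1)`. -/
theorem lemmaG [Finite G] [IsAlgClosed F] [CharP F 2] {ρ : Representation F G V}
    {Q : Subgroup G} (hQ : IsPGroup 2 Q) [Fintype (G ⧸ Q)] (Φ : G ⧸ Q → Module.End F V)
    (heq : ∀ (g : G) (x : G ⧸ Q), ρ g * Φ x * ρ g⁻¹ = Φ (g • x)) (hsum : ∑ x, Φ x = 1) (k : ℕ)
    (hk : Nat.card Q * 2 ^ k = 2 ^ (padicValNat 2 (Nat.card G))) :
    ∃ d : ℕ, Module.finrank F V = 2 ^ k * d ∧
      (d : F) = LinearMap.trace F V (Φ ((1 : G) : G ⧸ Q)) := by
  classical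
  have h2p : Fact (Nat.Prime 2) := ⟨Nat.prime_two⟩
  let P0 : Sylow 2 G := default
  obtain ⟨P, hPP⟩ : ∃ P : Subgroup G, P = (P0 : Subgroup G) := ⟨_, rfl⟩
  have hP : IsPGroup 2 P := by rw [hPP]; exact P0.isPGroup'
  have hcP : Nat.card P = Nat.card Q * 2 ^ k := by
    rw [hk, hPP]
    have h1 := P0.card_eq_multiplicity
    rw [Nat.factorization_def _ Nat.prime_two] at h1
    exact h1
  have horb : ∀ x : G ⧸ Q, 2 ^ k ∣ Nat.card (MulAction.orbit P x) := lmg_orb hcP
  -- the orbits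
  have hΩ : Finite (MulAction.orbitRel.Quotient P (G ⧸ Q)) := inferInstance
  let iΩ : Fintype (MulAction.orbitRel.Quotient P (G ⧸ Q)) := Fintype.ofFinite _
  let A : Finset (MulAction.orbitRel.Quotient P (G ⧸ Q)) :=
    Finset.univ.filter (fun ω => Nat.card (MulAction.orbit P ω.out) = 2 ^ k)
  let S : Finset (G ⧸ Q) := A.map ⟨Quotient.out, Quotient.out_injective⟩
  have hcS : S.card = A.card := Finset.card_map _
  have hS : ∀ s ∈ S, Nat.card (MulAction.orbit P s) = 2 ^ k := by
    intro s hs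
    obtain ⟨ω, hω, rfl⟩ := Finset.mem_map.mp hs
    exact (Finset.mem_filter.mp hω).2
  have hS' : ∀ x : G ⧸ Q, Nat.card (MulAction.orbit P x) = 2 ^ k →
      ∃! s, s ∈ S ∧ s ∈ MulAction.orbit P x := by
    intro x hx
    have hrel : ∀ ω : MulAction.orbitRel.Quotient P (G ⧸ Q),
        ω.out ∈ MulAction.orbit P x ↔ ω = (Quotient.mk _ x : MulAction.orbitRel.Quotient P (G ⧸ Q)) := by
      intro ω
      constructor
      · intro h
        rw [← Quotient.out_eq ω]
        exact Quotient.sound h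
      · rintro rfl
        exact Quotient.exact (Quotient.out_eq (Quotient.mk _ x :
          MulAction.orbitRel.Quotient P (G ⧸ Q)))
    refine ⟨(Quotient.mk _ x : MulAction.orbitRel.Quotient P (G ⧸ Q)).out, ⟨?_, (hrel _).mpr rfl⟩, ?_⟩
    · refine Finset.mem_map.mpr ⟨_, Finset.mem_filter.mpr ⟨Finset.mem_univ _, ?_⟩, rfl⟩
      have h1 := MulAction.orbit_eq_iff.mpr ((hrel _).mpr rfl)
      rw [h1]; exact hx
    · rintro s ⟨hs, hsx⟩
      obtain ⟨ω, hω, rfl⟩ := Finset.mem_map.mp hs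
      have h1 := (hrel ω).mp hsx
      show ω.out = _
      rw [h1]
  have hdata : PData ρ P k 1 Φ S :=
    { idem := one_mul 1
      cm := Cm.one ρ P
      eqv := fun p _ x => heq p x
      l := fun x => one_mul _
      r := fun x => mul_one _
      sum := hsum
      orb := horb
      hS := hS
      hS' := hS' }
  obtain ⟨d, hd1, hd2⟩ := lemmaP k hP hdata
  refine ⟨d, by rw [← rk_one, hd1], ?_⟩
  rw [hd2]
  have htr : ∀ x : G ⧸ Q, LinearMap.trace F V (Φ x) =
      LinearMap.trace F V (Φ ((1 : G) : G ⧸ Q)) := by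
    intro x
    obtain ⟨g, rfl⟩ := QuotientGroup.mk_surjective x
    have h1 : ((g : G) : G ⧸ Q) = g • ((1 : G) : G ⧸ Q) := by
      show ((g : G) : G ⧸ Q) = ((g * 1 : G) : G ⧸ Q)
      rw [mul_one]
    rw [h1, ← heq, trace_conj]
  rw [Finset.sum_congr rfl (fun s _ => htr s), Finset.sum_const, nsmul_eq_mul]
  -- the number of orbits of minimal size is odd
  have hodd : Odd S.card := by
    have hm : Nat.card (G ⧸ Q) = ∑ ω : MulAction.orbitRel.Quotient P (G ⧸ Q),
        Nat.card (MulAction.orbit P ω.out) := by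
      rw [Nat.card_congr (MulAction.selfEquivSigmaOrbits P (G ⧸ Q)), Nat.card_sigma]
    rw [← Finset.sum_filter_add_sum_filter_not Finset.univ
      (fun ω : MulAction.orbitRel.Quotient P (G ⧸ Q) =>
        Nat.card (MulAction.orbit P ω.out) = 2 ^ k)] at hm
    have h1 : ∑ ω ∈ A, Nat.card (MulAction.orbit P ω.out) = A.card * 2 ^ k := by
      rw [Finset.sum_congr rfl (fun ω hω => (Finset.mem_filter.mp hω).2), Finset.sum_const,
        smul_eq_mul]
    have h2 : 2 ^ (k + 1) ∣ ∑ ω ∈ Finset.univ.filter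
        (fun ω : MulAction.orbitRel.Quotient P (G ⧸ Q) =>
          ¬ Nat.card (MulAction.orbit P ω.out) = 2 ^ k), Nat.card (MulAction.orbit P ω.out) := by
      refine Finset.dvd_sum (fun ω hω => ?_)
      have hne := (Finset.mem_filter.mp hω).2
      obtain ⟨n, hn⟩ := hP.card_orbit (ω.out)
      have hkd := horb ω.out
      rw [hn] at hkd hne ⊢
      have hkn : k ≤ n := (Nat.pow_dvd_pow_iff_le_right (by norm_num : 1 < 2)).mp hkd
      have hkn2 : k ≠ n := fun h => hne (by rw [h])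
      exact pow_dvd_pow 2 (by omega)
    obtain ⟨t, ht⟩ := h2
    have h3 : Nat.card (G ⧸ Q) = A.card * 2 ^ k + 2 ^ (k + 1) * t := by
      rw [hm, ← h1, ← ht]
    -- the index
    have h4 : Nat.card G = Nat.card (G ⧸ Q) * Nat.card Q := Subgroup.card_eq_card_quotient_mul_card_subgroup Q
    have hG : Nat.card G ≠ 0 := Nat.card_pos.ne'
    by_contra hodd
    rw [Nat.not_odd_iff_even, hcS] at hodd
    obtain ⟨a, ha⟩ := hodd
    have h5 : Nat.card G = 2 ^ (padicValNat 2 (Nat.card G) + 1) * (a + t) := by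
      conv_lhs => rw [h4, h3, ha]
      rw [pow_succ (2 : ℕ) (padicValNat 2 (Nat.card G)), ← hk, pow_succ]
      ring
    have h6 : 2 ^ (padicValNat 2 (Nat.card G) + 1) ∣ Nat.card G := ⟨_, h5⟩
    exact (pow_succ_padicValNat_not_dvd hG) h6
  obtain ⟨a, ha⟩ := hodd
  rw [ha]
  push_cast
  have h20 : (2 : F) = 0 := by exact_mod_cast CharP.cast_eq_zero F 2
  rw [h20]
  ring

end SPV
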