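import Pool.Agent.SPV.Grn
import Pool.Agent.SPV.Mxs

/-!
# SPV / Stp : a primitive idempotent which is a sum over a `P`-set without fixed points is
induced from a subgroup of index two
-/

namespace SPV

variable {F G V : Type*} [Field F] [Group G] [AddCommGroup V] [Module F V]
  [FiniteDimensional F V]

private theorem stp_inv {X : Type*} [MulAction G X] {ρ : Representation F G V}
    {P K : Subgroup G} (hK : K ≤ P) (φ : X → Module.End F V)
    (heq : ∀ p ∈ P, ∀ x, ρ p * φ x * ρ p⁻¹ = φ (p • x)) (T : Finset X)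
    (hT : ∀ p ∈ K, ∀ x ∈ T, p • x ∈ T) : Cm ρ K (∑ x ∈ T, φ x) := by
  apply cm_of_conj
  intro p hp
  rw [Finset.mul_sum, Finset.sum_mul]
  refine Finset.sum_bij' (fun x _ => p • x) (fun x _ => p⁻¹ • x) (fun x hx => hT p hp x hx)
    (fun x hx => hT p⁻¹ (K.inv_mem hp) x hx) (fun x _ => inv_smul_smul p x)
    (fun x _ => smul_inv_smul p x) (fun x _ => heq p (hK hp) x)

/-- Sketch.  Partition `X` into the orbits of `P` (e.g. `MulAction.orbitRel.Quotient P X`, or the
finset of all `orbit P x` as finsets).  The orbit sums `a ω = ∑ x ∈ ω, φ x` lie in the corner of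
`f` for `P` and add up to `f`, so one of them has an inverse `a'` in the corner
(`Prim.exists_unit`).  Let `x₀ ∈ ω`, `R = {p ∈ P | p • x₀ = x₀}`, a proper subgroup of `P` (`hnf`);
`exists_half` gives `P₁ ⊇ R` and `y`.  Then `ω = P₁ x₀ ⊔ y P₁ x₀` is a disjoint union
(`y p x₀ = p' x₀` would give `p'⁻¹ y p ∈ R ≤ P₁`, so `y ∈ P₁`).  Put
`b = (∑ x ∈ P₁ x₀, φ x) * a'`.  It commutes with `P₁`, lies in the corner, and
`b + ρ y b ρ y⁻¹ = a ω * a' = f`.  Now use `green`. -/
theorem step [Finite G] [IsAlgClosed F] [CharP F 2] {X : Type*} [MulAction G X] [Fintype X]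
    {ρ : Representation F G V} {P : Subgroup G} (hP : IsPGroup 2 P) {f : Module.End F V}
    (hf : Prim ρ P f) (φ : X → Module.End F V)
    (heq : ∀ p ∈ P, ∀ x, ρ p * φ x * ρ p⁻¹ = φ (p • x))
    (hl : ∀ x, f * φ x = φ x) (hr : ∀ x, φ x * f = φ x) (hsum : ∑ x, φ x = f)
    (hnf : ∀ x : X, ∃ p ∈ P, p • x ≠ x) :
    ∃ (P₁ : Subgroup G) (y : G) (e : Module.End F V), Half P P₁ y ∧ e * e = e ∧ InC ρ P₁ f e ∧
      e + ρ y * e * ρ y⁻¹ = f := by
  classical
  let _ : Fintype (MulAction.orbitRel.Quotient P X) := Fintype.ofFinite _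
  let T : MulAction.orbitRel.Quotient P X → Finset X := fun ω =>
    Finset.univ.filter (fun x => (Quotient.mk'' x : MulAction.orbitRel.Quotient P X) = ω)
  have hTmem : ∀ (x z : X), x ∈ T (Quotient.mk'' z) ↔ ∃ p ∈ P, p • z = x := by
    intro x z
    simp only [T, Finset.mem_filter, Finset.mem_univ, true_and]
    rw [Quotient.eq'', MulAction.orbitRel_apply]
    constructor
    · rintro ⟨p, hp⟩
      exact ⟨p, p.2, hp⟩
    · rintro ⟨p, hp, hx⟩
      exact ⟨⟨p, hp⟩, hx⟩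
  have hTinv : ∀ ω, ∀ p ∈ P, ∀ x ∈ T ω, p • x ∈ T ω := by
    intro ω p hp x hx
    induction ω using Quotient.inductionOn' with
    | h z =>
      rw [hTmem] at hx ⊢
      obtain ⟨q, hq, rfl⟩ := hx
      exact ⟨p * q, P.mul_mem hp hq, mul_smul p q z⟩
  have hsum' : ∑ ω, ∑ x ∈ T ω, φ x = f := by
    rw [← hsum]
    exact Finset.sum_fiberwise _ _ _
  have hcor : ∀ (T' : Finset X) (K : Subgroup G), K ≤ P → (∀ p ∈ K, ∀ x ∈ T', p • x ∈ T') →
      InC ρ K f (∑ x ∈ T', φ x) := by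
    intro T' K hK hT'
    refine ⟨stp_inv hK φ heq T' hT', ?_, ?_⟩
    · rw [Finset.mul_sum]
      exact Finset.sum_congr rfl fun x _ => hl x
    · rw [Finset.sum_mul]
      exact Finset.sum_congr rfl fun x _ => hr x
  obtain ⟨ω, -, a', ha', h1, h2⟩ := hf.exists_unit Finset.univ (fun ω => ∑ x ∈ T ω, φ x)
    (fun ω _ => hcor (T ω) P le_rfl (hTinv ω)) hsum'
  induction ω using Quotient.inductionOn' with
  | h x₀ =>
    obtain ⟨P₁, y, hh, hRP⟩ := exists_half (P := P) (R := P ⊓ MulAction.stabilizer G x₀) hP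
      inf_le_left (by
        intro hc
        obtain ⟨p, hp, hpx⟩ := hnf x₀
        rw [← hc] at hp
        exact hpx hp.2)
    let T₁ : Finset X := Finset.univ.filter (fun x => ∃ p ∈ P₁, p • x₀ = x)
    have hT₁ : ∀ x, x ∈ T₁ ↔ ∃ p ∈ P₁, p • x₀ = x := by
      intro x
      simp [T₁]
    have hT₁inv : ∀ p ∈ P₁, ∀ x ∈ T₁, p • x ∈ T₁ := by
      intro p hp x hx
      rw [hT₁] at hx ⊢
      obtain ⟨q, hq, rfl⟩ := hx
      exact ⟨p * q, P₁.mul_mem hp hq, mul_smul p q x₀⟩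
    have hunion : ∑ x ∈ T (Quotient.mk'' x₀), φ x = ∑ x ∈ T₁, φ x + ∑ x ∈ T₁, φ (y • x) := by
      have hdis : Disjoint T₁ (T₁.image (fun x => y • x)) := by
        rw [Finset.disjoint_left]
        intro x hx hx'
        rw [hT₁] at hx
        rw [Finset.mem_image] at hx'
        obtain ⟨p', hp', rfl⟩ := hx
        obtain ⟨z, hz, hzx⟩ := hx'
        rw [hT₁] at hz
        obtain ⟨p, hp, rfl⟩ := hz
        have h3 : p'⁻¹ * (y * p) ∈ P ⊓ MulAction.stabilizer G x₀ := by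
          refine ⟨P.mul_mem (P.inv_mem (hh.le hp')) (P.mul_mem hh.mem (hh.le hp)), ?_⟩
          show (p'⁻¹ * (y * p)) • x₀ = x₀
          rw [mul_smul, mul_smul, hzx, inv_smul_smul]
        have h4 := hRP h3
        apply hh.nmem
        have h5 := P₁.mul_mem (P₁.mul_mem hp' h4) (P₁.inv_mem hp)
        have h6 : p' * (p'⁻¹ * (y * p)) * p⁻¹ = y := by group
        rwa [h6] at h5
      have hset : T (Quotient.mk'' x₀) = T₁ ∪ T₁.image (fun x => y • x) := by
        ext x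
        rw [hTmem, Finset.mem_union, Finset.mem_image, hT₁]
        constructor
        · rintro ⟨p, hp, rfl⟩
          by_cases hp1 : p ∈ P₁
          · exact Or.inl ⟨p, hp1, rfl⟩
          · right
            refine ⟨(y⁻¹ * p) • x₀, (hT₁ _).2 ⟨y⁻¹ * p, hh.cov p hp hp1, rfl⟩, ?_⟩
            show y • (y⁻¹ * p) • x₀ = p • x₀
            rw [mul_smul, smul_inv_smul]
        · rintro (⟨p, hp, rfl⟩ | ⟨z, hz, rfl⟩)
          · exact ⟨p, hh.le hp, rfl⟩
          · rw [hT₁] at hz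
            obtain ⟨p, hp, rfl⟩ := hz
            exact ⟨y * p, P.mul_mem hh.mem (hh.le hp), mul_smul y p x₀⟩
      rw [hset, Finset.sum_union hdis, Finset.sum_image]
      intro u _ v _ huv
      exact smul_left_cancel y huv
    have hb := hcor T₁ P₁ hh.le hT₁inv
    obtain ⟨e, he1, he2, he3⟩ := green hh hf (b := (∑ x ∈ T₁, φ x) * a')
      ⟨hb.cm.mul (ha'.cm.mono hh.le), by rw [← mul_assoc, hb.l], by rw [mul_assoc, ha'.r]⟩ (by
        have h7 : ρ y * ((∑ x ∈ T₁, φ x) * a') * ρ y⁻¹ = (∑ x ∈ T₁, φ (y • x)) * a' := by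
          have h8 : a' * ρ y⁻¹ = ρ y⁻¹ * a' := (ha'.cm y⁻¹ (P.inv_mem hh.mem)).symm
          rw [mul_assoc, mul_assoc, h8, ← mul_assoc, ← mul_assoc, Finset.mul_sum, Finset.sum_mul]
          congr 1
          exact Finset.sum_congr rfl fun x _ => heq y hh.mem x
        rw [h7, ← add_mul, ← hunion]
        exact h1)
    exact ⟨P₁, y, e, hh, he1, he2, he3⟩

end SPV
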