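import Pool.Agent.SPV.LP1
import Pool.Agent.SPV.Stp
import Pool.Agent.SPV.Dec

/-!
# SPV / LmP : Lemma P
-/

namespace SPV

variable {F G V : Type*} [Field F] [Group G] [AddCommGroup V] [Module F V]
  [FiniteDimensional F V]

private theorem LmP_inv_mul (ρ : Representation F G V) (g : G) : ρ g⁻¹ * ρ g = 1 := by
  rw [← map_mul, inv_mul_cancel, map_one]

private theorem LmP_mul_inv (ρ : Representation F G V) (g : G) : ρ g * ρ g⁻¹ = 1 := by
  rw [← map_mul, mul_inv_cancel, map_one]

private theorem LmP_tr_corner {e a : Module.End F V} (he : e * e = e) :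
    LinearMap.trace F V (e * a * e) = LinearMap.trace F V (e * a) := by
  rw [LinearMap.trace_mul_comm, ← mul_assoc, he]

private theorem LmP_two {F : Type*} [Field F] [CharP F 2] (a : F) : a + a = 0 := by
  have h : (2 : F) = 0 := by exact_mod_cast CharP.cast_eq_zero F 2
  rw [← two_mul, h, zero_mul]

/-- Lemma P.

Sketch.  Induction on `k` (for all `P`, `f`, `φ`, `S`).  `k = 0`: `PData.zero` (`d = rk f`).
`k + 1`: by `idem_induction` for `P` (motive: the statement for all `φ`, `S`; `motive 0` is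
clear with `d = 0` as then all `φ x = 0`; for `f = e + e'` use `PData.restrict` for `e` and for
`e'`, `rk_add`, `trace_corner_add`), we may assume `f` primitive.  No `x` is fixed by `P` as the
orbit sizes are even, so `step` gives `P₁, y, e`.
Apply the induction hypothesis for `k` to `P₁`, `e`, `x ↦ e φ x e`, `S' = S₁ ∪ y S₁`
(`transversal_half`, `orb_half`; the sum is `e f e = e`; `IsPGroup 2 P₁` by `hh.le`).
`e (ρ y e ρ y⁻¹) = e (f - e) = 0`, so `rk f = rk e + rk (ρ y e ρ y⁻¹) = 2 rk e`.
Traces: for `s ∈ S₁`, `tr (e φ_{y s} e) = tr (e y φ_s y⁻¹) = tr (y⁻¹ e y φ_s) = tr ((f - e) φ_s)`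
(from `e + y e y⁻¹ = f` and `y² ∈ P₁`, `y⁻¹ e y = f - e`), so the two terms of `s`, `y s` add up
to `tr (f φ_s) = tr φ_s`.  For `s ∈ S \ S₁` there is `z ∈ P \ P₁` with `z s = s`; `ρ z` commutes
with `φ_s` and `f = e + z e z⁻¹` (as `y⁻¹ z ∈ P₁` commutes with `e`), so
`tr φ_s = tr (φ_s e) + tr (φ_s z e z⁻¹) = 2 tr (φ_s e) = 0`. -/
theorem lemmaP [Finite G] [IsAlgClosed F] [CharP F 2] {X : Type*} [MulAction G X] [Fintype X]
    {ρ : Representation F G V} (k : ℕ) {P : Subgroup G} (hP : IsPGroup 2 P)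
    {f : Module.End F V} {φ : X → Module.End F V} {S : Finset X} (h : PData ρ P k f φ S) :
    ∃ d : ℕ, rk f = 2 ^ k * d ∧ (d : F) = ∑ s ∈ S, LinearMap.trace F V (φ s) := by
  classical
  induction k generalizing P f φ S with
  | zero => exact ⟨rk f, by rw [pow_zero, one_mul], h.zero hP⟩
  | succ k ih =>
    have key := idem_induction ρ P
      (motive := fun f => ∀ (φ : X → Module.End F V) (S : Finset X), PData ρ P (k + 1) f φ S →
        ∃ d : ℕ, rk f = 2 ^ (k + 1) * d ∧ (d : F) = ∑ s ∈ S, LinearMap.trace F V (φ s))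
      ?_ ?_ ?_ f h.idem h.cm
    · exact key φ S h
    · -- zero
      intro φ S h
      refine ⟨0, by rw [rk_zero, mul_zero], ?_⟩
      rw [Nat.cast_zero]
      symm
      apply Finset.sum_eq_zero
      intro s _
      rw [← h.l s, zero_mul, map_zero]
    · -- sum
      intro e e' he he' h1 h2 hce hce' hm hm' φ S h
      obtain ⟨d, hd, hdF⟩ := hm _ _ (PData.restrict he h1 h2 hce h)
      have h' : PData ρ P (k + 1) (e' + e) φ S := by rwa [add_comm e' e]
      obtain ⟨d', hd', hdF'⟩ := hm' _ _ (PData.restrict he' h2 h1 hce' h')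
      refine ⟨d + d', by rw [rk_add he he' h1 h2, hd, hd', mul_add], ?_⟩
      rw [Nat.cast_add, hdF, hdF', ← Finset.sum_add_distrib]
      refine Finset.sum_congr rfl fun s _ => ?_
      exact (trace_corner_add he he' h1 h2 (h.l s) (h.r s)).symm
    · -- primitive
      intro f hf φ S h
      have hnf : ∀ x : X, ∃ p ∈ P, p • x ≠ x := by
        intro x
        by_contra hcon
        push Not at hcon
        have horb : MulAction.orbit P x = {x} := by
          ext z
          rw [Set.mem_singleton_iff]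
          constructor
          · rintro ⟨p, rfl⟩
            exact hcon p.1 p.2
          · rintro rfl
            exact MulAction.mem_orbit_self _
        have h1 := h.orb x
        rw [horb] at h1
        simp only [Nat.card_unique, Nat.dvd_one] at h1
        have h2 : 1 < 2 ^ (k + 1) := Nat.one_lt_two_pow (by omega)
        omega
      obtain ⟨P₁, y, e, hh, hee, heC, hey⟩ := step hP hf φ h.eqv h.l h.r h.sum hnf
      have hP₁ : IsPGroup 2 P₁ := hP.to_le hh.le
      obtain ⟨hS1, hS2, hS3⟩ := transversal_half hP hh h.orb S h.hS h.hS'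
      set S₁ := S.filter (fun s => ∀ p ∈ P, p • s = s → p ∈ P₁) with hS₁
      set S' := S₁ ∪ S₁.image (fun s => y • s) with hS'
      have hfe : f - e = ρ y * e * ρ y⁻¹ := by rw [← hey]; abel
      have hef : e * f = e := heC.r
      have hfe' : f * e = e := heC.l
      have hD : PData ρ P₁ k e (fun x => e * φ x * e) S' := by
        refine ⟨hee, heC.cm, ?_, ?_, ?_, ?_, ?_, ?_, ?_⟩
        · intro p hp x
          have e1 : ρ p * e = e * ρ p := heC.cm p hp
          have e2 : ρ p⁻¹ * e = e * ρ p⁻¹ := heC.cm p⁻¹ (P₁.inv_mem hp)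
          have e3 := h.eqv p (hh.le hp) x
          show ρ p * (e * φ x * e) * ρ p⁻¹ = e * φ (p • x) * e
          rw [← e3]
          calc ρ p * (e * φ x * e) * ρ p⁻¹ = (ρ p * e) * φ x * (e * ρ p⁻¹) := by
                simp only [mul_assoc]
            _ = (e * ρ p) * φ x * (ρ p⁻¹ * e) := by rw [e1, e2]
            _ = e * (ρ p * φ x * ρ p⁻¹) * e := by simp only [mul_assoc]
        · intro x
          show e * (e * φ x * e) = e * φ x * e
          rw [← mul_assoc, ← mul_assoc, hee]
        · intro x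
          show e * φ x * e * e = e * φ x * e
          rw [mul_assoc, hee]
        · show ∑ x, e * φ x * e = e
          rw [← Finset.sum_mul, ← Finset.mul_sum, h.sum, hef, hee]
        · intro x
          exact orb_half hP hh h.orb x
        · exact hS1
        · exact hS2
      obtain ⟨d, hd, hdF⟩ := ih hP₁ hD
      have hidem' : (ρ y * e * ρ y⁻¹) * (ρ y * e * ρ y⁻¹) = ρ y * e * ρ y⁻¹ := by
        calc (ρ y * e * ρ y⁻¹) * (ρ y * e * ρ y⁻¹) = ρ y * e * (ρ y⁻¹ * ρ y) * e * ρ y⁻¹ := by
              simp only [mul_assoc]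
          _ = ρ y * (e * e) * ρ y⁻¹ := by rw [LmP_inv_mul]; simp only [mul_assoc, mul_one, one_mul]
          _ = _ := by rw [hee]
      have ho1 : e * (ρ y * e * ρ y⁻¹) = 0 := by
        rw [← hfe, mul_sub, hef, hee, sub_self]
      have ho2 : (ρ y * e * ρ y⁻¹) * e = 0 := by
        rw [← hfe, sub_mul, hfe', hee, sub_self]
      have hrk : rk f = 2 ^ (k + 1) * d := by
        rw [← hey, rk_add hee hidem' ho1 ho2, rk_conj, hd, pow_succ]
        ring
      refine ⟨d, hrk, ?_⟩
      rw [hdF, hS', Finset.sum_union hS3, Finset.sum_image (fun a _ b _ hab =>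
        MulAction.injective y hab), ← Finset.sum_add_distrib]
      -- y⁻¹ e y = f - e
      have hy2 : ρ y⁻¹ * e * ρ y = f - e := by
        have hfy : ρ y * f = f * ρ y := hf.cm y hh.mem
        have h1 : ρ y⁻¹ * f * ρ y = f := by
          rw [mul_assoc, ← hfy, ← mul_assoc, LmP_inv_mul, one_mul]
        have h2 : ρ y⁻¹ * (ρ y * e * ρ y⁻¹) * ρ y = e := by
          calc ρ y⁻¹ * (ρ y * e * ρ y⁻¹) * ρ y = (ρ y⁻¹ * ρ y) * e * (ρ y⁻¹ * ρ y) := by
                simp only [mul_assoc]
            _ = e := by rw [LmP_inv_mul, one_mul, mul_one]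
        have h3 : ρ y⁻¹ * e * ρ y = ρ y⁻¹ * (f - ρ y * e * ρ y⁻¹) * ρ y := by
          rw [← hfe, sub_sub_cancel]
        rw [h3, mul_sub, sub_mul, h1, h2]
      have hpair : ∀ s ∈ S₁, LinearMap.trace F V (e * φ s * e) +
          LinearMap.trace F V (e * φ (y • s) * e) = LinearMap.trace F V (φ s) := by
        intro s _
        rw [LmP_tr_corner hee, LmP_tr_corner hee, ← h.eqv y hh.mem s]
        have h1 : LinearMap.trace F V (e * (ρ y * φ s * ρ y⁻¹)) =
            LinearMap.trace F V ((f - e) * φ s) := by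
          rw [← hy2]
          have : e * (ρ y * φ s * ρ y⁻¹) = (e * ρ y * φ s) * ρ y⁻¹ := by
            simp only [mul_assoc]
          rw [this, LinearMap.trace_mul_comm]
          simp only [mul_assoc]
        rw [h1, ← map_add, ← add_mul, add_sub_cancel, h.l]
      rw [Finset.sum_congr rfl hpair]
      rw [← Finset.sum_filter_add_sum_filter_not S (fun s => ∀ p ∈ P, p • s = s → p ∈ P₁)
        (fun s => LinearMap.trace F V (φ s))]
      rw [← hS₁]
      have hrest : ∑ s ∈ S.filter (fun s => ¬ ∀ p ∈ P, p • s = s → p ∈ P₁),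
          LinearMap.trace F V (φ s) = 0 := by
        apply Finset.sum_eq_zero
        intro s hs
        rw [Finset.mem_filter] at hs
        obtain ⟨_, hs⟩ := hs
        push Not at hs
        obtain ⟨z, hz, hzs, hz1⟩ := hs
        have hp : y⁻¹ * z ∈ P₁ := hh.cov z hz hz1
        have hze : ρ z * e * ρ z⁻¹ = f - e := by
          rw [hfe]
          have h1 : ρ (y⁻¹ * z) * e * ρ (y⁻¹ * z)⁻¹ = e := heC.cm.conj hp
          have h2 : ρ z = ρ y * ρ (y⁻¹ * z) := by rw [← map_mul, mul_inv_cancel_left]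
          have h3 : ρ z⁻¹ = ρ (y⁻¹ * z)⁻¹ * ρ y⁻¹ := by rw [← map_mul]; congr 1; group
          rw [h2, h3]
          calc ρ y * ρ (y⁻¹ * z) * e * (ρ (y⁻¹ * z)⁻¹ * ρ y⁻¹) =
                ρ y * (ρ (y⁻¹ * z) * e * ρ (y⁻¹ * z)⁻¹) * ρ y⁻¹ := by simp only [mul_assoc]
            _ = _ := by rw [h1]
        have hφ : ρ z * φ s * ρ z⁻¹ = φ s := by rw [h.eqv z hz s, hzs]
        have hφ' : φ s * ρ z = ρ z * φ s := by
          conv_lhs => rw [← hφ]
          rw [mul_assoc, LmP_inv_mul, mul_one]
        have h4 : LinearMap.trace F V ((f - e) * φ s) = LinearMap.trace F V (e * φ s) := by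
          rw [← hze]
          have : ρ z * e * ρ z⁻¹ * φ s = ρ z * (e * ρ z⁻¹ * φ s) := by simp only [mul_assoc]
          rw [this, LinearMap.trace_mul_comm, mul_assoc, mul_assoc, hφ', ← mul_assoc (ρ z⁻¹),
            LmP_inv_mul, one_mul]
        calc LinearMap.trace F V (φ s) = LinearMap.trace F V (f * φ s) := by rw [h.l]
          _ = LinearMap.trace F V (e * φ s) + LinearMap.trace F V ((f - e) * φ s) := by
              rw [← map_add, ← add_mul, add_sub_cancel]
          _ = 0 := by rw [h4, LmP_two]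
      rw [hrest, add_zero]

end SPV
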