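import Pool.Agent.SPV.Fit

/-!
# SPV / Loc : the corner ring of a primitive idempotent is local
-/

namespace SPV

variable {F G V : Type*} [Field F] [Group G] [AddCommGroup V] [Module F V]
  [FiniteDimensional F V]

private theorem inc_mul {ρ : Representation F G V} {P : Subgroup G} {f a b : Module.End F V}
    (ha : InC ρ P f a) (hb : InC ρ P f b) : InC ρ P f (a * b) :=
  ⟨ha.cm.mul hb.cm, by rw [← mul_assoc, ha.l], by rw [mul_assoc, hb.r]⟩

private theorem inc_sum {ρ : Representation F G V} {P : Subgroup G} {f : Module.End F V}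
    {ι : Type*} (s : Finset ι) (a : ι → Module.End F V) (ha : ∀ i ∈ s, InC ρ P f (a i)) :
    InC ρ P f (∑ i ∈ s, a i) :=
  ⟨Cm.sum s fun i hi => (ha i hi).cm,
    by rw [Finset.mul_sum]; exact Finset.sum_congr rfl fun i hi => (ha i hi).l,
    by rw [Finset.sum_mul]; exact Finset.sum_congr rfl fun i hi => (ha i hi).r⟩

private theorem loc_right {ρ : Representation F G V} {P : Subgroup G} {f : Module.End F V}
    (hf : Prim ρ P f) {a w : Module.End F V} (ha : InC ρ P f a) (hw : InC ρ P f w)
    (h : a * w = f) : ∃ a', InC ρ P f a' ∧ a * a' = f ∧ a' * a = f := by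
  rcases hf.nil_or_unit ha with h1 | h1
  · exfalso
    obtain ⟨m, hm⟩ := h1
    have key : ∀ k : ℕ, a ^ (k + 1) * w ^ (k + 1) = f := by
      intro k
      induction k with
      | zero => rw [zero_add, pow_one, pow_one, h]
      | succ k ih =>
        rw [pow_succ' a, pow_succ w, mul_assoc, ← mul_assoc (a ^ (k + 1)), ih, hw.l, h]
    have h2 := key m
    rw [pow_succ, hm, zero_mul, zero_mul] at h2
    exact hf.ne h2.symm
  · exact h1

private theorem loc_aux {ρ : Representation F G V} {P : Subgroup G} {f : Module.End F V}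
    (hf : Prim ρ P f) {ι : Type*} (s : Finset ι) (a : ι → Module.End F V)
    (ha : ∀ i ∈ s, InC ρ P f (a i))
    (hs : ∃ u', InC ρ P f u' ∧ (∑ i ∈ s, a i) * u' = f ∧ u' * (∑ i ∈ s, a i) = f) :
    ∃ i ∈ s, ∃ a', InC ρ P f a' ∧ a i * a' = f ∧ a' * a i = f := by
  classical
  induction s using Finset.induction_on with
  | empty =>
    obtain ⟨u', _, h1, _⟩ := hs
    rw [Finset.sum_empty, zero_mul] at h1
    exact absurd h1.symm hf.ne
  | insert i s hi ih =>
    obtain ⟨u', hu, h1, h2⟩ := hs
    rw [Finset.sum_insert hi] at h1 h2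
    have hA := ha i (Finset.mem_insert_self _ _)
    have ha' : ∀ j ∈ s, InC ρ P f (a j) := fun j hj => ha j (Finset.mem_insert_of_mem hj)
    have hB := inc_sum s a ha'
    have hx := inc_mul hA hu
    have hz := inc_mul hB hu
    have hxz : a i * u' + (∑ j ∈ s, a j) * u' = f := by rw [← add_mul]; exact h1
    rcases hf.nil_or_unit hx with h3 | ⟨x', hx', h4, _⟩
    · rcases hf.nil_or_unit hz with h5 | ⟨z', hz', h6, _⟩
      · exfalso
        have hc : Commute (a i * u') ((∑ j ∈ s, a j) * u') := by
          have : (∑ j ∈ s, a j) * u' = f - a i * u' := by rw [← hxz]; abel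
          rw [this]
          change a i * u' * (f - a i * u') = (f - a i * u') * (a i * u')
          rw [mul_sub, sub_mul, hx.l, hx.r]
        have h6 := hc.isNilpotent_add h3 h5
        rw [hxz] at h6
        obtain ⟨m, hm⟩ := h6
        have h7 : ∀ k : ℕ, f ^ (k + 1) = f := by
          intro k
          induction k with
          | zero => rw [zero_add, pow_one]
          | succ k ih' => rw [pow_succ, ih', hf.idem]
        have h8 := h7 m
        rw [pow_succ, hm, zero_mul] at h8
        exact hf.ne h8.symm
      · have h7 := loc_right hf hB (inc_mul hu hz') (by rw [← mul_assoc]; exact h6)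
        obtain ⟨b', hb', h8, h9⟩ := h7
        obtain ⟨j, hj, h10⟩ := ih ha' ⟨b', hb', h8, h9⟩
        exact ⟨j, Finset.mem_insert_of_mem hj, h10⟩
    · exact ⟨i, Finset.mem_insert_self _ _,
        loc_right hf hA (inc_mul hu hx') (by rw [← mul_assoc]; exact h4)⟩

/-- If a finite sum of elements of the corner is `f`, then one of the terms is invertible in the
corner.

Sketch.  More generally: if `∑ i ∈ s, a i = u` is invertible in the corner then some `a i` is.
Induction on `s`.  For two terms `a + b = u`, `u u' = u' u = f`: `x = a u'`, `z = b u'` lie in the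
corner and `x + z = f`.  By `Prim.nil_or_unit` `x` is invertible (then so is `a`) or nilpotent,
and then `z = f - x` is invertible in the corner (geometric series `f + x + x^2 + ...`), so `b`
is.  The empty sum is `0 ≠ f`. -/
theorem Prim.exists_unit {ρ : Representation F G V} {P : Subgroup G} {f : Module.End F V}
    (hf : Prim ρ P f) {ι : Type*} (s : Finset ι) (a : ι → Module.End F V)
    (ha : ∀ i ∈ s, InC ρ P f (a i)) (hs : ∑ i ∈ s, a i = f) :
    ∃ i ∈ s, ∃ a', InC ρ P f a' ∧ a i * a' = f ∧ a' * a i = f := by
  refine loc_aux hf s a ha ⟨f, ⟨hf.cm, hf.idem, hf.idem⟩, ?_, ?_⟩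
  · rw [hs, hf.idem]
  · rw [hs, hf.idem]

/-- Over an algebraically closed field every element of the corner is scalar + nilpotent.

Sketch.  `a` maps `range f ≠ ⊥` into itself, so it has an eigenvector `v = f v ≠ 0` there:
`a v = c v` (`Module.End.exists_eigenvalue` for the restriction of `a` to `range f`).
`a - c • f` lies in the corner and kills `v = f v`, so it is not invertible in the corner, hence
nilpotent by `Prim.nil_or_unit`. -/
theorem Prim.exists_scalar [IsAlgClosed F] {ρ : Representation F G V} {P : Subgroup G}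
    {f : Module.End F V} (hf : Prim ρ P f) {a : Module.End F V} (ha : InC ρ P f a) :
    ∃ c : F, IsNilpotent (a - c • f) := by
  have hmaps : ∀ v ∈ LinearMap.range f, a v ∈ LinearMap.range f := by
    rintro v -
    refine ⟨a v, ?_⟩
    change (f * a) v = a v
    rw [ha.l]
  have hne : Nontrivial (LinearMap.range f) := by
    rw [Submodule.nontrivial_iff_ne_bot]
    intro h
    exact hf.ne (LinearMap.range_eq_bot.1 h)
  obtain ⟨c, hc⟩ := Module.End.exists_eigenvalue (a.restrict hmaps)
  obtain ⟨v, hv⟩ := hc.exists_hasEigenvector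
  have h1 : a (v : V) = c • (v : V) := by
    have := hv.apply_eq_smul
    have h2 := congrArg (fun w : LinearMap.range f => (w : V)) this
    simpa using h2
  have h3 : f (v : V) = v := by
    obtain ⟨w, hw⟩ := v.2
    rw [← hw]
    change (f * f) w = f w
    rw [hf.idem]
  have hb : InC ρ P f (a - c • f) :=
    ⟨ha.cm.sub (hf.cm.smul c), by rw [mul_sub, mul_smul_comm, ha.l, hf.idem],
      by rw [sub_mul, smul_mul_assoc, ha.r, hf.idem]⟩
  refine ⟨c, ?_⟩
  rcases hf.nil_or_unit hb with h4 | ⟨b', _, _, h5⟩
  · exact h4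
  · exfalso
    have h6 : (a - c • f) (v : V) = 0 := by
      rw [LinearMap.sub_apply, LinearMap.smul_apply, h1, h3, sub_self]
    have h7 : (b' * (a - c • f)) (v : V) = 0 := by
      change b' ((a - c • f) (v : V)) = 0
      rw [h6, map_zero]
    rw [h5, h3] at h7
    exact hv.2 (Subtype.ext h7)

end SPV
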