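import Pool.Agent.SPV.Mck
import Pool.Agent.SPV.Hig

/-!
# SPV / Vtx : vertices
-/

namespace SPV

variable {F G V : Type*} [Field F] [Group G] [AddCommGroup V] [Module F V]
  [FiniteDimensional F V]

/-- An indecomposable representation has only the idempotents `0`, `1`: for an idempotent `e`
commuting with `G`, `range e` and `ker e` are invariant complements. -/
theorem prim_of_isIndec {ρ : Representation F G V} (h : IsIndec ρ) : Prim ρ ⊤ 1 := by
  obtain ⟨hn, hd⟩ := h
  refine ⟨one_ne_zero, one_mul 1, Cm.one ρ ⊤, fun e he hc => ?_⟩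
  have hcomp : IsCompl (LinearMap.range e) (LinearMap.ker e) := by
    refine ⟨?_, ?_⟩
    · rw [Submodule.disjoint_def]
      rintro x ⟨u, rfl⟩ hu
      have h1 : e (e u) = 0 := hu
      rw [← Module.End.mul_apply, he] at h1
      exact h1
    · rw [codisjoint_iff, eq_top_iff]
      intro v _
      have : v = e v + (v - e v) := by abel
      rw [this]
      refine Submodule.add_mem_sup ⟨v, rfl⟩ ?_
      show e (v - e v) = 0
      rw [map_sub, ← Module.End.mul_apply, he, sub_self]
  have hU : ∀ g, ∀ u ∈ LinearMap.range e, ρ g u ∈ LinearMap.range e := by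
    rintro g _ ⟨u, rfl⟩
    have h3 := hc.cm g (Subgroup.mem_top g)
    refine ⟨ρ g u, ?_⟩
    rw [← Module.End.mul_apply, ← Module.End.mul_apply, h3]
  have hW : ∀ g, ∀ w ∈ LinearMap.ker e, ρ g w ∈ LinearMap.ker e := by
    intro g w hw
    have h3 := hc.cm g (Subgroup.mem_top g)
    show e (ρ g w) = 0
    have hw' : e w = 0 := hw
    rw [← Module.End.mul_apply, ← h3, Module.End.mul_apply, hw', map_zero]
  rcases hd _ _ hU hW hcomp with h1 | h1
  · left
    exact LinearMap.range_eq_bot.1 h1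
  · right
    ext v
    have h2 : e v - v ∈ LinearMap.ker e := by
      show e (e v - v) = 0
      rw [map_sub, ← Module.End.mul_apply, he, sub_self]
    rw [h1, Submodule.mem_bot, sub_eq_zero] at h2
    simpa using h2

theorem IsVertex.trOne [Finite G] {ρ : Representation F G V} {Q : Subgroup G}
    (h : IsVertex ρ Q) : TrOne ρ Q := trOne_of_isRelProj h.prop

theorem IsVertex.min [Finite G] {ρ : Representation F G V} {Q R : Subgroup G}
    (h : IsVertex ρ Q) (hR : R ≤ Q) (hT : TrOne ρ R) : R = Q :=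
  le_antisymm hR (h.le_of_le (isRelProj_of_trOne hT) hR)

private theorem vtx_trOne_of_le [Finite G] {ρ : Representation F G V} {Q R : Subgroup G}
    (hQ : TrOne ρ Q) (hR : R ≤ Q) (hm : ((R.relIndex Q : ℕ) : F) ≠ 0) : TrOne ρ R := by
  classical
  obtain ⟨hfin, Φ, hΦ, hsum⟩ := hQ
  let _ : Fintype (G ⧸ R) := Fintype.ofFinite _
  let _ : Fintype (Q ⧸ R.subgroupOf Q) := Fintype.ofFinite _
  refine ⟨inferInstance, fun x => ((R.relIndex Q : ℕ) : F)⁻¹ • Φ (Subgroup.quotientMapOfLE hR x),
    fun g x => ?_, ?_⟩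
  · rw [mul_smul_comm, smul_mul_assoc, hΦ]
    congr 2
    induction x using QuotientGroup.induction_on with
    | H a => rfl
  · rw [← Finset.smul_sum]
    have h1 : ∑ x : G ⧸ R, Φ (Subgroup.quotientMapOfLE hR x) =
        ∑ y : (G ⧸ Q) × (Q ⧸ R.subgroupOf Q), Φ y.1 := by
      refine Fintype.sum_equiv (Subgroup.quotientEquivProdOfLE hR) _ _ fun x => ?_
      congr 1
    have h2 : Fintype.card (Q ⧸ R.subgroupOf Q) = R.relIndex Q := by
      rw [← Nat.card_eq_fintype_card]
      rfl
    rw [h1, Fintype.sum_prod_type]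
    simp only [Finset.sum_const, Finset.card_univ]
    rw [h2, ← Finset.smul_sum, hsum, ← Nat.cast_smul_eq_nsmul F, smul_smul, inv_mul_cancel₀ hm,
      one_smul]

/-- Sketch.  Let `P'` be (the image in `G` of) a Sylow 2-subgroup of `Q`, `m = [Q : P']` odd, so
invertible in `F`.  `Φ' (g P') = m⁻¹ • Φ (g Q)` (via the natural map `G ⧸ P' → G ⧸ Q`, all fibres
of size `m`) shows `TrOne ρ P'`; minimality gives `P' = Q`. -/
theorem IsVertex.isPGroup [Finite G] [CharP F 2] {ρ : Representation F G V} {Q : Subgroup G}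
    (h : IsVertex ρ Q) : IsPGroup 2 Q := by
  have : Fact (Nat.Prime 2) := ⟨Nat.prime_two⟩
  obtain ⟨P⟩ : Nonempty (Sylow 2 Q) := inferInstance
  set R : Subgroup G := (P : Subgroup Q).map Q.subtype with hRdef
  have hR : R ≤ Q := Subgroup.map_subtype_le _
  have hsub : R.subgroupOf Q = (P : Subgroup Q) := by
    rw [hRdef, Subgroup.subgroupOf, Subgroup.comap_map_eq_self_of_injective Q.subtype_injective]
  have hidx : ¬ 2 ∣ R.relIndex Q := by
    rw [Subgroup.relIndex, hsub]
    exact P.not_dvd_index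
  have hm : ((R.relIndex Q : ℕ) : F) ≠ 0 := by
    intro h0
    exact hidx ((CharP.cast_eq_zero_iff F 2 _).1 h0)
  have hT := vtx_trOne_of_le h.trOne hR hm
  have hRQ := h.min hR hT
  have hP : (P : Subgroup Q) = ⊤ := by
    rw [← hsub, hRQ, Subgroup.subgroupOf_self]
  have h3 := P.isPGroup'
  rw [hP] at h3
  exact h3.of_equiv Subgroup.topEquiv

/-- from `mackey_local` and minimality. -/
theorem IsVertex.conj_le [Finite G] {ρ : Representation F G V} (hi : IsIndec ρ)
    {Q S : Subgroup G} (h : IsVertex ρ Q) (hS : TrOne ρ S) :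
    ∃ x : G, ∀ q ∈ Q, x⁻¹ * q * x ∈ S := by
  obtain ⟨x, R, hR, hx, hT⟩ := mackey_local (prim_of_isIndec hi) h.trOne hS
  have hRQ := h.min hR hT
  subst hRQ
  exact ⟨x, hx⟩

end SPV
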