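import Pool.Agent.SPV.RP
import Pool.Agent.SPV.EB
import Pool.Agent.SPV.EC
import Pool.Agent.SPV.BCh
import Pool.Agent.SPV.Vtx
import Pool.Agent.SPV.AbB

/-!
# SPV / Main : abelian vertices of Specht modules in characteristic 2 are elementary abelian
-/

set_option linter.unusedSectionVars false

namespace SPV

open Finset

theorem main_supp {m l : ℕ} (x : Equiv.Perm (Fin (m + l))) :
    (univ.filter (fun z : Fin (m + l) => m ≤ (x⁻¹ z).val)).card = l := by
  have h1 : (univ.filter (fun z : Fin (m + l) => m ≤ (x⁻¹ z).val)).card =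
      (univ.filter (fun z : Fin (m + l) => m ≤ z.val)).card := by
    refine card_bij (fun z _ => x⁻¹ z) ?_ ?_ ?_
    · intro z hz; simpa using hz
    · intro a _ b _ h; exact x⁻¹.injective h
    · intro b hb; exact ⟨x b, by simpa using hb, by simp⟩
  rw [h1]
  have h2 : (univ.filter (fun z : Fin (m + l) => m ≤ z.val)) =
      univ.map (Fin.natAddEmb m : Fin l ↪ Fin (m + l)) := by
    ext z
    rw [mem_filter, mem_map]
    constructor
    · rintro ⟨_, hz⟩
      refine ⟨⟨z.val - m, by omega⟩, mem_univ _, ?_⟩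
      apply Fin.ext
      simp
      omega
    · rintro ⟨y, _, rfl⟩
      exact ⟨mem_univ _, by simp⟩
  rw [h2, card_map, card_univ, Fintype.card_fin]

theorem main_aux {v w d N : ℕ} {H' : ℤ} (hN : N ≠ 0) (hv : padicValNat 2 N = v)
    (hd : (d : ℤ) * 2 ^ w * H' = N) (e : ℕ) (he : 2 ^ e ∣ d) : e + w ≤ v := by
  have h1 : ((2 ^ (e + w) : ℕ) : ℤ) ∣ ((N : ℕ) : ℤ) := by
    rw [← hd, pow_add]
    push_cast
    refine Dvd.dvd.mul_right (mul_dvd_mul ?_ dvd_rfl) _
    exact_mod_cast he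
  have h2 : 2 ^ (e + w) ∣ N := Int.natCast_dvd_natCast.mp h1
  rw [← hv]
  exact (padicValNat_dvd_iff_le hN).mp h2

/-- **Main theorem.**  In characteristic 2, an abelian vertex of an indecomposable Specht module is
elementary abelian. -/
theorem main (F : Type*) [Field F] [CharP F 2] (n : ℕ) (μ : YoungDiagram) (hμ : μ.card = n)
    (hi : IsIndec (V := Specht F μ (Fin n)) (spechtRep F μ (Fin n)))
    (Q : Subgroup (Equiv.Perm (Fin n)))
    (hQ : IsVertex (V := Specht F μ (Fin n)) (spechtRep F μ (Fin n)) Q)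
    (hab : ∀ a ∈ Q, ∀ b ∈ Q, a * b = b * a) : ∀ q ∈ Q, q * q = 1 := by
  classical
  obtain ⟨κ, w, H, P, H', hκk, hcard, hH, hP, h1, h2, h3⟩ := core_exists μ (μ.colLen 0) le_rfl
  obtain ⟨m, hm⟩ : ∃ m, κ.card = m := ⟨_, rfl⟩
  have hn : n = m + 2 * w := by rw [← hμ, hcard, hm]
  subst hn
  have hT := specht_trOne F hm hμ hκk le_rfl hH hP h1 h2
  have hp : IsPGroup 2 Q := hQ.isPGroup
  obtain ⟨x, hx⟩ := hQ.conj_le hi hT
  -- support of `Q`
  obtain ⟨S, hSdef⟩ : ∃ S : Finset (Fin (m + 2 * w)),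
      S = univ.filter (fun z : Fin (m + 2 * w) => m ≤ (x⁻¹ z).val) := ⟨_, rfl⟩
  have hS : S.card = 2 * w := by rw [hSdef]; exact main_supp x
  have hsupp : ∀ q ∈ Q, ∀ z, z ∉ S → q z = z := by
    intro q hq z hz
    have hz' : (x⁻¹ z).val < m := by
      by_contra hc
      exact hz (by rw [hSdef, mem_filter]; exact ⟨mem_univ _, by omega⟩)
    have h5 := mem_fixer.mp (hx q hq) ⟨(x⁻¹ z).val, hz'⟩
    have h6 : Fin.castAdd (2 * w) ⟨(x⁻¹ z).val, hz'⟩ = x⁻¹ z := by
      apply Fin.ext; rfl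
    rw [h6] at h5
    have h7 : x⁻¹ (q z) = x⁻¹ z := by
      simpa [Equiv.Perm.mul_apply] using h5
    exact x⁻¹.injective h7
  -- orders
  obtain ⟨a, ha⟩ := (IsPGroup.iff_card).mp hp
  have hb := abl_bound Q hab hp S hsupp
  rw [ha, hS, ← pow_mul] at hb
  have haw : a ≤ w := by
    have := (Nat.pow_le_pow_iff_right (by norm_num : 1 < 2)).mp hb
    omega
  obtain ⟨N, hN⟩ : ∃ N, N = Nat.card (Equiv.Perm (Fin (m + 2 * w))) := ⟨_, rfl⟩
  have hNf : N = (m + 2 * w).factorial := by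
    rw [hN, Nat.card_eq_fintype_card, Fintype.card_perm, Fintype.card_fin]
  have hN0 : N ≠ 0 := by rw [hNf]; exact Nat.factorial_ne_zero _
  obtain ⟨v, hv⟩ : ∃ v, padicValNat 2 N = v := ⟨_, rfl⟩
  have hav : a ≤ v := by
    have h8 : 2 ^ a ∣ N := by
      rw [← ha, hN]; exact Subgroup.card_subgroup_dvd_card Q
    rw [← hv]
    exact (padicValNat_dvd_iff_le hN0).mp h8
  have hk : Nat.card Q * 2 ^ (v - a) = 2 ^ (padicValNat 2 (Nat.card (Equiv.Perm (Fin (m + 2 * w))))) := by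
    rw [← hN, hv, ha, ← pow_add]
    congr 1
    omega
  -- dimension
  obtain ⟨d, hd⟩ : ∃ d, d = Module.finrank F (Specht F μ (Fin (m + 2 * w))) := ⟨_, rfl⟩
  have hdN : (d : ℤ) * 2 ^ w * H' = N := by
    have h9 := finrank_formula (m + 2 * w) (μ.colLen 0) μ hμ le_rfl
    rw [← finrank_char_two F (m + 2 * w) μ hμ, ← hd, h3, ← hNf] at h9
    have h10 : (Vd (bet μ (μ.colLen 0))) ≠ 0 := (Vd_pos (bet_strictAnti μ _)).ne'
    apply mul_right_cancel₀ h10
    rw [← h9]
    ring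
  have hd1 : 2 ^ (v - a) ∣ d := by
    rw [hd]
    exact dim_dvd hp hQ.trOne (v - a) hk
  have h11 := main_aux hN0 hv hdN (v - a) hd1
  have haw' : a = w := by omega
  -- the extremal case
  by_contra hne
  push Not at hne
  have heq : (Nat.card Q) ^ 2 = 2 ^ S.card := by
    rw [ha, hS, ← pow_mul, haw', mul_comm]
  obtain ⟨g, hg, y, g1, g2, g3, g4, g5, ht, htn⟩ := abl_cycle Q hab hp S hsupp heq hne
  have hE : HasE (V := Specht F μ (Fin (m + 2 * w))) (spechtRep F μ (Fin (m + 2 * w))) g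
      (Equiv.swap y (g (g y))) (Equiv.swap y (g y)) :=
    hasE_of_cycle (exists_E F μ (m + 2 * w)) g y g1 g2 g3 g4 g5
  have hd2 : 2 ^ (v - a + 1) ∣ d := by
    rw [hd]
    exact dim_dvd_succ hp hQ.trOne (v - a) hk hg ht (Equiv.swap_mul_self _ _) htn hE
  have h12 := main_aux hN0 hv hdN (v - a + 1) hd2
  omega

/-- No Specht module in characteristic 2 has an abelian vertex with a direct factor `ℤ/4`. -/
theorem no_Z4_factor (F : Type*) [Field F] [CharP F 2] (n : ℕ) (μ : YoungDiagram)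
    (hμ : μ.card = n)
    (hi : IsIndec (V := Specht F μ (Fin n)) (spechtRep F μ (Fin n)))
    (Q : Subgroup (Equiv.Perm (Fin n)))
    (hQ : IsVertex (V := Specht F μ (Fin n)) (spechtRep F μ (Fin n)) Q)
    (hab : ∀ a ∈ Q, ∀ b ∈ Q, a * b = b * a)
    (R : Type*) [Group R] (φ : Q ≃* Multiplicative (ZMod 4) × R) : False := by
  have h := main F n μ hμ hi Q hQ hab
  obtain ⟨q, hq⟩ := φ.surjective (Multiplicative.ofAdd (1 : ZMod 4), 1)
  have h1 := h q.1 q.2
  have h2 : q * q = 1 := Subtype.ext h1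
  have h3 : φ (q * q) = 1 := by rw [h2, map_one]
  rw [map_mul, hq] at h3
  have h4 := congrArg Prod.fst h3
  have h5 : (Multiplicative.ofAdd (1 : ZMod 4)) * Multiplicative.ofAdd (1 : ZMod 4) = 1 := h4
  rw [← ofAdd_add, ofAdd_eq_one] at h5
  exact absurd h5 (by decide)

end SPV
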