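import Pool.Agent.SPV.Loc

/-!
# SPV / Mck : Mackey + local endomorphism ring
-/

namespace SPV

variable {F G V : Type*} [Field F] [Group G] [AddCommGroup V] [Module F V]
  [FiniteDimensional F V]

omit [FiniteDimensional F V] in
private theorem mck_orbit_cm {X : Type*} [MulAction G X] [Fintype X]
    {ρ : Representation F G V} (Ψ : X → Module.End F V)
    (heq : ∀ (g : G) (x : X), ρ g * Ψ x * ρ g⁻¹ = Ψ (g • x))
    (s : Finset X) (hs : ∀ (g : G) (x : X), x ∈ s → g • x ∈ s) :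
    Cm ρ ⊤ (∑ x ∈ s, Ψ x) := by
  refine cm_of_conj fun g _ => ?_
  rw [Finset.mul_sum, Finset.sum_mul]
  refine Finset.sum_bij (fun x _ => g • x) (fun x hx => hs g x hx)
    (fun a _ b _ h => MulAction.injective g h) (fun b hb => ⟨g⁻¹ • b, hs _ _ hb, smul_inv_smul g b⟩)
    (fun x _ => heq g x)

/-- Sketch.  `X = (G ⧸ Q) × (G ⧸ S)` with the diagonal `G`-action, `Ψ (u, v) = Φ_Q u * Φ_S v` is
`G`-equivariant with sum `1 * 1 = 1`.  The sums over the `G`-orbits of `X` commute with `G` and add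
up to `1`, so by `Prim.exists_unit` (with `P = ⊤`, `f = 1`) the sum `c` over one orbit has an
inverse `c'` commuting with `G`.  `G` is transitive on `G ⧸ Q`, so the orbit contains a point
`(1 Q, x S)`; `R = Q ⊓ {r | x⁻¹ r x ∈ S}` is its stabilizer.  `Φ_R (g R) = Ψ (g • (1 Q, x S)) c'`
(well defined, e.g. via `Quotient.out` or the equivalence `G ⧸ stabilizer ≃ orbit`,
`MulAction.orbitEquivQuotientStabilizer`) is equivariant with sum `c c' = 1`. -/
theorem mackey_local [Finite G] {ρ : Representation F G V} (hprim : Prim ρ ⊤ 1)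
    {Q S : Subgroup G} (hQ : TrOne ρ Q) (hS : TrOne ρ S) :
    ∃ (x : G) (R : Subgroup G), R ≤ Q ∧ (∀ r ∈ R, x⁻¹ * r * x ∈ S) ∧ TrOne ρ R := by
  classical
  obtain ⟨iQ, ΦQ, heQ, hsQ⟩ := hQ
  obtain ⟨iS, ΦS, heS, hsS⟩ := hS
  let Ψ : (G ⧸ Q) × (G ⧸ S) → Module.End F V := fun p => ΦQ p.1 * ΦS p.2
  have hinv : ∀ g : G, ρ g⁻¹ * ρ g = 1 := fun g => by
    rw [← map_mul, inv_mul_cancel, map_one]
  have hΨ : ∀ (g : G) (p : (G ⧸ Q) × (G ⧸ S)), ρ g * Ψ p * ρ g⁻¹ = Ψ (g • p) := by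
    intro g p
    show ρ g * (ΦQ p.1 * ΦS p.2) * ρ g⁻¹ = ΦQ (g • p.1) * ΦS (g • p.2)
    rw [← heQ, ← heS]
    have : ρ g * ΦQ p.1 * ρ g⁻¹ * (ρ g * ΦS p.2 * ρ g⁻¹)
        = ρ g * ΦQ p.1 * (ρ g⁻¹ * ρ g) * ΦS p.2 * ρ g⁻¹ := by
      simp only [mul_assoc]
    rw [this, hinv, mul_one]
    simp only [mul_assoc]
  have hsum : ∑ p, Ψ p = 1 := by
    rw [Fintype.sum_prod_type]
    show ∑ u, ∑ v, ΦQ u * ΦS v = 1
    rw [← Finset.sum_mul_sum, hsQ, hsS, one_mul]
  let Ω := MulAction.orbitRel.Quotient G ((G ⧸ Q) × (G ⧸ S))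
  have : Finite Ω := Quotient.finite _
  have := Fintype.ofFinite Ω
  let π : (G ⧸ Q) × (G ⧸ S) → Ω := fun p => Quotient.mk _ p
  have hπ : ∀ (g : G) (p), π (g • p) = π p := by
    intro g p
    apply Quotient.sound
    exact ⟨g, rfl⟩
  have hfib : ∑ ω : Ω, ∑ p ∈ Finset.univ.filter (fun p => π p = ω), Ψ p = 1 := by
    rw [← hsum]
    exact Finset.sum_fiberwise _ _ _
  obtain ⟨ω, -, c', hc', h1, h2⟩ := hprim.exists_unit Finset.univ
    (fun ω : Ω => ∑ p ∈ Finset.univ.filter (fun p => π p = ω), Ψ p)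
    (fun ω _ => ⟨mck_orbit_cm Ψ hΨ _ (fun g x hx => by
        rw [Finset.mem_filter] at hx ⊢
        exact ⟨Finset.mem_univ _, by rw [hπ]; exact hx.2⟩), one_mul _, mul_one _⟩) hfib
  -- a point `(1 Q, x S)` in the orbit
  obtain ⟨p0, hp0⟩ : ∃ p0, π p0 = ω := Quotient.exists_rep ω
  obtain ⟨⟨g0, hg0⟩⟩ : Nonempty {g0 : G // (g0 : G ⧸ Q) = p0.1} := by
    obtain ⟨g0, hg0⟩ := Quotient.exists_rep p0.1
    exact ⟨⟨g0, hg0⟩⟩
  let q : (G ⧸ Q) × (G ⧸ S) := g0⁻¹ • p0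
  have hqω : π q = ω := by rw [← hp0]; exact hπ _ _
  have hq1 : q.1 = ((1 : G) : G ⧸ Q) := by
    show g0⁻¹ • p0.1 = _
    rw [← hg0]
    show ((g0⁻¹ * g0 : G) : G ⧸ Q) = _
    rw [inv_mul_cancel]
  obtain ⟨x, hx⟩ : ∃ x : G, (x : G ⧸ S) = q.2 := by
    obtain ⟨x, hx⟩ := Quotient.exists_rep q.2
    exact ⟨x, hx⟩
  have := Fintype.ofFinite (G ⧸ MulAction.stabilizer G q)
  refine ⟨x, MulAction.stabilizer G q, ?_, ?_, inferInstance,
    fun y => Ψ (MulAction.ofQuotientStabilizer G q y) * c', ?_, ?_⟩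
  · intro r hr
    have h3 : r • q = q := hr
    have h4 : r • q.1 = q.1 := congrArg Prod.fst h3
    rw [hq1] at h4
    have h5 : ((r * 1 : G) : G ⧸ Q) = ((1 : G) : G ⧸ Q) := h4
    rw [mul_one] at h5
    have h6 := QuotientGroup.eq.1 h5
    simpa using Q.inv_mem h6
  · intro r hr
    have h3 : r • q = q := hr
    have h4 : r • q.2 = q.2 := congrArg Prod.snd h3
    rw [← hx] at h4
    have h5 : ((r * x : G) : G ⧸ S) = ((x : G) : G ⧸ S) := h4
    have h6 := QuotientGroup.eq.1 h5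
    have h7 := S.inv_mem h6
    have h8 : ((r * x)⁻¹ * x)⁻¹ = x⁻¹ * r * x := by group
    rwa [h8] at h7
  · intro g y
    show ρ g * (Ψ (MulAction.ofQuotientStabilizer G q y) * c') * ρ g⁻¹ =
      Ψ (MulAction.ofQuotientStabilizer G q (g • y)) * c'
    rw [MulAction.ofQuotientStabilizer_smul, ← hΨ]
    have h4 := hc'.cm g⁻¹ (Subgroup.mem_top _)
    rw [mul_assoc _ (ρ g⁻¹) c', h4]
    simp only [mul_assoc]
  · rw [← Finset.sum_mul]
    have h3 : ∑ y : G ⧸ MulAction.stabilizer G q, Ψ (MulAction.ofQuotientStabilizer G q y)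
        = ∑ p ∈ Finset.univ.filter (fun p => π p = ω), Ψ p := by
      refine Finset.sum_bij (fun y _ => MulAction.ofQuotientStabilizer G q y) ?_ ?_ ?_ ?_
      · intro y _
        rw [Finset.mem_filter]
        refine ⟨Finset.mem_univ _, ?_⟩
        obtain ⟨g, hg⟩ := MulAction.ofQuotientStabilizer_mem_orbit G q y
        have hg' : g • q = MulAction.ofQuotientStabilizer G q y := hg
        rw [← hg', hπ, hqω]
      · intro a _ b _ h
        exact MulAction.injective_ofQuotientStabilizer G q h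
      · intro p hp
        rw [Finset.mem_filter] at hp
        have h5 : π p = π q := hp.2.trans hqω.symm
        have h6 := Quotient.exact h5
        obtain ⟨g, hg⟩ := h6
        exact ⟨(g : G ⧸ MulAction.stabilizer G q), Finset.mem_univ _, hg⟩
      · intro y _
        rfl
    rw [h3]
    exact h1

end SPV
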