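import Pool.Agent.SPV.D2

/-!
# SPV / NA : beta numbers and the basic determinant identity
-/

set_option linter.unusedSectionVars false

namespace SPV

open Finset

private theorem na_dfac (a b : ℕ) : (a : ℤ) * ((a - 1).descFactorial b : ℤ) =
    ((a : ℤ) - b) * (a.descFactorial b : ℤ) := by
  rcases Nat.eq_zero_or_pos a with h0 | h0
  · subst h0
    rcases Nat.eq_zero_or_pos b with hb | hb
    · subst hb; simp
    · rw [Nat.descFactorial_of_lt hb]; simp
  · obtain ⟨c, rfl⟩ : ∃ c, a = c + 1 := ⟨a - 1, by omega⟩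
    rw [Nat.add_sub_cancel]
    have h1 := Nat.succ_descFactorial_succ c b
    have h2 := Nat.descFactorial_succ (c + 1) b
    rcases Nat.lt_or_ge (c + 1) b with hb | hb
    · rw [Nat.descFactorial_of_lt hb, Nat.descFactorial_of_lt (by omega : c < b)]
      simp
    · have h3 : (c + 1) * c.descFactorial b = (c + 1 - b) * (c + 1).descFactorial b := by
        rw [← h1, ← h2]
      have h4 := congrArg (Nat.cast : ℕ → ℤ) h3
      rw [Nat.cast_mul, Nat.cast_mul, Nat.cast_sub hb] at h4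
      exact h4

/-- The recursion for the determinants.

Sketch.  `A i j = (x_i)_{κ_j}` (falling factorial, in `ℤ`).  `x_i (x_i - 1)_{κ_j} = (x_i)_{κ_j + 1} =
(x_i - κ_j) (x_i)_{κ_j}` in `ℤ` (`Nat.succ_descFactorial_succ`, `Nat.descFactorial_succ`; if
`κ_j > x_i` both sides are 0; if `x_i = 0` the left side is 0 and so is the right side).
So `x_i * Dt (update x i (x_i - 1)) κ = det (A with row i replaced by (x_i - κ_j) A i j)`
(`Matrix.det_updateRow_smul`).  Expand all determinants (`Matrix.det_apply'`): for a permutation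
`σ` the factors add up to `∑_i (x_i - κ_{σ i})` (or `σ⁻¹`), which is `∑ x - ∑ κ`. -/
theorem Dt_rec {k : ℕ} (x κ : Fin k → ℕ) :
    ∑ i, (x i : ℤ) * Dt (Function.update x i (x i - 1)) κ =
      (∑ i, (x i : ℤ) - ∑ j, (κ j : ℤ)) * Dt x κ := by
  classical
  have key : ∀ (σ : Equiv.Perm (Fin k)) (i : Fin k),
      (x i : ℤ) * ∏ j, ((Function.update x i (x i - 1) (σ j)).descFactorial (κ j) : ℤ) =
        ((x i : ℤ) - κ (σ.symm i)) * ∏ j, ((x (σ j)).descFactorial (κ j) : ℤ) := by
    intro σ i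
    rw [← Finset.mul_prod_erase univ _ (mem_univ (σ.symm i)),
      ← Finset.mul_prod_erase univ (fun j => ((x (σ j)).descFactorial (κ j) : ℤ))
        (mem_univ (σ.symm i))]
    have h1 : ∏ j ∈ univ.erase (σ.symm i),
        ((Function.update x i (x i - 1) (σ j)).descFactorial (κ j) : ℤ) =
        ∏ j ∈ univ.erase (σ.symm i), ((x (σ j)).descFactorial (κ j) : ℤ) := by
      refine Finset.prod_congr rfl fun j hj => ?_
      have h2 : σ j ≠ i := by
        intro h3
        rw [mem_erase] at hj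
        apply hj.1
        rw [← h3, Equiv.symm_apply_apply]
      rw [Function.update_of_ne h2]
    rw [h1, Equiv.apply_symm_apply, Function.update_self, ← mul_assoc, ← mul_assoc, na_dfac]
  unfold Dt
  simp only [Matrix.det_apply', Matrix.of_apply, Int.cast_id]
  simp only [Finset.mul_sum]
  rw [Finset.sum_comm]
  refine Finset.sum_congr rfl fun σ _ => ?_
  have h1 : ∀ i, (x i : ℤ) * ((((Equiv.Perm.sign σ : ℤˣ) : ℤ) : ℤ) *
      ∏ j, ((Function.update x i (x i - 1) (σ j)).descFactorial (κ j) : ℤ)) =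
      ((x i : ℤ) - κ (σ.symm i)) * ((((Equiv.Perm.sign σ : ℤˣ) : ℤ) : ℤ) *
        ∏ j, ((x (σ j)).descFactorial (κ j) : ℤ)) := by
    intro i
    rw [mul_left_comm, key, mul_left_comm]
  rw [Finset.sum_congr rfl fun i _ => h1 i, ← Finset.sum_mul, Finset.sum_sub_distrib]
  congr 2
  exact Equiv.sum_comp σ.symm (fun j => (κ j : ℤ))

/-- Two equal entries of `x`: the determinant vanishes. -/
theorem Dt_eq_zero_of_eq {k : ℕ} (x κ : Fin k → ℕ) {i j : Fin k} (hij : i ≠ j) (h : x i = x j) :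
    Dt x κ = 0 := by
  unfold Dt
  refine Matrix.det_zero_of_row_eq hij ?_
  funext l
  simp only [Matrix.of_apply, h]

private theorem na_rowLen {μ : YoungDiagram} {k i : ℕ} (hk : μ.colLen 0 ≤ k) (hi : k ≤ i) :
    μ.rowLen i = 0 := by
  by_contra hc
  have h1 : (i, 0) ∈ μ := YoungDiagram.mem_iff_lt_rowLen.mpr (Nat.pos_of_ne_zero hc)
  have h2 := YoungDiagram.mem_iff_lt_colLen.mp h1
  omega

theorem sum_bet (μ : YoungDiagram) (k : ℕ) (hk : μ.colLen 0 ≤ k) :
    ∑ i : Fin k, (bet μ k i : ℤ) = (μ.card : ℤ) + ∑ i : Fin k, ((k - 1 - (i : ℕ) : ℕ) : ℤ) := by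
  have h1 : μ.card = ∑ i : Fin k, μ.rowLen i := by
    rw [Fin.sum_univ_eq_sum_range (fun i => μ.rowLen i) k]
    unfold YoungDiagram.card
    rw [Finset.card_eq_sum_card_fiberwise (f := Prod.fst) (t := range k)]
    · refine Finset.sum_congr rfl fun i _ => ?_
      rw [YoungDiagram.rowLen_eq_card]
      rfl
    · intro c hc
      have hc' : c ∈ μ := (YoungDiagram.mem_cells c).mp (Finset.mem_coe.mp hc)
      rw [Finset.mem_coe, mem_range]
      have h2 : (c.1, 0) ∈ μ := μ.up_left_mem le_rfl (Nat.zero_le _) (show (c.1, c.2) ∈ μ from hc')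
      exact lt_of_lt_of_le (YoungDiagram.mem_iff_lt_colLen.mp h2) hk
  rw [h1]
  unfold bet
  push_cast
  rw [Finset.sum_add_distrib]

theorem bet_rem {μ : YoungDiagram} {k i : ℕ} (h : Corner μ i) (hik : i < k) :
    bet (rem μ i) k = Function.update (bet μ k) ⟨i, hik⟩ (bet μ k ⟨i, hik⟩ - 1) := by
  have hc := h
  unfold Corner at hc
  funext j
  by_cases hj : j = ⟨i, hik⟩
  · subst hj
    rw [Function.update_self]
    unfold bet
    rw [rem_rowLen h, if_pos rfl]
    have : 0 < μ.rowLen ((⟨i, hik⟩ : Fin k) : ℕ) := by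
      change 0 < μ.rowLen i
      omega
    change μ.rowLen i - 1 + (k - 1 - i) = μ.rowLen i + (k - 1 - i) - 1
    change 0 < μ.rowLen i at this
    omega
  · rw [Function.update_of_ne hj]
    unfold bet
    rw [rem_rowLen h, if_neg]
    intro h1
    exact hj (Fin.ext h1)

theorem bet_pos {μ : YoungDiagram} {k i : ℕ} (h : Corner μ i) (hik : i < k) :
    0 < bet μ k ⟨i, hik⟩ := by
  unfold Corner at h
  unfold bet
  change 0 < μ.rowLen i + (k - 1 - i)
  omega

/-- If row `i` has no corner then `β_i = 0` (last row, empty) or `β_i - 1 = β_{i+1}`. -/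
theorem Dt_noncorner {μ : YoungDiagram} {k : ℕ} (hk : μ.colLen 0 ≤ k) (i : Fin k)
    (h : ¬ Corner μ i) (κ : Fin k → ℕ) :
    (bet μ k i : ℤ) * Dt (Function.update (bet μ k) i (bet μ k i - 1)) κ = 0 := by
  unfold Corner at h
  have h1 : μ.rowLen ((i : ℕ) + 1) = μ.rowLen i :=
    le_antisymm (μ.rowLen_anti _ _ (Nat.le_succ _)) (not_lt.mp h)
  have hi := i.2
  rcases Nat.lt_or_ge ((i : ℕ) + 1) k with h2 | h2
  · have h3 : Dt (Function.update (bet μ k) i (bet μ k i - 1)) κ = 0 := by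
      have hne : i ≠ (⟨(i : ℕ) + 1, h2⟩ : Fin k) := by
        intro h4
        have := congrArg Fin.val h4
        simp at this
      refine Dt_eq_zero_of_eq _ κ hne ?_
      rw [Function.update_self, Function.update_of_ne (Ne.symm hne)]
      unfold bet
      change μ.rowLen i + (k - 1 - i) - 1 = μ.rowLen ((i : ℕ) + 1) + (k - 1 - ((i : ℕ) + 1))
      rw [h1]
      omega
    rw [h3, mul_zero]
  · have h3 : μ.rowLen ((i : ℕ) + 1) = 0 := na_rowLen hk h2
    have h4 : bet μ k i = 0 := by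
      unfold bet
      omega
    rw [h4, Nat.cast_zero, zero_mul]

theorem bet_strictAnti (μ : YoungDiagram) (k : ℕ) : StrictAnti (bet μ k) := by
  intro i j hij
  have h1 := μ.rowLen_anti i j (le_of_lt hij)
  have h2 : (i : ℕ) < j := hij
  have h3 := j.2
  unfold bet
  omega

theorem bet_injective {μ ν : YoungDiagram} {k : ℕ} (hμ : μ.colLen 0 ≤ k) (hν : ν.colLen 0 ≤ k)
    (h : bet μ k = bet ν k) : μ = ν := by
  have h1 : ∀ i, μ.rowLen i = ν.rowLen i := by
    intro i
    rcases Nat.lt_or_ge i k with hi | hi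
    · have h2 := congrFun h ⟨i, hi⟩
      unfold bet at h2
      exact Nat.add_right_cancel h2
    · rw [na_rowLen hμ hi, na_rowLen hν hi]
  apply YoungDiagram.ext
  ext ⟨i, j⟩
  rw [YoungDiagram.mem_cells, YoungDiagram.mem_cells, YoungDiagram.mem_iff_lt_rowLen,
    YoungDiagram.mem_iff_lt_rowLen, h1]

theorem rem_colLen_le {μ : YoungDiagram} {k i : ℕ} (h : Corner μ i) (hk : μ.colLen 0 ≤ k) :
    (rem μ i).colLen 0 ≤ k := by
  by_contra hc
  have h1 : (k, 0) ∈ rem μ i := YoungDiagram.mem_iff_lt_colLen.mpr (by omega)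
  have h2 := ((mem_rem h).mp ((YoungDiagram.mem_cells _).mpr h1)).2
  have h3 := YoungDiagram.mem_iff_lt_colLen.mp ((YoungDiagram.mem_cells _).mp h2)
  omega

theorem bet_bot (k : ℕ) (i : Fin k) : bet ⊥ k i = k - 1 - i := by
  have h1 : (⊥ : YoungDiagram).rowLen i = 0 := by
    by_contra hc
    have h2 : ((i : ℕ), 0) ∈ (⊥ : YoungDiagram) :=
      YoungDiagram.mem_iff_lt_rowLen.mpr (Nat.pos_of_ne_zero hc)
    exact YoungDiagram.notMem_bot _ h2
  unfold bet
  rw [h1, zero_add]

end SPV
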