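import Mathlib

/-!
# SPV / PA : alternants are divisible by the Vandermonde product (over any commutative ring)
-/

namespace SPV

open Finset Polynomial

/-- Sketch.  Induction on `k` (for all `x`, `q`).  Subtract row `0` from the other rows: for `i ≥ 1`
`q_j(x_i) - q_j(x_0) = (x_i - x_0) * r_j(x_i)` with `r_j = q_j /ₘ (X - C x_0)` (so
`q_j - C (q_j.eval x_0) = (X - C x_0) * r_j`).  Take the factors `(x_i - x_0)` out of the rows
(`Matrix.det_mul_column` / `Matrix.det_mul_row`), expand along row `0`
(`Matrix.det_succ_row_zero`): the minors are `det [r_{j'}(x_{i+1})]`, divisible by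
`∏_{1 ≤ i < i'} (x_i - x_{i'})` by induction.  Compare the proof of `Matrix.det_vandermonde`. -/
theorem det_poly_dvd {R : Type*} [CommRing R] (k : ℕ) (x : Fin k → R) (q : Fin k → R[X]) :
    (∏ i, ∏ j ∈ Ioi i, (x i - x j)) ∣ Matrix.det (Matrix.of fun i j => (q j).eval (x i)) := by
  induction k with
  | zero => simp
  | succ k ih =>
    have hr : ∀ j, ∃ r : R[X], q j - C ((q j).eval (x 0)) = (X - C (x 0)) * r := fun j =>
      X_sub_C_dvd_sub_C_eval
    choose r hr using hr
    have hev : ∀ (j : Fin (k + 1)) (t : R), (q j).eval t - (q j).eval (x 0) =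
        (t - x 0) * (r j).eval t := by
      intro j t
      have := congrArg (Polynomial.eval t) (hr j)
      simpa using this
    -- subtract the first row
    set M'' : Matrix (Fin (k + 1)) (Fin (k + 1)) R := Matrix.of fun i j =>
      Fin.cases ((q j).eval (x 0)) (fun i' => (r j).eval (x i'.succ)) i with hM''
    set v : Fin (k + 1) → R := fun i => Fin.cases 1 (fun i' => x i'.succ - x 0) i with hv
    set c : Fin (k + 1) → R := fun i => Fin.cases 0 (fun _ => 1) i with hc
    have h1 : Matrix.det (Matrix.of fun i j => (q j).eval (x i)) =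
        Matrix.det (Matrix.of fun i j => v i * M'' i j) := by
      refine Matrix.det_eq_of_forall_row_eq_smul_add_const c 0 (by simp [hc]) ?_
      intro i j
      refine Fin.cases ?_ (fun i' => ?_) i
      · simp [hc, hv, hM'']
      · have := hev j (x i'.succ)
        simp only [hc, hv, hM'', Matrix.of_apply, Fin.cases_succ, Fin.cases_zero]
        rw [one_mul, one_mul, ← this]
        ring
    rw [h1, Matrix.det_mul_column]
    have h2 : (∏ i : Fin (k + 1), ∏ j ∈ Ioi i, (x i - x j)) =
        (∏ j : Fin k, (x 0 - x j.succ)) *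
          ∏ i : Fin k, ∏ j ∈ Ioi i, (x i.succ - x j.succ) := by
      rw [Fin.prod_univ_succ, Fin.prod_Ioi_zero]
      congr 1
      refine Finset.prod_congr rfl fun i _ => ?_
      rw [Fin.prod_Ioi_succ]
    rw [h2]
    apply mul_dvd_mul
    · rw [Fin.prod_univ_succ]
      simp only [hv, Fin.cases_zero, Fin.cases_succ, one_mul]
      exact Finset.prod_dvd_prod_of_dvd _ _ fun j _ => ⟨-1, by ring⟩
    · rw [Matrix.det_succ_row_zero]
      refine Finset.dvd_sum fun j _ => ?_
      apply Dvd.dvd.mul_left
      have h3 := ih (fun i => x i.succ) (fun j' => r (j.succAbove j'))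
      have h4 : M''.submatrix Fin.succ j.succAbove =
          Matrix.of fun i j' => (r (j.succAbove j')).eval (x i.succ) := by
        ext i j'
        simp only [hM'', Matrix.submatrix_apply, Matrix.of_apply, Fin.cases_succ]
      rw [h4]
      exact h3

end SPV
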