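import Pool.Agent.SPV.D2
import Pool.Agent.SPV.PA
import Pool.Agent.SPV.NB

/-!
# SPV / PB : parity of the quotient `Dt / Vd`
-/

set_option linter.unusedSectionVars false

namespace SPV

open Finset Polynomial

/-- Sketch.  Apply `det_poly_dvd` in `R = MvPolynomial (Fin k) ℤ` with `x i = X i` and
`q j = (descPochhammer ℤ (κ j)).map C`: `det = (∏∏ (X i - X j)) * P`.  Evaluate at `x` and at `x'`
(`MvPolynomial.eval`, `RingHom.map_det`, `descPochhammer_eval_eq_descFactorial`):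
`Dt x κ = Vd x * P(x)`, `Dt x' κ = Vd x' * P(x')`; `P(x) ≡ P(x')` modulo 2 as `P` has integral
coefficients (compose with `Int.castRingHom (ZMod 2)`, `MvPolynomial.eval₂`/`eval₂_comp`). -/
theorem Dt_parity {k : ℕ} (x x' κ : Fin k → ℕ) (h : ∀ i, x i % 2 = x' i % 2) :
    ∃ P P' : ℤ, Dt x κ = P * Vd x ∧ Dt x' κ = P' * Vd x' ∧ P % 2 = P' % 2 := by
  obtain ⟨P, hP⟩ := det_poly_dvd (R := MvPolynomial (Fin k) ℤ) k (fun i => MvPolynomial.X i)
    (fun j => (descPochhammer ℤ (κ j)).map MvPolynomial.C)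
  have key : ∀ y : Fin k → ℕ, Dt y κ =
      MvPolynomial.eval (fun i => ((y i : ℕ) : ℤ)) P * Vd y := by
    intro y
    have h1 := congrArg (MvPolynomial.eval (fun i => ((y i : ℕ) : ℤ))) hP
    rw [map_mul, RingHom.map_det, map_prod] at h1
    have h2 : (RingHom.mapMatrix (MvPolynomial.eval (fun i => ((y i : ℕ) : ℤ))))
        (Matrix.of fun i j : Fin k => Polynomial.eval (MvPolynomial.X i : MvPolynomial (Fin k) ℤ)
          ((descPochhammer ℤ (κ j)).map MvPolynomial.C)) =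
        Matrix.of fun i j => (((y i).descFactorial (κ j) : ℕ) : ℤ) := by
      ext i j
      rw [RingHom.mapMatrix_apply, Matrix.map_apply, Matrix.of_apply, Matrix.of_apply,
        Polynomial.eval_map, Polynomial.hom_eval₂, MvPolynomial.eval_X]
      have h3 : (MvPolynomial.eval (fun i => ((y i : ℕ) : ℤ))).comp
          (MvPolynomial.C : ℤ →+* MvPolynomial (Fin k) ℤ) = RingHom.id ℤ := by
        apply RingHom.ext
        intro z
        rw [RingHom.comp_apply, MvPolynomial.eval_C, RingHom.id_apply]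
      rw [h3]
      exact descPochhammer_eval_eq_descFactorial ℤ (y i) (κ j)
    rw [h2] at h1
    unfold Dt Vd
    rw [h1, mul_comm]
    congr 1
    refine Finset.prod_congr rfl fun i _ => ?_
    rw [map_prod]
    refine Finset.prod_congr rfl fun j _ => ?_
    rw [map_sub, MvPolynomial.eval_X, MvPolynomial.eval_X]
  refine ⟨_, _, key x, key x', ?_⟩
  have hz : ((MvPolynomial.eval (fun i => ((x i : ℕ) : ℤ)) P : ℤ) : ZMod 2) =
      ((MvPolynomial.eval (fun i => ((x' i : ℕ) : ℤ)) P : ℤ) : ZMod 2) := by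
    have h3 : ∀ y : Fin k → ℕ, ((MvPolynomial.eval (fun i => ((y i : ℕ) : ℤ)) P : ℤ) : ZMod 2) =
        MvPolynomial.eval₂ (Int.castRingHom (ZMod 2)) (fun i => ((y i : ℕ) : ZMod 2)) P := by
      intro y
      have h4 := MvPolynomial.eval₂_comp_left (Int.castRingHom (ZMod 2)) (RingHom.id ℤ)
        (fun i => ((y i : ℕ) : ℤ)) P
      rw [RingHom.comp_id] at h4
      have h5 : (⇑(Int.castRingHom (ZMod 2)) ∘ fun i => ((y i : ℕ) : ℤ)) =
          fun i => ((y i : ℕ) : ZMod 2) := by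
        funext i
        simp
      rw [h5] at h4
      exact h4
    rw [h3, h3]
    congr 1
    funext i
    exact (ZMod.natCast_eq_natCast_iff _ _ _).2 (h i)
  exact (ZMod.intCast_eq_intCast_iff _ _ _).1 hz

/-- permuting the rows -/
theorem Dt_comp_perm {k : ℕ} (x κ : Fin k → ℕ) (σ : Equiv.Perm (Fin k)) :
    Dt (x ∘ σ) κ = ((Equiv.Perm.sign σ : ℤˣ) : ℤ) * Dt x κ := by
  unfold Dt
  have h1 := Matrix.det_permute σ (Matrix.of fun i j : Fin k => ((x i).descFactorial (κ j) : ℤ))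
  rw [Int.cast_id] at h1
  rw [← h1]
  rfl

/-- from `Dt_vandermonde` and `Dt_comp_perm`. -/
theorem Vd_comp_perm {k : ℕ} (x : Fin k → ℕ) (σ : Equiv.Perm (Fin k)) :
    Vd (x ∘ σ) = ((Equiv.Perm.sign σ : ℤˣ) : ℤ) * Vd x := by
  rw [← Dt_vandermonde, ← Dt_vandermonde, Dt_comp_perm]

end SPV
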