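import Pool.Agent.SPV.Jam

/-!
# SPV / Shp : the Young symmetrizer of shape `κ` kills the Specht modules of other shapes
-/

namespace SPV

open Finset

variable {α : Type*} [Fintype α] [DecidableEq α]

private theorem Shp_image {κ : YoungDiagram} (t : Tableau κ α) (i : ℕ) :
    (univ.filter (fun a => Tableau.row t a = i)).image (Tableau.col t) =
      range (κ.rowLen i) := by
  ext j
  rw [mem_image, mem_range, ← YoungDiagram.mem_iff_lt_rowLen]
  constructor
  · rintro ⟨a, ha, rfl⟩
    rw [mem_filter] at ha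
    rw [← ha.2]
    exact (YoungDiagram.mem_cells _).mp (t a).2
  · intro h
    refine ⟨t.symm ⟨(i, j), (YoungDiagram.mem_cells _).mpr h⟩, ?_, ?_⟩
    · rw [mem_filter]
      exact ⟨mem_univ _, by simp [Tableau.row]⟩
    · simp [Tableau.col]

private theorem Shp_inj {κ : YoungDiagram} (t : Tableau κ α) (a b : α) (hab : a ≠ b)
    (h : Tableau.row t a = Tableau.row t b) : Tableau.col t a ≠ Tableau.col t b := by
  intro h'
  exact hab (t.injective (Subtype.ext (Prod.ext h h')))

private theorem Shp_card {κ : YoungDiagram} (t : Tableau κ α) (i : ℕ) :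
    (univ.filter (fun a => Tableau.row t a = i)).card = κ.rowLen i := t.tabloid.2 i

private theorem Shp_sum {κ : YoungDiagram} (t : Tableau κ α) (N : ℕ)
    (hN : ∀ a, Tableau.row t a < N) :
    ∑ a, Tableau.col t a = ∑ i ∈ range N, ∑ j ∈ range (κ.rowLen i), j := by
  rw [← sum_fiberwise_of_maps_to (s := (univ : Finset α)) (t := range N) (g := Tableau.row t)
    (fun a _ => mem_range.2 (hN a))]
  refine sum_congr rfl fun i _ => ?_
  rw [← Shp_image t i, sum_image]
  intro a ha b hb hab
  rw [mem_coe, mem_filter] at ha hb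
  by_contra hne
  exact Shp_inj t a b hne (ha.2.trans hb.2.symm) hab

private theorem Shp_col {κ : YoungDiagram} (F g : α → ℕ)
    (him : ∀ i, (univ.filter (fun a => F a = i)).image g = range (κ.rowLen i))
    (hinj : ∀ a b, a ≠ b → F a = F b → g a ≠ g b) (j : ℕ) :
    (univ.filter (fun a => g a = j)).card = κ.colLen j := by
  rw [← card_range (κ.colLen j)]
  refine card_bij (fun a _ => F a) ?_ ?_ ?_
  · intro a ha
    rw [mem_filter] at ha
    rw [mem_range, ← YoungDiagram.mem_iff_lt_colLen, YoungDiagram.mem_iff_lt_rowLen, ← mem_range,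
      ← him (F a), mem_image]
    exact ⟨a, mem_filter.2 ⟨mem_univ _, rfl⟩, ha.2⟩
  · intro a ha b hb hab
    rw [mem_filter] at ha hb
    by_contra hne
    exact hinj a b hne hab (ha.2.trans hb.2.symm)
  · intro i hi
    rw [mem_range, ← YoungDiagram.mem_iff_lt_colLen, YoungDiagram.mem_iff_lt_rowLen, ← mem_range,
      ← him i, mem_image] at hi
    obtain ⟨a, ha, rfl⟩ := hi
    rw [mem_filter] at ha
    exact ⟨a, mem_filter.2 ⟨mem_univ _, rfl⟩, ha.2⟩

/-- Combinatorial comparison of shapes.

Sketch.  `f` is a tabloid of shape `ν`, (C1) entries in the same row of `f` are in different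
columns of `t` (shape `κ`); (C2) entries in the same row of `t` are in different columns of `u`
(shape `ν`).  With `T(s) = ∑_{j<s} j`: (C1) and `fam_sum_le` (classes `f`, values `col t`) give
`∑_a col_t a ≥ ∑_i T(ν_i)`, and `∑_a col_t a = ∑_i T(κ_i)` (the row `i` of `t` has the columns
`0..κ_i - 1`).  (C2) gives `∑_a col_u a = ∑_i T(ν_i) ≥ ∑_i T(κ_i)`.  So equality holds in (C1) and
`fam_sum_eq` says that on every row `i` of `f` the values of `col t` are `0..ν_i - 1`.  Counting
the entries in column `j` of `t` gives `κ'_j = #{i | j < ν_i} = ν'_j`, so `κ = ν`. -/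
theorem shape_eq {κ ν : YoungDiagram} (t : Tableau κ α) (f : Tabloid ν α) (u : Tableau ν α)
    (h1 : ∀ a b, a ≠ b → f.1 a = f.1 b → Tableau.col t a ≠ Tableau.col t b)
    (h2 : ∀ a b, a ≠ b → Tableau.row t a = Tableau.row t b →
      Tableau.col u a ≠ Tableau.col u b) : κ = ν := by
  have hNκ : ∀ a, Tableau.row t a < κ.colLen 0 + ν.colLen 0 := fun a =>
    (t.tabloid.lt_colLen a).trans_le (Nat.le_add_right _ _)
  have hNf : ∀ a, f.1 a < κ.colLen 0 + ν.colLen 0 := fun a =>
    (f.lt_colLen a).trans_le (Nat.le_add_left _ _)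
  have hNu : ∀ a, Tableau.row u a < κ.colLen 0 + ν.colLen 0 := fun a =>
    (u.tabloid.lt_colLen a).trans_le (Nat.le_add_left _ _)
  have e1 := fam_sum_le (Tableau.row t) (Tableau.col u) h2 _ hNκ
  have e2 := Shp_sum t _ hNκ
  have e3 := Shp_sum u _ hNu
  simp only [Shp_card] at e1
  have e4 := fam_sum_eq f.1 (Tableau.col t) h1 _ hNf (by
    simp only [f.2]
    rw [e2, ← e3]
    exact e1)
  have hcol : ∀ j, κ.colLen j = ν.colLen j := by
    intro j
    rw [← Shp_col (κ := κ) (Tableau.row t) (Tableau.col t) (Shp_image t) (Shp_inj t) j,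
      ← Shp_col (κ := ν) f.1 (Tableau.col t) (fun i => by rw [e4 i, f.2 i]) h1 j]
  ext ⟨i, j⟩
  rw [YoungDiagram.mem_cells, YoungDiagram.mem_cells, YoungDiagram.mem_iff_lt_colLen,
    YoungDiagram.mem_iff_lt_colLen, hcol j]

/-- `κ_t ρ_t = 0` on `S^ν` over `ℚ` if `ν ≠ κ`.

Sketch.  It is enough to see `κ_t ρ_t e_u = 0`.  If two entries are in the same row of `t` and the
same column of `u`, `ρ_t e_u = 0` by `two_rhoO_polytabloid`.  Otherwise (C2) holds, hence (C1)
fails for every tabloid `f` of shape `ν` (`shape_eq`), so `κ_t f = 0` for all `f`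
(`kapO_single_eq_zero`). -/
theorem bO_eq_zero {κ ν : YoungDiagram} (hne : κ ≠ ν) (t : Tableau κ α)
    (v : Tabloid ν α →₀ ℚ) (hv : v ∈ Specht ℚ ν α) : bO (permRep ℚ ν α) t v = 0 := by
  unfold Specht at hv
  induction hv using Submodule.span_induction with
  | mem x hx =>
    obtain ⟨u, rfl⟩ := hx
    change kapO (permRep ℚ ν α) t (rhoO (permRep ℚ ν α) t (polytabloid ℚ u)) = 0
    by_cases h : ∃ a b, a ≠ b ∧ Tableau.row t a = Tableau.row t b ∧
        Tableau.col u a = Tableau.col u b
    · obtain ⟨a, b, hab, hr, hc⟩ := h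
      have h2 := two_rhoO_polytabloid ℚ t u hab hr hc
      rw [smul_eq_zero] at h2
      rcases h2 with h2 | h2
      · norm_num at h2
      · rw [h2, map_zero]
    · push Not at h
      have hk : kapO (permRep ℚ ν α) t = 0 := by
        refine Finsupp.lhom_ext fun f r => ?_
        have h3 : kapO (permRep ℚ ν α) t (Finsupp.single f 1) = 0 := by
          by_contra hne0
          apply hne
          refine shape_eq t f u ?_ h
          intro a b hab hf hcol
          exact hne0 (kapO_single_eq_zero ℚ t f hab hcol hf)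
        have h4 : (Finsupp.single f r : Tabloid ν α →₀ ℚ) = r • Finsupp.single f 1 := by
          rw [Finsupp.smul_single, smul_eq_mul, mul_one]
        rw [h4, map_smul, map_smul, h3]
        simp
      rw [hk]
      rfl
  | zero => rw [map_zero]
  | add x y _ _ hx hy => rw [map_add, hx, hy, add_zero]
  | smul c x _ hx => rw [map_smul, hx, smul_zero]

end SPV
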