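import Pool.Agent.SPV.BC
import Pool.Agent.SPV.DM
import Pool.Agent.SPV.Shp

/-!
# SPV / XT : the trace of the Young symmetrizer of shape `κ ⊢ m` on `S^μ`, `μ ⊢ m + l`
-/

set_option linter.unusedSectionVars false

namespace SPV

open Finset

variable {κ : YoungDiagram} {m : ℕ}

/-- trace on `S^μ` (`μ ⊢ m + l`) of the Young symmetrizer of `t`, acting on the first `m` letters -/
noncomputable def Xf (t : Tableau κ (Fin m)) (l : ℕ) (μ : YoungDiagram) : ℚ :=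
  LinearMap.trace ℚ (Specht ℚ μ (Fin (m + l))) (bO ((spechtRep ℚ μ (Fin (m + l))).comp (up m l)) t)

private theorem XT_trace {α : Type*} [Fintype α] [DecidableEq α] {V : Type*} [AddCommGroup V]
    [Module ℚ V] (ρ : Representation ℚ (Equiv.Perm α) V) (t : Tableau κ α) :
    LinearMap.trace ℚ V (bO ρ t) = ∑ σ ∈ colStab t, ∑ τ ∈ rowStab t,
      (((Equiv.Perm.sign σ : ℤˣ) : ℤ) : ℚ) * LinearMap.trace ℚ V (ρ (σ * τ)) := by
  unfold bO kapO rhoO
  rw [Finset.sum_mul, map_sum]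
  refine sum_congr rfl fun σ _ => ?_
  rw [Finset.mul_sum, map_sum]
  refine sum_congr rfl fun τ _ => ?_
  rw [smul_mul_assoc, map_smul, smul_eq_mul, map_mul ρ σ τ]

private theorem XT_up0 (h : Equiv.Perm (Fin m)) : (up m 0 h : Equiv.Perm (Fin m)) = h := by
  apply Equiv.ext
  intro x
  exact up_castAdd m 0 h x

private theorem XT_val {ν : YoungDiagram} {α : Type*} [Fintype α] [DecidableEq α]
    (t : Tableau κ α) (v : Specht ℚ ν α) :
    (bO (spechtRep ℚ ν α) t v : Tabloid ν α →₀ ℚ) = bO (permRep ℚ ν α) t v := by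
  have h1 : ∀ w : Specht ℚ ν α, (kapO (spechtRep ℚ ν α) t w : Tabloid ν α →₀ ℚ) =
      kapO (permRep ℚ ν α) t w := by
    intro w
    simp [kapO, LinearMap.sum_apply]
  have h2 : ∀ w : Specht ℚ ν α, (rhoO (spechtRep ℚ ν α) t w : Tabloid ν α →₀ ℚ) =
      rhoO (permRep ℚ ν α) t w := by
    intro w
    simp [rhoO, LinearMap.sum_apply]
  change ((kapO (spechtRep ℚ ν α) t (rhoO (spechtRep ℚ ν α) t v) : Specht ℚ ν α) :
    Tabloid ν α →₀ ℚ) = kapO (permRep ℚ ν α) t (rhoO (permRep ℚ ν α) t v)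
  rw [h1, h2]

private theorem XT_zero (t : Tableau κ (Fin m)) (ν : YoungDiagram) :
    Xf t 0 ν = LinearMap.trace ℚ (Specht ℚ ν (Fin m)) (bO (spechtRep ℚ ν (Fin m)) t) := by
  unfold Xf
  rw [XT_trace, XT_trace]
  refine sum_congr rfl fun σ _ => sum_congr rfl fun τ _ => ?_
  have h1 : ((spechtRep ℚ ν (Fin (m + 0))).comp (up m 0)) (σ * τ) =
      spechtRep ℚ ν (Fin m) (σ * τ) := by
    change spechtRep ℚ ν (Fin m) (up m 0 (σ * τ)) = _
    rw [XT_up0]
  rw [h1]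
  rfl

/-- Sketch.  `bO` is an integral combination of the `ρ (up m (l+1) (σ τ))`,
`up m (l+1) h = up (m+l) 1 (up m l h)` (`up_succ`); use `trace_branch` with `finrank_rec`. -/
theorem Xf_succ (t : Tableau κ (Fin m)) (l : ℕ) (μ : YoungDiagram) (hμ : μ.card = m + l + 1) :
    Xf t (l + 1) μ = ∑ i ∈ corners μ, Xf t l (rem μ i) := by
  unfold Xf
  simp only [XT_trace]
  symm
  rw [sum_comm]
  refine sum_congr rfl fun σ _ => ?_
  rw [sum_comm]
  refine sum_congr rfl fun τ _ => ?_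
  rw [← Finset.mul_sum]
  congr 1
  symm
  have h1 : ((spechtRep ℚ μ (Fin (m + (l + 1)))).comp (up m (l + 1))) (σ * τ) =
      spechtRep ℚ μ (Fin (m + l + 1)) (up (m + l) 1 (up m l (σ * τ))) := by
    change spechtRep ℚ μ (Fin (m + l + 1)) (up m (l + 1) (σ * τ)) = _
    rw [up_succ]
  rw [h1]
  exact trace_branch ℚ μ (m + l) (finrank_rec (m + l) μ hμ) (up m l (σ * τ))

/-- `bO_eq_zero` -/
theorem Xf_zero_ne (t : Tableau κ (Fin m)) (ν : YoungDiagram) (hne : ν ≠ κ) :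
    Xf t 0 ν = 0 := by
  rw [XT_zero]
  have h1 : bO (spechtRep ℚ ν (Fin m)) t = 0 := by
    refine LinearMap.ext fun v => Subtype.ext ?_
    rw [XT_val, bO_eq_zero hne.symm t v v.2]
    rfl
  rw [h1, map_zero]

theorem Xf_zero (t : Tableau κ (Fin m)) :
    Xf t 0 κ = LinearMap.trace ℚ (Specht ℚ κ (Fin m)) (bO (spechtRep ℚ κ (Fin m)) t) :=
  XT_zero t κ

/-- `rec_solve` -/
theorem Xf_formula (t : Tableau κ (Fin m)) (hκ : κ.card = m) {k : ℕ} (hκk : κ.colLen 0 ≤ k)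
    (l : ℕ) (μ : YoungDiagram) (hμ : μ.card = m + l) (hk : μ.colLen 0 ≤ k) :
    Xf t l μ * ∏ i, ((bet μ k i).factorial : ℚ) =
      LinearMap.trace ℚ (Specht ℚ κ (Fin m)) (bO (spechtRep ℚ κ (Fin m)) t) *
        (l.factorial : ℚ) * ((Dt (bet μ k) (bet κ k) : ℤ) : ℚ) :=
  rec_solve κ hκ hκk _ (Xf t) (Xf_zero t) (fun ν _ hne => Xf_zero_ne t ν hne)
    (fun l μ hμ => Xf_succ t l μ hμ) l μ hμ hk

end SPV
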