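import Pool.Agent.SPV.CO
import Pool.Agent.SPV.CE
import Pool.Agent.SPV.GM
import Pool.Agent.SPV.XT

/-!
# SPV / RP : in characteristic 2, `S^μ` is relatively `S_{2w}`-projective
-/

set_option linter.unusedSectionVars false

namespace SPV

open Finset

/-- Sketch.  Let `t` be a `κ`-tableau on `Fin m`, `n = m + l`, `θ` from `exists_theta`,
`γ` from `bO_polytabloid`, `X = Xf t l μ`, `d = dim S^μ`, `Δ = Vd (bet μ k)`, `D = Dt (bet μ k) (bet κ k)`.
Trace of `aO` on `S^μ` over `ℚ`: `θ d = (n! / l!) X` (`trace_aO`, `card_fixer`, Lagrange),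
`X ∏ (bet μ)! = γ l! D` (`Xf_formula`, `trace_bO`), `d ∏ (bet μ)! = n! Δ` (`finrank_formula`), so
`θ Δ = γ D = γ P Δ`, `θ = γ P` as `Δ > 0` (`Vd_pos`, `bet_strictAnti`).
`γ dim S^κ = m!` (`gamma_mul`), `dim S^κ ∏ (bet κ)! = m! Vd (bet κ)`, so `∏ (bet κ)! = γ Vd (bet κ)`
and `γ = H` is odd.  So `θ` is odd. -/
theorem theta_odd (F : Type*) [Field F] {κ μ : YoungDiagram} {m l k : ℕ} {H P : ℤ}
    (t : Tableau κ (Fin m)) (hκ : κ.card = m) (hμ : μ.card = m + l) (hκk : κ.colLen 0 ≤ k)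
    (hk : μ.colLen 0 ≤ k) (hH : H % 2 = 1) (hP : P % 2 = 1)
    (h1 : ∏ i, ((bet κ k i).factorial : ℤ) = H * Vd (bet κ k))
    (h2 : Dt (bet μ k) (bet κ k) = P * Vd (bet μ k)) :
    ∃ θ : ℤ, θ % 2 = 1 ∧ (∀ v ∈ Specht F μ (Fin (m + l)),
        aO (permRep F μ (Fin (m + l))) t v = (θ : F) • v) := by
  obtain ⟨θ, hθQ, hθF⟩ := exists_theta F t μ l
  refine ⟨θ, ?_, hθF⟩
  obtain ⟨γ, hγ⟩ := bO_polytabloid t
  -- trace of `aO`
  have hA : aO (spechtRep ℚ μ (Fin (m + l))) t = (θ : ℚ) • (1 : Module.End ℚ (Specht ℚ μ (Fin (m + l)))) := by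
    refine LinearMap.ext fun v => Subtype.ext ?_
    rw [aO_val ℚ t v, hθQ v.1 v.2]
    rfl
  have hB := trace_aO t μ l
  rw [hA, map_smul, LinearMap.trace_one, smul_eq_mul] at hB
  have hX := Xf_formula t hκ hκk l μ hμ hk
  rw [trace_bO t γ hγ] at hX
  have hcard : (Nat.card (Equiv.Perm (Fin (m + l)) ⧸ fixer m l)) * l.factorial =
      (m + l).factorial := by
    have h3 := Subgroup.card_eq_card_quotient_mul_card_subgroup (fixer m l)
    rw [card_fixer, Nat.card_perm, Nat.card_fin] at h3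
    exact h3.symm
  have hcardQ : (Nat.card (Equiv.Perm (Fin (m + l)) ⧸ fixer m l) : ℚ) * (l.factorial : ℚ) =
      ((m + l).factorial : ℚ) := by exact_mod_cast hcard
  have hd := finrank_formula (m + l) k μ hμ hk
  have hdQ : (Module.finrank ℚ (Specht ℚ μ (Fin (m + l))) : ℚ) *
      ∏ i, ((bet μ k i).factorial : ℚ) = ((m + l).factorial : ℚ) * ((Vd (bet μ k) : ℤ) : ℚ) := by
    exact_mod_cast congrArg (Int.cast : ℤ → ℚ) hd
  have hVμ : (0 : ℤ) < Vd (bet μ k) := Vd_pos (bet_strictAnti μ k)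
  have hVκ : (0 : ℤ) < Vd (bet κ k) := Vd_pos (bet_strictAnti κ k)
  have hml : ((m + l).factorial : ℚ) ≠ 0 := by exact_mod_cast Nat.factorial_ne_zero _
  have hlf : (l.factorial : ℚ) ≠ 0 := by exact_mod_cast Nat.factorial_ne_zero _
  have hθγ : (θ : ℚ) * ((Vd (bet μ k) : ℤ) : ℚ) =
      (γ : ℚ) * ((Dt (bet μ k) (bet κ k) : ℤ) : ℚ) := by
    have hBX : (θ : ℚ) * (Module.finrank ℚ (Specht ℚ μ (Fin (m + l))) : ℚ) =
        (Nat.card (Equiv.Perm (Fin (m + l)) ⧸ fixer m l) : ℚ) * Xf t l μ := hB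
    apply mul_left_cancel₀ (mul_ne_zero hml hlf)
    calc ((m + l).factorial : ℚ) * (l.factorial : ℚ) * ((θ : ℚ) * ((Vd (bet μ k) : ℤ) : ℚ))
        = (l.factorial : ℚ) * (θ : ℚ) * (((m + l).factorial : ℚ) * ((Vd (bet μ k) : ℤ) : ℚ)) := by
          ring
      _ = (l.factorial : ℚ) * ((θ : ℚ) * (Module.finrank ℚ (Specht ℚ μ (Fin (m + l))) : ℚ)) *
          ∏ i, ((bet μ k i).factorial : ℚ) := by rw [← hdQ]; ring
      _ = ((Nat.card (Equiv.Perm (Fin (m + l)) ⧸ fixer m l) : ℚ) * (l.factorial : ℚ)) *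
          (Xf t l μ * ∏ i, ((bet μ k i).factorial : ℚ)) := by rw [hBX]; ring
      _ = ((m + l).factorial : ℚ) * (l.factorial : ℚ) *
          ((γ : ℚ) * ((Dt (bet μ k) (bet κ k) : ℤ) : ℚ)) := by rw [hcardQ, hX]; ring
  have hθγ' : θ * Vd (bet μ k) = γ * (P * Vd (bet μ k)) := by
    rw [← h2]
    exact_mod_cast hθγ
  have hθ : θ = γ * P := by
    have : θ * Vd (bet μ k) = (γ * P) * Vd (bet μ k) := by rw [hθγ']; ring
    exact mul_right_cancel₀ hVμ.ne' this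
  -- `γ = H`
  have hg := gamma_mul t γ hγ
  have hf := finrank_formula m k κ hκ hκk
  have hmf : (m.factorial : ℤ) ≠ 0 := by exact_mod_cast Nat.factorial_ne_zero _
  have hf0 : (Module.finrank ℚ (Specht ℚ κ (Fin m)) : ℤ) ≠ 0 := by
    intro h0
    rw [h0, mul_zero] at hg
    exact hmf hg.symm
  have hγH : γ = H := by
    rw [h1, ← hg] at hf
    have h3 : (Module.finrank ℚ (Specht ℚ κ (Fin m)) : ℤ) * Vd (bet κ k) * H =
        (Module.finrank ℚ (Specht ℚ κ (Fin m)) : ℤ) * Vd (bet κ k) * γ := by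
      linear_combination hf
    exact (mul_left_cancel₀ (mul_ne_zero hf0 hVκ.ne') h3).symm
  rw [hθ, hγH, Int.mul_emod, hH, hP]
  rfl

private theorem rp_trOne {F : Type*} [Field F] {κ : YoungDiagram} {m l : ℕ} {V : Type*}
    [AddCommGroup V] [Module F V] (ρ : Representation F (Equiv.Perm (Fin (m + l))) V)
    (t : Tableau κ (Fin m)) (h : aO ρ t = 1) : TrOne ρ (fixer m l) := by
  have h1 := aO_fam ρ t
  exact ⟨inferInstance, _, h1, h⟩

/-- Sketch.  In characteristic 2 the odd `θ` is `1` in `F`, so `aO = 1` on `S^μ`, and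
`Φ q = ρ q.out * bO * ρ q.out⁻¹` (`aO_fam`) shows `TrOne`. -/
theorem specht_trOne (F : Type*) [Field F] [CharP F 2] {κ μ : YoungDiagram} {m l k : ℕ} {H P : ℤ}
    (hκ : κ.card = m) (hμ : μ.card = m + l) (hκk : κ.colLen 0 ≤ k)
    (hk : μ.colLen 0 ≤ k) (hH : H % 2 = 1) (hP : P % 2 = 1)
    (h1 : ∏ i, ((bet κ k i).factorial : ℤ) = H * Vd (bet κ k))
    (h2 : Dt (bet μ k) (bet κ k) = P * Vd (bet μ k)) :
    TrOne (V := Specht F μ (Fin (m + l))) (spechtRep F μ (Fin (m + l))) (fixer m l) := by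
  have t : Tableau κ (Fin m) := (Finset.equivFinOfCardEq (s := κ.cells) hκ).symm
  obtain ⟨θ, hodd, hθ⟩ := theta_odd F t hκ hμ hκk hk hH hP h1 h2
  have hθ1 : (θ : F) = 1 := by
    have h3 : θ = 2 * (θ / 2) + 1 := by omega
    have h20 : ((2 : ℤ) : F) = 0 := by exact_mod_cast CharP.cast_eq_zero F 2
    rw [h3, Int.cast_add, Int.cast_mul, h20, zero_mul, zero_add, Int.cast_one]
  refine rp_trOne (F := F) (m := m) (l := l) (V := Specht F μ (Fin (m + l)))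
    (spechtRep F μ (Fin (m + l))) t ?_
  refine LinearMap.ext fun v => Subtype.ext ?_
  rw [aO_val F t v, hθ v.1 v.2, hθ1, one_smul]
  rfl

end SPV
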