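import Pool.Agent.SPV.D1

/-!
# SPV / Rk : rank and trace of idempotents
All elementary linear algebra.
-/

namespace SPV

variable {F G V : Type*} [Field F] [Group G] [AddCommGroup V] [Module F V]
  [FiniteDimensional F V]

/-- range (e + e') = range e ⊕ range e' for orthogonal idempotents. -/
theorem rk_add {e e' : Module.End F V} (he : e * e = e) (he' : e' * e' = e')
    (h1 : e * e' = 0) (h2 : e' * e = 0) : rk (e + e') = rk e + rk e' := by
  have hr : LinearMap.range (e + e') = LinearMap.range e ⊔ LinearMap.range e' := by
    apply le_antisymm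
    · rintro x ⟨v, rfl⟩
      rw [LinearMap.add_apply]
      exact Submodule.add_mem_sup ⟨v, rfl⟩ ⟨v, rfl⟩
    · apply sup_le
      · rintro x ⟨v, rfl⟩
        refine ⟨e v, ?_⟩
        have a1 : e (e v) = e v := by
          have := congrArg (fun f : Module.End F V => f v) he
          simpa using this
        have a2 : e' (e v) = 0 := by
          have := congrArg (fun f : Module.End F V => f v) h2
          simpa using this
        rw [LinearMap.add_apply, a1, a2, add_zero]
      · rintro x ⟨v, rfl⟩
        refine ⟨e' v, ?_⟩
        have a1 : e' (e' v) = e' v := by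
          have := congrArg (fun f : Module.End F V => f v) he'
          simpa using this
        have a2 : e (e' v) = 0 := by
          have := congrArg (fun f : Module.End F V => f v) h1
          simpa using this
        rw [LinearMap.add_apply, a1, a2, zero_add]
  have hd : LinearMap.range e ⊓ LinearMap.range e' = ⊥ := by
    rw [Submodule.eq_bot_iff]
    rintro x ⟨⟨a, ha⟩, ⟨b, hb⟩⟩
    have a1 : e x = x := by
      rw [← ha]
      have := congrArg (fun f : Module.End F V => f a) he
      simpa using this
    have a2 : e x = 0 := by
      rw [← hb]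
      have := congrArg (fun f : Module.End F V => f b) h1
      simpa using this
    rw [← a1, a2]
  have := Submodule.finrank_sup_add_finrank_inf_eq (LinearMap.range e) (LinearMap.range e')
  rw [hd, finrank_bot, add_zero] at this
  unfold rk
  rw [hr, this]

/-- conjugation by the invertible `ρ g` does not change the rank. -/
theorem rk_conj (ρ : Representation F G V) (g : G) (e : Module.End F V) :
    rk (ρ g * e * ρ g⁻¹) = rk e := by
  have h1 : ρ g * ρ g⁻¹ = 1 := by rw [← map_mul, mul_inv_cancel, map_one]
  have h2 : ρ g⁻¹ * ρ g = 1 := by rw [← map_mul, inv_mul_cancel, map_one]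
  let E : V ≃ₗ[F] V := LinearEquiv.ofLinear (ρ g) (ρ g⁻¹) h1 h2
  have hr : LinearMap.range (ρ g * e * ρ g⁻¹) =
      (LinearMap.range e).map (E : V →ₗ[F] V) := by
    ext x
    constructor
    · rintro ⟨v, rfl⟩
      exact ⟨e (ρ g⁻¹ v), ⟨_, rfl⟩, rfl⟩
    · rintro ⟨y, ⟨v, rfl⟩, rfl⟩
      refine ⟨ρ g v, ?_⟩
      have : ρ g⁻¹ (ρ g v) = v := by
        have := congrArg (fun f : Module.End F V => f v) h2
        simpa using this
      show ρ g (e (ρ g⁻¹ (ρ g v))) = ρ g (e v)
      rw [this]
  unfold rk
  rw [hr]
  exact LinearEquiv.finrank_map_eq E _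

theorem rk_pos {e : Module.End F V} (he : e ≠ 0) : 0 < rk e := by
  rcases Nat.eq_zero_or_pos (rk e) with h | h
  · exfalso
    apply he
    unfold rk at h
    rw [Submodule.finrank_eq_zero] at h
    exact LinearMap.range_eq_bot.1 h
  · exact h

theorem rk_zero : rk (0 : Module.End F V) = 0 := by
  unfold rk
  rw [LinearMap.range_zero, finrank_bot]

theorem rk_one : rk (1 : Module.End F V) = Module.finrank F V := by
  unfold rk
  have : LinearMap.range (1 : Module.End F V) = ⊤ := LinearMap.range_id
  rw [this, finrank_top]

/-- trace of an idempotent = its rank (see `LinearMap.IsProj.trace` /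
`LinearMap.IsIdempotentElem...` in Mathlib). -/
theorem trace_idem {e : Module.End F V} (he : e * e = e) :
    LinearMap.trace F V e = (rk e : F) := by
  have hp : LinearMap.IsProj (LinearMap.range e) e := by
    constructor
    · intro x
      exact ⟨x, rfl⟩
    · rintro x ⟨v, rfl⟩
      have := congrArg (fun f : Module.End F V => f v) he
      simpa using this
  exact hp.trace

/-- the trace is invariant under conjugation by `ρ g`. -/
theorem trace_conj (ρ : Representation F G V) (g : G) (a : Module.End F V) :
    LinearMap.trace F V (ρ g * a * ρ g⁻¹) = LinearMap.trace F V a := by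
  have h2 : ρ g⁻¹ * ρ g = 1 := by rw [← map_mul, inv_mul_cancel, map_one]
  rw [LinearMap.trace_mul_comm, ← mul_assoc, h2, one_mul]

end SPV
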